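import Pool.Agent.Lib.MP_7836d5_lc.LP.Defs

set_option autoImplicit false

/-! A machine that guesses and checks a solution of a binary constraint system. -/

namespace Pool.Agent.Lib.MP_7836d5_lc.LP

open Classical in
/-- the transition table transported along embeddings of the states and the symbols -/
noncomputable def mapT {Q Γ Q' Γ' : Type} (eQ : Q ↪ Q') (eΓ : Γ ↪ Γ')
    (δ : Q × Γ × Q × Γ × Bool → Bool) (t : Q' × Γ' × Q' × Γ' × Bool) : Bool :=
  decide (∃ q a q' a' d, δ (q, a, q', a', d) = true ∧ t = (eQ q, eΓ a, eQ q', eΓ a', d))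

/-- the image of a configuration -/
def TM_map {Q Γ Q' Γ' : Type} (eQ : Q ↪ Q') (eΓ : Γ ↪ Γ') (c : Cfg Q Γ) : Cfg Q' Γ' :=
  ⟨eQ c.q, fun z => eΓ (c.tape z), c.pos⟩

lemma TM_step_map {Q Γ Q' Γ' : Type} (eQ : Q ↪ Q') (eΓ : Γ ↪ Γ')
    (δ : Q × Γ × Q × Γ × Bool → Bool) {c c' : Cfg Q Γ} (h : Step δ c c') :
    Step (mapT eQ eΓ δ) (TM_map eQ eΓ c) (TM_map eQ eΓ c') := by
  obtain ⟨a, d, h1, h2, h3⟩ := h
  refine ⟨eΓ a, d, ?_, ?_, h3⟩
  · simp only [mapT, decide_eq_true_eq]
    exact ⟨_, _, _, _, _, h1, rfl⟩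
  · funext z
    simp only [TM_map, h2]
    by_cases hz : z = c.pos
    · simp [hz]
    · simp [hz]

lemma TM_step_lift {Q Γ Q' Γ' : Type} (eQ : Q ↪ Q') (eΓ : Γ ↪ Γ')
    (δ : Q × Γ × Q × Γ × Bool → Bool) {c : Cfg Q Γ} {e : Cfg Q' Γ'}
    (h : Step (mapT eQ eΓ δ) (TM_map eQ eΓ c) e) :
    ∃ c', Step δ c c' ∧ TM_map eQ eΓ c' = e := by
  obtain ⟨a, d, h1, h2, h3⟩ := h
  simp only [mapT, decide_eq_true_eq] at h1
  obtain ⟨q, b, q', b', d', h4, h5⟩ := h1
  simp only [TM_map, Prod.mk.injEq, EmbeddingLike.apply_eq_iff_eq] at h5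
  obtain ⟨rfl, rfl, h6, rfl, rfl⟩ := h5
  refine ⟨⟨q', Function.update c.tape c.pos b', e.pos⟩, ⟨b', d, h4, rfl, h3⟩, ?_⟩
  obtain ⟨eq, et, ep⟩ := e
  simp only [TM_map, Cfg.mk.injEq, and_true] at h2 h6 ⊢
  refine ⟨h6.symm, ?_⟩
  rw [h2]
  funext z
  by_cases hz : z = c.pos
  · simp [hz]
  · simp [hz]

/-- One direction maps the configurations. For the other show by induction on `i ≤ j` that there is
a run `c'` of `δ` whose first `i + 1` configurations map to those of `c`
(extend by `Function.update`, or use an inductive reachability predicate). -/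
lemma halts_mapT {Q Γ Q' Γ' : Type} (eQ : Q ↪ Q') (eΓ : Γ ↪ Γ') (q0 qh : Q) (bl : Γ) (k : ℕ)
    (δ : Q × Γ × Q × Γ × Bool → Bool) :
    Halts (eQ q0) (eQ qh) (eΓ bl) k (mapT eQ eΓ δ) ↔ Halts q0 qh bl k δ := by
  constructor
  · rintro ⟨j, hj, c, h0, hs, hh⟩
    have key : ∀ i ≤ j, ∃ c' : ℕ → Cfg Q Γ, c' 0 = ⟨q0, fun _ => bl, 0⟩ ∧
        (∀ l < i, Step δ (c' l) (c' (l + 1))) ∧ TM_map eQ eΓ (c' i) = c i := by
      intro i
      induction i with
      | zero => exact fun _ => ⟨fun _ => ⟨q0, fun _ => bl, 0⟩, rfl, by simp, h0.symm⟩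
      | succ i ih =>
        intro hi
        obtain ⟨c', a0, a1, a2⟩ := ih (by omega)
        have a3 := hs i (by omega)
        rw [← a2] at a3
        obtain ⟨e, b1, b2⟩ := TM_step_lift eQ eΓ δ a3
        refine ⟨Function.update c' (i + 1) e, ?_, fun l hl => ?_, ?_⟩
        · rw [Function.update_of_ne (by omega), a0]
        · rw [Function.update_of_ne (by omega)]
          rcases Nat.lt_succ_iff_lt_or_eq.1 hl with h1 | h1
          · rw [Function.update_of_ne (by omega)]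
            exact a1 l h1
          · rw [h1, Function.update_self]
            exact b1
        · rw [Function.update_self, b2]
    obtain ⟨c', a0, a1, a2⟩ := key j le_rfl
    refine ⟨j, hj, c', a0, a1, eQ.injective ?_⟩
    rw [← hh, ← a2]
    rfl
  · rintro ⟨j, hj, c, h0, hs, hh⟩
    refine ⟨j, hj, fun i => TM_map eQ eΓ (c i), ?_, fun i hi => TM_step_map eQ eΓ δ (hs i hi), ?_⟩
    · simp only [h0]
      rfl
    · simp only [TM_map, hh]

section
variable {n : ℕ} {S : Type}

open Classical in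
/-- States: `none` halts, `inl v` moves right to the first blank and guesses the value of `v`,
`inr (v, α)` moves left and checks `α` against the earlier values. -/
noncomputable def mach (con : Fin (n + 1) → S → Fin (n + 1) → S → Prop)
    (p : Fin (n + 1) × S → Bool)
    (t : Option (Fin (n + 1) ⊕ Fin (n + 1) × S) × Option (Fin (n + 1) × S) ×
      Option (Fin (n + 1) ⊕ Fin (n + 1) × S) × Option (Fin (n + 1) × S) × Bool) : Bool :=
  decide ((∃ v a, t = (some (Sum.inl v), some a, some (Sum.inl v), some a, true)) ∨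
    (∃ v α, p (v, α) = true ∧
      t = (some (Sum.inl v), none, some (Sum.inr (v, α)), some (v, α), false)) ∨
    (∃ v α u β, con u β v α ∧
      t = (some (Sum.inr (v, α)), some (u, β), some (Sum.inr (v, α)), some (u, β), false)) ∨
    ∃ v α, t = (some (Sum.inr (v, α)), none,
      if h : v.1 < n then some (Sum.inl ⟨v.1 + 1, by omega⟩) else none, none, true))

lemma mach_local (con : Fin (n + 1) → S → Fin (n + 1) → S → Prop)
    (t : Option (Fin (n + 1) ⊕ Fin (n + 1) × S) × Option (Fin (n + 1) × S) ×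
      Option (Fin (n + 1) ⊕ Fin (n + 1) × S) × Option (Fin (n + 1) × S) × Bool) :
    (∀ p p', mach con p t = mach con p' t) ∨ ∃ a, ∀ p, mach con p t = p a := by
  by_cases h : ∃ v α, t = (some (Sum.inl v), none, some (Sum.inr (v, α)), some (v, α), false)
  · obtain ⟨v, α, rfl⟩ := h
    refine Or.inr ⟨(v, α), fun p => ?_⟩
    rw [Bool.eq_iff_iff]
    simp only [mach, decide_eq_true_eq]
    constructor
    · rintro (⟨u, a, h⟩ | ⟨u, β, h1, h⟩ | ⟨u, β, u', β', -, h⟩ | ⟨u, β, h⟩)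
      · simp at h
      · simp only [Prod.mk.injEq, Option.some.injEq, Sum.inl.injEq, Sum.inr.injEq] at h
        obtain ⟨rfl, -, ⟨-, rfl⟩, -⟩ := h
        exact h1
      · simp at h
      · simp at h
    · exact fun h => Or.inr (Or.inl ⟨v, α, h, rfl⟩)
  · refine Or.inl fun p p' => ?_
    rw [Bool.eq_iff_iff]
    simp only [mach, decide_eq_true_eq]
    refine or_congr_right (or_congr_left ?_)
    constructor
    · rintro ⟨v, α, -, h1⟩
      exact (h ⟨v, α, h1⟩).elim
    · rintro ⟨v, α, -, h1⟩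
      exact (h ⟨v, α, h1⟩).elim

end

lemma TM_emb1 {Q : Type} [Fintype Q] {N : ℕ} (hQ : Fintype.card Q ≤ N) (a : Q) (a' : Fin N) :
    ∃ e : Q ↪ Fin N, e a = a' := by
  obtain ⟨e⟩ := Function.Embedding.nonempty_of_card_le (α := Q) (β := Fin N) (by simpa using hQ)
  exact ⟨e.trans (Equiv.swap (e a) a').toEmbedding, by simp⟩

/-- an embedding into `Fin N` with two prescribed values (compose any embedding with swaps) -/
lemma exists_emb2 {Q : Type} [Fintype Q] {N : ℕ} (hQ : Fintype.card Q ≤ N) (a b : Q) (hab : a ≠ b)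
    (a' b' : Fin N) (hab' : a' ≠ b') : ∃ e : Q ↪ Fin N, e a = a' ∧ e b = b' := by
  obtain ⟨e, he⟩ := TM_emb1 hQ a a'
  refine ⟨e.trans (Equiv.swap (e b) b').toEmbedding, ?_, by simp⟩
  have h1 : e a ≠ e b := fun h => hab (e.injective h)
  have h2 : e a ≠ b' := by
    rw [he]
    exact hab'
  simp only [Function.Embedding.trans_apply, Equiv.coe_toEmbedding]
  rw [Equiv.swap_apply_of_ne_of_ne h1 h2, he]

lemma exists_emb1 {Q : Type} [Fintype Q] {N : ℕ} (hQ : Fintype.card Q ≤ N) (a : Q) (a' : Fin N) :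
    ∃ e : Q ↪ Fin N, e a = a' := TM_emb1 hQ a a'

end Pool.Agent.Lib.MP_7836d5_lc.LP
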