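import Pool.Agent.Lib.MP_7836d5_lc.LP.TM

set_option autoImplicit false
set_option linter.unusedSectionVars false

namespace Pool.Agent.Lib.MP_7836d5_lc.LP

open Finset

variable {n : ℕ} {S : Type}

/-- a run of exactly `j` steps from `c0` ends in `c` -/
def TMcReach {Q Γ : Type} (δ : Q × Γ × Q × Γ × Bool → Bool) (c0 : Cfg Q Γ) (j : ℕ) (c : Cfg Q Γ) :
    Prop :=
  ∃ f : ℕ → Cfg Q Γ, f 0 = c0 ∧ (∀ i < j, Step δ (f i) (f (i + 1))) ∧ f j = c

lemma TMcReach.step {Q Γ : Type} {δ : Q × Γ × Q × Γ × Bool → Bool} {c0 c c' : Cfg Q Γ} {j : ℕ}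
    (h : TMcReach δ c0 j c) (hs : Step δ c c') : TMcReach δ c0 (j + 1) c' := by
  obtain ⟨f, h0, h1, rfl⟩ := h
  refine ⟨fun i => if i ≤ j then f i else c', by simpa using h0, fun i hi => ?_, by simp⟩
  rcases Nat.lt_succ_iff_lt_or_eq.1 hi with h2 | rfl
  · simp only [if_pos h2.le, if_pos (Nat.succ_le_of_lt h2)]
    exact h1 i h2
  · simpa using hs

/-- the tape after `v` guesses -/
def TMcTape (α : Fin (n + 1) → S) (v : ℕ) (i : ℤ) : Option (Fin (n + 1) × S) :=
  if h : 0 ≤ i ∧ i.toNat < v ∧ i.toNat < n + 1 then some (⟨i.toNat, h.2.2⟩, α ⟨i.toNat, h.2.2⟩)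
  else none

lemma TMc_some (α : Fin (n + 1) → S) {v : ℕ} (u : Fin (n + 1)) (h : u.1 < v) :
    TMcTape α v (u.1 : ℤ) = some (u, α u) := by
  unfold TMcTape
  rw [dif_pos ⟨by omega, by simpa using h, by simpa using u.2⟩]
  simp

lemma TMc_none (α : Fin (n + 1) → S) {v : ℕ} {i : ℤ} (h : i < 0 ∨ (v : ℤ) ≤ i) :
    TMcTape α v i = none := by
  unfold TMcTape
  rw [dif_neg (by omega)]

lemma TMc_succ (α : Fin (n + 1) → S) (v : Fin (n + 1)) :
    TMcTape α (v.1 + 1) = Function.update (TMcTape α v.1) (v.1 : ℤ) (some (v, α v)) := by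
  funext i
  by_cases h : i = (v.1 : ℤ)
  · rw [h, Function.update_self, TMc_some α v (Nat.lt_succ_self _)]
  · rw [Function.update_of_ne h]
    unfold TMcTape
    exact dite_congr (propext (by omega)) (fun _ => rfl) fun _ => rfl

lemma TMc_stage (con : Fin (n + 1) → S → Fin (n + 1) → S → Prop)
    (p : Fin (n + 1) × S → Bool) (α : Fin (n + 1) → S) (hp : ∀ v, p (v, α v) = true)
    (hc : ∀ u v, u < v → con u (α u) v (α v)) {c0 : Cfg _ _} {j : ℕ} (v : Fin (n + 1))
    (h : TMcReach (mach con p) c0 j ⟨some (Sum.inl v), TMcTape α v.1, 0⟩) :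
    TMcReach (mach con p) c0 (j + v.1 + 1 + v.1 + 1)
      ⟨if h : v.1 < n then some (Sum.inl ⟨v.1 + 1, by omega⟩) else none,
        TMcTape α (v.1 + 1), 0⟩ := by
  have h1 : ∀ i ≤ v.1, TMcReach (mach con p) c0 (j + i)
      ⟨some (Sum.inl v), TMcTape α v.1, (i : ℤ)⟩ := by
    intro i
    induction i with
    | zero => exact fun _ => h
    | succ i ih =>
      intro hi
      have e := TMc_some α (v := v.1) ⟨i, by omega⟩ hi
      refine (ih (by omega)).step ⟨TMcTape α v.1 i, true, ?_, by simp, by simp⟩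
      simp only at e ⊢
      rw [e]
      exact @decide_eq_true _ (_) (Or.inl ⟨_, _, rfl⟩)
  have h2 : TMcReach (mach con p) c0 (j + v.1 + 1)
      ⟨some (Sum.inr (v, α v)), TMcTape α (v.1 + 1), (v.1 : ℤ) - 1⟩ := by
    refine (h1 v.1 le_rfl).step ⟨some (v, α v), false, ?_, TMc_succ α v, by simp⟩
    simp only
    rw [TMc_none α (Or.inr le_rfl)]
    exact @decide_eq_true _ (_) (Or.inr (Or.inl ⟨_, _, hp v, rfl⟩))
  have h3 : ∀ i ≤ v.1, TMcReach (mach con p) c0 (j + v.1 + 1 + i)
      ⟨some (Sum.inr (v, α v)), TMcTape α (v.1 + 1), (v.1 : ℤ) - 1 - i⟩ := by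
    intro i
    induction i with
    | zero => exact fun _ => by simpa using h2
    | succ i ih =>
      intro hi
      have e := TMc_some α (v := v.1 + 1) ⟨v.1 - 1 - i, by omega⟩ (by simp only; omega)
      have e' : ((v.1 - 1 - i : ℕ) : ℤ) = (v.1 : ℤ) - 1 - i := by omega
      refine (ih (by omega)).step ⟨TMcTape α (v.1 + 1) ((v.1 : ℤ) - 1 - i), false, ?_, by simp,
        by simp [sub_sub, add_assoc]⟩
      simp only [e'] at e ⊢
      rw [e]
      exact @decide_eq_true _ (_) (Or.inr (Or.inr (Or.inl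
        ⟨_, _, _, _, hc _ v (Fin.lt_def.2 (by simp only; omega)), rfl⟩)))
  have e : TMcTape α (v.1 + 1) ((v.1 : ℤ) - 1 - v.1) = none := TMc_none α (Or.inl (by omega))
  refine (h3 v.1 le_rfl).step ⟨none, true, ?_, ?_, by simp⟩
  · simp only
    rw [e]
    exact @decide_eq_true _ (_) (Or.inr (Or.inr (Or.inr ⟨_, _, rfl⟩)))
  · simp only
    rw [← e, Function.update_eq_self]

/-- Let `tp v` be the tape with `some (i, α i)` in the cells `0 ≤ i < v` and blank elsewhere. Stage
`v` leads from `(inl v, tp v, 0)` in `v` steps to head `v`, in one step to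
`(inr (v, α v), tp (v + 1), v - 1)`, in `v` steps to head `-1`, in one step to
`(inl (v + 1) or none, tp (v + 1), 0)`. It helps to define `Reach j c` (a run of exactly `j` steps
from the start ends in `c`) with a lemma `Reach j c → Step δ c c' → Reach (j + 1) c'`. -/
lemma mach_complete (con : Fin (n + 1) → S → Fin (n + 1) → S → Prop)
    (p : Fin (n + 1) × S → Bool) (α : Fin (n + 1) → S) (hp : ∀ v, p (v, α v) = true)
    (hc : ∀ u v, u < v → con u (α u) v (α v)) {k : ℕ} (hk : (n + 1) * (n + 2) ≤ k) :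
    Halts (some (Sum.inl 0)) none none k (mach con p) := by
  have key : ∀ v (hv : v < n + 1), TMcReach (mach con p) ⟨some (Sum.inl 0), fun _ => none, 0⟩
      (v * (v + 1)) ⟨some (Sum.inl ⟨v, hv⟩), TMcTape α v, 0⟩ := by
    intro v
    induction v with
    | zero =>
      intro hv
      refine ⟨fun _ => _, rfl, fun i hi => absurd hi (by simp), ?_⟩
      have e : TMcTape α 0 = fun _ => none := funext fun i => TMc_none α (by omega)
      rw [e]
      rfl
    | succ v ih =>
      intro hv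
      have h := TMc_stage con p α hp hc ⟨v, by omega⟩ (ih (by omega))
      rw [dif_pos (show v < n by omega)] at h
      rwa [show (v + 1) * (v + 1 + 1) = v * (v + 1) + v + 1 + v + 1 by ring]
  obtain ⟨f, h0, h1, h2⟩ := TMc_stage con p α hp hc ⟨n, Nat.lt_succ_self n⟩ (key n _)
  refine ⟨_, le_trans (le_of_eq (by ring)) hk, f, h0, h1, ?_⟩
  rw [h2]
  exact dif_neg (lt_irrefl n)

end Pool.Agent.Lib.MP_7836d5_lc.LP
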