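import Pool.Agent.Lib.MP_7836d5_lc.LP.TM

set_option autoImplicit false
set_option linter.unusedSectionVars false

namespace Pool.Agent.Lib.MP_7836d5_lc.LP

open Finset

variable {n : ℕ} {S : Type}

/-- the tape holds `(u, α u)` in the cells `0 ≤ u < m` and is blank elsewhere -/
def TMs_tp (α : Fin (n + 1) → S) (m : ℕ) (tape : ℤ → Option (Fin (n + 1) × S)) : Prop :=
  (∀ u : Fin (n + 1), u.1 < m → tape (u.1 : ℤ) = some (u, α u)) ∧
    ∀ z : ℤ, (z < 0 ∨ (m : ℤ) ≤ z) → tape z = none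

lemma TMs_tp_get {α : Fin (n + 1) → S} {m : ℕ} {tape : ℤ → Option (Fin (n + 1) × S)}
    (h : TMs_tp α m tape) (hm : m ≤ n + 1) {z : ℤ} (h0 : 0 ≤ z) (h1 : z < m) :
    ∃ u : Fin (n + 1), z = (u.1 : ℤ) ∧ tape z = some (u, α u) := by
  obtain ⟨j, rfl⟩ := Int.eq_ofNat_of_zero_le h0
  have hj : j < m := by exact_mod_cast h1
  exact ⟨⟨j, by omega⟩, rfl, h.1 ⟨j, by omega⟩ hj⟩

/-- the invariant -/
def TMs_inv (con : Fin (n + 1) → S → Fin (n + 1) → S → Prop) (p : Fin (n + 1) × S → Bool)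
    (c : Cfg (Option (Fin (n + 1) ⊕ Fin (n + 1) × S)) (Option (Fin (n + 1) × S))) : Prop :=
  ∃ α : Fin (n + 1) → S,
    (∃ v, c.q = some (Sum.inl v) ∧ TMs_tp α v.1 c.tape ∧ 0 ≤ c.pos ∧ c.pos ≤ (v.1 : ℤ) ∧
      (∀ u, u < v → p (u, α u) = true) ∧ ∀ u u', u < u' → u' < v → con u (α u) u' (α u')) ∨
    (∃ v, c.q = some (Sum.inr (v, α v)) ∧ TMs_tp α (v.1 + 1) c.tape ∧ -1 ≤ c.pos ∧
      c.pos < (v.1 : ℤ) ∧ (∀ u, u ≤ v → p (u, α u) = true) ∧
      (∀ u u', u < u' → u' < v → con u (α u) u' (α u')) ∧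
      ∀ u : Fin (n + 1), c.pos < (u.1 : ℤ) → u < v → con u (α u) v (α v)) ∨
    (c.q = none ∧ (∀ v, p (v, α v) = true) ∧ ∀ u v, u < v → con u (α u) v (α v))

lemma TMs_step (con : Fin (n + 1) → S → Fin (n + 1) → S → Prop) (p : Fin (n + 1) × S → Bool)
    {c c' : Cfg (Option (Fin (n + 1) ⊕ Fin (n + 1) × S)) (Option (Fin (n + 1) × S))}
    (hc : TMs_inv con p c) (hs : Step (mach con p) c c') : TMs_inv con p c' := by
  obtain ⟨a, d, hδ, ht, hpos⟩ := hs
  simp only [mach, decide_eq_true_eq, Prod.mk.injEq] at hδ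
  obtain ⟨α, hc⟩ := hc
  rcases hδ with ⟨v, b, h1, h2, h3, rfl, rfl⟩ | ⟨v, β, hβ, h1, h2, h3, rfl, rfl⟩ |
    ⟨v, β, u, γ, hcon, h1, h2, h3, rfl, rfl⟩ | ⟨v, β, h1, h2, h3, rfl, rfl⟩
  · rw [← h2, Function.update_eq_self] at ht
    rw [if_pos rfl] at hpos
    rcases hc with ⟨w, g1, g2, g3, g4, g5, g6⟩ | ⟨w, g1, -⟩ | ⟨g1, -⟩
    · obtain rfl : w = v := by simpa using g1.symm.trans h1
      have hlt : c.pos < (w.1 : ℤ) := by
        by_contra hcon
        have := g2.2 c.pos (Or.inr (not_lt.1 hcon))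
        simp [this] at h2
      exact ⟨α, Or.inl ⟨w, h3, ht ▸ g2, by omega, by omega, g5, g6⟩⟩
    · simp [g1] at h1
    · simp [g1] at h1
  · rw [if_neg (by simp)] at hpos
    rcases hc with ⟨w, g1, g2, g3, g4, g5, g6⟩ | ⟨w, g1, -⟩ | ⟨g1, -⟩
    · obtain rfl : w = v := by simpa using g1.symm.trans h1
      have hp : c.pos = (w.1 : ℤ) := by
        by_contra hcon
        obtain ⟨u, -, hu⟩ := TMs_tp_get g2 w.2.le g3 (lt_of_le_of_ne g4 hcon)
        simp [hu] at h2
      have hα : ∀ u, u < w → Function.update α w β u = α u := fun u hu =>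
        Function.update_of_ne hu.ne _ _
      refine ⟨Function.update α w β, Or.inr (Or.inl ⟨w, by simpa using h3, ⟨fun u hu => ?_,
        fun z hz => ?_⟩, by omega, by omega, fun u hu => ?_, fun u u' hu hu' => ?_,
        fun u hu hu' => ?_⟩)⟩
      · rw [ht, hp]
        rcases eq_or_ne u w with rfl | hne
        · simp
        · have hlt : u < w := lt_of_le_of_ne (Fin.le_def.2 (by omega)) hne
          rw [Function.update_of_ne (by have := Fin.lt_def.1 hlt; omega), hα u hlt]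
          exact g2.1 u hlt
      · rw [ht, hp, Function.update_of_ne (by push_cast at hz; omega)]
        exact g2.2 z (by push_cast at hz; omega)
      · rcases eq_or_lt_of_le hu with rfl | hlt
        · simpa using hβ
        · rw [hα u hlt]
          exact g5 u hlt
      · rw [hα u (hu.trans hu'), hα u' hu']
        exact g6 u u' hu hu'
      · have := Fin.lt_def.1 hu'
        omega
    · simp [g1] at h1
    · simp [g1] at h1
  · rw [← h2, Function.update_eq_self] at ht
    rw [if_neg (by simp)] at hpos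
    rcases hc with ⟨w, g1, -⟩ | ⟨w, g1, g2, g3, g4, g5, g6, g7⟩ | ⟨g1, -⟩
    · simp [g1] at h1
    · have h4 := g1.symm.trans h1
      simp only [Option.some.injEq, Sum.inr.injEq, Prod.mk.injEq] at h4
      obtain ⟨rfl, rfl⟩ := h4
      have h0 : 0 ≤ c.pos := by
        by_contra hneg
        have := g2.2 c.pos (Or.inl (not_le.1 hneg))
        simp [this] at h2
      obtain ⟨u', hu1, hu2⟩ := TMs_tp_get g2 w.2 h0 (by push_cast; omega)
      have h5 := hu2.symm.trans h2
      simp only [Option.some.injEq, Prod.mk.injEq] at h5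
      obtain ⟨rfl, rfl⟩ := h5
      refine ⟨α, Or.inr (Or.inl ⟨w, h3, ht ▸ g2, by omega, by omega, g5, g6, fun x hx hx' => ?_⟩)⟩
      rcases eq_or_ne x u' with rfl | hne
      · exact hcon
      · refine g7 x ?_ hx'
        have : x.1 ≠ u'.1 := fun h => hne (Fin.ext h)
        omega
    · simp [g1] at h1
  · rw [← h2, Function.update_eq_self] at ht
    rw [if_pos rfl] at hpos
    rcases hc with ⟨w, g1, -⟩ | ⟨w, g1, g2, g3, g4, g5, g6, g7⟩ | ⟨g1, -⟩
    · simp [g1] at h1
    · have h4 := g1.symm.trans h1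
      simp only [Option.some.injEq, Sum.inr.injEq, Prod.mk.injEq] at h4
      obtain ⟨rfl, rfl⟩ := h4
      have hp : c.pos = -1 := by
        by_contra hcon
        obtain ⟨u, -, hu⟩ := TMs_tp_get (z := c.pos) g2 w.2 (by omega) (by push_cast; omega)
        simp [hu] at h2
      have hall : ∀ u u', u < u' → u' ≤ w → con u (α u) u' (α u') := fun u u' hu hu' => by
        rcases eq_or_lt_of_le hu' with rfl | hlt
        · exact g7 u (by omega) hu
        · exact g6 u u' hu hlt
      by_cases hw : w.1 < n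
      · rw [dif_pos hw] at h3
        refine ⟨α, Or.inl ⟨_, h3, ht ▸ g2, by omega, by push_cast; omega, fun u hu => ?_,
          fun u u' hu hu' => ?_⟩⟩
        · exact g5 u (Fin.le_def.2 (Nat.lt_succ_iff.1 (Fin.lt_def.1 hu)))
        · exact hall u u' hu (Fin.le_def.2 (Nat.lt_succ_iff.1 (Fin.lt_def.1 hu')))
      · rw [dif_neg hw] at h3
        have hle : ∀ u : Fin (n + 1), u ≤ w := fun u => Fin.le_def.2 (by have := u.2; omega)
        exact ⟨α, Or.inr (Or.inr ⟨h3, fun u => g5 u (hle u), fun u u' hu => hall u u' hu (hle u')⟩)⟩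
    · simp [g1] at h1

/-- Invariant of reachable configurations: there are `α : Fin (n + 1) → S` (arbitrary beyond the
guessed part) and either state `inl v`, tape `tp v`, `0 ≤ pos ≤ v`, all `u < v` allowed and
pairwise consistent; or state `inr (v, α v)`, tape `tp (v + 1)`, `-1 ≤ pos < v`, all `u ≤ v`
allowed, all `u < u' < v` consistent and all `u` with `pos < u < v` consistent with `v`; or state
`none` and the conclusion holds. -/
lemma mach_sound [Nonempty S] (con : Fin (n + 1) → S → Fin (n + 1) → S → Prop)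
    (p : Fin (n + 1) × S → Bool) {k : ℕ}
    (h : Halts (some (Sum.inl 0)) none none k (mach con p)) :
    ∃ α : Fin (n + 1) → S, (∀ v, p (v, α v) = true) ∧ ∀ u v, u < v → con u (α u) v (α v) := by
  obtain ⟨j, -, c, h0, hs, hj⟩ := h
  have key : ∀ i ≤ j, TMs_inv con p (c i) := by
    intro i
    induction i with
    | zero =>
      intro _
      rw [h0]
      refine ⟨fun _ => Classical.arbitrary S, Or.inl ⟨0, rfl, ⟨fun u hu => ?_, fun _ _ => rfl⟩,
        le_rfl, by simp, fun u hu => ?_, fun u u' _ hu => ?_⟩⟩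
      · simp at hu
      · simp at hu
      · simp at hu
    | succ i ih => exact fun hi => TMs_step con p (ih (by omega)) (hs i (by omega))
  obtain ⟨α, ⟨w, g1, -⟩ | ⟨w, g1, -⟩ | ⟨-, g2⟩⟩ := key j le_rfl
  · simp [g1] at hj
  · simp [g1] at hj
  · exact ⟨α, g2⟩

end Pool.Agent.Lib.MP_7836d5_lc.LP
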