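import Pool.Agent.Lib.MP_7836d5_lc.Range

set_option autoImplicit false
set_option linter.unusedSectionVars false

/-! Pseudo-densities of parity systems and structured rectangles. -/

namespace Pool.Agent.Lib.MP_7836d5_lc.LP

open Finset

def supp {E : Type} [Fintype E] [DecidableEq E] (S : E → ZMod 2) : Finset E :=
  univ.filter fun e => S e ≠ 0

/-- A family of derived parity constraints `S ⬝ᵥ z = sg S` of weight at most `d`, closed under
sums of weight at most `d`. -/
structure PD (E : Type) [Fintype E] [DecidableEq E] where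
  d : ℕ
  fam : Finset (E → ZMod 2)
  sg : (E → ZMod 2) → ZMod 2
  zero_mem : 0 ∈ fam
  sg_zero : sg 0 = 0
  wt_le : ∀ S ∈ fam, (supp S).card ≤ d
  add_mem : ∀ S ∈ fam, ∀ T ∈ fam, (supp (S + T)).card ≤ d →
    S + T ∈ fam ∧ sg (S + T) = sg S + sg T

variable {E FX FY : Type} [Fintype E] [DecidableEq E] [Fintype FX] [DecidableEq FX]
  [Fintype FY] [DecidableEq FY]

noncomputable def PD.rho (D : PD E) (z : E → ZMod 2) : ℝ := ∑ S ∈ D.fam, ch (D.sg S + S ⬝ᵥ z)

def PD.Cons (D : PD E) (K : Finset E) (z : E → ZMod 2) : Prop :=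
  ∀ S ∈ D.fam, supp S ⊆ K → S ⬝ᵥ z = D.sg S

instance PD.decCons (D : PD E) (K : Finset E) (z : E → ZMod 2) : Decidable (D.Cons K z) := by
  unfold PD.Cons; infer_instance

def zf (g : FX → FY → ZMod 2) (x : E → FX) (y : E → FY) : E → ZMod 2 := fun e => g (x e) (y e)

/-- all characters supported outside `K` have small bias on `A × B` -/
def Four (g : FX → FY → ZMod 2) (ε : ℝ) (K : Finset E) (A : Finset (E → FX))
    (B : Finset (E → FY)) : Prop :=
  ∀ T : E → ZMod 2, T ≠ 0 → Disjoint (supp T) K →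
    |∑ x ∈ A, ∑ y ∈ B, ch (T ⬝ᵥ zf g x y)| ≤ ε ^ (supp T).card * ((A.card : ℝ) * B.card)

lemma PD.cons_congr {D : PD E} {K : Finset E} {z z' : E → ZMod 2} (h : ∀ e ∈ K, z e = z' e) :
    D.Cons K z ↔ D.Cons K z' := by
  have key : ∀ S : E → ZMod 2, supp S ⊆ K → S ⬝ᵥ z = S ⬝ᵥ z' := by
    intro S hS
    refine Finset.sum_congr rfl fun e _ => ?_
    by_cases he : S e = 0
    · rw [he, zero_mul, zero_mul]
    · rw [h e (hS (mem_filter.2 ⟨mem_univ _, he⟩))]
  refine forall₂_congr fun S _ => forall_congr' fun hS => ?_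
  rw [key S hS]

lemma PD.Cons.mono {D : PD E} {K K' : Finset E} {z : E → ZMod 2} (h : D.Cons K' z)
    (hK : K ⊆ K') : D.Cons K z := by
  exact fun S hS h1 => h S hS (h1.trans hK)

lemma PD.cons_empty (D : PD E) (z : E → ZMod 2) : D.Cons ∅ z := by
  intro S _ h1
  have h2 : S = 0 := by
    funext e
    by_contra he
    exact notMem_empty e (h1 (mem_filter.2 ⟨mem_univ _, he⟩))
  rw [h2, D.sg_zero, zero_dotProduct]

lemma PD.abs_rho_le (D : PD E) (z : E → ZMod 2) : |D.rho z| ≤ 2 ^ Fintype.card E := by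
  refine (abs_sum_le_sum_abs _ _).trans ?_
  refine (sum_le_card_nsmul _ _ 1 fun S _ => ?_).trans ?_
  · unfold ch
    split_ifs <;> simp
  · rw [nsmul_eq_mul, mul_one]
    have h1 := card_le_univ D.fam
    rw [Fintype.card_fun, ZMod.card] at h1
    exact_mod_cast h1

/-- The involution `S ↦ S + S0` of the members `S` with `(supp (S + S0)).card ≤ d` flips the sign
(`Finset.sum_involution`; note `S + S0 + S0 = S`, and `S0 ≠ 0`). -/
lemma PD.rho_high (D : PD E) {S0 z : E → ZMod 2} (h0 : S0 ∈ D.fam) (hz : S0 ⬝ᵥ z ≠ D.sg S0) :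
    D.rho z = ∑ S ∈ D.fam.filter fun S => D.d < (supp (S + S0)).card, ch (D.sg S + S ⬝ᵥ z) := by
  have h2 : ∀ S : E → ZMod 2, S + S0 + S0 = S := by
    intro S
    funext e
    have h3 : ∀ a b : ZMod 2, a + b + b = a := by decide
    exact h3 _ _
  have h3 : ch (D.sg S0 + S0 ⬝ᵥ z) = -1 := by
    have h4 : ∀ a b : ZMod 2, b ≠ a → a + b ≠ 0 := by decide
    exact if_neg (h4 _ _ hz)
  rw [PD.rho, ← sum_filter_add_sum_filter_not D.fam fun S => D.d < (supp (S + S0)).card,
    add_eq_left]
  refine sum_involution (fun S _ => S + S0) (fun S hS => ?_) (fun S _ _ h => ?_)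
    (fun S hS => ?_) fun S _ => h2 S
  · obtain ⟨h4, h5⟩ := mem_filter.1 hS
    rw [(D.add_mem S h4 S0 h0 (not_lt.1 h5)).2, add_dotProduct, add_add_add_comm,
      ch_add _ (D.sg S0 + S0 ⬝ᵥ z), h3]
    ring
  · apply hz
    rw [add_eq_left.1 h, D.sg_zero, zero_dotProduct]
  · obtain ⟨h4, h5⟩ := mem_filter.1 hS
    refine mem_filter.2 ⟨(D.add_mem S h4 S0 h0 (not_lt.1 h5)).1, ?_⟩
    rw [h2]
    exact not_lt.2 (D.wt_le S h4)

lemma Four.mono {g : FX → FY → ZMod 2} {ε ε' : ℝ} {K K' : Finset E} {A : Finset (E → FX)}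
    {B : Finset (E → FY)} (h : Four g ε K A B) (h0 : 0 ≤ ε) (h1 : ε ≤ ε') (hK : K ⊆ K') :
    Four g ε' K' A B := by
  intro T hT hd
  exact (h T hT (hd.mono_right hK)).trans
    (mul_le_mul_of_nonneg_right (pow_le_pow_left₀ h0 h1 _) (by positivity))

/-- labels: functions defined on at most `w` coordinates (split by the domain `I`; there are
`card F ^ I.card` labels with domain `I`) -/
lemma card_lab {F : Type} [Fintype F] [DecidableEq F] [Nonempty F] (w : ℕ) :
    (univ.filter fun l : E → Option F => (univ.filter fun e => l e ≠ none).card ≤ w).card ≤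
      2 ^ Fintype.card E * Fintype.card F ^ w := by
  have h1 : (univ.filter fun l : E → Option F => (univ.filter fun e => l e ≠ none).card ≤ w) ⊆
      (univ.filter fun I : Finset E => I.card ≤ w).biUnion fun I => Fintype.piFinset fun e =>
        if e ∈ I then (univ : Finset F).map Function.Embedding.some else {none} := by
    intro l hl
    refine mem_biUnion.2 ⟨_, mem_filter.2 ⟨mem_univ _, (mem_filter.1 hl).2⟩,
      Fintype.mem_piFinset.2 fun e => ?_⟩
    cases h : l e <;> simp [h]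
  refine (card_le_card h1).trans (card_biUnion_le.trans ?_)
  refine (sum_le_card_nsmul _ _ (Fintype.card F ^ w) fun I hI => ?_).trans ?_
  · rw [Fintype.card_piFinset]
    simp only [apply_ite card, card_map, card_univ, card_singleton]
    rw [prod_ite_mem, univ_inter, prod_const]
    exact Nat.pow_le_pow_right Fintype.card_pos (mem_filter.1 hI).2
  · rw [smul_eq_mul, ← Fintype.card_finset]
    exact Nat.mul_le_mul_right _ (card_le_univ _)

end Pool.Agent.Lib.MP_7836d5_lc.LP
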