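import Pool.Agent.Lib.MP_7836d5_lc.LP.Part

set_option autoImplicit false
set_option linter.unusedSectionVars false

namespace Pool.Agent.Lib.MP_7836d5_lc.LP

open Finset

variable {X Y : Type} [DecidableEq X] [DecidableEq Y]

/-- a subset of the `g` smallest elements (induction on `g`) -/
lemma exists_low_set (a : X → ℝ) (A : Finset X) (g : ℕ) :
    ∃ G ⊆ A, G.card = min g A.card ∧ ∀ x ∈ G, ∀ x' ∈ A, x' ∉ G → a x ≤ a x' := by
  induction g with
  | zero => exact ⟨∅, empty_subset _, by simp, by simp⟩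
  | succ g ih =>
    obtain ⟨G, h1, h2, h3⟩ := ih
    rcases (A \ G).eq_empty_or_nonempty with he | hne
    · have h4 := card_le_card (sdiff_eq_empty_iff_subset.1 he)
      exact ⟨G, h1, by omega, h3⟩
    · obtain ⟨x₀, hx₀, hmin⟩ := exists_min_image _ a hne
      obtain ⟨k1, k2⟩ := mem_sdiff.1 hx₀
      have h4 := card_le_card (insert_subset k1 h1)
      rw [card_insert_of_notMem k2] at h4
      refine ⟨insert x₀ G, insert_subset k1 h1, by rw [card_insert_of_notMem k2]; omega, ?_⟩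
      intro x hx x' hx' hn
      have h5 : x' ∉ G := fun h => hn (mem_insert_of_mem h)
      rcases mem_insert.1 hx with rfl | hx
      · exact hmin x' (mem_sdiff.2 ⟨hx', h5⟩)
      · exact h3 x hx x' hx' h5

lemma cells_nr (p a : X → ℝ) (h1 h2 : Y → ℝ) (G : Finset X) (C : Finset Y) {α β : ℝ}
    (hG : ∀ x ∈ G, α ≤ a x ∧ a x ≤ β)
    (hC : ∀ y ∈ C, 0 ≤ (α * h1 y + h2 y) * (β * h1 y + h2 y)) :
    NR G C 3 fun x y => (p x * (a x * h1 y + h2 y)) ^ 2 := by
  have h : ∀ x ∈ G, ∃ u v : ℝ, 0 ≤ u ∧ 0 ≤ v ∧ u + v = 1 ∧ u * α + v * β = a x := fun x hx => by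
    have h3 : a x ∈ segment ℝ α β := by
      rw [segment_eq_Icc ((hG x hx).1.trans (hG x hx).2)]
      exact hG x hx
    exact h3
  choose! u v hu hv huv he using h
  refine (((nr_one (A := G) (B := C) (fun x => (p x * u x) ^ 2) (fun y => (α * h1 y + h2 y) ^ 2)
    (fun _ _ => sq_nonneg _) fun _ _ => sq_nonneg _).add
    (nr_one (fun x => 2 * p x ^ 2 * (u x * v x))
      (fun y => (α * h1 y + h2 y) * (β * h1 y + h2 y))
      (fun x hx => mul_nonneg (by positivity) (mul_nonneg (hu x hx) (hv x hx))) hC)).add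
    (nr_one (fun x => (p x * v x) ^ 2) (fun y => (β * h1 y + h2 y) ^ 2)
      (fun _ _ => sq_nonneg _) fun _ _ => sq_nonneg _)).congr fun x hx y _ => ?_
  have h3 : a x * h1 y + h2 y = u x * (α * h1 y + h2 y) + v x * (β * h1 y + h2 y) := by
    linear_combination -h1 y * he x hx - h2 y * huv x hx
  rw [h3]
  ring

open Classical in
/-- Induction on `J`, generalising `A`. Remove the set `G` of the `g + 1` smallest values of `a`
(`exists_low_set`), let `α ≤ β` be the least and largest value of `a` on `G` and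
`l y t = t * h1 y + h2 y`. The two new cells are `G × {l α ≥ 0, l β ≥ 0}` and
`G × {l α ≤ 0, l β ≤ 0, not both ≥ 0}`; there `a x = s α + (1 - s) β` with `0 ≤ s ≤ 1`, so
`|l y (a x)| = s |l y α| + (1 - s) |l y β|` and the square has three nonnegative rank one terms.
A column outside both has `l α`, `l β` of strictly opposite signs, so `α < β`, `g ≥ 1`,
`G.card ≤ 2 g`, and `l y` has a constant weak sign on the values `≥ β`, so the second part of the
induction hypothesis applies to it. -/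
lemma cells_aux (p a : X → ℝ) (h1 h2 : Y → ℝ) (B : Finset Y) (g J : ℕ) (A : Finset X)
    (hA : A.card ≤ J * (g + 1)) :
    ∃ (T : Type) (_ : Fintype T) (r : T → Finset X) (b : T → Finset Y), Fintype.card T ≤ 2 * J ∧
      (∀ i, r i ⊆ A ∧ b i ⊆ B ∧ NR (r i) (b i) 3 fun x y => (p x * (a x * h1 y + h2 y)) ^ 2) ∧
      (∀ x y i j, x ∈ r i → y ∈ b i → x ∈ r j → y ∈ b j → i = j) ∧
      ∀ y ∈ B, (A.filter fun x => ¬ ∃ i, x ∈ r i ∧ y ∈ b i).card ≤ 2 * g ∧
        (((∀ x ∈ A, 0 ≤ a x * h1 y + h2 y) ∨ ∀ x ∈ A, a x * h1 y + h2 y ≤ 0) →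
          ∀ x ∈ A, ∃ i, x ∈ r i ∧ y ∈ b i) := by
  induction J generalizing A with
  | zero =>
    obtain rfl : A = ∅ := card_eq_zero.1 (by omega)
    exact ⟨Empty, inferInstance, fun _ => ∅, fun _ => ∅, by simp, fun i => i.elim,
      fun _ _ i => i.elim, fun y _ => by simp⟩
  | succ J ih =>
    rcases A.eq_empty_or_nonempty with rfl | hne
    · obtain ⟨T, _, r, b, k1, k2⟩ := ih ∅ (by simp)
      exact ⟨T, _, r, b, by omega, k2⟩
    obtain ⟨G, g1, g2, g3⟩ := exists_low_set a A (g + 1)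
    have hG : G.Nonempty := card_pos.1 (by have := card_pos.2 hne; omega)
    obtain ⟨x₀, m0, hmin⟩ := exists_min_image G a hG
    obtain ⟨x₁, m1, hmax⟩ := exists_max_image G a hG
    obtain ⟨T, _, r, b, k1, k2, k3, k4⟩ := ih (A \ G) (by
      rw [card_sdiff_of_subset g1]
      rw [add_mul] at hA
      omega)
    obtain ⟨P, hP⟩ : ∃ P : Y → Prop, ∀ y, P y ↔ 0 ≤ a x₀ * h1 y + h2 y ∧ 0 ≤ a x₁ * h1 y + h2 y :=
      ⟨_, fun _ => Iff.rfl⟩
    obtain ⟨Q, hQ⟩ : ∃ Q : Y → Prop, ∀ y, Q y ↔ a x₀ * h1 y + h2 y ≤ 0 ∧ a x₁ * h1 y + h2 y ≤ 0 :=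
      ⟨_, fun _ => Iff.rfl⟩
    refine ⟨T ⊕ Bool, inferInstance, Sum.elim r fun _ => G,
      Sum.elim b fun c => cond c (B.filter P) (B.filter fun y => Q y ∧ ¬ P y), ?_, ?_, ?_,
      fun y hy => ?_⟩
    · rw [Fintype.card_sum, Fintype.card_bool]
      omega
    · rintro (i | _ | _)
      · exact ⟨(k2 i).1.trans sdiff_subset, (k2 i).2⟩
      · refine ⟨g1, filter_subset _ _, cells_nr p a h1 h2 G _
          (fun x hx => ⟨hmin x hx, hmax x hx⟩) fun y hy => ?_⟩
        have h := (hQ y).1 (mem_filter.1 hy).2.1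
        exact mul_nonneg_of_nonpos_of_nonpos h.1 h.2
      · refine ⟨g1, filter_subset _ _, cells_nr p a h1 h2 G _
          (fun x hx => ⟨hmin x hx, hmax x hx⟩) fun y hy => ?_⟩
        have h := (hP y).1 (mem_filter.1 hy).2
        exact mul_nonneg h.1 h.2
    · rintro x y (i | i) (j | j) e1 e2 e3 e4
      · rw [k3 x y i j e1 e2 e3 e4]
      · exact absurd e3 (mem_sdiff.1 ((k2 i).1 e1)).2
      · exact absurd e1 (mem_sdiff.1 ((k2 j).1 e3)).2
      · rcases i with _ | _ <;> rcases j with _ | _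
        · rfl
        · exact absurd (mem_filter.1 e4).2 (mem_filter.1 e2).2.2
        · exact absurd (mem_filter.1 e2).2 (mem_filter.1 e4).2.2
        · rfl
    · obtain ⟨k5, k6⟩ := k4 y hy
      by_cases hc : P y ∨ Q y
      · have c1 : ∀ x ∈ G, ∃ i : T ⊕ Bool, x ∈ Sum.elim r (fun _ => G) i ∧
            y ∈ Sum.elim b (fun c => cond c (B.filter P) (B.filter fun y => Q y ∧ ¬ P y)) i := by
          intro x hx
          by_cases h : P y
          · exact ⟨Sum.inr true, hx, mem_filter.2 ⟨hy, h⟩⟩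
          · exact ⟨Sum.inr false, hx, mem_filter.2 ⟨hy, hc.resolve_left h, h⟩⟩
        refine ⟨le_trans (card_le_card fun x hx => ?_) k5, fun h x hx => ?_⟩
        · obtain ⟨e1, e2⟩ := mem_filter.1 hx
          exact mem_filter.2 ⟨mem_sdiff.2 ⟨e1, fun h => e2 (c1 x h)⟩,
            fun ⟨i, hi⟩ => e2 ⟨Sum.inl i, hi⟩⟩
        · by_cases hx' : x ∈ G
          · exact c1 x hx'
          · obtain ⟨i, hi⟩ := k6 (h.imp (fun h x hx => h x (mem_sdiff.1 hx).1)
              fun h x hx => h x (mem_sdiff.1 hx).1) x (mem_sdiff.2 ⟨hx, hx'⟩)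
            exact ⟨Sum.inl i, hi⟩
      · refine ⟨?_, fun h => absurd (h.imp (fun h => (hP y).2 ⟨h _ (g1 m0), h _ (g1 m1)⟩)
          fun h => (hQ y).2 ⟨h _ (g1 m0), h _ (g1 m1)⟩) hc⟩
        rw [hP, hQ] at hc
        have h01 := hmin x₁ m1
        have c1 : a x₀ * h1 y + h2 y < 0 ∧ 0 < a x₁ * h1 y + h2 y ∨
            0 < a x₀ * h1 y + h2 y ∧ a x₁ * h1 y + h2 y < 0 := by
          push Not at hc
          rcases lt_or_ge (a x₀ * h1 y + h2 y) 0 with h | h
          · exact Or.inl ⟨h, hc.2 h.le⟩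
          · have h' := hc.1 h
            exact Or.inr ⟨lt_of_not_ge fun h'' => absurd (hc.2 h'') (not_lt.2 h'.le), h'⟩
        have c2 : x₀ ≠ x₁ := fun e => by
          rw [e] at c1
          rcases c1 with h | h <;> linarith [h.1, h.2]
        have c3 := one_lt_card.2 ⟨x₀, m0, x₁, m1, c2⟩
        have c4 := k6 (c1.imp (fun h x hx => by
            have e := g3 x₁ m1 x (mem_sdiff.1 hx).1 (mem_sdiff.1 hx).2
            have e' : 0 ≤ h1 y := le_of_not_gt fun e' => by nlinarith [h.1, h.2]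
            nlinarith [h.2])
          fun h x hx => by
            have e := g3 x₁ m1 x (mem_sdiff.1 hx).1 (mem_sdiff.1 hx).2
            have e' : h1 y ≤ 0 := le_of_not_gt fun e' => by nlinarith [h.1, h.2]
            nlinarith [h.2])
        refine le_trans (card_le_card (t := G) fun x hx => ?_) (by omega)
        obtain ⟨e1, e2⟩ := mem_filter.1 hx
        by_contra h
        obtain ⟨i, hi⟩ := c4 x (mem_sdiff.2 ⟨e1, h⟩)
        exact e2 ⟨Sum.inl i, hi⟩

end Pool.Agent.Lib.MP_7836d5_lc.LP
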