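import Mathlib

set_option autoImplicit false
set_option linter.unusedSectionVars false

namespace Pool.Agent.Lib.MP_7836d5_lc.LP

open Finset

/-- copy of `farkas_hom` in `Lib/MP_bc213e_ag/TCI/Farkas.lean` over the reals -/
theorem farkas_real {V R : Type} [AddCommGroup V] [Module ℝ V] (s : Finset R)
    (α : R → V →ₗ[ℝ] ℝ) (γ : V →ₗ[ℝ] ℝ) (h : ∀ v, (∀ ρ ∈ s, 0 ≤ α ρ v) → 0 ≤ γ v) :
    ∃ c : R → ℝ, (∀ ρ, 0 ≤ c ρ) ∧ ∀ v, γ v = ∑ ρ ∈ s, c ρ * α ρ v := by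
  classical
  induction s using Finset.induction_on generalizing α γ with
  | empty =>
    refine ⟨0, fun _ => le_rfl, fun v => ?_⟩
    have h1 := h v (by simp)
    have h2 := h (-v) (by simp)
    rw [map_neg] at h2
    rw [Finset.sum_empty]
    linarith
  | insert ρ₀ s hρ ih =>
    have hupd : ∀ (c : R → ℝ) (x : ℝ) (v : V),
        ∑ ρ ∈ insert ρ₀ s, Function.update c ρ₀ x ρ * α ρ v =
          x * α ρ₀ v + ∑ ρ ∈ s, c ρ * α ρ v := by
      intro c x v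
      rw [Finset.sum_insert hρ, Function.update_self]
      congr 1
      refine Finset.sum_congr rfl fun ρ hρ' => ?_
      rw [Function.update_of_ne (ne_of_mem_of_not_mem hρ' hρ)]
    have hnn : ∀ (c : R → ℝ) (x : ℝ), (∀ ρ, 0 ≤ c ρ) → 0 ≤ x →
        ∀ ρ, 0 ≤ Function.update c ρ₀ x ρ := by
      intro c x hc hx ρ
      rcases eq_or_ne ρ ρ₀ with rfl | hne
      · rwa [Function.update_self]
      · rw [Function.update_of_ne hne]
        exact hc ρ
    by_cases h' : ∀ v, (∀ ρ ∈ s, 0 ≤ α ρ v) → 0 ≤ γ v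
    · obtain ⟨c, hc, hγ⟩ := ih α γ h'
      exact ⟨Function.update c ρ₀ 0, hnn c 0 hc le_rfl, fun v => by
        rw [hupd, zero_mul, zero_add, hγ]⟩
    · push Not at h'
      obtain ⟨v₁, hv₁, hγ₁⟩ := h'
      have hneg : α ρ₀ v₁ < 0 := by
        by_contra hc
        refine absurd (h v₁ fun ρ hρ' => ?_) (not_le.mpr hγ₁)
        rcases Finset.mem_insert.mp hρ' with rfl | hρ'
        exacts [not_lt.mp hc, hv₁ ρ hρ']
      have hpos : 0 < (-α ρ₀ v₁)⁻¹ := inv_pos.mpr (neg_pos.mpr hneg)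
      obtain ⟨v₀, h0, h1, h2⟩ : ∃ v₀, α ρ₀ v₀ = -1 ∧ (∀ ρ ∈ s, 0 ≤ α ρ v₀) ∧ γ v₀ < 0 := by
        refine ⟨(-α ρ₀ v₁)⁻¹ • v₁, ?_, fun ρ hρ' => ?_, ?_⟩
        · rw [map_smul, smul_eq_mul, inv_neg, neg_mul, inv_mul_cancel₀ hneg.ne]
        · rw [map_smul, smul_eq_mul]
          exact mul_nonneg hpos.le (hv₁ ρ hρ')
        · rw [map_smul, smul_eq_mul]
          exact mul_neg_of_pos_of_neg hpos hγ₁
      let T : V →ₗ[ℝ] V := LinearMap.id + (α ρ₀).smulRight v₀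
      have hT : ∀ (φ : V →ₗ[ℝ] ℝ) (v : V), (φ ∘ₗ T) v = φ v + α ρ₀ v * φ v₀ := fun φ v => by
        simp [T]
      obtain ⟨c, hc, hγ⟩ := ih (fun ρ => α ρ ∘ₗ T) (γ ∘ₗ T) fun v hv => h (T v) fun ρ hρ' => by
        rcases Finset.mem_insert.mp hρ' with rfl | hρ'
        · have := hT (α ρ) v
          rw [h0] at this
          exact le_of_eq (by rw [← LinearMap.comp_apply, this]; ring)
        · exact hv ρ hρ'
      refine ⟨Function.update c ρ₀ (∑ ρ ∈ s, c ρ * α ρ v₀ - γ v₀), hnn c _ hc ?_, fun v => ?_⟩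
      · have := Finset.sum_nonneg fun ρ hρ' => mul_nonneg (hc ρ) (h1 ρ hρ')
        linarith
      · have h3 := hγ v
        simp only [hT, mul_add, Finset.sum_add_distrib, mul_left_comm _ (α ρ₀ v),
          ← Finset.mul_sum] at h3
        rw [hupd]
        linear_combination h3

/-- Strong duality. Apply `farkas_real` on the vectors `(w, τ)` to the functionals
`τ * b i - ∑ j, A i j * w j`, `w j`, `τ` and `γ = τ * t - ∑ j, c j * w j`. The hypothesis holds: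
for `τ > 0` the point `w / τ` is feasible, for `τ = 0` the point `w0 + w` is feasible, where `w0` is
optimal. -/
theorem lp_dual {ι κ : Type} [Fintype ι] [Fintype κ] (A : ι → κ → ℝ) (b : ι → ℝ) (c : κ → ℝ)
    {t : ℝ} (h : IsGreatest {t | ∃ w : κ → ℝ, (∀ j, 0 ≤ w j) ∧ (∀ i, ∑ j, A i j * w j ≤ b i) ∧
      t = ∑ j, c j * w j} t) :
    ∃ l : ι → ℝ, (∀ i, 0 ≤ l i) ∧ (∀ j, c j ≤ ∑ i, l i * A i j) ∧ ∑ i, l i * b i ≤ t := by
  classical
  obtain ⟨⟨w0, hw0, hA0, ht⟩, hub⟩ := h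
  let L : (κ → ℝ) → (κ → ℝ) × ℝ →ₗ[ℝ] ℝ := fun a =>
    ∑ j, a j • (LinearMap.proj j ∘ₗ LinearMap.fst ℝ (κ → ℝ) ℝ)
  have hL : ∀ a v, L a v = ∑ j, a j * v.1 j := by
    intro a v
    simp [L, LinearMap.sum_apply]
  let α : ι ⊕ κ ⊕ Unit → (κ → ℝ) × ℝ →ₗ[ℝ] ℝ :=
    Sum.elim (fun i => b i • LinearMap.snd ℝ (κ → ℝ) ℝ - L (A i))
      (Sum.elim (fun j => LinearMap.proj j ∘ₗ LinearMap.fst ℝ (κ → ℝ) ℝ)
        (fun _ => LinearMap.snd ℝ (κ → ℝ) ℝ))
  have a1 : ∀ i v, α (Sum.inl i) v = b i * v.2 - ∑ j, A i j * v.1 j := by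
    intro i v
    simp [α, hL]
  have a2 : ∀ j v, α (Sum.inr (Sum.inl j)) v = v.1 j := fun j v => rfl
  have a3 : ∀ u v, α (Sum.inr (Sum.inr u)) v = v.2 := fun u v => rfl
  let γ : (κ → ℝ) × ℝ →ₗ[ℝ] ℝ := t • LinearMap.snd ℝ (κ → ℝ) ℝ - L c
  have hγ : ∀ v, γ v = t * v.2 - ∑ j, c j * v.1 j := by
    intro v
    simp [γ, hL]
  obtain ⟨l, hl, hrep⟩ := farkas_real univ α γ (by
    rintro ⟨w, τ⟩ hv
    have h1 : ∀ i, ∑ j, A i j * w j ≤ b i * τ := fun i => by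
      have := hv (Sum.inl i) (mem_univ _)
      rw [a1] at this
      linarith
    have h2 : ∀ j, 0 ≤ w j := fun j => hv (Sum.inr (Sum.inl j)) (mem_univ _)
    have h3 : 0 ≤ τ := hv (Sum.inr (Sum.inr ())) (mem_univ _)
    have h4 : 0 < 1 + τ := by linarith
    have key := hub ⟨fun j => (w0 j + w j) / (1 + τ), fun j => div_nonneg (add_nonneg (hw0 j) (h2 j)) h4.le,
      fun i => by
        simp only [← mul_div_assoc, ← Finset.sum_div, mul_add, Finset.sum_add_distrib]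
        rw [div_le_iff₀ h4]
        linarith [hA0 i, h1 i], rfl⟩
    simp only [← mul_div_assoc, ← Finset.sum_div, mul_add, Finset.sum_add_distrib] at key
    rw [div_le_iff₀ h4, ← ht] at key
    rw [hγ]
    simp only
    linarith)
  simp only [hγ, Fintype.sum_sum_type, a1, a2, a3] at hrep
  refine ⟨fun i => l (Sum.inl i), fun i => hl _, fun j => ?_, ?_⟩
  · have h1 := hrep (Pi.single j 1, 0)
    simp [Pi.single_apply] at h1
    have := hl (Sum.inr (Sum.inl j))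
    linarith
  · have h1 := hrep (0, 1)
    simp at h1
    have := hl (Sum.inr (Sum.inr ()))
    linarith

end Pool.Agent.Lib.MP_7836d5_lc.LP
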