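import Pool.Agent.Lib.MP_7836d5_lc.LP.Four

set_option autoImplicit false
set_option linter.unusedSectionVars false

/-! Systems of pieces, environments, and approximate positivity of the pseudo-density. -/

namespace Pool.Agent.Lib.MP_7836d5_lc.LP

open Finset

variable {E FX FY : Type} [Fintype E] [DecidableEq E] [Fintype FX] [DecidableEq FX]
  [Fintype FY] [DecidableEq FY]

def partR (g : FX → FY → ZMod 2) (P : Finset (E → FX)) (J : Finset E) (x : E → FX) (y : E → FY) :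
    Finset (E → FX) := P.filter fun x' => ∀ e ∈ J, zf g x' y e = zf g x y e

def partC (g : FX → FY → ZMod 2) (Q : Finset (E → FY)) (I : Finset E) (x : E → FX) (y : E → FY) :
    Finset (E → FY) := Q.filter fun y' => ∀ e ∈ I, zf g x y' e = zf g x y e

/-- `RP x I P`: the set `P` is a piece around `x` with fixed coordinates `I` -/
structure Pieces {F : Type} (RP : (E → F) → Finset E → Finset (E → F) → Prop)
    (A : Finset (E → F)) (w t : ℕ) : Prop where
  card_le : ∀ x I P, RP x I P → I.card ≤ w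
  fix : ∀ x I P, RP x I P → ∀ x' ∈ P, ∀ e ∈ I, x' e = x e
  ex : ∀ Z ⊆ A, t ≤ Z.card → ∃ P ⊆ Z, P.Nonempty ∧ ∃ I, ∀ x ∈ P, RP x I P

def Comb (g : FX → FY → ZMod 2) (ε μ : ℝ) (K : Finset E)
    (RP : (E → FX) → Finset E → Finset (E → FX) → Prop)
    (CP : (E → FY) → Finset E → Finset (E → FY) → Prop) : Prop :=
  ∀ x y I P J Q, RP x I P → CP y J Q →
    Four g ε (K ∪ I ∪ J) (partR g P J x y) (partC g Q I x y) ∧
      μ * Fintype.card (E → FX) ≤ (partR g P J x y).card ∧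
      μ * Fintype.card (E → FY) ≤ (partC g Q I x y).card

def Full {F : Type} [DecidableEq F] [Fintype F] (RP : (E → F) → Finset E → Finset (E → F) → Prop)
    (A : Finset (E → F)) (T : ℕ) : Prop :=
  ∀ Z : Finset (E → F), Z.card ≤ T → ∀ x ∈ A, RP x ∅ (A \ Z)

def Half (g : FX → FY → ZMod 2) (ε μ : ℝ) (K : Finset E) (A : Finset (E → FX))
    (B : Finset (E → FY)) : Prop :=
  ∀ A1 ⊆ A, ∀ B1 ⊆ B, A.card ≤ 2 * A1.card → B.card ≤ 2 * B1.card →
    Four g ε K A1 B1 ∧ μ * Fintype.card (E → FX) ≤ A1.card ∧ μ * Fintype.card (E → FY) ≤ B1.card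

def Env (g : FX → FY → ZMod 2) (ε μ : ℝ) (wX wY S : ℕ) (K : Finset E) (A : Finset (E → FX))
    (B : Finset (E → FY)) : Prop :=
  Half g ε μ K A B ∧ ∃ RP CP tX tY, Pieces RP A wX tX ∧ Pieces CP B wY tY ∧ Comb g ε μ K RP CP ∧
    Full RP A (S * tX) ∧ Full CP B (S * tY)

def Pos (D : PD E) (g : FX → FY → ZMod 2) (η : ℝ) : Prop :=
  ∀ (p : (E → FX) → ℝ) (q : (E → FY) → ℝ) (Θ : ℝ), (∀ x, 0 ≤ p x) → (∀ y, 0 ≤ q y) → 0 ≤ Θ →
    (∀ x y, p x * q y ≤ Θ) →
    -(η * Θ * ((Fintype.card (E → FX) : ℝ) * Fintype.card (E → FY))) ≤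
      ∑ x, ∑ y, D.rho (zf g x y) * (p x * q y)

variable {D : PD E} {g : FX → FY → ZMod 2}

/-- on the product of the two parts the coordinates in `I ∪ J` are constant -/
lemma part_const {P : Finset (E → FX)} {Q : Finset (E → FY)} {I J : Finset E} {x : E → FX}
    {y : E → FY} (hP : ∀ x' ∈ P, ∀ e ∈ I, x' e = x e) (hQ : ∀ y' ∈ Q, ∀ e ∈ J, y' e = y e) :
    ∀ x' ∈ partR g P J x y, ∀ y' ∈ partC g Q I x y, ∀ e ∈ I ∪ J, zf g x' y' e = zf g x y e := by
  intro x' hx' y' hy' e he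
  obtain ⟨hx1, hx2⟩ := mem_filter.mp hx'
  obtain ⟨hy1, hy2⟩ := mem_filter.mp hy'
  rcases mem_union.mp he with he | he
  · rw [← hy2 e he]
    simp only [zf, hP x' hx1 e he]
  · rw [← hx2 e he]
    simp only [zf, hQ y' hy1 e he]

lemma level_fib {α γ : Type} [DecidableEq γ] (P : Finset α) (u : α → γ) (h : α → ℝ)
    (H : ∀ x ∈ P, 0 ≤ ∑ x' ∈ P.filter fun x' => u x' = u x, h x') : 0 ≤ ∑ x ∈ P, h x := by
  rw [← sum_fiberwise_of_maps_to (t := P.image u) (g := u) fun x hx => mem_image_of_mem u hx]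
  refine sum_nonneg fun c hc => ?_
  obtain ⟨x, hx, rfl⟩ := mem_image.mp hc
  exact H x hx

lemma level_fib2 {α β γ γ' : Type} [DecidableEq γ] [DecidableEq γ'] (P : Finset α) (Q : Finset β)
    (u : α → γ) (v : β → γ') (f : α → β → ℝ) (c : ℝ)
    (H : ∀ x ∈ P, ∀ y ∈ Q, -(c * (((P.filter fun x' => u x' = u x).card : ℝ) *
      (Q.filter fun y' => v y' = v y).card)) ≤
        ∑ x' ∈ P.filter fun x' => u x' = u x, ∑ y' ∈ Q.filter fun y' => v y' = v y, f x' y') :
    -(c * ((P.card : ℝ) * Q.card)) ≤ ∑ x ∈ P, ∑ y ∈ Q, f x y := by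
  have key : ∀ (A : Finset α) (B : Finset β), ∑ x ∈ A, ∑ y ∈ B, (f x y + c) =
      ∑ x ∈ A, ∑ y ∈ B, f x y + c * ((A.card : ℝ) * B.card) := fun A B => by
    simp only [sum_add_distrib, sum_const, nsmul_eq_mul]
    ring
  have h1 : 0 ≤ ∑ x ∈ P, ∑ y ∈ Q, (f x y + c) := by
    refine level_fib P u _ fun x hx => ?_
    rw [sum_comm]
    refine level_fib Q v _ fun y hy => ?_
    rw [sum_comm, key]
    linarith [H x hx y hy]
  rw [key] at h1
  linarith

lemma level_filter {F F' : Type} (z : F → F' → ZMod 2) {Q : Finset (E → F')}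
    {J : Finset E} {y : E → F'} (hy : y ∈ Q) (hQ : ∀ y' ∈ Q, ∀ e ∈ J, y' e = y e) (x x' : E → F) :
    ((fun (q : Q) (e : J) => z (x' e) (q.1 e)) = fun (q : Q) (e : J) => z (x e) (q.1 e)) ↔
      ∀ e ∈ J, z (x' e) (y e) = z (x e) (y e) := by
  refine ⟨fun h e he => congrFun (congrFun h ⟨y, hy⟩) ⟨e, he⟩, fun h => ?_⟩
  funext q e
  rw [hQ q.1 q.2 e.1 e.2]
  exact h e.1 e.2

/-- Fix `x0 ∈ P`, `y0 ∈ Q`. Split `P` by `fun e => if e ∈ J then zf g x y0 e else 0` and `Q` by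
`fun e => if e ∈ I then zf g x0 y e else 0` (`Finset.sum_fiberwise`). A nonempty fibre of `P`
is `partR g P J x y` for any member `x` and any `y ∈ Q`, likewise for `Q`. On each product of
fibres use `part_const` and `four_cons` or `four_incons`. -/
lemma piece_sum {ε : ℝ} {RP : (E → FX) → Finset E → Finset (E → FX) → Prop}
    {CP : (E → FY) → Finset E → Finset (E → FY) → Prop} {wX wY tX tY : ℕ}
    (hR : Pieces RP univ wX tX) (hC : Pieces CP univ wY tY) (hco : Comb g ε 0 ∅ RP CP)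
    (hd : 2 * (wX + wY) ≤ D.d) (hε : 0 ≤ ε) (hε1 : ε ≤ 1)
    (hm : (1 + ε) ^ Fintype.card E ≤ 3 / 2) {P : Finset (E → FX)} {Q : Finset (E → FY)}
    {I J : Finset E} (hP : ∀ x ∈ P, RP x I P) (hQ : ∀ y ∈ Q, CP y J Q) :
    -(2 ^ Fintype.card E * ε ^ (D.d - 2 * (wX + wY)) * ((P.card : ℝ) * Q.card)) ≤
      ∑ x ∈ P, ∑ y ∈ Q, D.rho (zf g x y) := by
  classical
  refine level_fib2 P Q (fun x (q : Q) (e : J) => g (x e) (q.1 e))
    (fun y (q : P) (e : I) => g (q.1 e) (y e)) _ _ fun x hx y hy => ?_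
  have hx' := hR.fix x I P (hP x hx)
  have hy' := hC.fix y J Q (hQ y hy)
  have e1 : (P.filter fun x' => (fun (q : Q) (e : J) => g (x' e) (q.1 e)) =
      fun (q : Q) (e : J) => g (x e) (q.1 e)) = partR g P J x y :=
    filter_congr fun x' _ => level_filter g hy hy' x x'
  have e2 : (Q.filter fun y' => (fun (q : P) (e : I) => g (q.1 e) (y' e)) =
      fun (q : P) (e : I) => g (q.1 e) (y e)) = partC g Q I x y :=
    filter_congr fun y' _ => level_filter (fun b a => g a b) hx hx' y y'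
  rw [e1, e2]
  have hF := (hco x y I P J Q (hP x hx) (hQ y hy)).1
  rw [empty_union] at hF
  have hc := part_const (g := g) hx' hy'
  have hK : (I ∪ J).card ≤ wX + wY := (card_union_le I J).trans
    (add_le_add (hR.card_le x I P (hP x hx)) (hC.card_le y J Q (hQ y hy)))
  have h0 : (0 : ℝ) ≤ ((partR g P J x y).card : ℝ) * (partC g Q I x y).card := by positivity
  by_cases hcons : D.Cons (I ∪ J) (zf g x y)
  · refine le_trans ?_ (four_cons hF hc hcons (by omega) hε hm)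
    have h1 : 0 ≤ 2 ^ Fintype.card E * ε ^ (D.d - 2 * (wX + wY)) *
      (((partR g P J x y).card : ℝ) * (partC g Q I x y).card) := by positivity
    linarith
  · refine le_trans ?_ (abs_le.mp (four_incons hF hc hcons (by omega) hε hε1)).1
    refine neg_le_neg (mul_le_mul_of_nonneg_right (mul_le_mul_of_nonneg_left ?_ (by positivity)) h0)
    exact pow_le_pow_of_le_one hε hε1 (by omega)

end Pool.Agent.Lib.MP_7836d5_lc.LP
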