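import Mathlib

set_option autoImplicit false
set_option linter.unusedSectionVars false

/-! Nonnegative rank, and partitions into rectangles given by labels. -/

namespace Pool.Agent.Lib.MP_7836d5_lc.LP

open Finset

section
variable {X Y : Type}

/-- on `A × B`, `M` is a sum of at most `S` nonnegative rank one matrices -/
def NR (A : Finset X) (B : Finset Y) (S : ℕ) (M : X → Y → ℝ) : Prop :=
  ∃ (T : Type) (_ : Fintype T) (a : T → X → ℝ) (b : T → Y → ℝ), Fintype.card T ≤ S ∧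
    (∀ i x, 0 ≤ a i x) ∧ (∀ i y, 0 ≤ b i y) ∧ ∀ x ∈ A, ∀ y ∈ B, M x y = ∑ i, a i x * b i y

variable {A A' : Finset X} {B B' : Finset Y} {S S' : ℕ} {M M' : X → Y → ℝ}

lemma NR.mono (h : NR A B S M) (hA : A' ⊆ A) (hB : B' ⊆ B) (hS : S ≤ S') : NR A' B' S' M := by
  obtain ⟨T, _, a, b, h1, h2, h3, h4⟩ := h
  exact ⟨T, _, a, b, h1.trans hS, h2, h3, fun x hx y hy => h4 x (hA hx) y (hB hy)⟩

lemma NR.congr (h : NR A B S M) (hM : ∀ x ∈ A, ∀ y ∈ B, M' x y = M x y) : NR A B S M' := by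
  obtain ⟨T, _, a, b, h1, h2, h3, h4⟩ := h
  exact ⟨T, _, a, b, h1, h2, h3, fun x hx y hy => (hM x hx y hy).trans (h4 x hx y hy)⟩

lemma nr_zero : NR A B 0 fun _ _ => 0 := by
  exact ⟨Empty, inferInstance, fun _ _ => 0, fun _ _ => 0, by simp, fun _ _ => le_rfl,
    fun _ _ => le_rfl, fun _ _ _ _ => by simp⟩

/-- replace `p`, `q` by their positive parts -/
lemma nr_one (p : X → ℝ) (q : Y → ℝ) (hp : ∀ x ∈ A, 0 ≤ p x) (hq : ∀ y ∈ B, 0 ≤ q y) :
    NR A B 1 fun x y => p x * q y := by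
  refine ⟨Unit, inferInstance, fun _ x => max (p x) 0, fun _ y => max (q y) 0, by simp,
    fun _ _ => le_max_right _ _, fun _ _ => le_max_right _ _, fun x hx y hy => ?_⟩
  simp only [Fintype.sum_unique, max_eq_left (hp x hx), max_eq_left (hq y hy)]

lemma NR.add (h : NR A B S M) (h' : NR A B S' M') :
    NR A B (S + S') fun x y => M x y + M' x y := by
  obtain ⟨T, _, a, b, h1, h2, h3, h4⟩ := h
  obtain ⟨T', _, a', b', h1', h2', h3', h4'⟩ := h'
  refine ⟨T ⊕ T', inferInstance, Sum.elim a a', Sum.elim b b', ?_, ?_, ?_, fun x hx y hy => ?_⟩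
  · rw [Fintype.card_sum]
    exact Nat.add_le_add h1 h1'
  · rintro (i | i) x
    · exact h2 i x
    · exact h2' i x
  · rintro (i | i) y
    · exact h3 i y
    · exact h3' i y
  · rw [Fintype.sum_sum_type]
    exact congrArg₂ (· + ·) (h4 x hx y hy) (h4' x hx y hy)

lemma NR.mul (h : NR A B S M) (p : X → ℝ) (q : Y → ℝ) (hp : ∀ x, 0 ≤ p x) (hq : ∀ y, 0 ≤ q y) :
    NR A B S fun x y => p x * q y * M x y := by
  obtain ⟨T, _, a, b, h1, h2, h3, h4⟩ := h
  refine ⟨T, _, fun i x => p x * a i x, fun i y => q y * b i y, h1,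
    fun i x => mul_nonneg (hp x) (h2 i x), fun i y => mul_nonneg (hq y) (h3 i y),
    fun x hx y hy => ?_⟩
  change p x * q y * M x y = _
  rw [h4 x hx y hy, Finset.mul_sum]
  exact Finset.sum_congr rfl fun i _ => by ring

lemma nr_sum {ι : Type} (s : Finset ι) (N : ι → X → Y → ℝ) (h : ∀ i ∈ s, NR A B S (N i)) :
    NR A B (s.card * S) fun x y => ∑ i ∈ s, N i x y := by
  classical
  induction s using Finset.induction_on with
  | empty => exact (nr_zero.mono subset_rfl subset_rfl (Nat.zero_le _)).congr fun _ _ _ _ => by simp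
  | insert i s hi ih =>
    have h1 := (h i (Finset.mem_insert_self i s)).add
      (ih fun j hj => h j (Finset.mem_insert_of_mem hj))
    refine (h1.mono subset_rfl subset_rfl (le_of_eq ?_)).congr fun x _ y _ => Finset.sum_insert hi
    rw [Finset.card_insert_of_notMem hi]
    ring

/-- with `θ` the minimum of `a` on `A ∩ A'` (if nonempty), `a x + c y = (a x - θ) + (c y + θ)` -/
lemma nr_tri [DecidableEq X] [DecidableEq Y] (a : X → ℝ) (c : Y → ℝ)
    (h : ∀ x ∈ A, x ∈ A' → ∀ y ∈ B, y ∈ B' → 0 ≤ a x + c y) :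
    NR A B 2 fun x y => if x ∈ A' ∧ y ∈ B' then a x + c y else 0 := by
  rcases (A.filter (· ∈ A')).eq_empty_or_nonempty with he | hne
  · refine (nr_zero.mono subset_rfl subset_rfl (Nat.zero_le _)).congr fun x hx y _ => ?_
    exact if_neg fun hh => Finset.filter_eq_empty_iff.1 he hx hh.1
  · obtain ⟨x₀, hx₀, hmin⟩ := Finset.exists_min_image _ a hne
    rw [Finset.mem_filter] at hx₀
    have hi : ∀ (P : Prop) [Decidable P], (0 : ℝ) ≤ if P then 1 else 0 := by
      intro P _
      split_ifs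
      · exact zero_le_one
      · exact le_rfl
    have h1 : NR A B 1 fun x y =>
        (if x ∈ A' then a x - a x₀ else 0) * (if y ∈ B' then 1 else 0) := by
      refine nr_one _ _ (fun x hx => ?_) fun y _ => hi _
      split_ifs with hx'
      · exact sub_nonneg.2 (hmin x (Finset.mem_filter.2 ⟨hx, hx'⟩))
      · exact le_rfl
    have h2 : NR A B 1 fun x y =>
        (if x ∈ A' then 1 else 0) * (if y ∈ B' then a x₀ + c y else 0) := by
      refine nr_one _ _ (fun x _ => hi _) fun y hy => ?_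
      split_ifs with hy'
      · exact h x₀ hx₀.1 hx₀.2 y hy hy'
      · exact le_rfl
    refine (h1.add h2).congr fun x _ y _ => ?_
    by_cases hx : x ∈ A' <;> by_cases hy : y ∈ B' <;>
      simp only [hx, hy, and_self, and_true, and_false, if_true, if_false] <;> ring

/-- For small `τ > 0`: `M + c = ∑ i, (a i + τ) (b i + τ) + (c' - τ ∑ i, a i x) * 1
+ 1 * (c' - τ ∑ i, b i y)` with `c' = (c - card T * τ ^ 2) / 2`. Use `T ⊕ Bool`. -/
lemma NR.strict [Fintype X] [Fintype Y] (h : NR A B S M) {c : ℝ} (hc : 0 < c) :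
    ∃ (T : Type) (_ : Fintype T) (_ : Nonempty T) (a : T → X → ℝ) (b : T → Y → ℝ),
      Fintype.card T ≤ S + 2 ∧ (∀ i x, 0 < a i x) ∧ (∀ i y, 0 < b i y) ∧
      ∀ x ∈ A, ∀ y ∈ B, M x y + c = ∑ i, a i x * b i y := by
  obtain ⟨T, _, a, b, h1, h2, h3, h4⟩ := h
  have ev : ∀ s : ℝ, ∀ᶠ τ in nhdsWithin (0 : ℝ) (Set.Ioi 0),
      0 < (c - Fintype.card T * τ ^ 2) / 2 - τ * s := by
    intro s
    refine Filter.Eventually.filter_mono nhdsWithin_le_nhds ?_
    have hcont : Continuous fun τ : ℝ => (c - Fintype.card T * τ ^ 2) / 2 - τ * s := by fun_prop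
    refine hcont.continuousAt.eventually (lt_mem_nhds ?_)
    simpa using hc
  obtain ⟨τ, ⟨hτ, ha⟩, hb⟩ := (((eventually_mem_nhdsWithin (a := (0 : ℝ)) (s := Set.Ioi 0)).and
    (Filter.eventually_all.2 fun x => ev (∑ i, a i x))).and
    (Filter.eventually_all.2 fun y => ev (∑ i, b i y))).exists
  have hτ' : 0 < τ := hτ
  refine ⟨T ⊕ Bool, inferInstance, ⟨Sum.inr true⟩,
    Sum.elim (fun i x => a i x + τ) fun j x =>
      cond j ((c - Fintype.card T * τ ^ 2) / 2 - τ * ∑ i, a i x) 1,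
    Sum.elim (fun i y => b i y + τ) fun j y =>
      cond j 1 ((c - Fintype.card T * τ ^ 2) / 2 - τ * ∑ i, b i y), ?_, ?_, ?_,
    fun x hx y hy => ?_⟩
  · rw [Fintype.card_sum, Fintype.card_bool]
    exact Nat.add_le_add_right h1 2
  · rintro (i | _ | _) x
    · exact add_pos_of_nonneg_of_pos (h2 i x) hτ'
    · exact zero_lt_one
    · exact ha x
  · rintro (i | _ | _) y
    · exact add_pos_of_nonneg_of_pos (h3 i y) hτ'
    · exact hb y
    · exact zero_lt_one
  · have e : ∑ i, (a i x + τ) * (b i y + τ) = ∑ i, a i x * b i y + τ * ∑ i, a i x +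
        τ * ∑ i, b i y + Fintype.card T * τ ^ 2 := by
      rw [Finset.mul_sum, Finset.mul_sum, ← Finset.card_univ, ← nsmul_eq_mul, ← Finset.sum_const,
        ← Finset.sum_add_distrib, ← Finset.sum_add_distrib, ← Finset.sum_add_distrib]
      exact Finset.sum_congr rfl fun i _ => by ring
    rw [Fintype.sum_sum_type, Fintype.sum_bool, h4 x hx y hy]
    simp only [Sum.elim_inl, Sum.elim_inr, cond_true, cond_false]
    rw [e]
    ring

end

end Pool.Agent.Lib.MP_7836d5_lc.LP
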