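import Pool.Agent.Lib.MP_7836d5_lc.LP.Base

set_option autoImplicit false
set_option linter.unusedSectionVars false

namespace Pool.Agent.Lib.MP_7836d5_lc.LP

open Finset

variable {E FX FY : Type} [Fintype E] [DecidableEq E] [Fintype FX] [DecidableEq FX]
  [Fintype FY] [DecidableEq FY]

/-- the label of `x` with domain `I` -/
def part2_lab {F : Type} (I : Finset E) (x : E → F) : E → Option F :=
  fun e => if e ∈ I then some (x e) else none

lemma part2_dom {F : Type} [DecidableEq F] (I : Finset E) (x : E → F) :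
    (univ.filter fun e => part2_lab I x e ≠ none) = I := by
  ext e
  by_cases h : e ∈ I <;> simp [part2_lab, h]

lemma part2_pos {F : Type} {I : Finset E} (x : E → F) {e : E} (h : e ∈ I) :
    part2_lab I x e = some (x e) := if_pos h

lemma part2_eq {F : Type} [DecidableEq F] {I I' : Finset E} {x x' : E → F}
    (h : part2_lab I' x' = part2_lab I x) : I' = I ∧ ∀ e ∈ I, x' e = x e := by
  have h1 : I' = I := by rw [← part2_dom I' x', h, part2_dom]
  refine ⟨h1, fun e he => ?_⟩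
  have h2 := congrFun h e
  rw [part2_pos x he, part2_pos x' (h1 ▸ he)] at h2
  exact Option.some.inj h2

/-- Labels `lx x = fun e => if e ∈ I x then some (x e) else none`, likewise `ly y`. Index set: the
tuples `(l, l', γ, γ')` with `l`, `l'` labels with at most `wX`, `wY` coordinates (`card_lab`)
and `γ γ' : E → ZMod 2`; `a (l, l', γ, γ')` is the set of `x` with `lx x = l` and
`∀ e, (l' e).elim 0 (g (x e)) = γ e`, and `b (l, l', γ, γ')` the set of `y` with `ly y = l'` and
`∀ e, (l e).elim 0 (fun a => g a (y e)) = γ' e`. -/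
lemma exists_part [Nonempty FX] [Nonempty FY] (g : FX → FY → ZMod 2) (I : (E → FX) → Finset E)
    (J : (E → FY) → Finset E) {wX wY : ℕ} (hI : ∀ x, (I x).card ≤ wX) (hJ : ∀ y, (J y).card ≤ wY) :
    ∃ (T : Type) (_ : Fintype T) (a : T → Finset (E → FX)) (b : T → Finset (E → FY)),
      Fintype.card T ≤ 16 ^ Fintype.card E * Fintype.card FX ^ wX * Fintype.card FY ^ wY ∧
      (∀ x y, ∃! i, x ∈ a i ∧ y ∈ b i) ∧
      ∀ i, ∀ x ∈ a i, ∀ x' ∈ a i, ∀ y ∈ b i, ∀ y' ∈ b i,
        I x' = I x ∧ J y' = J y ∧ ∀ e ∈ I x ∪ J y, zf g x' y' e = zf g x y e := by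
  classical
  refine ⟨(univ.filter fun l : E → Option FX => (univ.filter fun e => l e ≠ none).card ≤ wX) ×
      (univ.filter fun l : E → Option FY => (univ.filter fun e => l e ≠ none).card ≤ wY) ×
      (E → ZMod 2) × (E → ZMod 2), inferInstance,
    fun i => univ.filter fun x => part2_lab (I x) x = i.1.1 ∧
      ∀ e, (i.2.1.1 e).elim 0 (g (x e)) = i.2.2.1 e,
    fun i => univ.filter fun y => part2_lab (J y) y = i.2.1.1 ∧
      ∀ e, (i.1.1 e).elim 0 (fun a => g a (y e)) = i.2.2.2 e, ?_, fun x y => ?_, ?_⟩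
  · rw [Fintype.card_prod, Fintype.card_prod, Fintype.card_prod, Fintype.card_coe,
      Fintype.card_coe, Fintype.card_fun, ZMod.card]
    have e : 16 ^ Fintype.card E * Fintype.card FX ^ wX * Fintype.card FY ^ wY =
        (2 ^ Fintype.card E * Fintype.card FX ^ wX) * ((2 ^ Fintype.card E * Fintype.card FY ^ wY) *
          (2 ^ Fintype.card E * 2 ^ Fintype.card E)) := by
      rw [show (16 : ℕ) = 2 * 2 * 2 * 2 by norm_num, mul_pow, mul_pow, mul_pow]
      ring
    rw [e]
    exact Nat.mul_le_mul (card_lab wX) (Nat.mul_le_mul (card_lab wY) le_rfl)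
  · refine ⟨(⟨part2_lab (I x) x, mem_filter.2 ⟨mem_univ _, ?_⟩⟩,
      ⟨part2_lab (J y) y, mem_filter.2 ⟨mem_univ _, ?_⟩⟩,
      fun e => (part2_lab (J y) y e).elim 0 (g (x e)),
      fun e => (part2_lab (I x) x e).elim 0 (fun a => g a (y e))),
      ⟨mem_filter.2 ⟨mem_univ _, rfl, fun _ => rfl⟩, mem_filter.2 ⟨mem_univ _, rfl, fun _ => rfl⟩⟩,
      ?_⟩
    · rw [part2_dom]
      exact hI x
    · rw [part2_dom]
      exact hJ y
    · rintro ⟨⟨l, hl⟩, ⟨l', hl'⟩, γ, γ'⟩ ⟨h1, h2⟩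
      obtain ⟨-, rfl, h3⟩ := mem_filter.1 h1
      obtain ⟨-, rfl, h4⟩ := mem_filter.1 h2
      exact Prod.ext rfl (Prod.ext rfl (Prod.ext (funext h3).symm (funext h4).symm))
  · rintro ⟨⟨l, hl⟩, ⟨l', hl'⟩, γ, γ'⟩ x hx x' hx' y hy y' hy'
    obtain ⟨-, h1, h2⟩ := mem_filter.1 hx
    obtain ⟨-, h1', h2'⟩ := mem_filter.1 hx'
    obtain ⟨-, h3, h4⟩ := mem_filter.1 hy
    obtain ⟨-, h3', h4'⟩ := mem_filter.1 hy'
    dsimp only at h1 h2 h1' h2' h3 h4 h3' h4'
    obtain ⟨hxx, hxe⟩ := part2_eq (h1'.trans h1.symm)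
    obtain ⟨hyy, hye⟩ := part2_eq (h3'.trans h3.symm)
    refine ⟨hxx, hyy, fun e he => ?_⟩
    change g (x' e) (y' e) = g (x e) (y e)
    rcases mem_union.1 he with he | he
    · have h5 := (h4' e).trans (h4 e).symm
      rw [← h1, part2_pos x he] at h5
      rw [hxe e he]
      exact h5
    · have h5 := (h2' e).trans (h2 e).symm
      rw [← h3, part2_pos y he] at h5
      rw [hye e he]
      exact h5

end Pool.Agent.Lib.MP_7836d5_lc.LP
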