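import Pool.Agent.Lib.MP_7836d5_lc.LP.Junta
import Pool.Agent.Lib.MP_7836d5_lc.LP.Part2
import Pool.Agent.Lib.MP_7836d5_lc.LP.Part
import Pool.Agent.Lib.MP_7836d5_lc.LP.Level

set_option autoImplicit false
set_option linter.unusedSectionVars false

/-! Systems of separated inequalities `a i x + c i y ≥ 0` and the dag argument. -/

namespace Pool.Agent.Lib.MP_7836d5_lc.LP

open Finset

variable {E FX FY : Type} [Fintype E] [DecidableEq E] [Fintype FX] [DecidableEq FX]
  [Fintype FY] [DecidableEq FY]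

/-- the three ways to obtain the line `i` -/
def Rule (D : PD E) (g : FX → FY → ZMod 2) (Qc : ((E → FX) → (E → FY) → ℝ) → Prop) (k s' : ℕ)
    (a : ℕ → (E → FX) → ℝ) (c : ℕ → (E → FY) → ℝ) (i : ℕ) : Prop :=
  (∃ K : Finset E, K.card ≤ k ∧ ∀ x y, a i x + c i y < 0 → ¬ D.Cons K (zf g x y)) ∨
  (∃ j < i, ∃ l < i, ∀ x y, a i x + c i y < 0 → a j x + c j y < 0 ∨ a l x + c l y < 0) ∨
  ∃ (T : Type) (_ : Fintype T) (p p' : T → (E → FX) → ℝ) (q q' : T → (E → FY) → ℝ) (j : T → ℕ)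
    (M N : (E → FX) → (E → FY) → ℝ), Fintype.card T ≤ s' ∧ (∀ τ x, 0 ≤ p τ x) ∧
    (∀ τ y, 0 ≤ q τ y) ∧ (∀ τ, j τ < i ∨ ∀ x y, p τ x * q τ y = 0) ∧ NR univ univ s' M ∧ Qc N ∧
    (∀ τ, ∃ K : Finset E, K.card ≤ k ∧ ∀ x y, p' τ x * q' τ y ≠ 0 → ¬ D.Cons K (zf g x y)) ∧
    ∀ x y, a i x + c i y = ∑ τ, p τ x * q τ y * (a (j τ) x + c (j τ) y) + M x y + N x y +
      ∑ τ, p' τ x * q' τ y

def Sys (D : PD E) (g : FX → FY → ZMod 2) (Qc : ((E → FX) → (E → FY) → ℝ) → Prop) (k s s' : ℕ) :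
    Prop :=
  ∃ (a : ℕ → (E → FX) → ℝ) (c : ℕ → (E → FY) → ℝ), (∃ i < s, ∀ x y, a i x + c i y < 0) ∧
    ∀ i < s, Rule D g Qc k s' a c i

variable {D : PD E} {g : FX → FY → ZMod 2}

lemma Sys.mono {Qc : ((E → FX) → (E → FY) → ℝ) → Prop} {k k' s s1 s2 : ℕ} (h : Sys D g Qc k s s1)
    (hk : k ≤ k') (hs : s1 ≤ s2) : Sys D g Qc k' s s2 := by
  obtain ⟨a, c, hr, hrule⟩ := h
  refine ⟨a, c, hr, fun i hi => ?_⟩
  rcases hrule i hi with ⟨K, hK, h1⟩ | h2 | ⟨T, iT, p, p', q, q', j, M, N, hT, hp, hq, hj, hM, hN,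
    hax, heq⟩
  · exact Or.inl ⟨K, hK.trans hk, h1⟩
  · exact Or.inr (Or.inl h2)
  · refine Or.inr (Or.inr ⟨T, iT, p, p', q, q', j, M, N, hT.trans hs, hp, hq, hj,
      hM.mono subset_rfl subset_rfl hs, hN, fun τ => ?_, heq⟩)
    obtain ⟨K, hK, h1⟩ := hax τ
    exact ⟨K, hK.trans hk, h1⟩

/-- As `exists_err` in `Dag.lean`: `Er (i + 1) = Er i ∪ bad i`; if `t ≤ (bad i).card` take a piece
inside it and its maximiser of `a i`. Labels of `x ∈ Er (i + 1)` are empty. -/
lemma exists_err' {F : Type} [Fintype F] [DecidableEq F]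
    {RP : (E → F) → Finset E → Finset (E → F) → Prop} {w t : ℕ} (hR : Pieces RP univ w t)
    (a : ℕ → (E → F) → ℝ) :
    ∃ (Er : ℕ → Finset (E → F)) (I : ℕ → (E → F) → Finset E), Monotone Er ∧
      (∀ i, (Er i).card ≤ i * t) ∧ (∀ i x, (I i x).card ≤ w) ∧
      ∀ i x, x ∉ Er (i + 1) → ∃ P, RP x (I i x) P ∧ Disjoint P (Er i) ∧ ∀ x' ∈ P, a i x' ≤ a i x := by
  classical
  let bad : ℕ → Finset (E → F) → Finset (E → F) := fun i S =>
    univ.filter fun x => x ∉ S ∧ ¬ ∃ I P, RP x I P ∧ Disjoint P S ∧ ∀ x' ∈ P, a i x' ≤ a i x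
  have hbad : ∀ i S, (bad i S).card ≤ t := by
    intro i S
    by_contra hcon
    obtain ⟨P, hP, hne, I, hG⟩ := hR.ex (bad i S) (subset_univ _) (not_le.mp hcon).le
    obtain ⟨x, hx, hm⟩ := exists_max_image P (a i) hne
    refine (mem_filter.mp (hP hx)).2.2 ⟨I, P, hG x hx, ?_, hm⟩
    exact disjoint_left.mpr fun y hy => (mem_filter.mp (hP hy)).2.1
  let Er : ℕ → Finset (E → F) := fun i => Nat.rec ∅ (fun i S => S ∪ bad i S) i
  have hE : ∀ i, Er (i + 1) = Er i ∪ bad i (Er i) := fun i => rfl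
  have key : ∀ i x, ∃ I : Finset E, I.card ≤ w ∧ (x ∉ Er (i + 1) →
      ∃ P, RP x I P ∧ Disjoint P (Er i) ∧ ∀ x' ∈ P, a i x' ≤ a i x) := by
    intro i x
    by_cases hx : x ∈ Er (i + 1)
    · exact ⟨∅, by simp, fun h => absurd hx h⟩
    · have hx' := hx
      rw [hE, mem_union, not_or] at hx'
      have h2 : ∃ I P, RP x I P ∧ Disjoint P (Er i) ∧ ∀ x' ∈ P, a i x' ≤ a i x := by
        by_contra hcon
        refine hx'.2 ?_
        simp only [bad, mem_filter]
        exact ⟨mem_univ _, hx'.1, hcon⟩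
      obtain ⟨I, P, h1, h2, h3⟩ := h2
      exact ⟨I, hR.card_le x I P h1, fun _ => ⟨P, h1, h2, h3⟩⟩
  choose I hI1 hI2 using key
  refine ⟨Er, I, monotone_nat_of_le_succ fun i => by rw [hE]; exact subset_union_left, ?_, hI1,
    hI2⟩
  intro i
  induction i with
  | zero => simp [Er]
  | succ i ih =>
    rw [hE]
    have h1 := card_union_le (Er i) (bad i (Er i))
    have h2 := hbad i (Er i)
    rw [Nat.succ_mul]
    omega

lemma Sys_nr_cons [Nonempty FX] [Nonempty FY] {wX wY Nr : ℕ}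
    (hNr : 16 ^ Fintype.card E * Fintype.card FX ^ wX * Fintype.card FY ^ wY ≤ Nr)
    {a : (E → FX) → ℝ} {c : (E → FY) → ℝ} {A : Finset (E → FX)} {B : Finset (E → FY)}
    (I : (E → FX) → Finset E) (J : (E → FY) → Finset E) (hI : ∀ x, (I x).card ≤ wX)
    (hJ : ∀ y, (J y).card ≤ wY)
    (ih : ∀ x ∈ A, ∀ y ∈ B, a x + c y < 0 → ¬ D.Cons (I x ∪ J y) (zf g x y)) :
    NR A B (Nr * 2) fun x y => if D.Cons (I x ∪ J y) (zf g x y) then a x + c y else 0 := by
  classical
  obtain ⟨T, iT, u, v, hT, hex, hc⟩ := exists_part g I J hI hJ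
  let good : T → Prop := fun r => ∀ x ∈ u r, ∀ y ∈ v r, D.Cons (I x ∪ J y) (zf g x y)
  let u' : T → Finset (E → FX) := fun r => if good r then u r else ∅
  have h1 : ∀ r ∈ (univ : Finset T), NR A B 2
      fun x y => if x ∈ u' r ∧ y ∈ v r then a x + c y else 0 := by
    intro r _
    refine nr_tri a c fun x hx hx' y hy hy' => ?_
    by_cases hg : good r
    · simp only [u', if_pos hg] at hx'
      by_contra hcon
      exact ih x hx y hy (not_le.mp hcon) (hg x hx' y hy')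
    · simp only [u', if_neg hg] at hx'
      exact absurd hx' (notMem_empty x)
  refine ((nr_sum univ _ h1).mono subset_rfl subset_rfl ?_).congr fun x _ y _ => ?_
  · rw [card_univ]
    exact Nat.mul_le_mul_right _ (hT.trans hNr)
  · obtain ⟨r, hr, hu⟩ := hex x y
    rw [sum_eq_single r]
    · by_cases hg : good r
      · rw [if_pos (hg x hr.1 y hr.2), if_pos]
        exact ⟨by simp only [u', if_pos hg]; exact hr.1, hr.2⟩
      · rw [if_neg, if_neg]
        · simp only [u', if_neg hg]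
          exact fun h => absurd h.1 (notMem_empty x)
        · intro hcons
          refine hg fun x' hx' y' hy' => ?_
          obtain ⟨e1, e2, e3⟩ := hc r x hr.1 x' hx' y hr.2 y' hy'
          rw [e1, e2]
          exact (PD.cons_congr e3).mpr hcons
    · intro r' _ hne
      rw [if_neg]
      intro h
      refine hne (hu r' ⟨?_, h.2⟩)
      have h3 := h.1
      by_cases hg : good r'
      · simpa only [u', if_pos hg] using h3
      · simp only [u', if_neg hg] at h3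
        exact absurd h3 (notMem_empty x)
    · intro h
      exact absurd (mem_univ r) h

/-- The third rule. With `θ`, `θ'` the maxima of `a i` on `A` and `c i` on `B`, `c0 = -(θ + θ') > 0`
and `L j = a j x + c j y`, the matrix `(θ - a i x) + (θ' - c i y) + M + ∑ τ, p q L (j τ) [Cons]`
has `NR (2 + s' + s' * (Nr * 2))` (`exists_part`, `nr_tri`, `nr_sum`, `NR.mul`), and its sum with
`N` and `c0` is `- ∑ τ, p q L (j τ) [¬ Cons] - ∑ τ, p' q'`, which is low of rank `3 * s' * n1`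
(`low_cons`, `Low.mul`, `low_sum`). -/
lemma step_lp [Nonempty FX] [Nonempty FY] {wX wY k s' n1 Nr i : ℕ} (hk : wX + wY ≤ k)
    (hd : 2 * k ≤ D.d)
    (hn1 : 8 ^ Fintype.card E * Fintype.card FX ^ (Fintype.card E - (D.d - 2 * k)) ≤ n1)
    (hNr : 16 ^ Fintype.card E * Fintype.card FX ^ wX * Fintype.card FY ^ wY ≤ Nr)
    {a : ℕ → (E → FX) → ℝ} {c : ℕ → (E → FY) → ℝ} {A : Finset (E → FX)} {B : Finset (E → FY)}
    (hA : A.Nonempty) (hB : B.Nonempty) (hneg : ∀ x ∈ A, ∀ y ∈ B, a i x + c i y < 0)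
    (I : ℕ → (E → FX) → Finset E) (J : ℕ → (E → FY) → Finset E) (hI : ∀ j x, (I j x).card ≤ wX)
    (hJ : ∀ j y, (J j y).card ≤ wY)
    (ih : ∀ j < i, ∀ x ∈ A, ∀ y ∈ B, a j x + c j y < 0 → ¬ D.Cons (I j x ∪ J j y) (zf g x y))
    {T : Type} [Fintype T] (p p' : T → (E → FX) → ℝ) (q q' : T → (E → FY) → ℝ) (j : T → ℕ)
    (M N : (E → FX) → (E → FY) → ℝ) (hT : Fintype.card T ≤ s') (hp : ∀ τ x, 0 ≤ p τ x)
    (hq : ∀ τ y, 0 ≤ q τ y) (hj : ∀ τ, j τ < i ∨ ∀ x y, p τ x * q τ y = 0)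
    (hM : NR univ univ s' M)
    (hax : ∀ τ, ∃ K : Finset E, K.card ≤ k ∧ ∀ x y, p' τ x * q' τ y ≠ 0 → ¬ D.Cons K (zf g x y))
    (heq : ∀ x y, a i x + c i y = ∑ τ, p τ x * q τ y * (a (j τ) x + c (j τ) y) + M x y + N x y +
      ∑ τ, p' τ x * q' τ y) :
    ∃ (M' : (E → FX) → (E → FY) → ℝ) (c0 : ℝ), NR A B (2 + s' + s' * (Nr * 2)) M' ∧ 0 < c0 ∧
      Low D g A B (3 * s' * n1) fun x y => M' x y + N x y + c0 := by
  classical
  obtain ⟨xm, hxm, hθ⟩ := exists_max_image A (a i) hA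
  obtain ⟨ym, hym, hθ'⟩ := exists_max_image B (c i) hB
  refine ⟨fun x y => ((a i xm - a i x) * 1 + 1 * (c i ym - c i y)) + M x y +
    ∑ τ, p τ x * q τ y * (if D.Cons (I (j τ) x ∪ J (j τ) y) (zf g x y) then
      a (j τ) x + c (j τ) y else 0), -(a i xm + c i ym), ?_, by linarith [hneg xm hxm ym hym], ?_⟩
  · have h1 : NR A B 1 fun x (_ : E → FY) => (a i xm - a i x) * (1 : ℝ) :=
      nr_one (fun x => a i xm - a i x) (fun _ => 1) (fun x hx => by linarith [hθ x hx])
        fun _ _ => zero_le_one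
    have h2 : NR A B 1 fun (_ : E → FX) y => (1 : ℝ) * (c i ym - c i y) :=
      nr_one (fun _ => 1) (fun y => c i ym - c i y) (fun _ _ => zero_le_one)
        fun y hy => by linarith [hθ' y hy]
    have h3 : ∀ τ ∈ (univ : Finset T), NR A B (Nr * 2) fun x y => p τ x * q τ y *
        (if D.Cons (I (j τ) x ∪ J (j τ) y) (zf g x y) then a (j τ) x + c (j τ) y else 0) := by
      intro τ _
      rcases hj τ with h | h
      · exact (Sys_nr_cons hNr (I (j τ)) (J (j τ)) (hI _) (hJ _) (ih _ h)).mul (p τ) (q τ) (hp τ)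
          (hq τ)
      · exact (nr_zero.mono subset_rfl subset_rfl (Nat.zero_le _)).congr fun x _ y _ => by
          rw [h x y, zero_mul]
    refine (((h1.add h2).add (hM.mono (subset_univ _) (subset_univ _) le_rfl)).add
      (nr_sum univ _ h3)).mono subset_rfl subset_rfl ?_
    rw [card_univ]
    have := Nat.mul_le_mul_right (Nr * 2) hT
    omega
  · have h4 : ∀ τ ∈ (univ : Finset T), Low D g A B (n1 + n1 + n1) fun x y =>
        (-(p τ x * a (j τ) x) * q τ y *
            (if D.Cons (I (j τ) x ∪ J (j τ) y) (zf g x y) then 0 else 1) +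
          -(p τ x) * (q τ y * c (j τ) y) *
            (if D.Cons (I (j τ) x ∪ J (j τ) y) (zf g x y) then 0 else 1)) +
        -(p' τ x * q' τ y) := by
      intro τ _
      have hl : Low D g A B n1
          fun x y => if D.Cons (I (j τ) x ∪ J (j τ) y) (zf g x y) then 0 else 1 :=
        (low_cons (I (j τ)) (J (j τ)) (fun x y => (card_union_le _ _).trans
          ((Nat.add_le_add (hI _ x) (hJ _ y)).trans hk)) hd).mono subset_rfl subset_rfl hn1
      obtain ⟨K, hK, hK'⟩ := hax τ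
      have hl' : Low D g A B n1
          fun x y => if D.Cons (K ∪ K) (zf g x y) then 0 else 1 :=
        (low_cons (fun _ => K) (fun _ => K) (fun x y => by rw [union_self]; exact hK)
          hd).mono subset_rfl subset_rfl hn1
      refine ((hl.mul (fun x => -(p τ x * a (j τ) x)) (q τ)).add
        (hl.mul (fun x => -(p τ x)) fun y => q τ y * c (j τ) y)).add
        ((hl'.mul (fun x => -(p' τ x)) (q' τ)).congr fun x _ y _ => ?_)
      rw [union_self]
      by_cases h0 : p' τ x * q' τ y = 0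
      · rw [neg_mul, h0]
        simp
      · rw [if_neg (hK' x y h0)]
        ring
    refine ((low_sum univ _ h4).mono subset_rfl subset_rfl ?_).congr fun x _ y _ => ?_
    · rw [card_univ]
      calc _ ≤ s' * (n1 + n1 + n1) := Nat.mul_le_mul_right _ hT
        _ = 3 * s' * n1 := by ring
    · have h5 : ∀ τ, (-(p τ x * a (j τ) x) * q τ y *
            (if D.Cons (I (j τ) x ∪ J (j τ) y) (zf g x y) then 0 else 1) +
          -(p τ x) * (q τ y * c (j τ) y) *
            (if D.Cons (I (j τ) x ∪ J (j τ) y) (zf g x y) then 0 else 1)) +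
          -(p' τ x * q' τ y) = p τ x * q τ y * (if D.Cons (I (j τ) x ∪ J (j τ) y) (zf g x y) then
            a (j τ) x + c (j τ) y else 0) - p τ x * q τ y * (a (j τ) x + c (j τ) y) -
            p' τ x * q' τ y := by
        intro τ
        split_ifs <;> ring
      simp only [h5, sum_sub_distrib]
      linarith [heq x y]

end Pool.Agent.Lib.MP_7836d5_lc.LP
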