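import Pool.Agent.Lib.MP_7836d5_lc.LP.Defs
import Pool.Agent.Lib.MP_7836d5_lc.LP.Dual
import Pool.Agent.Lib.MP_7836d5_lc.LP.Sys

set_option autoImplicit false
set_option linter.unusedSectionVars false

/-! From monotone LP circuits to systems of separated inequalities. -/

namespace Pool.Agent.Lib.MP_7836d5_lc.LP

open Finset

variable {E FX FY : Type} [Fintype E] [DecidableEq E] [Fintype FX] [DecidableEq FX]
  [Fintype FY] [DecidableEq FY]

lemma circuit_id {s : ℕ} (A B C : Fin s → Fin s → ℝ) (b c l w u v : Fin s → ℝ) (t : ℝ) :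
    -(∑ i, (c i + ∑ j, C i j * u j) * w i) + t =
      (∑ j, 1 * (∑ i, l i * B i j) * (-u j + v j) + ∑ j, (∑ i, C i j * w i) * 1 * (-u j + v j)) +
      (∑ i, (b i + ∑ j, B i j * u j - ∑ j, A i j * w j) * l i +
        ∑ i, w i * (∑ k, l k * A k i - (c i + ∑ j, C i j * v j)) +
        1 * (t - ∑ i, l i * (b i + ∑ j, B i j * v j))) := by
  have h1 : ∀ z : Fin s → ℝ, ∑ j, (∑ i, l i * B i j) * z j = ∑ i, l i * ∑ j, B i j * z j := by
    intro z
    simp only [sum_mul, mul_sum]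
    rw [sum_comm]
    exact sum_congr rfl fun i _ => sum_congr rfl fun j _ => by ring
  have h2 : ∀ z : Fin s → ℝ, ∑ j, (∑ i, C i j * w i) * z j = ∑ i, w i * ∑ j, C i j * z j := by
    intro z
    simp only [sum_mul, mul_sum]
    rw [sum_comm]
    exact sum_congr rfl fun i _ => sum_congr rfl fun j _ => by ring
  have h3 : ∑ i, w i * ∑ k, l k * A k i = ∑ i, l i * ∑ j, A i j * w j := by
    simp only [mul_sum]
    rw [sum_comm]
    exact sum_congr rfl fun i _ => sum_congr rfl fun j _ => by ring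
  simp only [one_mul, mul_one, mul_comm _ (l _), mul_comm _ (w _)] at h1 h2 h3 ⊢
  simp only [mul_add, mul_sub, mul_neg, sum_add_distrib, sum_sub_distrib, sum_neg_distrib, h1, h2,
    h3]
  ring

/-- Lines `a i x = - val i (Kx x)`, `c i y = val i (Hy y)` (zero for `i ≥ s`). For an LP gate take
optimal `w x` on `Kx x` and a dual solution `l y` on `Hy y` (`lp_dual`); with `L j = val j (Hy y) -
val j (Kx x)`: `L g = ∑ j, (∑ i, l y i * B i j) * L j + ∑ j, (∑ i, C i j * w x i) * L j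
+ ∑ i, slack i x * l y i + ∑ i, w x i * dualslack i y + (val g (Hy y) - ∑ i, l y i * b' i y)`.
Use `T = Fin s ⊕ Fin s`, `p' = q' = 0`, `N = 0`. -/
theorem sys_of_mlp {ι : Type} {D : PD E} {g : FX → FY → ZMod 2} {f : (ι → Bool) → Prop} {k s : ℕ}
    (Kx : (E → FX) → ι → Bool) (Hy : (E → FY) → ι → Bool) (hK : ∀ x, f (Kx x))
    (hH : ∀ y, ¬ f (Hy y))
    (hv : ∀ e, ∃ K : Finset E, K.card ≤ k ∧
      ∀ x y, Kx x e = true → Hy y e = false → ¬ D.Cons K (zf g x y))
    (h : MLP f s) : Sys D g (fun N => N = 0) k s (2 * s + 1) := by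
  classical
  obtain ⟨val, ⟨out, hout⟩, hg⟩ := h
  obtain ⟨a, ha⟩ : ∃ a : ℕ → (E → FX) → ℝ, ∀ (i : Fin s) x, a i x = -val i (Kx x) :=
    ⟨fun i x => if h : i < s then -val ⟨i, h⟩ (Kx x) else 0, fun i x => dif_pos i.2⟩
  obtain ⟨c', hc'⟩ : ∃ c' : ℕ → (E → FY) → ℝ, ∀ (i : Fin s) y, c' i y = val i (Hy y) :=
    ⟨fun i y => if h : i < s then val ⟨i, h⟩ (Hy y) else 0, fun i y => dif_pos i.2⟩
  refine ⟨a, c', ⟨out, out.2, fun x y => ?_⟩, fun i hi => ?_⟩
  · have h1 := (hout _).1 (hK x)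
    have h2 := not_lt.1 fun e => hH y ((hout _).2 e)
    rw [ha, hc']
    linarith
  obtain ⟨i, rfl⟩ : ∃ i' : Fin s, i = i' := ⟨⟨i, hi⟩, rfl⟩
  rcases hg i with ⟨e, he⟩ | ⟨j, hj, l, hl, φ, hφ, he⟩ | ⟨A, B, C, b, c, hBC, he⟩
  · obtain ⟨K, hKk, hK'⟩ := hv e
    refine Or.inl ⟨K, hKk, fun x y hxy => ?_⟩
    rw [ha, hc', he, he] at hxy
    refine hK' x y ?_ ?_
    · by_contra h1
      rw [if_neg h1] at hxy
      split_ifs at hxy <;> norm_num at hxy
    · by_contra h1
      rw [if_pos (Bool.eq_true_of_not_eq_false h1)] at hxy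
      split_ifs at hxy <;> norm_num at hxy
  · refine Or.inr (Or.inl ⟨j, hj, l, hl, fun x y hxy => ?_⟩)
    by_contra h1
    rw [not_or, not_lt, not_lt, ha, hc', ha, hc'] at h1
    rw [ha, hc', he, he] at hxy
    have h2 : φ (val j (Kx x), val l (Kx x)) ≤ φ (val j (Hy y), val l (Hy y)) :=
      hφ ⟨by linarith [h1.1], by linarith [h1.2]⟩
    linarith
  · choose w hw0 hw1 hw2 using fun x => (he (Kx x)).1
    have hd : ∀ y, ∃ l : Fin s → ℝ, (∀ i, 0 ≤ l i) ∧
        (∀ j, c j + ∑ m, C j m * val m (Hy y) ≤ ∑ i, l i * A i j) ∧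
        ∑ m, l m * (b m + ∑ j, B m j * val j (Hy y)) ≤ val i (Hy y) := fun y =>
      lp_dual A (fun m => b m + ∑ j, B m j * val j (Hy y))
        (fun j => c j + ∑ m, C j m * val m (Hy y)) (he (Hy y))
    choose l hl0 hl1 hl2 using hd
    refine Or.inr (Or.inr ⟨Fin s ⊕ Fin s, inferInstance,
      Sum.elim (fun _ _ => 1) (fun j x => ∑ m, C m j * w x m), fun _ _ => 0,
      Sum.elim (fun j y => ∑ m, l y m * B m j) (fun _ _ => 1), fun _ _ => 0,
      Sum.elim Fin.val Fin.val,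
      fun x y => ∑ m, (b m + ∑ j, B m j * val j (Kx x) - ∑ j, A m j * w x j) * l y m +
        ∑ m, w x m * (∑ k, l y k * A k m - (c m + ∑ j, C m j * val j (Hy y))) +
        1 * (val i (Hy y) - ∑ m, l y m * (b m + ∑ j, B m j * val j (Hy y))), 0,
      by simp; omega, ?_, ?_, ?_, ?_, rfl, fun _ => ⟨∅, by simp, by simp⟩, fun x y => ?_⟩)
    · rintro (j | j) x
      · exact zero_le_one
      · exact sum_nonneg fun m _ => mul_nonneg (hBC m j).2.1 (hw0 x m)
    · rintro (j | j) y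
      · exact sum_nonneg fun m _ => mul_nonneg (hl0 y m) (hBC m j).1
      · exact zero_le_one
    · rintro (j | j)
      · rcases lt_or_ge j i with h1 | h1
        · exact Or.inl h1
        · exact Or.inr fun x y => by simp [fun m => ((hBC m j).2.2 h1).1]
      · rcases lt_or_ge j i with h1 | h1
        · exact Or.inl h1
        · exact Or.inr fun x y => by simp [fun m => ((hBC m j).2.2 h1).2]
    · refine (((nr_sum univ _ fun m _ => nr_one _ _ (fun x _ => sub_nonneg.2 (hw1 x m))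
        fun y _ => hl0 y m).add (nr_sum univ _ fun m _ => nr_one _ _ (fun x _ => hw0 x m)
        fun y _ => sub_nonneg.2 (hl1 y m))).add (nr_one (fun _ => 1) _ (fun _ _ => zero_le_one)
        fun y _ => sub_nonneg.2 (hl2 y))).mono Subset.rfl Subset.rfl ?_
      simp
      omega
    · simp only [Fintype.sum_sum_type, Sum.elim_inl, Sum.elim_inr, ha, hc', Pi.zero_apply,
        mul_zero, sum_const_zero, add_zero]
      rw [hw2 x]
      exact circuit_id A B C b c (l y) (w x) _ _ _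

end Pool.Agent.Lib.MP_7836d5_lc.LP
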