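import Pool.Agent.Lib.MP_7836d5_lc.Piece

set_option autoImplicit false
set_option linter.unusedSectionVars false

/-! Dense pieces with a size bound, and cleaning against a family of events. -/

namespace Pool.Agent.Lib.MP_7836d5_lc.LP

open Finset

/-- `exists_dense` of `Piece.lean` with the extra conclusion `hα` of its proof -/
lemma exists_dense2 {ι F : Type} [Fintype ι] [DecidableEq ι] [Fintype F] [DecidableEq F]
    {ρ κ W : ℕ} (hκ : 2 ≤ κ) (hρ : 0 < ρ) (hn : ρ * κ = Fintype.card F)
    (X : Finset (ι → F)) (hX : Fintype.card F ^ Fintype.card ι ≤ X.card * κ ^ W) :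
    ∃ (I : Finset ι) (α : ι → F), I.card ≤ W ∧ (agr X I α).Nonempty ∧
      Dense' 1 ρ I (agr X I α) ∧ X.card ≤ (agr X I α).card * ρ ^ W := by
  classical
  have hF : 0 < Fintype.card F := by rw [← hn]; positivity
  have hX0 : 0 < X.card := by
    by_contra h
    have : X.card = 0 := by omega
    rw [this, zero_mul] at hX
    exact absurd hX (not_le.mpr (by positivity))
  obtain ⟨x0, -⟩ := card_pos.mp hX0
  obtain ⟨I, hI, hmax⟩ := exists_max_image
    (univ.filter fun I : Finset ι => ∃ α : ι → F, X.card ≤ (agr X I α).card * ρ ^ I.card)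
    card ⟨∅, by simp only [mem_filter, mem_univ, true_and]; exact ⟨x0, by simp [agr]⟩⟩
  simp only [mem_filter, mem_univ, true_and] at hI hmax
  obtain ⟨α, hα⟩ := hI
  have hP : 0 < (agr X I α).card := by
    by_contra h
    have : (agr X I α).card = 0 := by omega
    rw [this, zero_mul] at hα
    omega
  have hIW : I.card ≤ W := by
    have h1 : (agr X I α).card * Fintype.card F ^ I.card ≤ Fintype.card F ^ Fintype.card ι := by
      rw [← card_agr_univ I α]
      exact Nat.mul_le_mul_right _ (card_le_card (agr_mono (subset_univ _) _ _))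
    have h2 : (agr X I α).card * ρ ^ I.card * κ ^ I.card ≤
        (agr X I α).card * ρ ^ I.card * κ ^ W := by
      calc _ = (agr X I α).card * Fintype.card F ^ I.card := by rw [← hn, mul_pow]; ring
        _ ≤ X.card * κ ^ W := h1.trans hX
        _ ≤ _ := Nat.mul_le_mul_right _ hα
    have h3 := Nat.le_of_mul_le_mul_left h2 (by positivity)
    exact (Nat.pow_le_pow_iff_right (by omega)).mp h3
  refine ⟨I, α, hIW, card_pos.mp hP, ?_,
    hα.trans (Nat.mul_le_mul_left _ (Nat.pow_le_pow_right hρ hIW))⟩
  · intro K hK hd γ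
    by_contra hcon
    rw [not_le, one_mul] at hcon
    have heq : agr X (I ∪ K) (fun e => if e ∈ K then γ e else α e) = agr (agr X I α) K γ := by
      ext x
      simp only [mem_agr, mem_union]
      constructor
      · rintro ⟨h1, h2⟩
        refine ⟨⟨h1, fun e he => ?_⟩, fun e he => ?_⟩
        · have := h2 e (Or.inl he)
          rwa [if_neg (fun h => disjoint_left.mp hd h he)] at this
        · have := h2 e (Or.inr he)
          rwa [if_pos he] at this
      · rintro ⟨⟨h1, h2⟩, h3⟩
        refine ⟨h1, fun e he => ?_⟩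
        by_cases hk : e ∈ K
        · rw [if_pos hk]; exact h3 e hk
        · rw [if_neg hk]; exact h2 e (he.resolve_right hk)
    have hc : (I ∪ K).card = I.card + K.card := card_union_of_disjoint hd.symm
    have := hmax (I ∪ K) ⟨_, by
      rw [heq, hc, pow_add]
      calc X.card ≤ (agr X I α).card * ρ ^ I.card := hα
        _ ≤ (agr (agr X I α) K γ).card * ρ ^ K.card * ρ ^ I.card :=
          Nat.mul_le_mul_right _ hcon.le
        _ = _ := by ring⟩
    have := card_pos.mpr hK
    omega

lemma dense_mono_set {ι F : Type} [Fintype ι] [DecidableEq ι] [Fintype F] [DecidableEq F]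
    {lam ρ : ℕ} {U U' : Finset ι} {A : Finset (ι → F)} (h : Dense' lam ρ U A) (hU : U ⊆ U') :
    Dense' lam ρ U' A := by
  exact fun K hK hd α => h K hK (hd.mono_right hU) α

/-- Strong induction on `ev.card`, generalising `Z`: if some event meets `Z` in fewer than `M`
points but at least one, remove it from `Z` and from the family. -/
lemma clean_ev {Y : Type} [DecidableEq Y] (ev : Finset (Finset Y)) (M : ℕ) (Z : Finset Y) :
    ∃ Q ⊆ Z, Z.card ≤ Q.card + ev.card * M ∧ ∀ W ∈ ev, Q ∩ W = ∅ ∨ M ≤ (Q ∩ W).card := by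
  induction ev using Finset.strongInduction generalizing Z with
  | H ev ih =>
    by_cases h : ∀ W ∈ ev, Z ∩ W = ∅ ∨ M ≤ (Z ∩ W).card
    · exact ⟨Z, subset_rfl, Nat.le_add_right _ _, h⟩
    · push Not at h
      obtain ⟨W, hW, -, h2⟩ := h
      obtain ⟨Q, hQ, hc, hev⟩ := ih (ev.erase W) (erase_ssubset hW) (Z \ W)
      refine ⟨Q, hQ.trans sdiff_subset, ?_, fun W' hW' => ?_⟩
      · have h3 := card_sdiff_add_card_inter Z W
        have h4 := card_erase_add_one hW
        rw [← h4, add_mul]
        omega
      · by_cases h5 : W' = W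
        · refine Or.inl (eq_empty_of_forall_notMem fun x hx => ?_)
          exact (mem_sdiff.1 (hQ (mem_inter.1 hx).1)).2 (h5 ▸ (mem_inter.1 hx).2)
        · exact hev W' (mem_erase.2 ⟨h5, hW'⟩)

end Pool.Agent.Lib.MP_7836d5_lc.LP
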