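import Pool.Agent.Lib.MP_7836d5_lc.LP.IndexMain

set_option autoImplicit false
set_option linter.unusedSectionVars false

namespace Pool.Agent.Lib.MP_7836d5_lc.LP

open Finset

lemma IndexNum_le {i j : ℕ} (h : i ≤ j) : 2 ^ i ≤ 2 ^ j := Nat.pow_le_pow_right two_pos h

lemma IndexNum_lt {i j : ℕ} (h : i < j) : 2 ^ i < 2 ^ j := Nat.pow_lt_pow_right one_lt_two h

lemma IndexNum_add {i j k : ℕ} (h : i < k) (h' : j < k) : 2 ^ i + 2 ^ j ≤ 2 ^ k := by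
  obtain ⟨k, rfl⟩ : ∃ k', k = k' + 1 := ⟨k - 1, by omega⟩
  have h1 := IndexNum_le (Nat.le_of_lt_succ h)
  have h2 := IndexNum_le (Nat.le_of_lt_succ h')
  rw [pow_succ]
  omega

/-- integral powers of two -/
noncomputable def IndexNum_E (z : ℤ) : ℝ := 2 ^ z

lemma IndexNum_E_pos (z : ℤ) : 0 < IndexNum_E z := zpow_pos two_pos z

lemma IndexNum_E_mul (x y : ℤ) : IndexNum_E x * IndexNum_E y = IndexNum_E (x + y) :=
  (zpow_add₀ two_ne_zero x y).symm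

lemma IndexNum_E_le {x y : ℤ} (h : x ≤ y) : IndexNum_E x ≤ IndexNum_E y :=
  zpow_le_zpow_right₀ one_le_two h

lemma IndexNum_E_lt {x y : ℤ} (h : x < y) : IndexNum_E x < IndexNum_E y :=
  zpow_lt_zpow_right₀ one_lt_two h

lemma IndexNum_E_real (k : ℕ) : (2 : ℝ) ^ k = IndexNum_E k := (zpow_natCast 2 k).symm

lemma IndexNum_E_nat (k : ℕ) : ((2 ^ k : ℕ) : ℝ) = IndexNum_E k := by
  rw [← IndexNum_E_real]
  norm_cast

lemma IndexNum_E_pow (x : ℤ) (k : ℕ) : IndexNum_E x ^ k = IndexNum_E (x * k) := by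
  unfold IndexNum_E
  rw [zpow_mul, zpow_natCast]

lemma IndexNum_E_add {x y z : ℤ} (h : x < z) (h' : y < z) :
    IndexNum_E x + IndexNum_E y ≤ IndexNum_E z := by
  have h1 := IndexNum_E_le (show x ≤ z - 1 by omega)
  have h2 := IndexNum_E_le (show y ≤ z - 1 by omega)
  have h3 := IndexNum_E_mul (z - 1) 1
  have h4 : IndexNum_E 1 = 2 := zpow_one 2
  rw [h4, sub_add_cancel] at h3
  linarith

lemma IndexNum_exp {x : ℝ} {m : ℕ} (h0 : 0 ≤ x) (h : m * x ≤ 1 / 4) : (1 + x) ^ m ≤ 3 / 2 := by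
  have h1 : (1 + x) ^ m ≤ Real.exp x ^ m :=
    pow_le_pow_left₀ (by linarith) (by linarith [Real.add_one_le_exp x]) m
  rw [← Real.exp_nat_mul] at h1
  have h2 := Real.exp_bound_div_one_sub_of_interval (x := 1 / 4) (by norm_num) (by norm_num)
  have h3 := Real.exp_le_exp.2 h
  norm_num at h2
  linarith

/-- `index_lift` with (all powers of two) `w0 = m / 3000000`, `U = 8 a w0` (so `m ≤ U`,
`3000 w0 ≤ d ≤ m`, `8 ≤ w0`), `κ = 2 ^ (8 a)`, `r = 2 ^ (16 a)`, `n = 16 a m`, `y = r m`,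
`t0X = 2 ^ (n - U)`, `M0X = 2 ^ (n - 2 U)`, `t0Y = 2 ^ (y - U)`, `M0Y = 2 ^ (y - 5 U - 1)`,
`S = 2 ^ (9 U) - 2`, `w = 12 w0`, `tX = 2 ^ (n - 12 U)`, `MX = 2 ^ (n - 24 U)`,
`M' = 2 ^ (y - 31 U - 2)`, `tY = 2 ^ (y - 40 U - 3)`, `MY = 2 ^ (y - 66 U - 4)`, `μ = 2 ^ (-68 U)`,
`w' = d / 4`, `tX' = 2 ^ (n - 8 a w')`, `tY' = 2 ^ (y - 8 a w')`, `MY' = 2 ^ (y - 24 a w' - 2 m - 1)`,
`θ = 2 ^ (-8 a w')`, `p = 16 a d`, `γ = 2 ^ (-(a + 4))` (then `16 γ = 2 ^ (-a)` and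
`γ ^ 2 κ = 2 ^ (6 a - 8)`), `ζ = 2 ^ (-1000 U)`; finish with `Sys.mono`. It is convenient to obtain
`n0`, `y0` with `n = n0 + 24 U`, `y = y0 + 70 U` and so on, to avoid subtraction. -/
theorem index_bound {m a : ℕ} (D : PD (Fin m)) (hD : D.d = m / 1000) (hm : 24000000 ≤ m)
    (ha : 500000 ≤ a) (hma : 4 * m ≤ 2 ^ a) {s s' : ℕ} (hs : 2 * s ≤ 2 ^ (8 * a * (m / 3000000)))
    (hs' : s' ≤ 2 ^ (2 * (8 * a * (m / 3000000)))) :
    ¬ Sys D (gI (Fin (2 ^ (16 * a)))) (fun N => N = 0) 8 s s' := by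
  intro hSys
  obtain ⟨w0, hw0⟩ : ∃ w0, w0 = m / 3000000 := ⟨_, rfl⟩
  rw [← hw0] at hs hs'
  obtain ⟨w', hw'⟩ : ∃ w', w' = D.d / 4 := ⟨_, rfl⟩
  obtain ⟨U, hU⟩ : ∃ U, U = 8 * a * w0 := ⟨_, rfl⟩
  rw [← hU] at hs hs'
  obtain ⟨V, hV⟩ : ∃ V, V = 8 * a * w' := ⟨_, rfl⟩
  obtain ⟨n, hn⟩ : ∃ n, n = 16 * a * m := ⟨_, rfl⟩
  obtain ⟨y, hy⟩ : ∃ y, y = 2 ^ (16 * a) * m := ⟨_, rfl⟩
  obtain ⟨p, hp⟩ : ∃ p, p = 16 * a * D.d := ⟨_, rfl⟩
  obtain ⟨W, hW⟩ : ∃ W, W = a * (D.d - 2 * w') := ⟨_, rfl⟩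
  obtain ⟨Z, hZ⟩ : ∃ Z, Z = 16 * a * (m - (D.d - 2 * (w0 + 12 * w0))) := ⟨_, rfl⟩
  have f8 : 8 ≤ w0 := by omega
  have fU : m ≤ U := by
    have : 4000000 * w0 ≤ 8 * a * w0 := Nat.mul_le_mul_right _ (by omega)
    omega
  have fV : 750 * U ≤ V := by
    rw [hU, hV, mul_comm 750, mul_assoc _ w0]
    exact Nat.mul_le_mul_left _ (by omega)
  have fp : 8 * V ≤ p := by
    calc 8 * V = 16 * a * (4 * w') := by rw [hV]; ring
      _ ≤ p := by rw [hp]; exact Nat.mul_le_mul_left _ (by omega)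
  have fn : p ≤ n := by
    rw [hp, hn]
    exact Nat.mul_le_mul_left _ (by omega)
  have fy : n ≤ y := by
    rw [hn, hy]
    exact Nat.mul_le_mul_right _ Nat.lt_two_pow_self.le
  have fW : 187 * U ≤ W := by
    calc 187 * U = a * (1496 * w0) := by rw [hU]; ring
      _ ≤ W := by rw [hW]; exact Nat.mul_le_mul_left _ (by omega)
  have fZ : Z + p = n + 52 * U := by
    have e : m - (D.d - 2 * (w0 + 12 * w0)) + D.d = m + 26 * w0 := by omega
    calc Z + p = 16 * a * (m - (D.d - 2 * (w0 + 12 * w0)) + D.d) := by rw [hZ, hp]; ring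
      _ = n + 52 * U := by rw [e, hn, hU]; ring
  have fq : 2 * p ≤ 2 ^ (2 * a + 3) := by
    have h1 : a ≤ 2 ^ a := Nat.lt_two_pow_self.le
    calc 2 * p ≤ 2 * n := by omega
      _ = 8 * (a * (4 * m)) := by rw [hn]; ring
      _ ≤ 8 * (2 ^ a * 2 ^ a) := Nat.mul_le_mul_left _ (Nat.mul_le_mul h1 hma)
      _ = 2 ^ (2 * a + 3) := by ring
  have k0 : (2 ^ (8 * a)) ^ w0 = 2 ^ U := by rw [← pow_mul, hU]
  have r0 : (2 ^ (16 * a)) ^ w0 = 2 ^ (2 * U) := by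
    rw [← pow_mul, hU]; congr 1; ring
  have k1 : (2 ^ (8 * a)) ^ (12 * w0) = 2 ^ (12 * U) := by
    rw [← pow_mul, hU]; congr 1; ring
  have r1 : (2 ^ (16 * a)) ^ (12 * w0) = 2 ^ (24 * U) := by
    rw [← pow_mul, hU]; congr 1; ring
  have k2 : (2 ^ (8 * a)) ^ w' = 2 ^ V := by rw [← pow_mul, hV]
  have r2 : (2 ^ (16 * a)) ^ w' = 2 ^ (2 * V) := by
    rw [← pow_mul, hV]; congr 1; ring
  have r3 : (2 ^ (16 * a)) ^ (m - (D.d - 2 * (w0 + 12 * w0))) = 2 ^ Z := by rw [← pow_mul, hZ]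
  have e4 : ∀ k : ℕ, 4 ^ k = 2 ^ (2 * k) := fun k => (pow_mul 2 2 k).symm
  have e8 : 8 ^ m = 2 ^ (3 * m) := (pow_mul 2 3 m).symm
  have e16 : 16 ^ m = 2 ^ (4 * m) := (pow_mul 2 4 m).symm
  have hS2 : 2 ^ (9 * U) - 2 + 2 = 2 ^ (9 * U) :=
    Nat.sub_add_cancel (IndexNum_le (i := 1) (by omega))
  have g16 : 16 * IndexNum_E (-(a + 4)) = IndexNum_E (-a) := by
    have h1 : (16 : ℝ) = IndexNum_E 4 := by unfold IndexNum_E; norm_num
    rw [h1, IndexNum_E_mul]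
    congr 1
    ring
  refine index_lift D (κ := 2 ^ (8 * a)) (r := 2 ^ (16 * a)) (m := m) (N := 2 ^ n) (NY := 2 ^ y)
    (s := s) (s' := s') (S := 2 ^ (9 * U) - 2) (w0 := w0) (t0X := 2 ^ (n - U))
    (M0X := 2 ^ (n - 2 * U)) (t0Y := 2 ^ (y - U)) (M0Y := 2 ^ (y - 5 * U - 1)) (w := 12 * w0)
    (tX := 2 ^ (n - 12 * U)) (MX := 2 ^ (n - 24 * U)) (tY := 2 ^ (y - 40 * U - 3))
    (MY := 2 ^ (y - 66 * U - 4)) (M' := 2 ^ (y - 31 * U - 2)) (w' := w') (tX' := 2 ^ (n - V))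
    (tY' := 2 ^ (y - V)) (MY' := 2 ^ (y - 3 * V - 2 * m - 1)) (p := p)
    (γ := IndexNum_E (-(a + 4))) (μ := IndexNum_E (-(68 * U))) (θ := IndexNum_E (-V))
    (ζ := IndexNum_E (-(1000 * U))) (IndexNum_le (i := 1) (by omega)) ?_ (Fintype.card_fin _)
    (Fintype.card_fin _) ?_ ?_ ?_ ?_ ?_ ?_ ?_ ?_ ?_ ?_ ?_ ?_ ?_ ?_ ?_ ?_ ?_ ?_ ?_ ?_ ?_ ?_ ?_ ?_
    (IndexNum_E_pos _).le (by omega) (IndexNum_E_pos _).le (by omega) ?_ ?_ ?_ (IndexNum_E_pos _)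
    ?_ ?_ (by omega) (IndexNum_E_pos _).le ?_ ?_ (hSys.mono f8 le_rfl)
  · rw [← pow_add]; congr 1; ring
  · rw [← pow_mul, hn]
  · rw [hy]
  · rw [k0, ← pow_add]
    exact IndexNum_le (by omega)
  · rw [k0, ← pow_add]
    exact IndexNum_le (by omega)
  · rw [r0, e4, ← pow_add, ← pow_add]
    exact IndexNum_lt (by omega)
  · rw [← mul_assoc]
    refine (Nat.mul_le_mul_right _ hs).trans ?_
    rw [← pow_add]
    exact IndexNum_le (by omega)
  · rw [← mul_assoc]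
    refine (Nat.mul_le_mul_right _ hs).trans ?_
    rw [← pow_add]
    exact IndexNum_le (by omega)
  · rw [← pow_succ']
    exact IndexNum_le (by omega)
  · rw [← pow_succ']
    exact IndexNum_le (by omega)
  · rw [r0, e16, ← pow_add, ← pow_succ]
    have h1 := Nat.mul_le_mul_right (2 ^ (4 * m + 2 * U + 1)) hs'
    rw [← pow_add] at h1
    have h2 := IndexNum_add (i := 2) (j := 2 * U) (k := 2 * U + 1) (by omega) (by omega)
    have h3 := IndexNum_add (i := 2 * U + 1) (j := 2 * U + (4 * m + 2 * U + 1)) (k := 9 * U)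
      (by omega) (by omega)
    omega
  · rw [k1, ← pow_add]
    exact IndexNum_le (by omega)
  · rw [k1, ← pow_add]
    exact IndexNum_le (by omega)
  · rw [hS2, ← pow_add, ← pow_succ']
    exact IndexNum_le (by omega)
  · rw [← pow_succ']
    exact IndexNum_le (by omega)
  · rw [r1, e4, ← pow_add, ← pow_add, ← pow_succ']
    exact IndexNum_le (by omega)
  · rw [hS2, ← pow_add]
    exact IndexNum_add (by omega) (by omega)
  · rw [r1, e4, ← pow_add, ← pow_add]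
    exact IndexNum_lt (by omega)
  · rw [show 4 = 2 ^ 2 from rfl, ← pow_add]
    exact IndexNum_le (by omega)
  · rw [e4, ← pow_add]
    exact IndexNum_le (by omega)
  · rw [k2, ← pow_add]
    exact IndexNum_le (by omega)
  · rw [r2, e4, ← pow_add, ← pow_add]
    exact IndexNum_lt (by omega)
  · rw [e4, ← pow_add]
    exact IndexNum_le (by omega)
  · rw [IndexNum_E_nat, IndexNum_E_nat, IndexNum_E_mul]
    exact IndexNum_E_le (by omega)
  · rw [IndexNum_E_nat, IndexNum_E_nat, IndexNum_E_mul]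
    exact IndexNum_E_le (by omega)
  · refine (Nat.cast_le.2 fq).trans ?_
    rw [IndexNum_E_nat, IndexNum_E_nat, IndexNum_E_pow, IndexNum_E_mul]
    exact IndexNum_E_le (by omega)
  · rw [g16]
    exact (IndexNum_E_le (y := 0) (by omega)).trans (zpow_zero 2).le
  · rw [g16]
    refine IndexNum_exp (IndexNum_E_pos _).le ?_
    have h1 : ((4 * m : ℕ) : ℝ) ≤ (2 ^ a : ℕ) := Nat.cast_le.2 hma
    rw [IndexNum_E_nat] at h1
    have h2 := mul_le_mul_of_nonneg_right h1 (IndexNum_E_pos (-a)).le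
    have h3 : IndexNum_E 0 = 1 := zpow_zero 2
    rw [IndexNum_E_mul, add_neg_cancel, h3] at h2
    push_cast at h2
    linarith
  · rw [IndexNum_E_nat, IndexNum_E_nat, IndexNum_E_mul]
    exact IndexNum_E_le (by omega)
  · rw [IndexNum_E_nat, IndexNum_E_nat, IndexNum_E_mul]
    exact IndexNum_E_le (by omega)
  · rw [hS2, r3, e8, ← pow_add]
    have h1 : 3 * s' + 2 ^ (9 * U) ≤ 2 ^ (9 * U + 1) := by
      have h2 := IndexNum_add (i := 2 * U + 2) (j := 9 * U) (k := 9 * U + 1) (by omega) (by omega)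
      rw [pow_add] at h2
      omega
    refine (Nat.cast_le.2 (Nat.mul_le_mul_right _ h1)).trans ?_
    rw [← pow_add, IndexNum_E_nat, IndexNum_E_nat, IndexNum_E_pow, IndexNum_E_mul]
    exact IndexNum_E_le (by omega)
  · have h0 : ((2 ^ (9 * U) - 2 : ℕ) : ℝ) + 2 = IndexNum_E (9 * U : ℕ) := by
      rw [← IndexNum_E_nat, ← hS2, Nat.add_sub_cancel]
      norm_cast
    have h1 : IndexNum_E (-a) ^ (D.d - 2 * w') = IndexNum_E (-W) := by
      rw [IndexNum_E_pow, hW, Nat.cast_mul, neg_mul]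
    have h8 : IndexNum_E (-(68 * U)) ^ 2 / 8 = IndexNum_E (-(136 * U) - 3) := by
      have h9 : (8 : ℝ) = IndexNum_E 3 := by unfold IndexNum_E; norm_num
      rw [div_eq_iff (by norm_num), h9, IndexNum_E_pow, IndexNum_E_mul]
      congr 1
      push_cast
      ring
    rw [h0, g16, h1, h8, r1, e16, ← pow_add, IndexNum_E_nat, IndexNum_E_real, IndexNum_E_real,
      IndexNum_E_mul]
    have h2 : IndexNum_E (-V) + IndexNum_E (-W) ≤ IndexNum_E (1 - 187 * U) :=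
      IndexNum_E_add (by omega) (by omega)
    have h3 := mul_le_mul_of_nonneg_left (mul_le_mul_of_nonneg_left h2
      (IndexNum_E_pos (m + 2 : ℕ)).le) (IndexNum_E_pos (4 * m + 24 * U : ℕ)).le
    rw [IndexNum_E_mul, IndexNum_E_mul] at h3
    have h4 := IndexNum_E_add (x := (4 * m + 24 * U : ℕ) + ((m + 2 : ℕ) + (1 - 187 * U)))
      (y := m + -(1000 * U)) (z := 4 - 158 * U) (by omega) (by omega)
    refine lt_of_le_of_lt (mul_le_mul_of_nonneg_left ((add_le_add h3 le_rfl).trans h4)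
      (IndexNum_E_pos _).le) ?_
    rw [IndexNum_E_mul]
    exact IndexNum_E_lt (by omega)

end Pool.Agent.Lib.MP_7836d5_lc.LP
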