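import Pool.Agent.Lib.MP_7836d5_lc.LP.IPMain
import Pool.Agent.Lib.MP_7836d5_lc.LP.IndexNum

set_option autoImplicit false

namespace Pool.Agent.Lib.MP_7836d5_lc.LP

open Finset

/-- `ip_lift` with (all powers of two; see `IndexNum.lean` for the style) `w0 = m / 25000000`
(so `25000 w0 ≤ d ≤ m`, `8 ≤ w0`), `U = 2 c w0` (so `m ≤ U`, as `hc` gives `8 m ≤ c`, and
`16 c ≤ U`), `b = 16 c`, `ρ = 2 ^ (14 c)`, `κ = 2 ^ (2 c)`, `σ = 2 ^ (c - 1)`, `n = 16 c m`,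
`t0 = 2 ^ (n - U)`, `M00 = 2 ^ (n - 8 U - 1)`, `M0 = 2 ^ (n - 10 U)`, `S = 2 ^ (23 U)`
(`S + s' + 1 ≤ 2 ^ (24 U)`), `w = 35 w0`, `t = 2 ^ (n - 35 U)`, `M = 2 ^ (n - 281 U)`,
`μ = 2 ^ (-285 U)`, `w' = d / 5`, `t' = 2 ^ (n - 2 c w')`, `θ = 2 ^ (-2 c w')`, `ε = 2 ^ (-c)`,
`J = 2 ^ (1160 U)`, `ζ = 2 ^ (-1000 U)`; finish with `Sys.mono`. -/
theorem ip_bound {m c : ℕ} (D : PD (Fin m)) (hD : D.d = m / 1000) (hm : 200000000 ≤ m)
    (hc : 32 * (16 * c + 1) ^ (8 * m) ≤ 2 ^ c) {s s' : ℕ}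
    (hs : 2 * s ≤ 2 ^ (2 * c * (m / 25000000))) (hs' : s' ≤ 2 ^ (2 * (2 * c * (m / 25000000)))) :
    ¬ Sys D (gP (16 * c)) (SQ s') 8 s s' := by
  intro hSys
  obtain ⟨w0, hw0⟩ : ∃ w0, w0 = m / 25000000 := ⟨_, rfl⟩
  rw [← hw0] at hs hs'
  obtain ⟨w', hw'⟩ : ∃ w', w' = D.d / 5 := ⟨_, rfl⟩
  obtain ⟨U, hU⟩ : ∃ U, U = 2 * c * w0 := ⟨_, rfl⟩
  rw [← hU] at hs hs'
  obtain ⟨V, hV⟩ : ∃ V, V = 2 * c * w' := ⟨_, rfl⟩
  obtain ⟨n, hn⟩ : ∃ n, n = 16 * c * m := ⟨_, rfl⟩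
  obtain ⟨p, hp⟩ : ∃ p, p = 16 * c * D.d := ⟨_, rfl⟩
  obtain ⟨W, hW⟩ : ∃ W, W = c * (D.d - 4 * w') := ⟨_, rfl⟩
  obtain ⟨Z, hZ⟩ : ∃ Z, Z = 16 * c * (m - (D.d - 4 * (w0 + 35 * w0))) := ⟨_, rfl⟩
  have f8 : 8 ≤ w0 := by omega
  have hc0 : c ≠ 0 := by
    rintro rfl
    simp at hc
  have fc : 8 * m ≤ c := by
    have h1 : 2 ^ (8 * m) ≤ (16 * c + 1) ^ (8 * m) := Nat.pow_le_pow_left (by omega) _
    exact (Nat.pow_le_pow_iff_right one_lt_two).1 (by omega : 2 ^ (8 * m) ≤ 2 ^ c)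
  have fU : 16 * c ≤ U := by
    calc 16 * c = 2 * c * 8 := by ring
      _ ≤ U := by rw [hU]; exact Nat.mul_le_mul_left _ f8
  have fV : 5000 * U ≤ V := by
    rw [hU, hV, mul_comm 5000, mul_assoc _ w0]
    exact Nat.mul_le_mul_left _ (by omega)
  have fp : 40 * V ≤ p := by
    calc 40 * V = 16 * c * (5 * w') := by rw [hV]; ring
      _ ≤ p := by rw [hp]; exact Nat.mul_le_mul_left _ (by omega)
  have fn : p ≤ n := by
    rw [hp, hn]
    exact Nat.mul_le_mul_left _ (by omega)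
  have fW : 2500 * U ≤ W := by
    calc 2500 * U = c * (5000 * w0) := by rw [hU]; ring
      _ ≤ W := by rw [hW]; exact Nat.mul_le_mul_left _ (by omega)
  have fZ : Z + p = n + 1152 * U := by
    have e : m - (D.d - 4 * (w0 + 35 * w0)) + D.d = m + 144 * w0 := by omega
    calc Z + p = 16 * c * (m - (D.d - 4 * (w0 + 35 * w0)) + D.d) := by rw [hZ, hp]; ring
      _ = n + 1152 * U := by rw [e, hn, hU]; ring
  have k0 : (2 ^ (2 * c)) ^ w0 = 2 ^ U := by rw [← pow_mul, hU]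
  have p0 : (2 ^ (14 * c)) ^ w0 = 2 ^ (7 * U) := by
    rw [← pow_mul, hU]; congr 1; ring
  have r0 : (2 ^ (16 * c)) ^ w0 = 2 ^ (8 * U) := by
    rw [← pow_mul, hU]; congr 1; ring
  have k1 : (2 ^ (2 * c)) ^ (35 * w0) = 2 ^ (35 * U) := by
    rw [← pow_mul, hU]; congr 1; ring
  have p1 : (2 ^ (14 * c)) ^ (35 * w0) = 2 ^ (245 * U) := by
    rw [← pow_mul, hU]; congr 1; ring
  have r1 : (2 ^ (16 * c)) ^ (35 * w0) = 2 ^ (280 * U) := by
    rw [← pow_mul, hU]; congr 1; ring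
  have k2 : (2 ^ (2 * c)) ^ w' = 2 ^ V := by rw [← pow_mul, hV]
  have r3 : (2 ^ (16 * c)) ^ (m - (D.d - 4 * (w0 + 35 * w0))) = 2 ^ Z := by rw [← pow_mul, hZ]
  have e8 : 8 ^ m = 2 ^ (3 * m) := (pow_mul 2 3 m).symm
  have e16 : 16 ^ m = 2 ^ (4 * m) := (pow_mul 2 4 m).symm
  have s2 : 2 * 2 ^ (c - 1) = 2 ^ c := by
    rw [← pow_succ']; congr 1; omega
  have hS : 2 ^ (23 * U) + s' + 1 ≤ 2 ^ (24 * U) := by
    have h1 := IndexNum_add (i := 2 * U) (j := 0) (k := 2 * U + 1) (by omega) (by omega)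
    have h2 := IndexNum_add (i := 23 * U) (j := 2 * U + 1) (k := 24 * U) (by omega) (by omega)
    omega
  have h144 : 144 * (2 ^ c) ^ 3 ≤ 2 ^ (3 * c + 8) := by
    rw [← pow_mul, mul_comm c, pow_add]
    omega
  refine ip_lift D (b := 16 * c) (ρ := 2 ^ (14 * c)) (κ := 2 ^ (2 * c)) (σ := 2 ^ (c - 1))
    (r := 2 ^ (16 * c)) (m := m) (N := 2 ^ n) (s := s) (s' := s') (S := 2 ^ (23 * U)) (w0 := w0)
    (t0 := 2 ^ (n - U)) (M00 := 2 ^ (n - 8 * U - 1)) (M0 := 2 ^ (n - 10 * U)) (w := 35 * w0)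
    (t := 2 ^ (n - 35 * U)) (M := 2 ^ (n - 281 * U)) (w' := w') (t' := 2 ^ (n - V))
    (J := 2 ^ (1160 * U)) (ε := IndexNum_E (-c)) (μ := IndexNum_E (-(285 * U)))
    (θ := IndexNum_E (-V)) (ζ := IndexNum_E (-(1000 * U))) (IndexNum_le (i := 1) (by omega))
    (by positivity) ?_ rfl (Fintype.card_fin _) ?_ ?_ ?_ ?_ ?_ ?_ ?_ ?_ ?_ ?_ ?_ ?_ ?_ ?_
    (IndexNum_E_pos _).le (by omega) (IndexNum_E_pos _).le ?_ ?_ ?_ (IndexNum_E_pos _) ?_
    (by omega) (IndexNum_E_pos _).le (by positivity) ?_ ?_ (hSys.mono (by omega) le_rfl)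
  · rw [← pow_add]; congr 1; ring
  · rw [← pow_mul, hn]
  · have h1 : (16 * c + 1) ^ (8 * m) = (((16 * c + 1) ^ m) ^ 2) ^ 4 := by
      rw [← pow_mul, ← pow_mul]; congr 1; ring
    have h2 : 1 ≤ ((16 * c + 1) ^ m) ^ 2 := Nat.succ_le_of_lt (by positivity)
    rw [h1, ← s2] at hc
    generalize ((16 * c + 1) ^ m) ^ 2 = X at hc h2 ⊢
    have h3 : (X + 1) ^ 4 ≤ (2 * X) ^ 4 := Nat.pow_le_pow_left (by omega) 4
    rw [mul_pow] at h3
    omega
  · rw [k0, ← pow_add]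
    exact IndexNum_le (by omega)
  · rw [p0, ← pow_succ', ← pow_add]
    exact IndexNum_le (by omega)
  · rw [← pow_add]
    exact IndexNum_le (by omega)
  · rw [← mul_assoc]
    refine (Nat.mul_le_mul_right _ hs).trans ?_
    rw [← pow_add]
    exact IndexNum_le (by omega)
  · rw [← pow_succ']
    exact IndexNum_le (by omega)
  · rw [r0, e16, ← pow_add, ← pow_add, ← pow_succ]
    have h1 := Nat.mul_le_mul_right (2 ^ (4 * m + 8 * U + 8 * U + 1)) hs'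
    rw [← pow_add] at h1
    have h2 := IndexNum_add (i := 2) (j := 2 * U) (k := 2 * U + 1) (by omega) (by omega)
    have h3 := IndexNum_add (i := 2 * U + 1) (j := 2 * U + (4 * m + 8 * U + 8 * U + 1))
      (k := 23 * U) (by omega) (by omega)
    omega
  · rw [k1, ← pow_add]
    exact IndexNum_le (by omega)
  · rw [p1, ← pow_succ', ← pow_add]
    exact IndexNum_le (by omega)
  · rw [s2]
    refine (Nat.mul_le_mul_left _ (Nat.mul_le_mul_right _ hS)).trans ?_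
    rw [← pow_add, ← pow_add]
    exact IndexNum_le (by omega)
  · rw [show 4 = 2 ^ 2 from rfl, ← pow_add]
    exact IndexNum_le (by omega)
  · rw [k2, ← pow_add]
    exact IndexNum_le (by omega)
  · rw [IndexNum_E_nat, IndexNum_E_nat, IndexNum_E_mul]
    exact IndexNum_E_le (by omega)
  · exact (IndexNum_E_le (y := 0) (by omega)).trans (zpow_zero 2).le
  · refine IndexNum_exp (IndexNum_E_pos _).le ?_
    have h1 : ((4 * m : ℕ) : ℝ) ≤ (2 ^ c : ℕ) :=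
      Nat.cast_le.2 (le_trans (by omega) (Nat.lt_two_pow_self (n := c)).le)
    rw [IndexNum_E_nat] at h1
    have h2 := mul_le_mul_of_nonneg_right h1 (IndexNum_E_pos (-c)).le
    have h3 : IndexNum_E 0 = 1 := zpow_zero 2
    rw [IndexNum_E_mul, add_neg_cancel, h3] at h2
    push_cast at h2
    linarith
  · rw [s2]
    have h1 : 4 * 2 ^ c * (144 * (2 ^ c) ^ 3) ≤ 2 ^ (4 * c + 10) := by
      refine (Nat.mul_le_mul_left _ h144).trans ?_
      rw [show 4 = 2 ^ 2 from rfl, ← pow_add, ← pow_add]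
      exact IndexNum_le (by omega)
    refine (mul_le_mul_of_nonneg_right (pow_le_pow_left₀ (Nat.cast_nonneg _) (Nat.cast_le.2 h1) 2)
      (Nat.cast_nonneg _)).trans ?_
    rw [IndexNum_E_nat, IndexNum_E_nat, IndexNum_E_nat, IndexNum_E_pow, IndexNum_E_pow,
      IndexNum_E_pow, IndexNum_E_mul, IndexNum_E_mul]
    exact IndexNum_E_le (by omega)
  · rw [s2]
    refine (mul_le_mul_of_nonneg_left (Nat.cast_le.2 h144)
      (mul_nonneg (IndexNum_E_pos _).le (Nat.cast_nonneg _))).trans ?_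
    rw [IndexNum_E_nat, IndexNum_E_nat, IndexNum_E_nat, IndexNum_E_mul, IndexNum_E_mul]
    exact IndexNum_E_le (by omega)
  · rw [r3, e8, ← pow_add]
    have h1 : 3 * s' + 5 * (2 ^ (23 * U) + s' + 1) ≤ 2 ^ (24 * U + 3) := by
      have h2 : s' ≤ 2 ^ (24 * U) := hs'.trans (IndexNum_le (by omega))
      rw [pow_add]
      omega
    refine (Nat.cast_le.2 (Nat.mul_le_mul_right _ h1)).trans ?_
    rw [← pow_add, IndexNum_E_nat, IndexNum_E_nat, IndexNum_E_pow, IndexNum_E_mul]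
    exact IndexNum_E_le (by omega)
  · have h0 : ((2 ^ (23 * U) : ℕ) : ℝ) + s' + 1 ≤ IndexNum_E (24 * U : ℕ) := by
      rw [← IndexNum_E_nat (24 * U)]
      exact_mod_cast hS
    have h1 : IndexNum_E (-c) ^ (D.d - 4 * w') = IndexNum_E (-W) := by
      rw [IndexNum_E_pow, hW, Nat.cast_mul, neg_mul]
    have h8 : IndexNum_E (-(285 * U)) ^ 2 / 512 = IndexNum_E (-(570 * U) - 9) := by
      have h9 : (512 : ℝ) = IndexNum_E 9 := by unfold IndexNum_E; norm_num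
      rw [div_eq_iff (by norm_num), h9, IndexNum_E_pow, IndexNum_E_mul]
      congr 1
      push_cast
      ring
    have hJ : 8 * ((2 ^ (1160 * U) : ℕ) : ℝ) + 4 ≤ IndexNum_E (1160 * U + 4 : ℕ) := by
      rw [← IndexNum_E_nat (1160 * U + 4)]
      have : 8 * 2 ^ (1160 * U) + 4 ≤ 2 ^ (1160 * U + 4) := by
        have := Nat.one_le_two_pow (n := 1160 * U)
        rw [pow_add]
        omega
      exact_mod_cast this
    have hJ2 : (2 : ℝ) ^ (m + 1) / (2 ^ (1160 * U) : ℕ) = IndexNum_E (m + 1 - 1160 * U) := by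
      rw [div_eq_iff (by positivity), IndexNum_E_nat, IndexNum_E_real, IndexNum_E_mul]
      congr 1
      push_cast
      ring
    rw [h1, h8, hJ2, r1, e16, ← pow_add, ← pow_add, IndexNum_E_nat (_ + _), IndexNum_E_real,
      IndexNum_E_real, IndexNum_E_mul]
    have h2 : IndexNum_E (-V) + IndexNum_E (-W) ≤ IndexNum_E (1 - 2500 * U) :=
      IndexNum_E_add (by omega) (by omega)
    have h3 := mul_le_mul hJ (mul_le_mul_of_nonneg_left h2 (IndexNum_E_pos (m + 2 : ℕ)).le)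
      (mul_nonneg (IndexNum_E_pos _).le (add_nonneg (IndexNum_E_pos _).le (IndexNum_E_pos _).le))
      (IndexNum_E_pos _).le
    rw [IndexNum_E_mul, IndexNum_E_mul] at h3
    have h4 := (add_le_add h3 le_rfl).trans (IndexNum_E_add (y := m + 1 - 1160 * U)
      (z := -(1159 * U)) (by omega) (by omega))
    have h5 := mul_le_mul_of_nonneg_left h4 (IndexNum_E_pos (4 * m + 280 * U + 280 * U : ℕ)).le
    rw [IndexNum_E_mul] at h5
    have h6 := (add_le_add h5 le_rfl).trans (IndexNum_E_add (y := (m + 1 : ℕ) + -(1000 * U))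
      (z := -(598 * U)) (by omega) (by omega))
    refine lt_of_le_of_lt (mul_le_mul h0 h6 ?_ (IndexNum_E_pos _).le) ?_
    · have := IndexNum_E_pos
      refine add_nonneg (mul_nonneg (this _).le (add_nonneg (mul_nonneg (by positivity)
        (mul_nonneg (this _).le (add_nonneg (this _).le (this _).le))) (this _).le)) (this _).le
    · rw [IndexNum_E_mul]
      exact IndexNum_E_lt (by omega)

end Pool.Agent.Lib.MP_7836d5_lc.LP
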