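import Mathlib

set_option autoImplicit false
set_option linter.unusedSectionVars false

namespace Pool.Agent.Lib.MP_7836d5_lc.LP

open Finset

/-- `n.choose j ≤ n ^ j / j!` (`Nat.choose_le_pow_div`) and `j ^ j / j! ≤ exp j ≤ 3 ^ j`
(`Real.pow_div_factorial_le_exp`, `Real.exp_one_lt_d9`) -/
lemma choose_mul_le (n j : ℕ) : n.choose j * j ^ j ≤ (3 * n) ^ j := by
  have h1 : (n.choose j : ℝ) ≤ (n : ℝ) ^ j / (j.factorial : ℝ) := Nat.choose_le_pow_div j n
  have h2 : (j : ℝ) ^ j / (j.factorial : ℝ) ≤ Real.exp j :=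
    Real.pow_div_factorial_le_exp (j : ℝ) (Nat.cast_nonneg j) j
  have h3 : Real.exp j ≤ 3 ^ j := by
    rw [← Real.exp_one_pow]
    exact pow_le_pow_left₀ (Real.exp_pos 1).le (by linarith [Real.exp_one_lt_d9]) j
  have h4 : ((n.choose j * j ^ j : ℕ) : ℝ) ≤ (((3 * n) ^ j : ℕ) : ℝ) := by
    push_cast
    calc (n.choose j : ℝ) * (j : ℝ) ^ j ≤ (n : ℝ) ^ j / (j.factorial : ℝ) * (j : ℝ) ^ j :=
          mul_le_mul_of_nonneg_right h1 (by positivity)
      _ = (n : ℝ) ^ j * ((j : ℝ) ^ j / (j.factorial : ℝ)) := by ring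
      _ ≤ (n : ℝ) ^ j * 3 ^ j := mul_le_mul_of_nonneg_left (h2.trans h3) (by positivity)
      _ = (3 * (n : ℝ)) ^ j := by rw [mul_pow, mul_comm]
  exact_mod_cast h4

/-- multiply by `u ^ u * (5 * u) ^ (5 * u)` and use `choose_mul_le`; per unit of `u` the
inequality is `2 * (6 m) * (3 m) ^ 5 * (5 u) ^ 3 ≤ u * m ^ 8`, true as
`2 * 6 * 243 * 125 = 364500 ≤ 604 ^ 2` -/
lemma xor_count (m u : ℕ) (hu : 0 < u) (h : 604 * u ≤ m) :
    2 ^ u * ((2 * m).choose u * m.choose (5 * u) * (5 * u) ^ (8 * u)) ≤ m ^ (8 * u) := by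
  have a1 := choose_mul_le (2 * m) u
  have a2 := choose_mul_le m (5 * u)
  have a3 : 2 * (3 * (2 * m)) * (3 * m) ^ 5 * (5 * u) ^ 3 ≤ u * m ^ 8 := by
    have b1 : (604 * u) ^ 2 ≤ m ^ 2 := Nat.pow_le_pow_left h 2
    have b2 : 364500 * u ^ 2 ≤ m ^ 2 := by nlinarith
    calc 2 * (3 * (2 * m)) * (3 * m) ^ 5 * (5 * u) ^ 3 = u * m ^ 6 * (364500 * u ^ 2) := by ring
      _ ≤ u * m ^ 6 * m ^ 2 := Nat.mul_le_mul_left _ b2
      _ = u * m ^ 8 := by ring
  have a4 := Nat.pow_le_pow_left a3 u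
  have a5 : (5 * u) ^ (8 * u) = (5 * u) ^ (5 * u) * ((5 * u) ^ 3) ^ u := by
    rw [← pow_mul, ← pow_add]
    congr 1
    ring
  refine Nat.le_of_mul_le_mul_left ?_ (pow_pos hu u)
  calc u ^ u * (2 ^ u * ((2 * m).choose u * m.choose (5 * u) * (5 * u) ^ (8 * u)))
      = 2 ^ u * ((2 * m).choose u * u ^ u) * (m.choose (5 * u) * (5 * u) ^ (5 * u)) *
          ((5 * u) ^ 3) ^ u := by rw [a5]; ring
    _ ≤ 2 ^ u * (3 * (2 * m)) ^ u * (3 * m) ^ (5 * u) * ((5 * u) ^ 3) ^ u :=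
        Nat.mul_le_mul_right _ (Nat.mul_le_mul (Nat.mul_le_mul_left _ a1) a2)
    _ = (2 * (3 * (2 * m)) * (3 * m) ^ 5 * (5 * u) ^ 3) ^ u := by
        rw [mul_pow (2 * (3 * (2 * m)) * (3 * m) ^ 5), mul_pow (2 * (3 * (2 * m))), mul_pow 2,
          ← pow_mul (3 * m)]
    _ ≤ (u * m ^ 8) ^ u := a4
    _ = u ^ u * m ^ (8 * u) := by rw [mul_pow, ← pow_mul]

/-- The maps sending `U × Fin 8` into `S`. -/
def xor0Bad (m : ℕ) (U : Finset (Fin (2 * m))) (S : Finset (Fin m)) :
    Finset (Fin (2 * m) → Fin 8 → Fin m) :=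
  Fintype.piFinset fun v => if v ∈ U then Fintype.piFinset fun _ => S else univ

lemma xor0_card_bad (m : ℕ) (U : Finset (Fin (2 * m))) (S : Finset (Fin m)) :
    (xor0Bad m U S).card = S.card ^ (8 * U.card) * m ^ (8 * (2 * m - U.card)) := by
  have h1 : ∀ v : Fin (2 * m), (if v ∈ U then Fintype.piFinset fun _ : Fin 8 => S
      else (univ : Finset (Fin 8 → Fin m))).card = if v ∈ U then S.card ^ 8 else m ^ 8 := by
    intro v
    split_ifs <;> simp
  have h2 : (univ.filter fun v : Fin (2 * m) => v ∉ U).card = 2 * m - U.card := by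
    have : (univ.filter fun v : Fin (2 * m) => v ∉ U) = Uᶜ := by ext v; simp
    rw [this, card_compl, Fintype.card_fin]
  rw [xor0Bad, Fintype.card_piFinset]
  simp only [h1]
  rw [prod_ite, prod_const, prod_const, h2, ← pow_mul, ← pow_mul]
  simp

lemma xor0_geom (s : Finset ℕ) (hs : ∀ u ∈ s, 2 ≤ u) : ∑ u ∈ s, (1 / 2 : ℝ) ^ u ≤ 1 / 2 := by
  have h0 : 0 ∉ insert 1 s := by
    simp only [mem_insert, not_or]
    exact ⟨by norm_num, fun h => by have := hs 0 h; omega⟩
  have h1 : 1 ∉ s := fun h => by have := hs 1 h; omega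
  have h2 := summable_geometric_two.sum_le_tsum (insert 0 (insert 1 s))
    (fun i _ => by positivity)
  rw [tsum_geometric_two, sum_insert h0, sum_insert h1] at h2
  norm_num at h2 ⊢
  linarith

/-- Union bound over `u`, `U` with `U.card = u` and `S` with `S.card = 5 * u` of the number
`(5 u) ^ (8 u) * m ^ (8 * (2 m - u))` of maps `nb` sending `U × Fin 8` into `S`
(`Fintype.card_piFinset`); by `xor_count` the total is at most `∑ u ≥ 2, 2 ^ (-u) < 1` times the
number of all maps. A set with at most `5 u ≤ m` elements extends to one with exactly `5 u`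
(`Finset.exists_subsuperset_card_eq`). -/
lemma exists_expander (m : ℕ) (hm : 0 < m) : ∃ nb : Fin (2 * m) → Fin 8 → Fin m,
    ∀ U : Finset (Fin (2 * m)), 2 ≤ U.card → 604 * U.card ≤ m →
      5 * U.card < (U.biUnion fun v => univ.image (nb v)).card := by
  by_contra hcon
  push Not at hcon
  set I : Finset ℕ := (range (2 * m + 1)).filter fun u => 2 ≤ u ∧ 604 * u ≤ m with hI
  have hsub : (univ : Finset (Fin (2 * m) → Fin 8 → Fin m)) ⊆ I.biUnion fun u =>
      (powersetCard u univ).biUnion fun U => (powersetCard (5 * u) univ).biUnion fun S =>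
        xor0Bad m U S := by
    intro nb _
    obtain ⟨U, h2, h604, hc⟩ := hcon nb
    obtain ⟨S, hS1, -, hS2⟩ := exists_subsuperset_card_eq
      (subset_univ (U.biUnion fun v => univ.image (nb v))) hc
      (by rw [card_univ, Fintype.card_fin]; omega)
    simp only [mem_biUnion]
    refine ⟨U.card, ?_, U, by simp [mem_powersetCard], S, by simp [mem_powersetCard, hS2], ?_⟩
    · simp only [hI, mem_filter, mem_range]
      omega
    · simp only [xor0Bad, Fintype.mem_piFinset]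
      intro v
      split_ifs with hv
      · simp only [Fintype.mem_piFinset]
        intro i
        exact hS1 (mem_biUnion.2 ⟨v, hv, mem_image_of_mem _ (mem_univ i)⟩)
      · exact mem_univ _
  have hcard : m ^ (8 * (2 * m)) ≤ ∑ u ∈ I, (2 * m).choose u * m.choose (5 * u) *
      (5 * u) ^ (8 * u) * m ^ (8 * (2 * m - u)) := by
    have e0 : (univ : Finset (Fin (2 * m) → Fin 8 → Fin m)).card = m ^ (8 * (2 * m)) := by
      simp [← pow_mul]
    rw [← e0]
    refine (card_le_card hsub).trans (card_biUnion_le.trans (sum_le_sum fun u _ => ?_))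
    refine card_biUnion_le.trans ?_
    refine (sum_le_card_nsmul _ _ (m.choose (5 * u) * ((5 * u) ^ (8 * u) *
      m ^ (8 * (2 * m - u)))) fun U hU => ?_).trans (le_of_eq ?_)
    · refine card_biUnion_le.trans ?_
      refine (sum_le_card_nsmul _ _ ((5 * u) ^ (8 * u) * m ^ (8 * (2 * m - u)))
        fun S hS => ?_).trans (le_of_eq ?_)
      · rw [xor0_card_bad, (mem_powersetCard.1 hU).2, (mem_powersetCard.1 hS).2]
      · simp [card_powersetCard]
    · simp only [card_powersetCard, card_univ, Fintype.card_fin, smul_eq_mul]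
      ring
  have hterm : ∀ u ∈ I, (((2 * m).choose u * m.choose (5 * u) * (5 * u) ^ (8 * u) *
      m ^ (8 * (2 * m - u)) : ℕ) : ℝ) ≤ ((m ^ (8 * (2 * m)) : ℕ) : ℝ) * (1 / 2) ^ u := by
    intro u hu
    simp only [hI, mem_filter, mem_range] at hu
    have a1 := Nat.mul_le_mul_right (m ^ (8 * (2 * m - u))) (xor_count m u (by omega) hu.2.2)
    have a2 : m ^ (8 * u) * m ^ (8 * (2 * m - u)) = m ^ (8 * (2 * m)) := by
      rw [← pow_add]
      congr 1
      omega
    rw [a2, mul_assoc] at a1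
    rw [one_div, inv_pow, ← div_eq_mul_inv, le_div_iff₀ (by positivity), mul_comm]
    exact_mod_cast a1
  have hM : (0 : ℝ) < ((m ^ (8 * (2 * m)) : ℕ) : ℝ) := by exact_mod_cast pow_pos hm _
  have h1 : ((m ^ (8 * (2 * m)) : ℕ) : ℝ) ≤ ((m ^ (8 * (2 * m)) : ℕ) : ℝ) * (1 / 2) := by
    calc ((m ^ (8 * (2 * m)) : ℕ) : ℝ) ≤ ((∑ u ∈ I, (2 * m).choose u * m.choose (5 * u) *
          (5 * u) ^ (8 * u) * m ^ (8 * (2 * m - u)) : ℕ) : ℝ) := by exact_mod_cast hcard
      _ ≤ ∑ u ∈ I, ((m ^ (8 * (2 * m)) : ℕ) : ℝ) * (1 / 2) ^ u := by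
          rw [Nat.cast_sum]
          exact sum_le_sum hterm
      _ ≤ _ := by
          rw [← mul_sum]
          refine mul_le_mul_of_nonneg_left (xor0_geom I fun u hu => ?_) hM.le
          exact (mem_filter.1 hu).2.1
  linarith

end Pool.Agent.Lib.MP_7836d5_lc.LP
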