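import Pool.Agent.Lib.MP_7836d5_lc.LP.Base
import Pool.Agent.Lib.MP_7836d5_lc.LP.Xor0

set_option autoImplicit false

/-! A sparse unsatisfiable parity system with a pseudo-density of linear degree. -/

namespace Pool.Agent.Lib.MP_7836d5_lc.LP

open Finset

def row {V E : Type} [DecidableEq E] (nb : V → Fin 8 → E) (v : V) : E → ZMod 2 :=
  ∑ i, Pi.single (nb v i) 1

lemma row_dot {V E : Type} [Fintype E] [DecidableEq E] (nb : V → Fin 8 → E) (v : V)
    (z : E → ZMod 2) : row nb v ⬝ᵥ z = ∑ i, z (nb v i) := by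
  simp only [row, sum_dotProduct, single_dotProduct, one_mul]

lemma supp_row {V E : Type} [Fintype E] [DecidableEq E] (nb : V → Fin 8 → E) (v : V) :
    supp (row nb v) ⊆ univ.image (nb v) := by
  intro e he
  by_contra h
  refine (mem_filter.1 he).2 ?_
  rw [row, Finset.sum_apply]
  exact sum_eq_zero fun i _ => Pi.single_eq_of_ne (fun k => h (mem_image.2 ⟨i, mem_univ _, k.symm⟩)) _

/-- Unique neighbours: let `c e` be the number of pairs `(v, i) ∈ U × Fin 8` with `nb v i = e`.
Then `∑ e, c e = 8 * U.card`, the coordinate `e` of the sum is `c e` mod `2`, and every `e` in the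
neighbourhood outside the support has `c e ≥ 2`. -/
lemma wt_sum_row {V E : Type} [DecidableEq V] [Fintype E] [DecidableEq E] (nb : V → Fin 8 → E)
    (U : Finset V) : 2 * (U.biUnion fun v => univ.image (nb v)).card ≤
      8 * U.card + (supp (∑ v ∈ U, row nb v)).card := by
  have hc : ∀ e, (∑ v ∈ U, row nb v) e =
      ((((U ×ˢ (univ : Finset (Fin 8))).filter fun p => nb p.1 p.2 = e).card : ℕ) : ZMod 2) := by
    intro e
    rw [card_filter, sum_product]
    simp only [row, Finset.sum_apply, Pi.single_apply, Nat.cast_sum, Nat.cast_ite, Nat.cast_one,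
      Nat.cast_zero, eq_comm]
  have h1 : (U ×ˢ (univ : Finset (Fin 8))).card = ∑ e ∈ U.biUnion fun v => univ.image (nb v),
      ((U ×ˢ (univ : Finset (Fin 8))).filter fun p => nb p.1 p.2 = e).card :=
    card_eq_sum_card_fiberwise fun p hp => mem_coe.2 (mem_biUnion.2
      ⟨p.1, (mem_product.1 (mem_coe.1 hp)).1, mem_image_of_mem _ (mem_univ _)⟩)
  rw [card_product, card_univ, Fintype.card_fin] at h1
  have h2 : ∑ e ∈ U.biUnion fun v => univ.image (nb v),
      (if e ∈ supp (∑ v ∈ U, row nb v) then 1 else 0) ≤ (supp (∑ v ∈ U, row nb v)).card := by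
    rw [← card_filter]
    exact card_le_card fun e he => (mem_filter.1 he).2
  refine le_trans ?_ (Nat.add_le_add_left h2 _)
  rw [mul_comm 8, h1, ← sum_add_distrib, mul_comm 2, ← smul_eq_mul, ← sum_const]
  refine sum_le_sum fun e he => ?_
  obtain ⟨v, hv, he⟩ := mem_biUnion.1 he
  obtain ⟨i, -, hi⟩ := mem_image.1 he
  have h3 : 0 < ((U ×ˢ (univ : Finset (Fin 8))).filter fun p => nb p.1 p.2 = e).card :=
    card_pos.2 ⟨(v, i), mem_filter.2 ⟨mem_product.2 ⟨hv, mem_univ _⟩, hi⟩⟩
  split_ifs with h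
  · omega
  · by_contra h4
    refine h (mem_filter.2 ⟨mem_univ _, ?_⟩)
    rw [hc, show ((U ×ˢ (univ : Finset (Fin 8))).filter fun p => nb p.1 p.2 = e).card = 1 by omega]
    decide

lemma xor_two : ∀ a : ZMod 2, a ≠ 0 → a = 1 := by decide

lemma xor_eq : ∀ a b : ZMod 2, a + b = 0 → a = b := by decide

lemma xor_self : ∀ a : ZMod 2, a + a = 0 := by decide

lemma xor_supp_add {V : Type} [Fintype V] [DecidableEq V] (U W : V → ZMod 2) :
    (supp (U + W)).card ≤ (supp U).card + (supp W).card := by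
  refine le_trans (card_le_card fun v hv => ?_) (card_union_le _ _)
  simp only [supp, mem_union, mem_filter, mem_univ, true_and, Pi.add_apply] at hv ⊢
  by_contra h
  push Not at h
  exact hv (by rw [h.1, h.2, add_zero])

lemma xor_supp_zero {V : Type} [Fintype V] [DecidableEq V] :
    (supp (0 : V → ZMod 2)).card = 0 := by
  simp [supp]

lemma xor_sum {V E : Type} [Fintype V] [DecidableEq V] (r : V → E → ZMod 2) (U : V → ZMod 2) :
    ∑ v, U v • r v = ∑ v ∈ supp U, r v := by
  rw [supp, sum_filter]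
  refine sum_congr rfl fun v _ => ?_
  split_ifs with h
  · rw [xor_two _ h, one_smul]
  · rw [not_not.1 h, zero_smul]

lemma xor_big {V E : Type} [Fintype V] [DecidableEq V] [Fintype E] (r : V → E → ZMod 2) {u0 : ℕ}
    (hV : Fintype.card E + u0 ≤ Fintype.card V) :
    ∃ U : V → ZMod 2, ∑ v, U v • r v = 0 ∧ u0 ≤ (supp U).card := by
  classical
  obtain ⟨U, hU, hmax⟩ := exists_max_image (univ.filter fun U : V → ZMod 2 => ∑ v, U v • r v = 0)
    (fun U => (supp U).card) ⟨0, by simp⟩
  refine ⟨U, (mem_filter.1 hU).2, le_of_not_gt fun h => ?_⟩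
  have h1 : ¬ LinearIndepOn (ZMod 2) r ((supp U)ᶜ : Finset V) := fun k => by
    have h2 := LinearIndependent.fintype_card_le_finrank k
    simp only [coe_sort_coe, Fintype.card_coe, card_compl, Module.finrank_pi] at h2
    omega
  rw [linearIndepOn_finset_iff] at h1
  push Not at h1
  obtain ⟨f, hf, v, hv, hfv⟩ := h1
  obtain ⟨W, w1, w2⟩ : ∃ W : V → ZMod 2, (∀ w ∈ supp U, W w = U w) ∧
      ∀ w ∈ (supp U)ᶜ, W w = f w :=
    ⟨fun v => if v ∈ supp U then U v else f v, fun w hw => if_pos hw,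
      fun w hw => if_neg (mem_compl.1 hw)⟩
  have h3 := hmax W (mem_filter.2 ⟨mem_univ _, ?_⟩)
  · refine absurd h3 (not_le.2 (card_lt_card ⟨fun w hw => ?_, fun k => ?_⟩))
    · exact mem_filter.2 ⟨mem_univ _, w1 w hw ▸ (mem_filter.1 hw).2⟩
    · exact mem_compl.1 hv (k (mem_filter.2 ⟨mem_univ _, w2 v hv ▸ hfv⟩))
  · rw [← sum_add_sum_compl (supp U), sum_congr rfl fun w hw => by rw [w1 w hw],
      sum_congr (s₁ := (supp U)ᶜ) rfl fun w hw => by rw [w2 w hw], hf, add_zero,
      ← (mem_filter.1 hU).2]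
    refine sum_subset (subset_univ _) fun w _ hw => ?_
    have : U w = 0 := by simpa [supp] using hw
    rw [this, zero_smul]

/-- Let `φ U = ∑ v, U v • r v` for `U : V → ZMod 2`. By the gap, the `U` with `φ U = 0` and
`(supp U).card < u0` form a submodule `D0`. A `U1` with `φ U1 = 0` of largest support has
`u0 ≤ (supp U1).card`: otherwise more than `card E` indices lie outside its support, two different
vectors supported there have the same image (pigeonhole), and adding their sum enlarges the support.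
Take a linear functional `c` vanishing on `D0` with `c U1 = 1`
(`Submodule.exists_le_ker_of_notMem` or `Submodule.exists_dual_map_eq_bot_of_notMem`), charges
`c (Pi.single v 1)`, `fam` the images `φ U` of weight at most `d` with `(supp U).card < u0`, and
`sg S = c U` for a chosen such `U` (`0` if there is none). -/
lemma exists_pd {V E : Type} [Fintype V] [DecidableEq V] [Fintype E] [DecidableEq E]
    (r : V → E → ZMod 2) {d u0 : ℕ} (hu : 1 < u0) (hV : Fintype.card E + u0 ≤ Fintype.card V)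
    (hr : ∀ v, (supp (r v)).card ≤ d)
    (gap : ∀ U : Finset V, u0 ≤ U.card → U.card < 2 * u0 → d < (supp (∑ v ∈ U, r v)).card) :
    ∃ (c : V → ZMod 2) (D : PD E), D.d = d ∧ (∀ z, ∃ v, r v ⬝ᵥ z ≠ c v) ∧
      ∀ v, r v ∈ D.fam ∧ D.sg (r v) = c v := by
  classical
  obtain ⟨φ, hφ⟩ : ∃ φ : (V → ZMod 2) →ₗ[ZMod 2] (E → ZMod 2), ∀ U, φ U = ∑ v, U v • r v :=
    ⟨Fintype.linearCombination (ZMod 2) r, Fintype.linearCombination_apply _ _⟩
  have K : ∀ U W : V → ZMod 2, (supp U).card < u0 → (supp W).card < u0 →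
      (supp (φ U + φ W)).card ≤ d → (supp (U + W)).card < u0 := by
    intro U W h1 h2 h3
    have h4 := xor_supp_add U W
    rw [← map_add, hφ, xor_sum] at h3
    exact lt_of_not_ge fun h => absurd h3 (not_le.2 (gap _ h (by omega)))
  have h0 : (supp (0 : V → ZMod 2)).card < u0 := by rw [xor_supp_zero]; omega
  have hd : (supp (0 : E → ZMod 2)).card ≤ d := by rw [xor_supp_zero]; omega
  let D0 : Submodule (ZMod 2) (V → ZMod 2) :=
    { carrier := {U | φ U = 0 ∧ (supp U).card < u0}
      add_mem' := fun {U W} hU hW => ⟨by rw [map_add, hU.1, hW.1, add_zero],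
        K U W hU.2 hW.2 (by rwa [hU.1, hW.1, add_zero])⟩
      zero_mem' := ⟨map_zero _, h0⟩
      smul_mem' := fun a U hU => by
        by_cases ha : a = 0
        · rw [ha, zero_smul]
          exact ⟨map_zero _, h0⟩
        · rwa [xor_two a ha, one_smul] }
  obtain ⟨U1, h1, h2⟩ := xor_big r hV
  obtain ⟨c, c1, c2⟩ := Submodule.exists_le_ker_of_notMem (p := D0) (v := U1)
    fun h => absurd h.2 (not_lt.2 h2)
  obtain ⟨sg, hsg⟩ : ∃ sg : (E → ZMod 2) → ZMod 2,
      ∀ U, (supp U).card < u0 → sg (φ U) = c U := by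
    refine ⟨fun S => if h : ∃ U, φ U = S ∧ (supp U).card < u0 then c h.choose else 0,
      fun U hU => ?_⟩
    have h : ∃ W, φ W = φ U ∧ (supp W).card < u0 := ⟨U, rfl, hU⟩
    have h3 : φ h.choose + φ U = 0 := by
      rw [h.choose_spec.1]
      exact funext fun e => xor_self _
    simp only [dif_pos h]
    refine xor_eq _ _ ?_
    rw [← map_add]
    exact c2 ⟨by rwa [map_add], K _ _ h.choose_spec.2 hU (by rwa [h3])⟩
  have hs : ∀ v, φ (Pi.single v 1) = r v ∧ (supp (Pi.single v 1 : V → ZMod 2)).card < u0 := by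
    intro v
    have h3 : supp (Pi.single v 1 : V → ZMod 2) = {v} := by
      ext w
      by_cases h : w = v <;> simp [supp, h]
    rw [hφ, xor_sum, h3, sum_singleton, card_singleton]
    exact ⟨rfl, hu⟩
  refine ⟨fun v => c (Pi.single v 1),
    { d := d
      fam := univ.filter fun S => (supp S).card ≤ d ∧ ∃ U, φ U = S ∧ (supp U).card < u0
      sg := sg
      zero_mem := mem_filter.2 ⟨mem_univ _, hd, 0, map_zero _, h0⟩
      sg_zero := by simpa using hsg 0 h0
      wt_le := fun S hS => (mem_filter.1 hS).2.1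
      add_mem := ?_ }, rfl, fun z => ?_, fun v => ⟨?_, ?_⟩⟩
  · intro S hS T hT h
    obtain ⟨-, -, U, rfl, hU⟩ := mem_filter.1 hS
    obtain ⟨-, -, W, rfl, hW⟩ := mem_filter.1 hT
    have h3 := K U W hU hW h
    refine ⟨mem_filter.2 ⟨mem_univ _, h, U + W, map_add _ _ _, h3⟩, ?_⟩
    rw [← map_add, hsg _ h3, hsg _ hU, hsg _ hW, map_add]
  · by_contra h
    push Not at h
    refine c1 ?_
    have h3 := congrArg (· ⬝ᵥ z) h1
    simp only [sum_dotProduct, smul_dotProduct, h, zero_dotProduct, ← map_smul, ← map_sum] at h3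
    rw [← h3]
    exact congrArg c (pi_eq_sum_univ' U1)
  · exact mem_filter.2 ⟨mem_univ _, hr v, _, hs v⟩
  · show sg (r v) = _
    rw [← (hs v).1, hsg _ (hs v).2]

/-- `u0 = m / 2000 + 1`, `d = m / 1000` -/
theorem exists_xor (m : ℕ) (hm : 10000 ≤ m) :
    ∃ (nb : Fin (2 * m) → Fin 8 → Fin m) (c : Fin (2 * m) → ZMod 2) (D : PD (Fin m)),
      D.d = m / 1000 ∧ (∀ z : Fin m → ZMod 2, ∃ v, ∑ i, z (nb v i) ≠ c v) ∧
      ∀ v (z : Fin m → ZMod 2), ∑ i, z (nb v i) ≠ c v → ¬ D.Cons (univ.image (nb v)) z := by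
  obtain ⟨nb, hnb⟩ := exists_expander m (by omega)
  obtain ⟨c, D, h1, h2, h3⟩ := exists_pd (row nb) (d := m / 1000) (u0 := m / 2000 + 1) (by omega)
    (by simp only [Fintype.card_fin]; omega)
    (fun v => by
      have h := (card_le_card (supp_row nb v)).trans card_image_le
      rw [card_univ, Fintype.card_fin] at h
      omega)
    (fun U k1 k2 => by
      have h := hnb U (by omega) (by omega)
      have h' := wt_sum_row nb U
      omega)
  refine ⟨nb, c, D, h1, fun z => ?_, fun v z h k => h ?_⟩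
  · simpa only [row_dot] using h2 z
  · rw [← row_dot, k _ (h3 v).1 (supp_row nb v), (h3 v).2]

end Pool.Agent.Lib.MP_7836d5_lc.LP
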