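import Pool.Agent.Lib.MP_7836d5_lc.LP.Graph2
import Pool.Agent.Lib.MP_7836d5_lc.LP.IPNum
import Pool.Agent.Lib.MP_7836d5_lc.LP.Xor

set_option autoImplicit false

namespace Pool.Agent.Lib.MP_7836d5_lc.LP

lemma CliqueNum_c {k n C : ℕ} (hk : 800000000 ≤ k) (hC : 2000 ≤ C) (hn : k ^ (C * k) ≤ n) :
    ∃ c, 1 ≤ c ∧ k * 2 ^ (128 * c) ≤ n ∧ n ≤ 2 ^ (140 * c) ∧
      32 * (16 * c + 1) ^ (8 * (k / 4)) ≤ 2 ^ c := by
  classical
  obtain ⟨l, hl⟩ : ∃ l, l = Nat.log 2 k := ⟨_, rfl⟩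
  have l1 : 2 ^ l ≤ k := hl ▸ Nat.pow_log_le_self 2 (by omega)
  have l2 : k < 2 ^ (l + 1) := hl ▸ Nat.lt_pow_succ_log_self (by norm_num) k
  have l3 : 16 ≤ l := hl ▸ Nat.le_log_of_pow_le (by norm_num) (by omega)
  obtain ⟨e, he⟩ : ∃ e, C * k = e + 1 :=
    ⟨C * k - 1, (Nat.sub_add_cancel (Nat.mul_pos (by omega) (by omega))).symm⟩
  have e1 : 2000 * k ≤ e + 1 := he ▸ Nat.mul_le_mul_right k hC
  rw [he, pow_succ'] at hn
  have hex : ∃ c, ¬ k * 2 ^ (128 * (c + 1)) ≤ n := by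
    refine ⟨n, fun h => ?_⟩
    have g1 : n < 2 ^ (128 * (n + 1)) :=
      Nat.lt_two_pow_self.trans_le (Nat.pow_le_pow_right (by norm_num) (by omega))
    have g2 : 2 ^ (128 * (n + 1)) ≤ k * 2 ^ (128 * (n + 1)) := Nat.le_mul_of_pos_left _ (by omega)
    omega
  have h4 := not_le.1 (Nat.find_spec hex)
  have h5 : k * 2 ^ (128 * Nat.find hex) ≤ n := by
    rcases g : Nat.find hex with _ | j
    · exact le_trans (Nat.mul_le_mul_left k (Nat.one_le_pow _ _ (by omega))) hn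
    · exact not_not.1 (Nat.find_min hex (m := j) (by omega))
  generalize Nat.find hex = c at h4 h5
  have h6 : l * e < 128 * (c + 1) := by
    have g1 : k ^ e < 2 ^ (128 * (c + 1)) := Nat.lt_of_mul_lt_mul_left (hn.trans_lt h4)
    have g2 : 2 ^ (l * e) ≤ k ^ e := by
      rw [pow_mul]
      exact Nat.pow_le_pow_left l1 _
    exact (Nat.pow_lt_pow_iff_right (by norm_num)).1 (g2.trans_lt g1)
  have h7 : 4 * k * (3 * l) ≤ c := by
    have g1 : l * (1999 * k) ≤ l * e := Nat.mul_le_mul_left _ (by omega)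
    have g2 : 1 ≤ l * k := Nat.mul_pos (by omega) (by omega)
    have g3 : l * (1999 * k) = 1999 * (l * k) := by ring
    have g4 : 4 * k * (3 * l) = 12 * (l * k) := by ring
    omega
  obtain ⟨q, hq⟩ : ∃ q, q = c / (4 * k) := ⟨_, rfl⟩
  have q1 : 3 * l ≤ q := hq ▸ (Nat.le_div_iff_mul_le (by omega)).2 (by rwa [mul_comm])
  have q2 : 4 * k * q ≤ c := hq ▸ Nat.mul_div_le c _
  have q3 : c < 4 * k * (q + 1) := hq ▸ Nat.lt_mul_div_succ c (by omega)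
  have q4 : 16 * c + 1 ≤ 2 ^ q := by
    have g1 : q + 1 ≤ 2 ^ (q / 2 + 1) := by
      have : q / 2 < 2 ^ (q / 2) := Nat.lt_two_pow_self
      rw [pow_succ]
      omega
    calc 16 * c + 1 ≤ 16 * (4 * k * (q + 1)) := by omega
      _ = 2 ^ 6 * (k * (q + 1)) := by ring
      _ ≤ 2 ^ 6 * (2 ^ (l + 1) * 2 ^ (q / 2 + 1)) :=
        Nat.mul_le_mul_left _ (Nat.mul_le_mul l2.le g1)
      _ = 2 ^ (6 + (l + 1 + (q / 2 + 1))) := by rw [← pow_add, ← pow_add]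
      _ ≤ 2 ^ q := Nat.pow_le_pow_right (by norm_num) (by omega)
  have q5 : q ≤ k * q := Nat.le_mul_of_pos_left _ (by omega)
  have q6 : 4 * (k * q) ≤ c := by rwa [← mul_assoc]
  refine ⟨c, by omega, h5, ?_, ?_⟩
  · calc n ≤ 2 ^ (l + 1) * 2 ^ (128 * (c + 1)) := h4.le.trans (Nat.mul_le_mul_right _ l2.le)
      _ = 2 ^ (l + 1 + 128 * (c + 1)) := (pow_add _ _ _).symm
      _ ≤ 2 ^ (140 * c) := Nat.pow_le_pow_right (by norm_num) (by omega)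
  · have g1 : q * (8 * (k / 4)) ≤ 2 * (k * q) := by
      calc q * (8 * (k / 4)) ≤ q * (2 * k) := Nat.mul_le_mul_left _ (by omega)
        _ = 2 * (k * q) := by ring
    calc 32 * (16 * c + 1) ^ (8 * (k / 4)) ≤ 2 ^ 5 * (2 ^ q) ^ (8 * (k / 4)) :=
          Nat.mul_le_mul_left _ (Nat.pow_le_pow_left q4 _)
      _ = 2 ^ (5 + q * (8 * (k / 4))) := by rw [← pow_mul, ← pow_add]
      _ ≤ 2 ^ c := Nat.pow_le_pow_right (by norm_num) (by omega)

/-- Put `m = k / 4` and let `c` be largest with `k * 2 ^ (128 c) ≤ n`. From `k ^ (C k) ≤ n` we get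
`c ≥ 4 k q0` with `2 ^ q0 ≥ k ^ 20`, say; for `q = c / (4 k)` one has `16 c + 1 ≤ 2 ^ q`, hence
`(16 c + 1) ^ (8 m) ≤ 2 ^ (2 k q) ≤ 2 ^ (c / 2)` and `32 * 2 ^ (c / 2) ≤ 2 ^ c`. `exists_xor`,
`exists_graph` (with `b = 16 c`) and `ip_bound` give `2 ^ U < 2 s` for `U = 2 c (m / 25000000)`;
and `n ≤ 2 ^ (140 c)`. See `HaltNum.lean` for the style. -/
theorem clique_bound : ∃ C k0 : ℕ, 0 < C ∧ ∀ k, k0 ≤ k → ∀ n, k ^ (C * k) ≤ n →
    ∃ (G : SimpleGraph (Fin n)) (part : Fin n → Fin k), G.CliqueFree k ∧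
      (∀ u v, G.Adj u v → part u ≠ part v) ∧
      ∀ s, LSRef (cliqueCNF G k) s ∨ LSRef (blockCNF G part) s → n ^ k ≤ s ^ C := by
  obtain ⟨C, hC⟩ : ∃ C : ℕ, 28000000000 ≤ C := ⟨_, le_rfl⟩
  refine ⟨C, 800000000, by omega, fun k hk n hn => ?_⟩
  obtain ⟨c, hc1, hc2, hc3, hc4⟩ := CliqueNum_c hk (by omega) hn
  obtain ⟨m, hm⟩ : ∃ m, m = k / 4 := ⟨_, rfl⟩
  rw [← hm] at hc4
  obtain ⟨nb, d, D, hD, hun, hv⟩ := exists_xor m (by omega)
  have : Nonempty (Fin (2 * m)) := ⟨⟨0, by omega⟩⟩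
  obtain ⟨G, part, h1, h2, h3⟩ := exists_graph (b := 16 * c) (k := k) (n := n) nb d hun hv
    (by rw [Fintype.card_fin]; omega) (by rwa [show 8 * (16 * c) = 128 * c by ring])
  refine ⟨G, part, h1, h2, fun s hs => ?_⟩
  have hsys := h3 s hs
  obtain ⟨w, hw⟩ : ∃ w, w = m / 25000000 := ⟨_, rfl⟩
  have hw1 : 1 ≤ c * w := Nat.mul_pos (by omega) (by omega)
  have hU : 2 * c * w = 2 * (c * w) := mul_assoc _ _ _
  have h4 : 2 ^ (2 * c * w) < 2 * s := by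
    by_contra h4
    have h5 := not_lt.1 h4
    refine ip_bound D hD (by omega) hc4 (hw ▸ h5) (hw ▸ ?_) hsys
    have e2 : 2 ^ (2 * c * w) ≤ 2 ^ (2 * (2 * c * w)) :=
      Nat.pow_le_pow_right (by norm_num) (by omega)
    omega
  have h5 : 2 ^ (c * w) ≤ s := by
    have e2 : 2 ^ (c * w + 1) ≤ 2 ^ (2 * c * w) := Nat.pow_le_pow_right (by norm_num) (by omega)
    rw [pow_succ] at e2
    omega
  have h6 : k ≤ 200000000 * w := by omega
  calc n ^ k ≤ (2 ^ (140 * c)) ^ k := Nat.pow_le_pow_left hc3 _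
    _ = 2 ^ (140 * c * k) := (pow_mul _ _ _).symm
    _ ≤ 2 ^ (c * w * C) := by
        refine Nat.pow_le_pow_right (by norm_num) ?_
        calc 140 * c * k ≤ 140 * c * (200000000 * w) := Nat.mul_le_mul_left _ h6
          _ = c * w * 28000000000 := by ring
          _ ≤ c * w * C := Nat.mul_le_mul_left _ hC
    _ = (2 ^ (c * w)) ^ C := pow_mul _ _ _
    _ ≤ s ^ C := Nat.pow_le_pow_left h5 _

end Pool.Agent.Lib.MP_7836d5_lc.LP
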