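import Pool.Agent.Lib.MP_7836d5_lc.LP.Low

set_option autoImplicit false
set_option linter.unusedSectionVars false

namespace Pool.Agent.Lib.MP_7836d5_lc.LP

open Finset

variable {E FX FY : Type} [Fintype E] [DecidableEq E] [Fintype FX] [DecidableEq FX]
  [Fintype FY] [DecidableEq FY]

variable {D : PD E} {g : FX → FY → ZMod 2} {A : Finset (E → FX)} {B : Finset (E → FY)}
  {n : ℕ} {M : (E → FX) → (E → FY) → ℝ}

/-- The span of the functions `y ↦ if (∀ e, ∀ a, l e = some a → g a (y e) = δ e) then 1 else 0`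
over labels `l` with at most `j` coordinates (`card_lab`) and all `δ`. If `ψ` depends only on
the coordinates in `T`, then `ψ z = ∑ δ, if (δ vanishes off T and agrees with z on T) then ψ δ
else 0`. -/
lemma exists_junta [Nonempty FX] (g : FX → FY → ZMod 2) (j : ℕ) :
    ∃ V : Submodule ℝ ((E → FY) → ℝ),
      Module.finrank ℝ V ≤ 4 ^ Fintype.card E * Fintype.card FX ^ j ∧
      ∀ (x : E → FX) (T : Finset E) (ψ : (E → ZMod 2) → ℝ), T.card ≤ j →
        (∀ z z', (∀ e ∈ T, z e = z' e) → ψ z = ψ z') → (fun y => ψ (zf g x y)) ∈ V := by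
  classical
  let F : (E → Option FX) × (E → ZMod 2) → (E → FY) → ℝ := fun q y =>
    if ∀ e a, q.1 e = some a → g a (y e) = q.2 e then 1 else 0
  let s := ((univ.filter fun l : E → Option FX => (univ.filter fun e => l e ≠ none).card ≤ j) ×ˢ
    (univ : Finset (E → ZMod 2))).image F
  refine ⟨Submodule.span ℝ (s : Set ((E → FY) → ℝ)), ?_, fun x T ψ hT hψ => ?_⟩
  · refine (finrank_span_finset_le_card s).trans (card_image_le.trans ?_)
    rw [card_product, card_univ, Fintype.card_fun, ZMod.card, show 4 = 2 * 2 from rfl, mul_pow,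
      mul_right_comm]
    exact Nat.mul_le_mul_right _ (card_lab j)
  · have h : (fun y => ψ (zf g x y)) = ∑ δ ∈ univ.filter fun δ : E → ZMod 2 => ∀ e ∉ T, δ e = 0,
        ψ δ • F (fun e => if e ∈ T then some (x e) else none, δ) := by
      funext y
      rw [Finset.sum_apply, sum_eq_single fun e => if e ∈ T then zf g x y e else 0]
      · rw [Pi.smul_apply, smul_eq_mul]
        simp only [F]
        rw [if_pos, mul_one]
        · exact hψ _ _ fun e he => (if_pos he).symm
        · intro e a h
          split_ifs at h with he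
          rw [if_pos he, ← Option.some.inj h]
          rfl
      · intro δ hδ hne
        rw [Pi.smul_apply, smul_eq_mul]
        simp only [F]
        rw [if_neg, mul_zero]
        refine fun h => hne (funext fun e => ?_)
        split_ifs with he
        · exact (h e (x e) (if_pos he)).symm
        · exact (mem_filter.1 hδ).2 e he
      · exact fun h => absurd (mem_filter.2 ⟨mem_univ _, fun e he => if_neg he⟩) h
    rw [h]
    refine Submodule.sum_mem _ fun δ _ => Submodule.smul_mem _ _ (Submodule.subset_span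
      (mem_coe.2 (mem_image_of_mem F (mem_product.2 ⟨mem_filter.2 ⟨mem_univ _, ?_⟩, mem_univ _⟩))))
    refine le_trans (card_le_card fun e he => ?_) hT
    by_contra h'
    exact (mem_filter.1 he).2 (if_neg h')

lemma Junta_dot {S z z' : E → ZMod 2} (h : ∀ e ∈ supp S, z e = z' e) : S ⬝ᵥ z = S ⬝ᵥ z' := by
  refine sum_congr rfl fun e _ => ?_
  by_cases he : S e = 0
  · rw [he, zero_mul, zero_mul]
  · rw [h e (mem_filter.2 ⟨mem_univ _, he⟩)]

lemma Junta_supp (S : E → ZMod 2) : supp (1 + S) = (supp S)ᶜ := by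
  ext e
  simp only [supp, mem_filter, mem_univ, true_and, mem_compl, Pi.add_apply, Pi.one_apply]
  generalize S e = a
  revert a
  decide

/-- For `K` with `K.card ≤ k`: choose for each inconsistent `z` a violated `S0` that depends only
on the restriction of `z` to `K` (apply choice to `fun e => if e ∈ K then z e else 0`). By
`rho_high`, `ch (∑ e, z e) * rho z * [¬ Cons K z] = ∑ S ∈ fam, ψ S z`, where
`ψ S z = [¬ Cons K z] * [d < card (supp (S + S0 z))] * ch (sg S + (1 + S) ⬝ᵥ z)` depends only on
the coordinates in `K ∪ supp (1 + S)`, and vanishes unless `d < card (supp S) + K.card`, in which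
case that set has at most `card E - (d - 2 * k)` elements. -/
lemma junta_cons [Nonempty FX] (D : PD E) (g : FX → FY → ZMod 2) {k : ℕ} (hd : 2 * k ≤ D.d) :
    ∃ V : Submodule ℝ ((E → FY) → ℝ),
      Module.finrank ℝ V ≤
        4 ^ Fintype.card E * Fintype.card FX ^ (Fintype.card E - (D.d - 2 * k)) ∧
      ∀ (x : E → FX) (K : Finset E), K.card ≤ k → (fun y => ch (∑ e, zf g x y e) *
        D.rho (zf g x y) * if D.Cons K (zf g x y) then 0 else 1) ∈ V := by
  obtain ⟨V, hV, h⟩ := exists_junta (E := E) g (Fintype.card E - (D.d - 2 * k))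
  refine ⟨V, hV, fun x K hK => ?_⟩
  have h0 : ∀ z : E → ZMod 2, ∃ S, ¬ D.Cons K z → S ∈ D.fam ∧ supp S ⊆ K ∧ S ⬝ᵥ z ≠ D.sg S := by
    intro z
    by_cases hz : D.Cons K z
    · exact ⟨0, fun h => absurd hz h⟩
    · simp only [PD.Cons, not_forall] at hz
      obtain ⟨S, h1, h2, h3⟩ := hz
      exact ⟨S, fun _ => ⟨h1, h2, h3⟩⟩
  choose S0 h0 using h0
  let S1 : (E → ZMod 2) → E → ZMod 2 := fun z => S0 fun e => if e ∈ K then z e else 0
  have h1 : ∀ z, ¬ D.Cons K z → S1 z ∈ D.fam ∧ supp (S1 z) ⊆ K ∧ S1 z ⬝ᵥ z ≠ D.sg (S1 z) := by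
    intro z hz
    obtain ⟨a, b, c⟩ := h0 (fun e => if e ∈ K then z e else 0)
      (mt (PD.cons_congr fun e he => if_pos he).1 hz)
    exact ⟨a, b, fun h' => c ((Junta_dot fun e he => if_pos (b he)).trans h')⟩
  let ψ : (E → ZMod 2) → (E → ZMod 2) → ℝ := fun S z =>
    if ¬ D.Cons K z ∧ D.d < (supp (S + S1 z)).card then ch (D.sg S + (1 + S) ⬝ᵥ z) else 0
  have h2 : ∀ z, (ch (∑ e, z e) * D.rho z * if D.Cons K z then 0 else 1) = ∑ S ∈ D.fam, ψ S z := by
    intro z
    by_cases hz : D.Cons K z
    · simp [ψ, hz]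
    · rw [if_neg hz, mul_one, D.rho_high (h1 z hz).1 (h1 z hz).2.2, sum_filter, mul_sum]
      refine sum_congr rfl fun S _ => ?_
      simp only [ψ, hz, not_false_eq_true, true_and, mul_ite, mul_zero]
      rw [← ch_add, add_dotProduct, one_dotProduct, add_left_comm]
  simp only [h2]
  rw [← Finset.sum_fn]
  refine Submodule.sum_mem _ fun S _ => ?_
  by_cases hS : D.d < (supp S).card + k
  · refine h x (K ∪ supp (1 + S)) (ψ S) ((card_union_le _ _).trans ?_) fun z z' hz => ?_
    · have := card_le_univ (supp S)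
      rw [Junta_supp, card_compl]
      omega
    · have e1 : S1 z = S1 z' := congrArg S0 (funext fun e => by
        split_ifs with he
        · exact hz e (mem_union_left _ he)
        · rfl)
      simp only [ψ, e1, PD.cons_congr fun e he => hz e (mem_union_left _ he),
        Junta_dot fun e he => hz e (mem_union_right _ he)]
  · have h3 : (fun y => ψ S (zf g x y)) = 0 := funext fun y => if_neg fun ⟨a, b⟩ => by
      have h4 : supp (S + S1 (zf g x y)) ⊆ supp S ∪ K := fun e he => by
        by_contra h5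
        rw [mem_union, not_or] at h5
        have h6 := mt (@(h1 _ a).2.1 e) h5.2
        simp only [supp, mem_filter, mem_univ, true_and, not_not, Pi.add_apply] at he h5 h6
        exact he (by rw [h5.1, h6, add_zero])
      have := (card_le_card h4).trans (card_union_le _ _)
      omega
    rw [h3]
    exact zero_mem _

/-- sum over the `2 ^ card E` values `J0` of `J` (`low_sum`, `Low.mul` with the indicator of
`J y = J0`; if no `y` has `J y = J0` the term is zero), and `junta_cons` -/
lemma low_cons [Nonempty FX] (I : (E → FX) → Finset E) (J : (E → FY) → Finset E) {k : ℕ}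
    (hk : ∀ x y, (I x ∪ J y).card ≤ k) (hd : 2 * k ≤ D.d) :
    Low D g A B (8 ^ Fintype.card E * Fintype.card FX ^ (Fintype.card E - (D.d - 2 * k)))
      fun x y => if D.Cons (I x ∪ J y) (zf g x y) then 0 else 1 := by
  obtain ⟨V, hV, h⟩ := junta_cons D g hd
  have h1 := low_sum (D := D) (g := g) (A := A) (B := B)
    (n := 4 ^ Fintype.card E * Fintype.card FX ^ (Fintype.card E - (D.d - 2 * k))) univ
    (fun (J0 : Finset E) x y => 1 * (if J y = J0 then 1 else 0) *
      if D.Cons (I x ∪ J0) (zf g x y) then 0 else 1) fun J0 _ => by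
      by_cases hJ : ∃ y, J y = J0
      · obtain ⟨y, rfl⟩ := hJ
        exact Low.mul ⟨V, hV, fun x _ => ⟨_, h x _ (hk x y), fun _ _ => rfl⟩⟩ _ _
      · exact (low_zero.mono subset_rfl subset_rfl (Nat.zero_le _)).congr fun x _ y _ => by
          rw [if_neg fun h => hJ ⟨y, h⟩, mul_zero, zero_mul]
  rw [card_univ, Fintype.card_finset, ← mul_assoc, ← mul_pow] at h1
  exact h1.congr fun x _ y _ => by
    simp only [one_mul, ite_mul, zero_mul, sum_ite_eq, mem_univ, if_true]

end Pool.Agent.Lib.MP_7836d5_lc.LP
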