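import Pool.Agent.Lib.MP_7836d5_lc.LP.Core0
import Pool.Agent.Lib.MP_7836d5_lc.LP.Junta
import Pool.Agent.Lib.MP_7836d5_lc.LP.Part

set_option autoImplicit false
set_option linter.unusedSectionVars false

namespace Pool.Agent.Lib.MP_7836d5_lc.LP

open Finset

variable {E FX FY : Type} [Fintype E] [DecidableEq E] [Fintype FX] [DecidableEq FX]
  [Fintype FY] [DecidableEq FY] {D : PD E} {g : FX → FY → ZMod 2}

/-- Make all terms positive (`NR.strict`), take gauges `u`, `v` and labels `I`, `J` on both sides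
(`gauge_pieces`). Some cell of `A × B` is consistent for some term (else the constant `1` is low by
`low_cons`, against `no_low`). Let `(l0, x0, y0)` maximise `Θ = u x * a l x * (v y * b l y)` over
the consistent cells. On the rectangle `A1 × B1` given by `Comb` at `(x0, y0)` put
`s x = u x0 * a l0 x0 / (2 * a l0 x)`, `t y = v y0 * b l0 y0 / (2 * b l0 y)`, so `s x ≤ u x`,
`t y ≤ v y` and `s x * t y * (a l0 x * b l0 y) = Θ / 4`. The matrix
`N x y = Θ / 4 + ∑ l ≠ l0, [Cons] (s x * a l x) * (t y * b l y)` equals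
`s x * t y * (M x y + c) - ∑ l ≠ l0, (s x * a l x) * (t y * b l y) * [¬ Cons]`, so it is low, and
`0 ≤ N ≤ (S + 2) Θ`. Compare `Low.bound` with `four_cons` and `pos_cons`. -/
theorem core [Nonempty FX] [Nonempty FY] (hort : ∀ a a', a ≠ a' → ∑ c, ch (g a c + g a' c) = 0)
    {ε μ ζ η c : ℝ} {wX wY S k n : ℕ} {K : Finset E} {A : Finset (E → FX)} {B : Finset (E → FY)}
    {δ : E → ZMod 2} {M : (E → FX) → (E → FY) → ℝ} (hpos : Pos D g η)
    (henv : Env g ε μ wX wY (S + 2) K A B)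
    (hc : ∀ x ∈ A, ∀ y ∈ B, ∀ e ∈ K, zf g x y e = δ e) (hcons : D.Cons K δ)
    (hk : K.card + wX + wY ≤ k) (hd : 2 * k ≤ D.d) (hε : 0 ≤ ε)
    (hm : (1 + ε) ^ Fintype.card E ≤ 3 / 2) (hμ : 0 < μ) (hη : 0 ≤ η) (hζ : 0 ≤ ζ)
    (hM : NR A B S M) (hc0 : 0 < c)
    (hn : ((n + (S + 2) * (8 ^ Fintype.card E *
      Fintype.card FX ^ (Fintype.card E - (D.d - 2 * k))) : ℕ) : ℝ) ≤
        ζ ^ 2 * Fintype.card (E → FX))
    (hnum : (S + 2) * ((16 ^ Fintype.card E * Fintype.card FX ^ wX * Fintype.card FY ^ wY : ℕ) * η +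
      2 ^ Fintype.card E * ζ) < μ ^ 2 / 8) :
    ¬ Low D g A B n fun x y => M x y + c := by
  classical
  intro hlow
  obtain ⟨hhalf, RP, CP, tX, tY, hR, hC, hco, hFR, hFC⟩ := henv
  obtain ⟨T, _, _, a, b, hT, ha, hb, hab⟩ := hM.strict hc0
  obtain ⟨u, I, P, hu, hI, hP⟩ := gauge_pieces hR hFR hT a ha
  obtain ⟨v, J, Q, hv, hJ, hQ⟩ := gauge_pieces hC hFC hT b hb
  set n1 := 8 ^ Fintype.card E * Fintype.card FX ^ (Fintype.card E - (D.d - 2 * k)) with hn1
  set Nr := 16 ^ Fintype.card E * Fintype.card FX ^ wX * Fintype.card FY ^ wY with hNr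
  set NX : ℝ := (Fintype.card (E → FX) : ℝ) with hNX
  set NY : ℝ := (Fintype.card (E → FY) : ℝ) with hNY
  have hNX0 : 0 < NX := by rw [hNX]; exact_mod_cast Fintype.card_pos
  have hNY0 : 0 < NY := by rw [hNY]; exact_mod_cast Fintype.card_pos
  have hcard : ∀ l x y, (K ∪ I l x ∪ J l y).card ≤ k := fun l x y =>
    (card_union_le _ _).trans <| by
      have := card_union_le K (I l x)
      have := hI l x
      have := hJ l y
      omega
  have hlc : ∀ l (A' : Finset (E → FX)) (B' : Finset (E → FY)), Low D g A' B' n1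
      fun x y => if D.Cons (K ∪ I l x ∪ J l y) (zf g x y) then 0 else 1 := fun l A' B' =>
    low_cons (fun x => K ∪ I l x) (J l) (hcard l) hd
  have hS2 : (0 : ℝ) < S + 2 := by positivity
  have hNrη : (0 : ℝ) ≤ Nr * η := by positivity
  have hζ2 : (0 : ℝ) ≤ 2 ^ Fintype.card E * ζ := by positivity
  have hC0 : (univ.filter fun t : T × (E → FX) × (E → FY) => t.2.1 ∈ A ∧ t.2.2 ∈ B ∧
      D.Cons (K ∪ I t.1 t.2.1 ∪ J t.1 t.2.2) (zf g t.2.1 t.2.2)).Nonempty := by
    by_contra hcon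
    rw [not_nonempty_iff_eq_empty, filter_eq_empty_iff] at hcon
    obtain ⟨l⟩ : Nonempty T := inferInstance
    obtain ⟨h1, h2, h3⟩ := hhalf A subset_rfl B subset_rfl (by omega) (by omega)
    refine no_low (n := n1) hort h1 h2 h3 hc hcons (by omega) hε hm hμ hζ ?_ ?_
      ((hlc l A B).congr fun x hx y hy => ?_)
    · refine le_trans ?_ hn
      have : n1 ≤ n + (S + 2) * n1 := by nlinarith
      exact_mod_cast this
    · nlinarith [sq_nonneg μ]
    · rw [if_neg fun h => hcon (mem_univ (l, x, y)) ⟨hx, hy, h⟩]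
  obtain ⟨⟨l0, x0, y0⟩, hmem, hmax⟩ := exists_max_image _
    (fun t : T × (E → FX) × (E → FY) => u t.2.1 * a t.1 t.2.1 * (v t.2.2 * b t.1 t.2.2)) hC0
  simp only [mem_filter, mem_univ, true_and, Prod.forall] at hmem hmax
  obtain ⟨hx0, hy0, hc0'⟩ := hmem
  set Θ := u x0 * a l0 x0 * (v y0 * b l0 y0) with hΘ
  have hΘ0 : 0 < Θ := mul_pos (mul_pos (hu _) (ha _ _)) (mul_pos (hv _) (hb _ _))
  obtain ⟨r1, r2, r3⟩ := hP l0 x0 hx0
  obtain ⟨q1, q2, q3⟩ := hQ l0 y0 hy0
  obtain ⟨hF, hA1, hB1⟩ := hco x0 y0 _ _ _ _ r1 q1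
  set A1 := partR g (P l0 x0) (J l0 y0) x0 y0 with hA1d
  set B1 := partC g (Q l0 y0) (I l0 x0) x0 y0 with hB1d
  have hAP : A1 ⊆ P l0 x0 := filter_subset _ _
  have hBQ : B1 ⊆ Q l0 y0 := filter_subset _ _
  have hAA : A1 ⊆ A := hAP.trans r2
  have hBB : B1 ⊆ B := hBQ.trans q2
  have hc1 : ∀ x ∈ A1, ∀ y ∈ B1, ∀ e ∈ K ∪ I l0 x0 ∪ J l0 y0, zf g x y e = zf g x0 y0 e := by
    intro x hx y hy e he
    rw [union_assoc, mem_union] at he
    rcases he with he | he
    · rw [hc x (hAA hx) y (hBB hy) e he, hc x0 hx0 y0 hy0 e he]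
    · exact part_const (hR.fix _ _ _ r1) (hC.fix _ _ _ q1) x hx y hy e he
  have hmain := four_cons hF hc1 hc0' ((hcard _ _ _).trans (by omega)) hε hm
  set s : (E → FX) → ℝ := fun x => u x0 * a l0 x0 / (2 * a l0 x) with hs
  set t : (E → FY) → ℝ := fun y => v y0 * b l0 y0 / (2 * b l0 y) with ht
  have hs0 : ∀ x, 0 < s x := fun x =>
    div_pos (mul_pos (hu _) (ha _ _)) (mul_pos two_pos (ha _ _))
  have ht0 : ∀ y, 0 < t y := fun y =>
    div_pos (mul_pos (hv _) (hb _ _)) (mul_pos two_pos (hb _ _))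
  have hs1 : ∀ x ∈ A1, s x ≤ u x := fun x hx => by
    rw [hs, div_le_iff₀ (mul_pos two_pos (ha _ _))]
    linarith [r3 x (hAP hx)]
  have ht1 : ∀ y ∈ B1, t y ≤ v y := fun y hy => by
    rw [ht, div_le_iff₀ (mul_pos two_pos (hb _ _))]
    linarith [q3 y (hBQ hy)]
  have hst : ∀ x y, s x * a l0 x * (t y * b l0 y) = Θ / 4 := fun x y => by
    have h1 := (ha l0 x).ne'
    have h2 := (hb l0 y).ne'
    simp only [hs, ht, hΘ]
    field_simp
    ring
  have hbd : ∀ l, ∀ x ∈ A1, ∀ y ∈ B1, D.Cons (K ∪ I l x ∪ J l y) (zf g x y) →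
      s x * a l x * (t y * b l y) ≤ Θ := fun l x hx y hy h => by
    refine le_trans ?_ (hmax l x y ⟨hAA hx, hBB hy, h⟩)
    have := (ha l x).le
    have := (hb l y).le
    have := (hu x).le
    have := (ht0 y).le
    gcongr
    exacts [hs1 x hx, ht1 y hy]
  set N : (E → FX) → (E → FY) → ℝ := fun x y => Θ / 4 + ∑ l ∈ univ.erase l0,
    if D.Cons (K ∪ I l x ∪ J l y) (zf g x y) then s x * a l x * (t y * b l y) else 0 with hN
  have hT1 : (univ.erase l0 : Finset T).card ≤ S + 1 := by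
    rw [card_erase_of_mem (mem_univ _), card_univ]; omega
  have hT2 : ((univ.erase l0 : Finset T).card : ℝ) ≤ S + 1 := by exact_mod_cast hT1
  have hlN : Low D g A1 B1 (n + (S + 2) * n1) N := by
    have h1 := ((hlow.mono hAA hBB le_rfl).mul s t).add
      (low_sum (univ.erase l0) _ fun l _ =>
        (hlc l A1 B1).mul (fun x => -(s x * a l x)) fun y => t y * b l y)
    refine (h1.mono subset_rfl subset_rfl ?_).congr fun x hx y hy => ?_
    · have : (univ.erase l0 : Finset T).card * n1 ≤ (S + 2) * n1 :=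
        Nat.mul_le_mul_right _ (by omega)
      omega
    · rw [hab x (hAA hx) y (hBB hy), ← add_sum_erase _ _ (mem_univ l0), mul_add, mul_sum, add_assoc,
        ← sum_add_distrib, hN]
      dsimp only
      rw [← hst x y]
      congr 1
      · ring
      · refine sum_congr rfl fun l _ => ?_
        split_ifs <;> ring
  have hNb : ∀ x ∈ A1, ∀ y ∈ B1, |N x y| ≤ (S + 2) * Θ := fun x hx y hy => by
    have h0 : ∀ l ∈ univ.erase l0, 0 ≤ (if D.Cons (K ∪ I l x ∪ J l y) (zf g x y) then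
        s x * a l x * (t y * b l y) else 0) := fun l _ => by
      have := ha l x
      have := hb l y
      have := hs0 x
      have := ht0 y
      split_ifs
      · positivity
      · exact le_rfl
    have h1 : ∀ l ∈ univ.erase l0, (if D.Cons (K ∪ I l x ∪ J l y) (zf g x y) then
        s x * a l x * (t y * b l y) else 0) ≤ Θ := fun l _ => by
      split_ifs with h
      · exact hbd l x hx y hy h
      · exact hΘ0.le
    have h2 := sum_le_card_nsmul _ _ _ h1
    rw [nsmul_eq_mul] at h2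
    have h3 := sum_nonneg h0
    rw [abs_of_nonneg (by simp only [hN]; linarith)]
    simp only [hN]
    nlinarith
  have hup := hlN.bound hort (by positivity) hNb hζ hn
  have hlo : ∀ l ∈ univ.erase l0, -(Nr * η * Θ * (NX * NY)) ≤ ∑ x ∈ A1, ∑ y ∈ B1,
      D.rho (zf g x y) * if D.Cons (K ∪ I l x ∪ J l y) (zf g x y) then
        s x * a l x * (t y * b l y) else 0 := fun l _ =>
    pos_cons hpos hη hΘ0.le (fun x hx y hy => hc x (hAA hx) y (hBB hy)) (I l) (J l) (hI l) (hJ l)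
      (fun x => s x * a l x) (fun y => t y * b l y) (fun x _ => (mul_pos (hs0 x) (ha l x)).le)
      (fun y _ => (mul_pos (ht0 y) (hb l y)).le) (hbd l)
  have hlo2 := card_nsmul_le_sum _ _ _ hlo
  rw [nsmul_eq_mul] at hlo2
  have heq : ∑ x ∈ A1, ∑ y ∈ B1, D.rho (zf g x y) * N x y =
      Θ / 4 * ∑ x ∈ A1, ∑ y ∈ B1, D.rho (zf g x y) + ∑ l ∈ univ.erase l0, ∑ x ∈ A1, ∑ y ∈ B1,
        D.rho (zf g x y) * if D.Cons (K ∪ I l x ∪ J l y) (zf g x y) then
          s x * a l x * (t y * b l y) else 0 := by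
    rw [sum_comm (s := univ.erase l0), mul_sum, ← sum_add_distrib]
    refine sum_congr rfl fun x _ => ?_
    rw [sum_comm (s := univ.erase l0), mul_sum, ← sum_add_distrib]
    refine sum_congr rfl fun y _ => ?_
    simp only [hN]
    rw [mul_add, mul_sum, mul_comm]
  have hsz : μ ^ 2 * (NX * NY) ≤ (A1.card : ℝ) * B1.card := by
    calc μ ^ 2 * (NX * NY) = μ * NX * (μ * NY) := by ring
      _ ≤ _ := mul_le_mul hA1 hB1 (by positivity) (by positivity)
  have hW : 0 < Θ * (NX * NY) := by positivity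
  have h5 := mul_lt_mul_of_pos_right hnum hW
  have h6 : Θ / 4 * (μ ^ 2 * (NX * NY) / 2) ≤ Θ / 4 * ∑ x ∈ A1, ∑ y ∈ B1, D.rho (zf g x y) :=
    mul_le_mul_of_nonneg_left (by linarith) (by positivity)
  have h7 : 0 ≤ Nr * η * Θ * (NX * NY) := by positivity
  have h8 : ((univ.erase l0 : Finset T).card : ℝ) * (Nr * η * Θ * (NX * NY)) ≤
      (S + 2) * (Nr * η * Θ * (NX * NY)) := mul_le_mul_of_nonneg_right (by linarith) h7
  rw [heq] at hup
  nlinarith

end Pool.Agent.Lib.MP_7836d5_lc.LP
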