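import Mathlib

set_option autoImplicit false

/-! The price gauge. -/

namespace Pool.Agent.Lib.MP_7836d5_lc.LP

open Finset

/-- Among the states `(u, l)` satisfying the invariant (there is one, `u = 0`, `l = none`; the
sums `∑ x, u x` are bounded by `m3`) take one with the largest `∑ x, u x`. If `Sh2 j x u`, raise
`u x` by one and set `l x = some j`. -/
lemma gauge_abs {Ω R : Type} [Fintype Ω] [DecidableEq Ω] (Sh Sh2 : R → Ω → (Ω → ℕ) → Prop)
    (m1 : ∀ j x u u', Sh j x u → u ≤ u' → u' x = u x → Sh j x u')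
    (m2 : ∀ j x u, Sh2 j x u → Sh j x (Function.update u x (u x + 1)))
    (m3 : ∃ b : ℕ, ∀ (u : Ω → ℕ) (l : Ω → Option R), (∀ x, l x = none → u x = 0) →
      (∀ x j, l x = some j → Sh j x u) → ∀ x, u x ≤ b) :
    ∃ u, ∀ j x, ¬ Sh2 j x u := by
  obtain ⟨b, hb⟩ := m3
  have hfin : {u : Ω → ℕ | ∃ l : Ω → Option R, (∀ x, l x = none → u x = 0) ∧
      ∀ x j, l x = some j → Sh j x u}.Finite :=
    (Set.finite_Iic fun _ : Ω => b).subset fun u ⟨l, h1, h2⟩ => hb u l h1 h2
  obtain ⟨u, ⟨l, h1, h2⟩, hmax⟩ := Set.exists_max_image _ (fun u => ∑ x, u x) hfin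
    ⟨0, fun _ => none, fun _ _ => rfl, fun _ _ h => absurd h (by simp)⟩
  refine ⟨u, fun j x hs => ?_⟩
  have hle : u ≤ Function.update u x (u x + 1) := fun y => by
    by_cases hy : y = x
    · rw [hy, Function.update_self]
      exact Nat.le_succ _
    · rw [Function.update_of_ne hy]
  have h3 := hmax (Function.update u x (u x + 1)) ⟨Function.update l x (some j), fun y hy => by
    by_cases e : y = x
    · rw [e, Function.update_self] at hy
      exact absurd hy (by simp)
    · rw [Function.update_of_ne e] at hy ⊢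
      exact h1 y hy, fun y j' hy => by
    by_cases e : y = x
    · rw [e, Function.update_self, Option.some_inj] at hy
      rw [e, ← hy]
      exact m2 j x u hs
    · rw [Function.update_of_ne e] at hy
      exact m1 j' y u _ (h2 y j' hy) hle (Function.update_of_ne e _ _)⟩
  refine absurd h3 (not_le.2 (Finset.sum_lt_sum (fun y _ => hle y) ⟨x, mem_univ x, ?_⟩))
  rw [Function.update_self]
  exact Nat.lt_succ_self _

/-- `gauge_abs` with `Sh j x u := ∀ P, Pc x P → ∃ x' ∈ P, f j x' / 2 ^ u x' < f j x / 2 ^ u x` and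
`Sh2` the same with a factor `2` on the left. For `m3`: the first alternative of `H` is excluded by
taking the minimiser of `f j x / 2 ^ u x` on `P`; the second gives `2 ^ u x < f j x / f j x'`. -/
lemma gauge {Ω R : Type} [Fintype Ω] [DecidableEq Ω] [Fintype R] (f : R → Ω → ℝ)
    (hf : ∀ j x, 0 < f j x) (Pc : Ω → Finset Ω → Prop)
    (H : ∀ l : Ω → Option R, (∃ j, ∃ P : Finset Ω, P.Nonempty ∧ ∀ x ∈ P, l x = some j ∧ Pc x P) ∨
      ∀ x, ∃ P, Pc x P ∧ ∀ x' ∈ P, l x' = none) :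
    ∃ u : Ω → ℝ, (∀ x, 0 < u x) ∧
      ∀ j x, ∃ P, Pc x P ∧ ∀ x' ∈ P, u x * f j x ≤ 2 * (u x' * f j x') := by
  obtain ⟨u, hu⟩ := gauge_abs (Ω := Ω) (R := R)
    (fun j x u => ∀ P, Pc x P → ∃ x' ∈ P, f j x' / 2 ^ u x' < f j x / 2 ^ u x)
    (fun j x u => ∀ P, Pc x P → ∃ x' ∈ P, 2 * (f j x' / 2 ^ u x') < f j x / 2 ^ u x)
    (fun j x u u' h hle he P hP => by
      obtain ⟨x', h1, h2⟩ := h P hP
      refine ⟨x', h1, lt_of_le_of_lt ?_ (he ▸ h2)⟩
      exact div_le_div_of_nonneg_left (hf j x').le (by positivity)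
        (pow_le_pow_right₀ one_le_two (hle x')))
    (fun j x u h P hP => by
      obtain ⟨x', h1, h2⟩ := h P hP
      have hne : x' ≠ x := fun e => by
        rw [e] at h2
        have : 0 < f j x / 2 ^ u x := div_pos (hf j x) (by positivity)
        linarith
      refine ⟨x', h1, ?_⟩
      rw [Function.update_self, Function.update_of_ne hne, pow_succ, ← div_div]
      linarith)
    ⟨⌈∑ p : R × Ω × Ω, f p.1 p.2.1 / f p.1 p.2.2⌉₊, fun u l h1 h2 x => by
      rcases H l with ⟨j, P, hP, h3⟩ | h3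
      · obtain ⟨y, hy, hmin⟩ := Finset.exists_min_image P (fun y => f j y / 2 ^ u y) hP
        obtain ⟨x', a1, a2⟩ := h2 y j (h3 y hy).1 P (h3 y hy).2
        exact absurd (hmin x' a1) (not_le.2 a2)
      · rcases e : l x with _ | j
        · rw [h1 x e]
          exact Nat.zero_le _
        · obtain ⟨P, hP, h4⟩ := h3 x
          obtain ⟨x', a1, a2⟩ := h2 x j e P hP
          rw [h1 x' (h4 x' a1), pow_zero, div_one, lt_div_iff₀ (by positivity), mul_comm,
            ← lt_div_iff₀ (hf j x')] at a2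
          have a3 : f j x / f j x' ≤ ∑ p : R × Ω × Ω, f p.1 p.2.1 / f p.1 p.2.2 :=
            Finset.single_le_sum (f := fun p : R × Ω × Ω => f p.1 p.2.1 / f p.1 p.2.2)
              (fun p _ => (div_pos (hf _ _) (hf _ _)).le) (mem_univ (j, x, x'))
          have a4 : (u x : ℝ) ≤ 2 ^ u x := by exact_mod_cast (Nat.lt_two_pow_self).le
          have a5 := Nat.le_ceil (∑ p : R × Ω × Ω, f p.1 p.2.1 / f p.1 p.2.2)
          exact_mod_cast (show (u x : ℝ) ≤ ⌈∑ p : R × Ω × Ω, f p.1 p.2.1 / f p.1 p.2.2⌉₊ by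
            linarith)⟩
  refine ⟨fun x => (2 ^ u x)⁻¹, fun x => by positivity, fun j x => ?_⟩
  have h := hu j x
  push Not at h
  obtain ⟨P, hP, h⟩ := h
  refine ⟨P, hP, fun x' hx' => ?_⟩
  have := h x' hx'
  rwa [div_eq_inv_mul, div_eq_inv_mul] at this

end Pool.Agent.Lib.MP_7836d5_lc.LP
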