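import Pool.Agent.Lib.MP_7836d5_lc.LP.Trace
import Pool.Agent.Lib.MP_7836d5_lc.LP.Gauge
import Pool.Agent.Lib.MP_7836d5_lc.LP.Part2
import Pool.Agent.Lib.MP_7836d5_lc.LP.Level

set_option autoImplicit false
set_option linter.unusedSectionVars false

/-! The core theorem: a strictly positive sum of few nonnegative rank one matrices is not low. -/

namespace Pool.Agent.Lib.MP_7836d5_lc.LP

open Finset

variable {E FX FY : Type} [Fintype E] [DecidableEq E] [Fintype FX] [DecidableEq FX]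
  [Fintype FY] [DecidableEq FY] {D : PD E} {g : FX → FY → ZMod 2}

/-- `four_cons` against `Low.bound` with `Θ = 1` -/
lemma no_low [Nonempty FX] [Nonempty FY] (hort : ∀ a a', a ≠ a' → ∑ c, ch (g a c + g a' c) = 0)
    {ε μ ζ : ℝ} {K : Finset E} {A : Finset (E → FX)} {B : Finset (E → FY)} {δ : E → ZMod 2} {n : ℕ}
    (hF : Four g ε K A B) (hA : μ * Fintype.card (E → FX) ≤ A.card)
    (hB : μ * Fintype.card (E → FY) ≤ B.card)
    (hc : ∀ x ∈ A, ∀ y ∈ B, ∀ e ∈ K, zf g x y e = δ e) (hcons : D.Cons K δ) (hK : K.card ≤ D.d)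
    (hε : 0 ≤ ε) (hm : (1 + ε) ^ Fintype.card E ≤ 3 / 2) (hμ : 0 < μ) (hζ : 0 ≤ ζ)
    (hn : (n : ℝ) ≤ ζ ^ 2 * Fintype.card (E → FX)) (hnum : 2 ^ Fintype.card E * ζ < μ ^ 2 / 2) :
    ¬ Low D g A B n fun _ _ => 1 := by
  intro h
  have h1 := four_cons hF hc hcons hK hε hm
  have h2 := h.bound hort (Θ := 1) zero_le_one (fun _ _ _ _ => by simp) hζ hn
  simp only [mul_one] at h2
  have hX : (0 : ℝ) < Fintype.card (E → FX) := by exact_mod_cast Fintype.card_pos
  have hY : (0 : ℝ) < Fintype.card (E → FY) := by exact_mod_cast Fintype.card_pos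
  have h3 : (μ * Fintype.card (E → FX)) * (μ * Fintype.card (E → FY)) ≤ (A.card : ℝ) * B.card :=
    mul_le_mul hA hB (by positivity) (by positivity)
  have h4 := mul_lt_mul_of_pos_right hnum (mul_pos hX hY)
  nlinarith

/-- `gauge` with `Pc x P := (x ∉ A ∧ P = ∅) ∨ (x ∈ A ∧ P ⊆ A ∧ ∃ I, RP x I P)`. Given `l`, either
some `A.filter (l · = some j)` has at least `t` elements (use `ex`), or their union `Z` has at most
`S * t` elements and `A \ Z` works (use `Full`). Labels of `x ∉ A` are empty. -/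
lemma gauge_pieces {F T : Type} [Fintype F] [DecidableEq F] [Fintype T]
    {RP : (E → F) → Finset E → Finset (E → F) → Prop} {A : Finset (E → F)} {w t S : ℕ}
    (hR : Pieces RP A w t) (hF : Full RP A (S * t)) (hT : Fintype.card T ≤ S)
    (f : T → (E → F) → ℝ) (hf : ∀ j x, 0 < f j x) :
    ∃ (u : (E → F) → ℝ) (I : T → (E → F) → Finset E) (P : T → (E → F) → Finset (E → F)),
      (∀ x, 0 < u x) ∧ (∀ j x, (I j x).card ≤ w) ∧ ∀ j, ∀ x ∈ A, RP x (I j x) (P j x) ∧ P j x ⊆ A ∧
        ∀ x' ∈ P j x, u x * f j x ≤ 2 * (u x' * f j x') := by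
  classical
  obtain ⟨u, hu, hP⟩ := gauge f hf
    (fun x P => (x ∉ A ∧ P = ∅) ∨ (x ∈ A ∧ P ⊆ A ∧ ∃ I, RP x I P)) (fun l => by
      by_cases h : ∃ j, t ≤ (A.filter fun x => l x = some j).card
      · obtain ⟨j, hj⟩ := h
        obtain ⟨P, hPZ, hne, I, hI⟩ := hR.ex _ (filter_subset _ _) hj
        refine Or.inl ⟨j, P, hne, fun x hx => ⟨(mem_filter.1 (hPZ hx)).2, Or.inr
          ⟨(mem_filter.1 (hPZ hx)).1, hPZ.trans (filter_subset _ _), I, hI x hx⟩⟩⟩
      · push Not at h
        refine Or.inr fun x => ?_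
        by_cases hx : x ∈ A
        · have hZ : (univ.biUnion fun j : T => A.filter fun x => l x = some j).card ≤ S * t := by
            refine (card_biUnion_le_card_mul _ _ t fun j _ => (h j).le).trans ?_
            rw [card_univ]
            exact Nat.mul_le_mul_right _ hT
          refine ⟨_, Or.inr ⟨hx, sdiff_subset, ∅, hF _ hZ x hx⟩, fun x' hx' => ?_⟩
          rw [mem_sdiff] at hx'
          rcases hl : l x' with _ | j
          · rfl
          · exact absurd (mem_biUnion.2 ⟨j, mem_univ _, mem_filter.2 ⟨hx'.1, hl⟩⟩) hx'.2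
        · exact ⟨∅, Or.inl ⟨hx, rfl⟩, fun x' hx' => absurd hx' (notMem_empty _)⟩)
  have key : ∀ j x, ∃ (I : Finset E) (P : Finset (E → F)), I.card ≤ w ∧ (x ∈ A →
      RP x I P ∧ P ⊆ A ∧ ∀ x' ∈ P, u x * f j x ≤ 2 * (u x' * f j x')) := fun j x => by
    obtain ⟨P, h1 | ⟨-, h2, I, h3⟩, h4⟩ := hP j x
    · exact ⟨∅, ∅, Nat.zero_le _, fun hx => absurd hx h1.1⟩
    · exact ⟨I, P, hR.card_le x I P h3, fun _ => ⟨h3, h2, h4⟩⟩
  choose I P h1 h2 using key
  exact ⟨u, I, P, hu, h1, fun j x hx => h2 j x hx⟩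

/-- Sum over the rectangles `a i × b i` of `exists_part`. The predicate `Cons (K ∪ I x ∪ J y)` is
constant on `(A ∩ a i) × (B ∩ b i)` (`cons_congr`, `hc`); where it holds apply `Pos` to `p`, `q`
cut down to `A ∩ a i` and `B ∩ b i`; where it fails the sum is zero. -/
lemma pos_cons [Nonempty FX] [Nonempty FY] {η Θ : ℝ} (hpos : Pos D g η) (hη : 0 ≤ η) (hΘ : 0 ≤ Θ)
    {K : Finset E} {A : Finset (E → FX)} {B : Finset (E → FY)} {δ : E → ZMod 2}
    (hc : ∀ x ∈ A, ∀ y ∈ B, ∀ e ∈ K, zf g x y e = δ e) (I : (E → FX) → Finset E)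
    (J : (E → FY) → Finset E) {wX wY : ℕ} (hI : ∀ x, (I x).card ≤ wX) (hJ : ∀ y, (J y).card ≤ wY)
    (p : (E → FX) → ℝ) (q : (E → FY) → ℝ) (hp : ∀ x ∈ A, 0 ≤ p x) (hq : ∀ y ∈ B, 0 ≤ q y)
    (hb : ∀ x ∈ A, ∀ y ∈ B, D.Cons (K ∪ I x ∪ J y) (zf g x y) → p x * q y ≤ Θ) :
    -((16 ^ Fintype.card E * Fintype.card FX ^ wX * Fintype.card FY ^ wY : ℕ) * η * Θ *
        ((Fintype.card (E → FX) : ℝ) * Fintype.card (E → FY))) ≤
      ∑ x ∈ A, ∑ y ∈ B, D.rho (zf g x y) *
        if D.Cons (K ∪ I x ∪ J y) (zf g x y) then p x * q y else 0 := by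
  classical
  obtain ⟨T, _, a, b, hT, huniq, hconst⟩ := exists_part g I J hI hJ
  set Fn : (E → FX) → (E → FY) → ℝ := fun x y => D.rho (zf g x y) *
    if D.Cons (K ∪ I x ∪ J y) (zf g x y) then p x * q y else 0 with hFn
  have hsplit : ∑ x ∈ A, ∑ y ∈ B, Fn x y
      = ∑ i, ∑ x ∈ A.filter (· ∈ a i), ∑ y ∈ B.filter (· ∈ b i), Fn x y := by
    simp only [sum_filter]
    rw [sum_comm (s := univ) (t := A)]
    refine sum_congr rfl fun x _ => ?_
    have h1 : ∀ i, (if x ∈ a i then ∑ y ∈ B, (if y ∈ b i then Fn x y else (0 : ℝ)) else (0 : ℝ))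
        = ∑ y ∈ B, (if x ∈ a i ∧ y ∈ b i then Fn x y else (0 : ℝ)) := fun i => by
      by_cases h : x ∈ a i <;> simp [h]
    simp only [h1]
    rw [sum_comm]
    refine sum_congr rfl fun y _ => ?_
    obtain ⟨i, hi, hu⟩ := huniq x y
    rw [sum_eq_single i, if_pos hi]
    · intro j _ hj
      exact if_neg fun h => hj (hu j h)
    · intro h
      exact absurd (mem_univ i) h
  have hN : (0 : ℝ) ≤ η * Θ * ((Fintype.card (E → FX) : ℝ) * Fintype.card (E → FY)) := by
    positivity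
  have hone : ∀ i, -(η * Θ * ((Fintype.card (E → FX) : ℝ) * Fintype.card (E → FY))) ≤
      ∑ x ∈ A.filter (· ∈ a i), ∑ y ∈ B.filter (· ∈ b i), Fn x y := fun i => by
    by_cases h : ∃ x0 ∈ A.filter (· ∈ a i), ∃ y0 ∈ B.filter (· ∈ b i),
        D.Cons (K ∪ I x0 ∪ J y0) (zf g x0 y0)
    · obtain ⟨x0, hx0, y0, hy0, h0⟩ := h
      have hall : ∀ x ∈ A.filter (· ∈ a i), ∀ y ∈ B.filter (· ∈ b i),
          D.Cons (K ∪ I x ∪ J y) (zf g x y) := fun x hx y hy => by
        rw [mem_filter] at hx hy hx0 hy0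
        obtain ⟨e1, e2, e3⟩ := hconst i x0 hx0.2 x hx.2 y0 hy0.2 y hy.2
        rw [e1, e2]
        refine (PD.cons_congr fun e he => ?_).1 h0
        rw [union_assoc, mem_union] at he
        rcases he with he | he
        · rw [hc x0 hx0.1 y0 hy0.1 e he, hc x hx.1 y hy.1 e he]
        · exact (e3 e he).symm
      have h1 := hpos (fun x => if x ∈ A.filter (· ∈ a i) then p x else 0)
        (fun y => if y ∈ B.filter (· ∈ b i) then q y else 0) Θ
        (fun x => by
          split_ifs with hx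
          · exact hp x (mem_filter.1 hx).1
          · exact le_rfl)
        (fun y => by
          split_ifs with hy
          · exact hq y (mem_filter.1 hy).1
          · exact le_rfl) hΘ
        (fun x y => by
          split_ifs with hx hy
          · exact hb x (mem_filter.1 hx).1 y (mem_filter.1 hy).1 (hall x hx y hy)
          · rwa [mul_zero]
          · rwa [zero_mul]
          · rwa [zero_mul])
      refine h1.trans (le_of_eq ?_)
      rw [← sum_subset (subset_univ (A.filter (· ∈ a i)))]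
      · refine sum_congr rfl fun x hx => ?_
        rw [← sum_subset (subset_univ (B.filter (· ∈ b i)))]
        · refine sum_congr rfl fun y hy => ?_
          simp only [hFn, if_pos hx, if_pos hy, if_pos (hall x hx y hy)]
        · intro y _ hy
          simp only [if_neg hy, mul_zero]
      · intro x _ hx
        simp only [if_neg hx, zero_mul, mul_zero, sum_const_zero]
    · push Not at h
      rw [sum_eq_zero fun x hx => sum_eq_zero fun y hy => by
        simp only [hFn, if_neg (h x hx y hy), mul_zero]]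
      linarith
  have hsum := sum_le_sum fun i (_ : i ∈ (univ : Finset T)) => hone i
  rw [← hsplit, sum_const, card_univ, nsmul_eq_mul] at hsum
  refine le_trans ?_ hsum
  have hT' : (Fintype.card T : ℝ) ≤
      (16 ^ Fintype.card E * Fintype.card FX ^ wX * Fintype.card FY ^ wY : ℕ) := by
    exact_mod_cast hT
  have := mul_le_mul_of_nonneg_right hT' hN
  linarith

end Pool.Agent.Lib.MP_7836d5_lc.LP
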