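import Pool.Agent.Lib.MP_7836d5_lc.LP.Gauge

set_option autoImplicit false

/-! The price gauge for positive matrices of rank four. -/

namespace Pool.Agent.Lib.MP_7836d5_lc.LP

open Finset

/-- five vectors in dimension four are dependent, `∑ i, c i • v i = 0` with `c ≠ 0`
(`Module.exists_nontrivial_relation_of_finrank_lt_card` or `LinearIndependent.fintype_card_le_finrank`);
take `j` with the largest `|c j|` -/
lemma five_dep (v w : Fin 5 → Fin 4 → ℝ) (h0 : ∀ i j, 0 ≤ v i ⬝ᵥ w j)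
    (h : ∀ i j, i ≠ j → 4 * (v i ⬝ᵥ w j) < v j ⬝ᵥ w j) : False := by
  have hdep : ¬ LinearIndependent ℝ v := fun hv => by
    have := hv.fintype_card_le_finrank
    simp at this
  obtain ⟨c, hc, i0, hi0⟩ := Fintype.not_linearIndependent_iff.1 hdep
  obtain ⟨j, -, hj⟩ := exists_max_image univ (fun i => |c i|) univ_nonempty
  have hpos : 0 < |c j| := (abs_pos.2 hi0).trans_le (hj i0 (mem_univ _))
  have h1 : ∑ i, c i * (v i ⬝ᵥ w j) = 0 := by
    have := congrArg (· ⬝ᵥ w j) hc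
    simpa only [sum_dotProduct, smul_dotProduct, smul_eq_mul, zero_dotProduct] using this
  rw [← add_sum_erase _ _ (mem_univ j), add_eq_zero_iff_eq_neg] at h1
  have h2 : |c j| * (v j ⬝ᵥ w j) ≤ ∑ i ∈ univ.erase j, |c j| * (v i ⬝ᵥ w j) := by
    rw [← abs_of_nonneg (h0 j j), ← abs_mul, h1, abs_neg]
    refine (abs_sum_le_sum_abs _ _).trans (sum_le_sum fun i _ => ?_)
    rw [abs_mul, abs_of_nonneg (h0 i j)]
    exact mul_le_mul_of_nonneg_right (hj i (mem_univ _)) (h0 i j)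
  have h3 : ∑ i ∈ univ.erase j, |c j| * (v i ⬝ᵥ w j) <
      ∑ _i ∈ univ.erase j, |c j| * (v j ⬝ᵥ w j / 4) :=
    sum_lt_sum_of_nonempty (card_pos.1 (by simp)) fun i hi =>
      mul_lt_mul_of_pos_left (by linarith [h i j (ne_of_mem_erase hi)]) hpos
  have h4 : (univ.erase j).card = 4 := by simp
  rw [sum_const, h4, nsmul_eq_mul, Nat.cast_ofNat] at h3
  linarith

/-- among any points with small exceptional sets there are five that see each other -/
def Tup {Ω Λ : Type} [DecidableEq Ω] (ev : Λ → Ω → Ω → Prop) (σ : ℕ) : Prop :=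
  ∀ P : Finset Ω, P.Nonempty → ∀ (l : Ω → Λ) (Bad : Ω → Finset Ω),
    (∀ x ∈ P, σ * (Bad x).card < P.card) → ∃ t : Fin 5 → Ω, (∀ i, t i ∈ P) ∧
      ∀ i j, i ≠ j → ev (l (t j)) (t j) (t i) ∧ t i ∉ Bad (t j)

/-- `gauge_abs` with `Sh τ x u := x ∈ A ∧ ∀ P, Pc x P → ∃ l y, σ * card {x' ∈ P | ev l x x' ∧
V τ x y / 2 ^ u x ≤ 4 * (V τ x' y / 2 ^ u x')} < P.card`, and `Sh2` the same with `8` (after the
update the two sets coincide, also at `x' = x`). For `m3`: the first alternative of `H` is excluded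
by `tup` and `five_dep`; in the second, `solid` gives `x' ∈ P` with `ev l x x'` outside the small
set, so `2 ^ u x < V τ x y / V τ x' y`. -/
lemma gauge2 {Ω Λ Y T : Type} [Fintype Ω] [DecidableEq Ω] [Fintype Y] [Fintype T]
    (V : T → Ω → Y → ℝ) (hV : ∀ τ x y, 0 < V τ x y)
    (rk : ∀ τ, ∃ (f : Fin 4 → Ω → ℝ) (h : Fin 4 → Y → ℝ), ∀ x y, V τ x y = ∑ i, f i x * h i y)
    (ev : Λ → Ω → Ω → Prop) [∀ l x x', Decidable (ev l x x')] {σ : ℕ} (tup : Tup ev σ)
    (A : Finset Ω) (Pc : Ω → Finset Ω → Prop)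
    (solid : ∀ x P l, Pc x P → P.card ≤ σ * (P.filter (ev l x)).card)
    (H : ∀ l : Ω → Option T, (∃ τ, ∃ P : Finset Ω, P.Nonempty ∧ ∀ x ∈ P, l x = some τ ∧ Pc x P) ∨
      ∀ x ∈ A, ∃ P, Pc x P ∧ ∀ x' ∈ P, l x' = none) :
    ∃ u : Ω → ℝ, (∀ x, 0 < u x) ∧ ∀ τ, ∀ x ∈ A, ∃ P, Pc x P ∧ ∀ l y,
      P.card ≤ σ * (P.filter fun x' => ev l x x' ∧ u x * V τ x y ≤ 8 * (u x' * V τ x' y)).card := by
  obtain ⟨u, hu⟩ := gauge_abs (Ω := Ω) (R := T)
    (fun τ x u => x ∈ A ∧ ∀ P, Pc x P → ∃ l y, σ * (P.filter fun x' => ev l x x' ∧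
      V τ x y / 2 ^ u x ≤ 4 * (V τ x' y / 2 ^ u x')).card < P.card)
    (fun τ x u => x ∈ A ∧ ∀ P, Pc x P → ∃ l y, σ * (P.filter fun x' => ev l x x' ∧
      V τ x y / 2 ^ u x ≤ 8 * (V τ x' y / 2 ^ u x')).card < P.card)
    (fun τ x u u' h hle he => ⟨h.1, fun P hP => by
      obtain ⟨l, y, h1⟩ := h.2 P hP
      refine ⟨l, y, lt_of_le_of_lt (Nat.mul_le_mul_left _ (card_le_card fun x' hx' => ?_)) h1⟩
      rw [mem_filter] at hx' ⊢
      refine ⟨hx'.1, hx'.2.1, (he ▸ hx'.2.2).trans (mul_le_mul_of_nonneg_left ?_ (by norm_num))⟩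
      exact div_le_div_of_nonneg_left (hV τ x' y).le (by positivity)
        (pow_le_pow_right₀ one_le_two (hle x'))⟩)
    (fun τ x u h => ⟨h.1, fun P hP => by
      obtain ⟨l, y, h1⟩ := h.2 P hP
      refine ⟨l, y, lt_of_le_of_lt (Nat.mul_le_mul_left _ (card_le_card fun x' hx' => ?_)) h1⟩
      rw [mem_filter] at hx' ⊢
      refine ⟨hx'.1, hx'.2.1, ?_⟩
      by_cases e : x' = x
      · rw [e]
        have : 0 < V τ x y / 2 ^ u x := div_pos (hV τ x y) (by positivity)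
        linarith
      · have h2 := hx'.2.2
        rw [Function.update_self, Function.update_of_ne e, pow_succ, ← div_div] at h2
        linarith⟩)
    ⟨⌈∑ p : T × Ω × Ω × Y, V p.1 p.2.1 p.2.2.2 / V p.1 p.2.2.1 p.2.2.2⌉₊, fun u l h1 h2 x => by
      rcases H l with ⟨τ, P, hP, h3⟩ | h3
      · exfalso
        have h4 := fun z hz => (h2 z τ (h3 z hz).1).2 P (h3 z hz).2
        obtain ⟨z0, hz0⟩ := hP
        obtain ⟨l0, y0, -⟩ := h4 z0 hz0
        have : Nonempty Λ := ⟨l0⟩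
        have : Nonempty Y := ⟨y0⟩
        choose! L yy hL using h4
        obtain ⟨t, ht, ht'⟩ := tup P ⟨z0, hz0⟩ L _ hL
        obtain ⟨f, g, hfg⟩ := rk τ
        have e : ∀ i j, (fun k => f k (t i) / 2 ^ u (t i)) ⬝ᵥ (fun k => g k (yy (t j))) =
            V τ (t i) (yy (t j)) / 2 ^ u (t i) := fun i j => by
          rw [hfg, sum_div]
          exact sum_congr rfl fun k _ => by ring
        refine five_dep (fun i k => f k (t i) / 2 ^ u (t i)) (fun j k => g k (yy (t j)))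
          (fun i j => ?_) fun i j hij => ?_
        · rw [e]
          exact (div_pos (hV _ _ _) (by positivity)).le
        · rw [e, e]
          exact lt_of_not_ge fun a => (ht' i j hij).2 (mem_filter.2 ⟨ht i, (ht' i j hij).1, a⟩)
      · rcases e : l x with _ | τ
        · rw [h1 x e]
          exact Nat.zero_le _
        · obtain ⟨hx, h5⟩ := h2 x τ e
          obtain ⟨P, hP, h4⟩ := h3 x hx
          obtain ⟨l0, y, h6⟩ := h5 P hP
          obtain ⟨x', a1, a0⟩ := exists_mem_notMem_of_card_lt_card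
            (Nat.lt_of_mul_lt_mul_left (h6.trans_le (solid x P l0 hP)))
          rw [mem_filter] at a1
          have a2 : 4 * (V τ x' y / 2 ^ u x') < V τ x y / 2 ^ u x :=
            lt_of_not_ge fun a => a0 (mem_filter.2 ⟨a1.1, a1.2, a⟩)
          rw [h1 x' (h4 x' a1.1), pow_zero, div_one] at a2
          have a6 : V τ x' y < V τ x y / 2 ^ u x := by linarith [hV τ x' y]
          rw [lt_div_iff₀ (by positivity), mul_comm, ← lt_div_iff₀ (hV τ x' y)] at a6
          have a3 : V τ x y / V τ x' y ≤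
              ∑ p : T × Ω × Ω × Y, V p.1 p.2.1 p.2.2.2 / V p.1 p.2.2.1 p.2.2.2 :=
            single_le_sum
              (f := fun p : T × Ω × Ω × Y => V p.1 p.2.1 p.2.2.2 / V p.1 p.2.2.1 p.2.2.2)
              (fun p _ => (div_pos (hV _ _ _) (hV _ _ _)).le) (mem_univ (τ, x, x', y))
          have a4 : (u x : ℝ) ≤ 2 ^ u x := by exact_mod_cast (Nat.lt_two_pow_self).le
          have a5 := Nat.le_ceil
            (∑ p : T × Ω × Ω × Y, V p.1 p.2.1 p.2.2.2 / V p.1 p.2.2.1 p.2.2.2)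
          exact (Nat.cast_le (α := ℝ)).1 (by linarith)⟩
  refine ⟨fun x => (2 ^ u x)⁻¹, fun x => by positivity, fun τ x hx => ?_⟩
  have h := hu τ x
  push Not at h
  obtain ⟨P, hP, h⟩ := h hx
  refine ⟨P, hP, fun l y => ?_⟩
  simpa only [div_eq_inv_mul] using h l y

end Pool.Agent.Lib.MP_7836d5_lc.LP
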