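import Pool.Agent.Lib.MP_7836d5_lc.LP.Term
import Pool.Agent.Lib.MP_7836d5_lc.LP.Core0

set_option autoImplicit false
set_option linter.unusedSectionVars false

namespace Pool.Agent.Lib.MP_7836d5_lc.LP

open Finset

variable {E FX FY : Type} [Fintype E] [DecidableEq E] [Fintype FX] [DecidableEq FX]
  [Fintype FY] [DecidableEq FY] {D : PD E} {g : FX → FY → ZMod 2}

lemma sub2_cut {η Θ : ℝ} (hpos : Pos D g η) (hΘ : 0 ≤ Θ) {A : Finset (E → FX)}
    {B : Finset (E → FY)} (p : (E → FX) → ℝ) (q : (E → FY) → ℝ) (hp : ∀ x, 0 ≤ p x)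
    (hq : ∀ y, 0 ≤ q y) (hb : ∀ x ∈ A, ∀ y ∈ B, p x * q y ≤ Θ) :
    -(η * Θ * ((Fintype.card (E → FX) : ℝ) * Fintype.card (E → FY))) ≤
      ∑ x ∈ A, ∑ y ∈ B, D.rho (zf g x y) * (p x * q y) := by
  have h1 := hpos (fun x => if x ∈ A then p x else 0) (fun y => if y ∈ B then q y else 0) Θ
    (fun x => by
      split_ifs with hx
      · exact hp x
      · exact le_rfl)
    (fun y => by
      split_ifs with hy
      · exact hq y
      · exact le_rfl) hΘ
    (fun x y => by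
      split_ifs with hx hy
      · exact hb x hx y hy
      · rwa [mul_zero]
      · rwa [zero_mul]
      · rwa [zero_mul])
  refine h1.trans (le_of_eq ?_)
  rw [← sum_subset (subset_univ A)]
  · refine sum_congr rfl fun x hx => ?_
    rw [← sum_subset (subset_univ B)]
    · refine sum_congr rfl fun y hy => ?_
      simp only [if_pos hx, if_pos hy]
    · intro y _ hy
      simp only [if_neg hy, mul_zero]
  · intro x _ hx
    simp only [if_neg hx, zero_mul, mul_zero, sum_const_zero]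

/-- each of the at most `k` rank one terms is at most `Θ` on `A × B`; apply `Pos` to the terms cut
down to `A` and `B` -/
lemma pos_nr {η Θ : ℝ} (hpos : Pos D g η) (hη : 0 ≤ η) (hΘ : 0 ≤ Θ) {A : Finset (E → FX)}
    {B : Finset (E → FY)} {k : ℕ} {W : (E → FX) → (E → FY) → ℝ} (hW : NR A B k W)
    (hb : ∀ x ∈ A, ∀ y ∈ B, W x y ≤ Θ) :
    -(k * η * Θ * ((Fintype.card (E → FX) : ℝ) * Fintype.card (E → FY))) ≤
      ∑ x ∈ A, ∑ y ∈ B, D.rho (zf g x y) * W x y := by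
  obtain ⟨T, _, a, b, hT, ha, hb', hW⟩ := hW
  have hsplit : ∑ x ∈ A, ∑ y ∈ B, D.rho (zf g x y) * W x y =
      ∑ i, ∑ x ∈ A, ∑ y ∈ B, D.rho (zf g x y) * (a i x * b i y) := by
    rw [sum_comm (s := univ) (t := A)]
    refine sum_congr rfl fun x hx => ?_
    rw [sum_comm (s := univ) (t := B)]
    refine sum_congr rfl fun y hy => ?_
    rw [hW x hx y hy, mul_sum]
  have hone : ∀ i, -(η * Θ * ((Fintype.card (E → FX) : ℝ) * Fintype.card (E → FY))) ≤
      ∑ x ∈ A, ∑ y ∈ B, D.rho (zf g x y) * (a i x * b i y) := fun i =>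
    sub2_cut hpos hΘ (a i) (b i) (ha i) (hb' i) fun x hx y hy => by
      refine le_trans ?_ (hb x hx y hy)
      rw [hW x hx y hy]
      exact single_le_sum (f := fun j => a j x * b j y)
        (fun j _ => mul_nonneg (ha j x) (hb' j y)) (mem_univ i)
  have hN : (0 : ℝ) ≤ η * Θ * ((Fintype.card (E → FX) : ℝ) * Fintype.card (E → FY)) := by
    positivity
  rw [hsplit]
  refine le_trans ?_ (card_nsmul_le_sum univ _ _ fun i _ => hone i)
  rw [card_univ, nsmul_eq_mul]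
  have hT' : (Fintype.card T : ℝ) ≤ k := by exact_mod_cast hT
  nlinarith [mul_le_mul_of_nonneg_right hT' hN]

/-- `pos_nr` (with `NR.mul`) on the cells, `abs_rho_le` on the uncovered part, which has at most
`2 * (A.card / J) * B.card` points -/
lemma pos_term {η Θ : ℝ} (hpos : Pos D g η) (hη : 0 ≤ η) (hΘ : 0 ≤ Θ) {A : Finset (E → FX)}
    {B : Finset (E → FY)} {V : (E → FX) → (E → FY) → ℝ} (hV : Term V) (s : (E → FX) → ℝ)
    (t : (E → FY) → ℝ) (hs : ∀ x, 0 ≤ s x) (ht : ∀ y, 0 ≤ t y) {J : ℕ} (hJ : 0 < J)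
    (hb : ∀ x ∈ A, ∀ y ∈ B, s x * t y * V x y ≤ Θ) :
    -(((8 * J + 4) * η + 2 ^ (Fintype.card E + 1) / J) * Θ *
        ((Fintype.card (E → FX) : ℝ) * Fintype.card (E → FY))) ≤
      ∑ x ∈ A, ∑ y ∈ B, D.rho (zf g x y) * (s x * t y * V x y) := by
  classical
  obtain ⟨T, _, a, b, hT, hcell, huniq, hunc⟩ := hV.cell A B J hJ
  obtain ⟨Fn, hFn⟩ : ∃ Fn : (E → FX) → (E → FY) → ℝ,
      ∀ x y, Fn x y = D.rho (zf g x y) * (s x * t y * V x y) := ⟨_, fun _ _ => rfl⟩
  simp only [← hFn]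
  have hpt : ∀ x y, Fn x y = (∑ i, if x ∈ a i ∧ y ∈ b i then Fn x y else 0) +
      if ¬ ∃ i, x ∈ a i ∧ y ∈ b i then Fn x y else 0 := fun x y => by
    by_cases h : ∃ i, x ∈ a i ∧ y ∈ b i
    · obtain ⟨i, hi⟩ := h
      rw [sum_eq_single i, if_pos hi, if_neg (not_not.2 ⟨i, hi⟩), add_zero]
      · intro j _ hj
        exact if_neg fun h => hj (huniq x y j i h.1 h.2 hi.1 hi.2)
      · intro h
        exact absurd (mem_univ i) h
    · rw [if_pos h, sum_eq_zero fun i _ => if_neg fun hi => h ⟨i, hi⟩, zero_add]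
  have hrect : ∀ i, ∑ x ∈ A, ∑ y ∈ B, (if x ∈ a i ∧ y ∈ b i then Fn x y else 0) =
      ∑ x ∈ a i, ∑ y ∈ b i, Fn x y := fun i => by
    rw [← sum_subset (hcell i).1]
    · refine sum_congr rfl fun x hx => ?_
      rw [← sum_subset (hcell i).2.1]
      · exact sum_congr rfl fun y hy => if_pos ⟨hx, hy⟩
      · intro y _ hy
        exact if_neg fun h => hy h.2
    · intro x _ hx
      exact sum_eq_zero fun y _ => if_neg fun h => hx h.1
  have hsplit : ∑ x ∈ A, ∑ y ∈ B, Fn x y = (∑ i, ∑ x ∈ a i, ∑ y ∈ b i, Fn x y) +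
      ∑ y ∈ B, ∑ x ∈ A.filter (fun x => ¬ ∃ i, x ∈ a i ∧ y ∈ b i), Fn x y := by
    rw [sum_congr rfl fun x _ => sum_congr rfl fun y _ => hpt x y]
    simp only [sum_add_distrib]
    congr 1
    · rw [← sum_congr rfl fun i _ => hrect i, sum_comm (s := univ) (t := A)]
      refine sum_congr rfl fun x _ => ?_
      rw [sum_comm]
    · rw [sum_comm]
      simp only [sum_filter]
  obtain ⟨N, hNdef⟩ : ∃ N : ℝ, N = (Fintype.card (E → FX) : ℝ) * Fintype.card (E → FY) := ⟨_, rfl⟩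
  have hN0 : 0 ≤ N := by rw [hNdef]; positivity
  have hone : ∀ i, -(4 * η * Θ * N) ≤ ∑ x ∈ a i, ∑ y ∈ b i, Fn x y := fun i => by
    have := pos_nr hpos hη hΘ ((hcell i).2.2.mul s t hs ht) fun x hx y hy =>
      hb x ((hcell i).1 hx) y ((hcell i).2.1 hy)
    simp only [hFn]
    rw [hNdef]
    exact_mod_cast this
  have h1 : -((2 * J + 1) * (4 * η * Θ * N)) ≤ ∑ i, ∑ x ∈ a i, ∑ y ∈ b i, Fn x y := by
    refine le_trans ?_ (card_nsmul_le_sum univ _ _ fun i _ => hone i)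
    rw [card_univ, nsmul_eq_mul]
    have hT' : (Fintype.card T : ℝ) ≤ 2 * J + 1 := by exact_mod_cast hT
    have h0 : 0 ≤ 4 * η * Θ * N := by positivity
    nlinarith [mul_le_mul_of_nonneg_right hT' h0]
  have hM : (0 : ℝ) < 2 ^ Fintype.card E := by positivity
  have hJ' : (0 : ℝ) < J := by exact_mod_cast hJ
  have hlow : ∀ x ∈ A, ∀ y ∈ B, -(2 ^ Fintype.card E * Θ) ≤ Fn x y := fun x hx y hy => by
    have e1 := (abs_le.1 (D.abs_rho_le (zf g x y))).1
    have e2 : 0 ≤ s x * t y * V x y := mul_nonneg (mul_nonneg (hs x) (ht y)) (hV.pos x y).le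
    have e3 := hb x hx y hy
    rw [hFn]
    nlinarith [mul_le_mul_of_nonneg_left e3 hM.le, mul_le_mul_of_nonneg_right e1 e2]
  have hcol : ∀ y ∈ B, -(2 * (Fintype.card (E → FX) : ℝ) / J * (2 ^ Fintype.card E * Θ)) ≤
      ∑ x ∈ A.filter (fun x => ¬ ∃ i, x ∈ a i ∧ y ∈ b i), Fn x y := fun y hy => by
    refine le_trans ?_ (card_nsmul_le_sum _ _ _ fun x hx => hlow x (mem_filter.1 hx).1 y hy)
    rw [nsmul_eq_mul]
    have c1 : ((A.filter (fun x => ¬ ∃ i, x ∈ a i ∧ y ∈ b i)).card : ℝ) ≤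
        ((2 * (A.card / J) : ℕ) : ℝ) := by
      have := hunc y hy
      exact_mod_cast (by convert this)
    have c2 : ((A.card / J : ℕ) : ℝ) ≤ (A.card : ℝ) / J := Nat.cast_div_le
    have c3 : (A.card : ℝ) ≤ Fintype.card (E → FX) := by exact_mod_cast card_le_univ A
    have c4 : (A.card : ℝ) / J ≤ (Fintype.card (E → FX) : ℝ) / J :=
      div_le_div_of_nonneg_right c3 hJ'.le
    have c5 : ((A.filter (fun x => ¬ ∃ i, x ∈ a i ∧ y ∈ b i)).card : ℝ) ≤
        2 * (Fintype.card (E → FX) : ℝ) / J := by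
      rw [Nat.cast_mul, Nat.cast_ofNat] at c1
      rw [mul_div_assoc]
      linarith
    have h0 : 0 ≤ 2 ^ Fintype.card E * Θ := by positivity
    nlinarith [mul_le_mul_of_nonneg_right c5 h0]
  have h2 : -(2 ^ (Fintype.card E + 1) / J * Θ * N) ≤
      ∑ y ∈ B, ∑ x ∈ A.filter (fun x => ¬ ∃ i, x ∈ a i ∧ y ∈ b i), Fn x y := by
    refine le_trans ?_ (card_nsmul_le_sum _ _ _ hcol)
    rw [nsmul_eq_mul]
    have c3 : (B.card : ℝ) ≤ Fintype.card (E → FY) := by exact_mod_cast card_le_univ B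
    have h0 : 0 ≤ 2 * (Fintype.card (E → FX) : ℝ) / J * (2 ^ Fintype.card E * Θ) := by positivity
    have e : 2 ^ (Fintype.card E + 1) / J * Θ * N = Fintype.card (E → FY) *
        (2 * (Fintype.card (E → FX) : ℝ) / J * (2 ^ Fintype.card E * Θ)) := by
      rw [hNdef, pow_succ]
      ring
    rw [e]
    nlinarith [mul_le_mul_of_nonneg_right c3 h0]
  rw [hsplit, ← hNdef]
  have e : ((8 * J + 4) * η + 2 ^ (Fintype.card E + 1) / J) * Θ * N =
      (2 * J + 1) * (4 * η * Θ * N) + 2 ^ (Fintype.card E + 1) / J * Θ * N := by ring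
  rw [e]
  linarith

/-- As `pos_cons`: sum over the rectangles of `exists_part`; the hypothesis `h` is applied to
`A ∩ a i` and `B ∩ b i` when these are consistent. -/
lemma pos_classes [Nonempty FX] [Nonempty FY] {β : ℝ} (hβ : 0 ≤ β) {K : Finset E}
    {A : Finset (E → FX)} {B : Finset (E → FY)} {δ : E → ZMod 2}
    (hc : ∀ x ∈ A, ∀ y ∈ B, ∀ e ∈ K, zf g x y e = δ e) (I : (E → FX) → Finset E)
    (J : (E → FY) → Finset E) {wX wY : ℕ} (hI : ∀ x, (I x).card ≤ wX) (hJ : ∀ y, (J y).card ≤ wY)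
    (W : (E → FX) → (E → FY) → ℝ)
    (h : ∀ A1 ⊆ A, ∀ B1 ⊆ B, (∀ x ∈ A1, ∀ y ∈ B1, D.Cons (K ∪ I x ∪ J y) (zf g x y)) →
      -β ≤ ∑ x ∈ A1, ∑ y ∈ B1, D.rho (zf g x y) * W x y) :
    -((16 ^ Fintype.card E * Fintype.card FX ^ wX * Fintype.card FY ^ wY : ℕ) * β) ≤
      ∑ x ∈ A, ∑ y ∈ B, D.rho (zf g x y) *
        if D.Cons (K ∪ I x ∪ J y) (zf g x y) then W x y else 0 := by
  classical
  obtain ⟨T, _, a, b, hT, huniq, hconst⟩ := exists_part g I J hI hJ
  set Fn : (E → FX) → (E → FY) → ℝ := fun x y => D.rho (zf g x y) *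
    if D.Cons (K ∪ I x ∪ J y) (zf g x y) then W x y else 0 with hFn
  have hsplit : ∑ x ∈ A, ∑ y ∈ B, Fn x y
      = ∑ i, ∑ x ∈ A.filter (· ∈ a i), ∑ y ∈ B.filter (· ∈ b i), Fn x y := by
    simp only [sum_filter]
    rw [sum_comm (s := univ) (t := A)]
    refine sum_congr rfl fun x _ => ?_
    have h1 : ∀ i, (if x ∈ a i then ∑ y ∈ B, (if y ∈ b i then Fn x y else (0 : ℝ)) else (0 : ℝ))
        = ∑ y ∈ B, (if x ∈ a i ∧ y ∈ b i then Fn x y else (0 : ℝ)) := fun i => by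
      by_cases h : x ∈ a i <;> simp [h]
    simp only [h1]
    rw [sum_comm]
    refine sum_congr rfl fun y _ => ?_
    obtain ⟨i, hi, hu⟩ := huniq x y
    rw [sum_eq_single i, if_pos hi]
    · intro j _ hj
      exact if_neg fun h => hj (hu j h)
    · intro h
      exact absurd (mem_univ i) h
  have hone : ∀ i, -β ≤
      ∑ x ∈ A.filter (· ∈ a i), ∑ y ∈ B.filter (· ∈ b i), Fn x y := fun i => by
    by_cases h' : ∃ x0 ∈ A.filter (· ∈ a i), ∃ y0 ∈ B.filter (· ∈ b i),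
        D.Cons (K ∪ I x0 ∪ J y0) (zf g x0 y0)
    · obtain ⟨x0, hx0, y0, hy0, h0⟩ := h'
      have hall : ∀ x ∈ A.filter (· ∈ a i), ∀ y ∈ B.filter (· ∈ b i),
          D.Cons (K ∪ I x ∪ J y) (zf g x y) := fun x hx y hy => by
        rw [mem_filter] at hx hy hx0 hy0
        obtain ⟨e1, e2, e3⟩ := hconst i x0 hx0.2 x hx.2 y0 hy0.2 y hy.2
        rw [e1, e2]
        refine (PD.cons_congr fun e he => ?_).1 h0
        rw [union_assoc, mem_union] at he
        rcases he with he | he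
        · rw [hc x0 hx0.1 y0 hy0.1 e he, hc x hx.1 y hy.1 e he]
        · exact (e3 e he).symm
      refine (h _ (filter_subset _ _) _ (filter_subset _ _) hall).trans (le_of_eq ?_)
      refine sum_congr rfl fun x hx => sum_congr rfl fun y hy => ?_
      simp only [hFn, if_pos (hall x hx y hy)]
    · push Not at h'
      rw [sum_eq_zero fun x hx => sum_eq_zero fun y hy => by
        simp only [hFn, if_neg (h' x hx y hy), mul_zero]]
      linarith
  rw [hsplit]
  refine le_trans ?_ (card_nsmul_le_sum univ _ _ fun i _ => hone i)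
  rw [card_univ, nsmul_eq_mul]
  have hT' : (Fintype.card T : ℝ) ≤
      ((16 ^ Fintype.card E * Fintype.card FX ^ wX * Fintype.card FY ^ wY : ℕ) : ℝ) := by
    exact_mod_cast hT
  nlinarith [mul_le_mul_of_nonneg_right hT' hβ]

end Pool.Agent.Lib.MP_7836d5_lc.LP
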