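import Pool.Agent.Lib.MP_7836d5_lc.LP.Sub
import Pool.Agent.Lib.MP_7836d5_lc.LP.Sub2
import Pool.Agent.Lib.MP_7836d5_lc.LP.Gauge2
import Pool.Agent.Lib.MP_7836d5_lc.LP.Junta

set_option autoImplicit false
set_option linter.unusedSectionVars false

/-! The core theorem with squares. -/

namespace Pool.Agent.Lib.MP_7836d5_lc.LP

open Finset

variable {E FX FY : Type} [Fintype E] [DecidableEq E] [Fintype FX] [DecidableEq FX]
  [Fintype FY] [DecidableEq FY]

def evR (g : FX → FY → ZMod 2) (l : Finset E × (E → FY)) (x x' : E → FX) : Prop :=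
  ∀ e ∈ l.1, zf g x' l.2 e = zf g x l.2 e

def evC (g : FX → FY → ZMod 2) (l : Finset E × (E → FX)) (y y' : E → FY) : Prop :=
  ∀ e ∈ l.1, zf g l.2 y' e = zf g l.2 y e

def Comb2 (g : FX → FY → ZMod 2) (ε μ : ℝ) (σ : ℕ) (K : Finset E)
    (RP : (E → FX) → Finset E → Finset (E → FX) → Prop)
    (CP : (E → FY) → Finset E → Finset (E → FY) → Prop) : Prop :=
  ∀ x y I P J Q, RP x I P → CP y J Q → ∀ A1 ⊆ P, ∀ B1 ⊆ Q,
    P.card ≤ 144 * σ ^ 3 * A1.card → Q.card ≤ 144 * σ ^ 3 * B1.card →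
    Four g ε (K ∪ I ∪ J) A1 B1 ∧ μ * Fintype.card (E → FX) ≤ A1.card ∧
      μ * Fintype.card (E → FY) ≤ B1.card

def Env2 (g : FX → FY → ZMod 2) (ε μ : ℝ) (σ wX wY S : ℕ) (K : Finset E) (A : Finset (E → FX))
    (B : Finset (E → FY)) : Prop :=
  Half g ε μ K A B ∧ ∃ RP CP tX tY, Pieces RP A wX tX ∧ Pieces CP B wY tY ∧
    Comb2 g ε μ σ K RP CP ∧ Full RP A (S * tX) ∧ Full CP B (S * tY) ∧
    (∀ x I P J y, RP x I P → P.card ≤ σ * (partR g P J x y).card) ∧
    ∀ y J Q I x, CP y J Q → Q.card ≤ σ * (partC g Q I x y).card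

/-- `gauge2` with `Pc x P := P ⊆ A ∧ ∃ I, RP x I P`; the hypothesis `H` as in `gauge_pieces` -/
lemma gauge_pieces2 {F Λ Y T : Type} [Fintype F] [DecidableEq F] [Fintype Y] [Fintype T]
    {RP : (E → F) → Finset E → Finset (E → F) → Prop} {A : Finset (E → F)} {w t S σ : ℕ}
    (hR : Pieces RP A w t) (hF : Full RP A (S * t)) (hT : Fintype.card T ≤ S)
    (V : T → (E → F) → Y → ℝ) (hV : ∀ τ x y, 0 < V τ x y)
    (rk : ∀ τ, ∃ (f : Fin 4 → (E → F) → ℝ) (h : Fin 4 → Y → ℝ),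
      ∀ x y, V τ x y = ∑ i, f i x * h i y)
    (ev : Λ → (E → F) → (E → F) → Prop) [∀ l x x', Decidable (ev l x x')] (tup : Tup ev σ)
    (solid : ∀ x I P l, RP x I P → P.card ≤ σ * (P.filter (ev l x)).card) :
    ∃ (u : (E → F) → ℝ) (I : T → (E → F) → Finset E) (P : T → (E → F) → Finset (E → F)),
      (∀ x, 0 < u x) ∧ (∀ τ x, (I τ x).card ≤ w) ∧ ∀ τ, ∀ x ∈ A, RP x (I τ x) (P τ x) ∧
        P τ x ⊆ A ∧ ∀ l y, (P τ x).card ≤ σ * ((P τ x).filter fun x' =>
          ev l x x' ∧ u x * V τ x y ≤ 8 * (u x' * V τ x' y)).card := by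
  classical
  obtain ⟨u, hu, hP⟩ := gauge2 V hV rk ev tup A (fun x P => P ⊆ A ∧ ∃ I, RP x I P)
    (fun x P l ⟨_, I, h⟩ => solid x I P l h) (fun l => by
      by_cases h : ∃ j, t ≤ (A.filter fun x => l x = some j).card
      · obtain ⟨j, hj⟩ := h
        obtain ⟨P, hPZ, hne, I, hI⟩ := hR.ex _ (filter_subset _ _) hj
        exact Or.inl ⟨j, P, hne, fun x hx => ⟨(mem_filter.1 (hPZ hx)).2,
          hPZ.trans (filter_subset _ _), I, hI x hx⟩⟩
      · push Not at h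
        refine Or.inr fun x hx => ?_
        have hZ : (univ.biUnion fun j : T => A.filter fun x => l x = some j).card ≤ S * t := by
          refine (card_biUnion_le_card_mul _ _ t fun j _ => (h j).le).trans ?_
          rw [card_univ]
          exact Nat.mul_le_mul_right _ hT
        refine ⟨_, ⟨sdiff_subset, ∅, hF _ hZ x hx⟩, fun x' hx' => ?_⟩
        rw [mem_sdiff] at hx'
        rcases hl : l x' with _ | j
        · rfl
        · exact absurd (mem_biUnion.2 ⟨j, mem_univ _, mem_filter.2 ⟨hx'.1, hl⟩⟩) hx'.2)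
  have key : ∀ τ x, ∃ (I : Finset E) (P : Finset (E → F)), I.card ≤ w ∧ (x ∈ A →
      RP x I P ∧ P ⊆ A ∧ ∀ l y, P.card ≤ σ * (P.filter fun x' =>
          ev l x x' ∧ u x * V τ x y ≤ 8 * (u x' * V τ x' y)).card) := fun τ x => by
    by_cases hx : x ∈ A
    · obtain ⟨P, ⟨h2, I, h3⟩, h4⟩ := hP τ x hx
      exact ⟨I, P, hR.card_le x I P h3, fun _ => ⟨h3, h2, h4⟩⟩
    · exact ⟨∅, ∅, Nat.zero_le _, fun h => absurd h hx⟩
  choose I P h1 h2 using key
  exact ⟨u, I, P, hu, h1, fun j x hx => h2 j x hx⟩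

theorem core2 [Nonempty FX] [Nonempty FY] {D : PD E} {g : FX → FY → ZMod 2}
    (hort : ∀ a a', a ≠ a' → ∑ c, ch (g a c + g a' c) = 0)
    {ε μ ζ η c : ℝ} {σ wX wY S s k n J : ℕ} {K : Finset E} {A : Finset (E → FX)}
    {B : Finset (E → FY)} {δ : E → ZMod 2} {M N : (E → FX) → (E → FY) → ℝ} (hpos : Pos D g η)
    (tupR : Tup (evR (E := E) g) σ) (tupC : Tup (evC (E := E) g) σ)
    (henv : Env2 g ε μ σ wX wY (S + s + 1) K A B)
    (hc : ∀ x ∈ A, ∀ y ∈ B, ∀ e ∈ K, zf g x y e = δ e) (hcons : D.Cons K δ)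
    (hk : K.card + wX + wY ≤ k) (hd : 2 * k ≤ D.d) (hε : 0 ≤ ε)
    (hm : (1 + ε) ^ Fintype.card E ≤ 3 / 2) (hμ : 0 < μ) (hη : 0 ≤ η) (hζ : 0 ≤ ζ)
    (hM : NR A B S M) (hN : SQ s N) (hc0 : 0 < c) (hJ : 0 < J)
    (hn : ((n + 5 * (S + s + 1) * (8 ^ Fintype.card E *
      Fintype.card FX ^ (Fintype.card E - (D.d - 2 * k))) : ℕ) : ℝ) ≤
        ζ ^ 2 * Fintype.card (E → FX))
    (hnum : (S + s + 1) *
      ((16 ^ Fintype.card E * Fintype.card FX ^ wX * Fintype.card FY ^ wY : ℕ) *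
        ((8 * J + 4) * η + 2 ^ (Fintype.card E + 1) / J) +
      2 ^ (Fintype.card E + 1) * ζ) < μ ^ 2 / 512) :
    ¬ Low D g A B n fun x y => M x y + N x y + c := by
  classical
  intro hlow
  obtain ⟨hhalf, RP, CP, tX, tY, hR, hC, hco, hFR, hFC, soR, soC⟩ := henv
  obtain ⟨T, _, _, V, hT, hV, hsum⟩ := exists_terms hM hN hc0
  obtain ⟨u, I, P, hu, hI, hP⟩ := gauge_pieces2 hR hFR hT V (fun τ => (hV τ).pos)
    (fun τ => (hV τ).rk) (evR g) tupR fun x I P l h => (soR x I P l.1 l.2 h).trans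
      (Nat.mul_le_mul_left _ (card_le_card fun x' hx' =>
        mem_filter.2 ⟨(mem_filter.1 hx').1, (mem_filter.1 hx').2⟩))
  obtain ⟨v, L, Q, hv, hL, hQ⟩ := gauge_pieces2 hC hFC hT (fun τ y x => V τ x y)
    (fun τ y x => (hV τ).pos x y)
    (fun τ => by
      obtain ⟨f, h, e⟩ := (hV τ).rk
      exact ⟨h, f, fun y x => (e x y).trans (sum_congr rfl fun i _ => mul_comm _ _)⟩)
    (evC g) tupC fun y I P l h => (soC y I P l.1 l.2 h).trans
      (Nat.mul_le_mul_left _ (card_le_card fun x' hx' =>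
        mem_filter.2 ⟨(mem_filter.1 hx').1, (mem_filter.1 hx').2⟩))
  set n1 := 8 ^ Fintype.card E * Fintype.card FX ^ (Fintype.card E - (D.d - 2 * k)) with hn1
  set Nr := 16 ^ Fintype.card E * Fintype.card FX ^ wX * Fintype.card FY ^ wY with hNr
  set NX : ℝ := (Fintype.card (E → FX) : ℝ) with hNX
  set NY : ℝ := (Fintype.card (E → FY) : ℝ) with hNY
  set β : ℝ := (8 * J + 4) * η + 2 ^ (Fintype.card E + 1) / J with hβ
  have hβ3 : 3 * η ≤ β := by
    have : (0 : ℝ) ≤ 2 ^ (Fintype.card E + 1) / J := by positivity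
    have : (0 : ℝ) ≤ J * η := by positivity
    rw [hβ]
    linarith
  have hβ0 : 0 ≤ β := by linarith
  have hNX0 : 0 < NX := by rw [hNX]; exact_mod_cast Fintype.card_pos
  have hNY0 : 0 < NY := by rw [hNY]; exact_mod_cast Fintype.card_pos
  have hcard : ∀ l x y, (K ∪ I l x ∪ L l y).card ≤ k := fun l x y =>
    (card_union_le _ _).trans <| by
      have := card_union_le K (I l x)
      have := hI l x
      have := hL l y
      omega
  have hlc : ∀ l (A' : Finset (E → FX)) (B' : Finset (E → FY)), Low D g A' B' n1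
      fun x y => if D.Cons (K ∪ I l x ∪ L l y) (zf g x y) then 0 else 1 := fun l A' B' =>
    low_cons (fun x => K ∪ I l x) (L l) (hcard l) hd
  have hS1 : (1 : ℝ) ≤ S + s + 1 := by
    have : (0 : ℝ) ≤ S + s := by positivity
    linarith
  have hNrβ : (0 : ℝ) ≤ Nr * β := by positivity
  have hζ2 : (0 : ℝ) ≤ 2 ^ Fintype.card E * ζ := by positivity
  have hC0 : (univ.filter fun t : T × (E → FX) × (E → FY) => t.2.1 ∈ A ∧ t.2.2 ∈ B ∧
      D.Cons (K ∪ I t.1 t.2.1 ∪ L t.1 t.2.2) (zf g t.2.1 t.2.2)).Nonempty := by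
    by_contra hcon
    rw [not_nonempty_iff_eq_empty, filter_eq_empty_iff] at hcon
    obtain ⟨l⟩ : Nonempty T := inferInstance
    obtain ⟨h1, h2, h3⟩ := hhalf A subset_rfl B subset_rfl (by omega) (by omega)
    refine no_low (n := n1) hort h1 h2 h3 hc hcons (by omega) hε hm hμ hζ ?_ ?_
      ((hlc l A B).congr fun x hx y hy => ?_)
    · refine le_trans ?_ hn
      have : n1 ≤ n + 5 * (S + s + 1) * n1 := by nlinarith
      exact_mod_cast this
    · rw [pow_succ] at hnum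
      nlinarith [sq_nonneg μ]
    · rw [if_neg fun h => hcon (mem_univ (l, x, y)) ⟨hx, hy, h⟩]
  obtain ⟨⟨l0, x0, y0⟩, hmem, hmax⟩ := exists_max_image _
    (fun t : T × (E → FX) × (E → FY) => u t.2.1 * v t.2.2 * V t.1 t.2.1 t.2.2) hC0
  simp only [mem_filter, mem_univ, true_and, Prod.forall] at hmem hmax
  obtain ⟨hx0, hy0, hc0'⟩ := hmem
  set Θ := u x0 * v y0 * V l0 x0 y0 with hΘ
  have hΘ0 : 0 < Θ := mul_pos (mul_pos (hu _) (hv _)) ((hV _).pos _ _)
  obtain ⟨r1, r2, r3⟩ := hP l0 x0 hx0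
  obtain ⟨q1, q2, q3⟩ := hQ l0 y0 hy0
  have r4 := r3 (L l0 y0, y0) y0
  have q4 := soC y0 _ _ (I l0 x0) x0 q1
  set P1 := (P l0 x0).filter fun x' => evR g (L l0 y0, y0) x0 x' ∧
    u x0 * V l0 x0 y0 ≤ 8 * (u x' * V l0 x' y0) with hP1
  set B0 := partC g (Q l0 y0) (I l0 x0) x0 y0 with hB0
  have hP1P : P1 ⊆ P l0 x0 := filter_subset _ _
  have hB0Q : B0 ⊆ Q l0 y0 := filter_subset _ _
  have cube : ∀ a b : ℕ, a ≤ σ * b → a ≤ 144 * σ ^ 3 * a := fun a b h => by
    rcases Nat.eq_zero_or_pos σ with h0 | h0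
    · rw [h0, zero_mul] at h
      omega
    · exact Nat.le_mul_of_pos_left _ (by positivity)
  obtain ⟨-, hP0, hQ0⟩ := hco x0 y0 _ _ _ _ r1 q1 _ subset_rfl _ subset_rfl (cube _ _ r4)
    (cube _ _ q4)
  have ne : ∀ {α : Type} (X Z : Finset α) (r : ℝ), 0 < r → r ≤ X.card → X.card ≤ σ * Z.card →
      Z.Nonempty := fun X Z r h1 h2 h3 => by
    rw [← card_pos]
    have h4 : 0 < X.card := by exact_mod_cast h1.trans_le h2
    exact Nat.pos_of_mul_pos_left (h4.trans_le h3)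
  have hrow : ∀ x ∈ P1, B0.card ≤ σ * (B0.filter fun y => Θ / 64 ≤ u x * v y * V l0 x y).card :=
    fun x hx => by
    refine ((card_le_card hB0Q).trans (q3 (I l0 x0, x0) x)).trans
      (Nat.mul_le_mul_left _ (card_le_card fun y hy => ?_))
    obtain ⟨k1, k2, k3⟩ := mem_filter.1 hy
    refine mem_filter.2 ⟨mem_filter.2 ⟨k1, k2⟩, ?_⟩
    have k4 := mul_le_mul_of_nonneg_left (mem_filter.1 hx).2.2 (hv y0).le
    have k5 := mul_le_mul_of_nonneg_left k3 (hu x).le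
    rw [hΘ]
    linarith
  obtain ⟨A1, hA1P, B1, hB1B, p, q, W, hA1, hB1, hp, hq, hW, hpq⟩ := sub_rect (hV l0) u v hu hv
    (ne _ _ _ (mul_pos hμ hNX0) hP0 r4) (ne _ _ _ (mul_pos hμ hNY0) hQ0 q4)
    (by positivity : 0 < Θ / 64) hrow
  have cube2 : ∀ a b c : ℕ, a ≤ σ * b → b ≤ 144 * σ ^ 2 * c → a ≤ 144 * σ ^ 3 * c :=
    fun a b c h1 h2 => h1.trans ((Nat.mul_le_mul_left _ h2).trans (le_of_eq (by ring)))
  have hAP : A1 ⊆ P l0 x0 := hA1P.trans hP1P
  have hBQ : B1 ⊆ Q l0 y0 := hB1B.trans hB0Q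
  obtain ⟨hF, hA2, hB2⟩ := hco x0 y0 _ _ _ _ r1 q1 _ hAP _ hBQ (cube2 _ _ _ r4 hA1)
    (cube2 _ _ _ q4 hB1)
  have hAA : A1 ⊆ A := hAP.trans r2
  have hBB : B1 ⊆ B := hBQ.trans q2
  have hc1 : ∀ x ∈ A1, ∀ y ∈ B1, ∀ e ∈ K ∪ I l0 x0 ∪ L l0 y0, zf g x y e = zf g x0 y0 e := by
    intro x hx y hy e he
    rw [union_assoc, mem_union] at he
    rcases he with he | he
    · rw [hc x (hAA hx) y (hBB hy) e he, hc x0 hx0 y0 hy0 e he]
    · exact part_const (hR.fix _ _ _ r1) (hC.fix _ _ _ q1) x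
        (mem_filter.2 ⟨hAP hx, (mem_filter.1 (hA1P hx)).2.1⟩) y (hB1B hy) e he
  have hmain := four_cons hF hc1 hc0' ((hcard _ _ _).trans (by omega)) hε hm
  have hA0 : A1.Nonempty := by
    rw [← card_pos]
    exact_mod_cast (mul_pos hμ hNX0).trans_le hA2
  have hB0' : B1.Nonempty := by
    rw [← card_pos]
    exact_mod_cast (mul_pos hμ hNY0).trans_le hB2
  obtain ⟨xa, hxa, hmin⟩ := exists_min_image A1 (fun x => u x * p x) hA0
  set α := u xa * p xa with hα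
  have hαy : ∀ y ∈ B1, Θ / 256 ≤ α * (v y * q y) := fun y hy => by
    have := (hpq xa hxa y hy).2
    linarith
  have hα1 : 0 ≤ α := mul_nonneg (hu _).le (hp _)
  have hα0 : 0 < α := by
    obtain ⟨y, hy⟩ := hB0'
    refine hα1.lt_of_ne fun h => ?_
    have := hαy y hy
    rw [← h, zero_mul] at this
    linarith
  have hp0 : ∀ x ∈ A1, 0 < p x := fun x hx => (hp x).lt_of_ne fun h => by
    have := hmin x hx
    rw [← h, mul_zero] at this
    linarith
  have hq0 : ∀ y ∈ B1, 0 < q y := fun y hy => (hq y).lt_of_ne fun h => by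
    have := hαy y hy
    rw [← h, mul_zero, mul_zero] at this
    linarith
  set a : (E → FX) → ℝ := fun x => α / p x with ha
  set b : (E → FY) → ℝ := fun y => Θ / 256 / α / q y with hb
  have ha0 : ∀ x, 0 ≤ a x := fun x => div_nonneg hα1 (hp x)
  have hb0 : ∀ y, 0 ≤ b y := fun y => div_nonneg (by positivity) (hq y)
  have ha1 : ∀ x ∈ A1, a x ≤ u x := fun x hx => (div_le_iff₀ (hp0 x hx)).2 (hmin x hx)
  have hb1 : ∀ y ∈ B1, b y ≤ v y := fun y hy =>
    (div_le_iff₀ (hq0 y hy)).2 ((div_le_iff₀' hα0).2 (hαy y hy))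
  have hst : ∀ x ∈ A1, ∀ y ∈ B1, a x * p x * (b y * q y) = Θ / 256 := fun x hx y hy => by
    rw [ha, hb, div_mul_cancel₀ _ (hp0 x hx).ne', div_mul_cancel₀ _ (hq0 y hy).ne',
      mul_div_cancel₀ _ hα0.ne']
  have hbd : ∀ l, ∀ x ∈ A1, ∀ y ∈ B1, D.Cons (K ∪ I l x ∪ L l y) (zf g x y) →
      a x * b y * V l x y ≤ Θ := fun l x hx y hy h => by
    refine le_trans ?_ (hmax l x y ⟨hAA hx, hBB hy, h⟩)
    exact mul_le_mul_of_nonneg_right (mul_le_mul (ha1 x hx) (hb1 y hy) (hb0 y) (hu x).le)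
      ((hV l).pos x y).le
  have hW0 : ∀ x ∈ A1, ∀ y ∈ B1, 0 ≤ W x y := fun x hx y hy => by
    obtain ⟨_, _, f, h, -, h2, h3, h4⟩ := hW
    rw [h4 x hx y hy]
    exact sum_nonneg fun i _ => mul_nonneg (h2 i x) (h3 i y)
  have hbW : ∀ x ∈ A1, ∀ y ∈ B1, D.Cons (K ∪ I l0 x ∪ L l0 y) (zf g x y) →
      a x * b y * W x y ≤ Θ := fun x hx y hy h => by
    refine le_trans ?_ (hbd l0 x hx y hy h)
    refine mul_le_mul_of_nonneg_left ?_ (mul_nonneg (ha0 x) (hb0 y))
    rw [(hpq x hx y hy).1]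
    linarith [mul_nonneg (hp x) (hq y)]
  set U : T → (E → FX) → (E → FY) → ℝ := fun l x y =>
    a x * b y * if l = l0 then W x y else V l x y with hU
  set R : (E → FX) → (E → FY) → ℝ := fun x y => Θ / 256 + ∑ l,
    if D.Cons (K ∪ I l x ∪ L l y) (zf g x y) then U l x y else 0 with hRd
  have hT2 : (Fintype.card T : ℝ) ≤ S + s + 1 := by exact_mod_cast hT
  have hlV : ∀ l, Low D g A1 B1 (4 * n1) fun x y => -(a x * b y * V l x y) *
      if D.Cons (K ∪ I l x ∪ L l y) (zf g x y) then 0 else 1 := fun l => by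
    obtain ⟨f, h, e⟩ := (hV l).rk
    refine ((low_sum univ _ fun i _ => (hlc l A1 B1).mul (fun x => -(a x * f i x))
      fun y => b y * h i y).mono subset_rfl subset_rfl (by simp)).congr fun x _ y _ => ?_
    rw [e, mul_sum, ← sum_neg_distrib, sum_mul]
    exact sum_congr rfl fun i _ => by ring
  have hlN : Low D g A1 B1 (n + 5 * (S + s + 1) * n1) R := by
    have h1 := (((hlow.mono hAA hBB le_rfl).mul a b).add (low_sum univ _ fun l _ => hlV l)).add
      ((hlc l0 A1 B1).mul (fun x => a x * p x) fun y => b y * q y)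
    refine (h1.mono subset_rfl subset_rfl ?_).congr fun x hx y hy => ?_
    · have : (univ : Finset T).card * (4 * n1) ≤ (S + s + 1) * (4 * n1) :=
        Nat.mul_le_mul_right _ hT
      nlinarith [Nat.zero_le ((S + s) * n1)]
    · have e1 : ∀ l, a x * b y * V l x y + -(a x * b y * V l x y) *
          (if D.Cons (K ∪ I l x ∪ L l y) (zf g x y) then 0 else 1) =
          (if D.Cons (K ∪ I l x ∪ L l y) (zf g x y) then U l x y else 0) + if l = l0 then
            Θ / 256 * (if D.Cons (K ∪ I l0 x ∪ L l0 y) (zf g x y) then 1 else 0) else 0 := by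
        intro l
        simp only [hU]
        by_cases h : l = l0
        · subst h
          rw [(hpq x hx y hy).1, ← hst x hx y hy]
          simp only [if_true]
          split_ifs <;> ring
        · simp only [if_neg h]
          split_ifs <;> ring
      rw [hsum x (hAA hx) y (hBB hy), mul_sum, ← sum_add_distrib, hst x hx y hy]
      simp only [e1, hRd]
      rw [sum_add_distrib, sum_ite_eq' univ l0, if_pos (mem_univ _)]
      generalize (∑ l, if D.Cons (K ∪ I l x ∪ L l y) (zf g x y) then U l x y else 0) = z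
      split_ifs <;> ring
  have hU0 : ∀ l, ∀ x ∈ A1, ∀ y ∈ B1, 0 ≤ U l x y := fun l x hx y hy => by
    refine mul_nonneg (mul_nonneg (ha0 x) (hb0 y)) ?_
    split_ifs
    exacts [hW0 x hx y hy, ((hV l).pos x y).le]
  have hU1 : ∀ l, ∀ x ∈ A1, ∀ y ∈ B1, D.Cons (K ∪ I l x ∪ L l y) (zf g x y) → U l x y ≤ Θ :=
    fun l x hx y hy h => by
    simp only [hU]
    split_ifs with h1
    · exact hbW x hx y hy (h1 ▸ h)
    · exact hbd l x hx y hy h
  have hNb : ∀ x ∈ A1, ∀ y ∈ B1, |R x y| ≤ 2 * (S + s + 1) * Θ := fun x hx y hy => by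
    have h0 : ∀ l ∈ (univ : Finset T),
        0 ≤ (if D.Cons (K ∪ I l x ∪ L l y) (zf g x y) then U l x y else 0) := fun l _ => by
      split_ifs
      exacts [hU0 l x hx y hy, le_rfl]
    have h1 : ∀ l ∈ (univ : Finset T),
        (if D.Cons (K ∪ I l x ∪ L l y) (zf g x y) then U l x y else 0) ≤ Θ := fun l _ => by
      split_ifs with h
      exacts [hU1 l x hx y hy h, hΘ0.le]
    have h2 := sum_le_card_nsmul _ _ _ h1
    rw [nsmul_eq_mul, card_univ] at h2
    have h3 := sum_nonneg h0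
    rw [abs_of_nonneg (by simp only [hRd]; linarith)]
    simp only [hRd]
    nlinarith
  have hup := hlN.bound hort (by positivity) hNb hζ hn
  have hW' : 0 < Θ * (NX * NY) := by positivity
  have hlo : ∀ l ∈ (univ : Finset T), -(Nr * (β * Θ * (NX * NY))) ≤ ∑ x ∈ A1, ∑ y ∈ B1,
      D.rho (zf g x y) * if D.Cons (K ∪ I l x ∪ L l y) (zf g x y) then U l x y else 0 :=
    fun l _ => by
    refine pos_classes (by positivity) (fun x hx y hy => hc x (hAA hx) y (hBB hy)) (I l) (L l)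
      (hI l) (hL l) (U l) fun A' hA' B' hB' h => ?_
    have h1 := fun x hx y hy => hU1 l x (hA' hx) y (hB' hy) (h x hx y hy)
    simp only [hU] at h1 ⊢
    by_cases h2 : l = l0
    · simp only [if_pos h2] at h1 ⊢
      refine le_trans ?_ (pos_nr hpos hη hΘ0.le ((hW.mono hA' hB' le_rfl).mul a b ha0 hb0) h1)
      have := mul_le_mul_of_nonneg_right hβ3 hW'.le
      push_cast
      linarith
    · simp only [if_neg h2] at h1 ⊢
      exact pos_term hpos hη hΘ0.le (hV l) a b ha0 hb0 hJ h1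
  have hlo2 := card_nsmul_le_sum _ _ _ hlo
  rw [nsmul_eq_mul, card_univ] at hlo2
  have heq : ∑ x ∈ A1, ∑ y ∈ B1, D.rho (zf g x y) * R x y =
      Θ / 256 * ∑ x ∈ A1, ∑ y ∈ B1, D.rho (zf g x y) + ∑ l, ∑ x ∈ A1, ∑ y ∈ B1,
        D.rho (zf g x y) * if D.Cons (K ∪ I l x ∪ L l y) (zf g x y) then U l x y else 0 := by
    rw [sum_comm (s := (univ : Finset T)), mul_sum, ← sum_add_distrib]
    refine sum_congr rfl fun x _ => ?_
    rw [sum_comm (s := (univ : Finset T)), mul_sum, ← sum_add_distrib]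
    refine sum_congr rfl fun y _ => ?_
    simp only [hRd]
    rw [mul_add, mul_sum, mul_comm]
  have hsz : μ ^ 2 * (NX * NY) ≤ (A1.card : ℝ) * B1.card := by
    calc μ ^ 2 * (NX * NY) = μ * NX * (μ * NY) := by ring
      _ ≤ _ := mul_le_mul hA2 hB2 (by positivity) (by positivity)
  have h5 := mul_lt_mul_of_pos_right hnum hW'
  have h6 : Θ / 256 * (μ ^ 2 * (NX * NY) / 2) ≤ Θ / 256 * ∑ x ∈ A1, ∑ y ∈ B1, D.rho (zf g x y) :=
    mul_le_mul_of_nonneg_left (by linarith) (by positivity)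
  have h7 : 0 ≤ Nr * (β * Θ * (NX * NY)) := by positivity
  have h8 := mul_le_mul_of_nonneg_right hT2 h7
  rw [heq] at hup
  rw [pow_succ] at h5
  linarith

end Pool.Agent.Lib.MP_7836d5_lc.LP
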