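import Pool.Agent.Lib.MP_7836d5_lc.Dag
import Pool.Agent.Lib.MP_7836d5_lc.LP.Sys

set_option autoImplicit false
set_option linter.unusedSectionVars false

namespace Pool.Agent.Lib.MP_7836d5_lc.LP

open Finset

variable {E FX FY : Type} [Fintype E] [DecidableEq E] [Fintype FX] [DecidableEq FX]
  [Fintype FY] [DecidableEq FY] {D : PD E} {g : FX → FY → ZMod 2}

lemma DagLP_low_one [Nonempty FX] {k n1 : ℕ} (hd : 2 * k ≤ D.d)
    (hn1 : 8 ^ Fintype.card E * Fintype.card FX ^ (Fintype.card E - (D.d - 2 * k)) ≤ n1)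
    (I : (E → FX) → Finset E) (J : (E → FY) → Finset E) (hk : ∀ x y, (I x ∪ J y).card ≤ k)
    {A : Finset (E → FX)} {B : Finset (E → FY)}
    (h : ∀ x ∈ A, ∀ y ∈ B, ¬ D.Cons (I x ∪ J y) (zf g x y)) :
    Low D g A B n1 fun _ _ => 1 := by
  refine ((low_cons (D := D) (g := g) (A := A) (B := B) I J hk hd).mono subset_rfl subset_rfl
    hn1).congr ?_
  intro x hx y hy
  rw [if_neg (h x hx y hy)]

/-- Take `Er, I` and `Er', J` from `exists_err'`. Claim, by strong induction on `i < s`: if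
`x ∉ Er (i + 1)`, `y ∉ Er' (i + 1)` and `a i x + c i y < 0` then `¬ Cons (I i x ∪ J i y) (zf g x y)`.
Otherwise `henv` gives `A × B` inside the parts of the pieces, with `K = I i x ∪ J i y`,
`δ = zf g x y` (`part_const`); line `i` is negative on it and it avoids the earlier errors. First
rule: `low_cons` with constant labels contradicts `hlow`. Second rule: `exists_split` (`Dag.lean`),
the induction hypothesis and `low_cons` contradict `hlow`. Third rule: `step_lp` and `hcore`.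
Finally `hroot` for `Er s`, `Er' s`, the claim for the root line, `cons_empty` and `hlow`. -/
theorem dag [Nonempty FX] [Nonempty FY] (En : Finset E → Finset (E → FX) → Finset (E → FY) → Prop)
    (Qc : ((E → FX) → (E → FY) → ℝ) → Prop)
    {RP : (E → FX) → Finset E → Finset (E → FX) → Prop}
    {CP : (E → FY) → Finset E → Finset (E → FY) → Prop} {wX wY tX tY k s s' n1 Nr : ℕ}
    (hR : Pieces RP univ wX tX) (hC : Pieces CP univ wY tY) (hk : wX + wY ≤ k) (hd : 2 * k ≤ D.d)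
    (hn1 : 8 ^ Fintype.card E * Fintype.card FX ^ (Fintype.card E - (D.d - 2 * k)) ≤ n1)
    (hNr : 16 ^ Fintype.card E * Fintype.card FX ^ wX * Fintype.card FY ^ wY ≤ Nr)
    (henv : ∀ x y I P J Q, RP x I P → CP y J Q →
      ∃ A ⊆ partR g P J x y, ∃ B ⊆ partC g Q I x y, En (I ∪ J) A B)
    (hroot : ∀ (EX : Finset (E → FX)) (EY : Finset (E → FY)), 2 * EX.card ≤ Fintype.card (E → FX) →
      2 * EY.card ≤ Fintype.card (E → FY) → ∃ A B, Disjoint A EX ∧ Disjoint B EY ∧ En ∅ A B)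
    (hne : ∀ K A B, En K A B → A.Nonempty ∧ B.Nonempty)
    (hlow : ∀ K A B δ, En K A B → K.card ≤ k → (∀ x ∈ A, ∀ y ∈ B, ∀ e ∈ K, zf g x y e = δ e) →
      D.Cons K δ → ∀ A1 ⊆ A, ∀ B1 ⊆ B, A.card ≤ 2 * A1.card → B.card ≤ 2 * B1.card →
      ¬ Low D g A1 B1 n1 fun _ _ => 1)
    (hcore : ∀ K A B δ, En K A B → K.card ≤ k → (∀ x ∈ A, ∀ y ∈ B, ∀ e ∈ K, zf g x y e = δ e) →
      D.Cons K δ → ∀ (M N : (E → FX) → (E → FY) → ℝ) (c0 : ℝ), NR A B (2 + s' + s' * (Nr * 2)) M →
      Qc N → 0 < c0 → ¬ Low D g A B (3 * s' * n1) fun x y => M x y + N x y + c0)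
    (hsX : 2 * (s * tX) ≤ Fintype.card (E → FX)) (hsY : 2 * (s * tY) ≤ Fintype.card (E → FY)) :
    ¬ Sys D g Qc k s s' := by
  rintro ⟨a, c, ⟨i0, hi0, hr0⟩, hrule⟩
  obtain ⟨Er, I, mE, cE, hI, hE⟩ := exists_err' hR a
  obtain ⟨Er', J, mE', cE', hJ, hE'⟩ := exists_err' hC c
  have hIJ : ∀ i x y, (I i x ∪ J i y).card ≤ k := fun i x y =>
    (card_union_le _ _).trans (by have := hI i x; have := hJ i y; omega)
  have key : ∀ i < s, ∀ x y, x ∉ Er (i + 1) → y ∉ Er' (i + 1) → a i x + c i y < 0 →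
      ¬ D.Cons (I i x ∪ J i y) (zf g x y) := by
    intro i
    induction i using Nat.strong_induction_on with
    | _ i ih =>
    intro hi x y hx hy hneg hcons
    obtain ⟨P, hP, dP, mP⟩ := hE i x hx
    obtain ⟨Q, hQ, dQ, mQ⟩ := hE' i y hy
    obtain ⟨A, hA, B, hB, hEn⟩ := henv x y _ P _ Q hP hQ
    have hAP : A ⊆ P := hA.trans (filter_subset _ _)
    have hBQ : B ⊆ Q := hB.trans (filter_subset _ _)
    have hconst : ∀ x' ∈ A, ∀ y' ∈ B, ∀ e ∈ I i x ∪ J i y, zf g x' y' e = zf g x y e :=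
      fun x' hx' y' hy' => part_const (hR.fix _ _ _ hP) (hC.fix _ _ _ hQ) x' (hA hx') y' (hB hy')
    have hnegAB : ∀ x' ∈ A, ∀ y' ∈ B, a i x' + c i y' < 0 := by
      intro x' hx' y' hy'
      linarith [mP x' (hAP hx'), mQ y' (hBQ hy')]
    obtain ⟨neA, neB⟩ := hne _ _ _ hEn
    have ih' : ∀ j < i, ∀ x' ∈ A, ∀ y' ∈ B, a j x' + c j y' < 0 →
        ¬ D.Cons (I j x' ∪ J j y') (zf g x' y') := by
      intro j hj x' hx' y' hy' hn
      refine ih j hj (hj.trans hi) x' y' ?_ ?_ hn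
      · intro h
        exact disjoint_left.mp dP (hAP hx') (mE (Nat.succ_le_of_lt hj) h)
      · intro h
        exact disjoint_left.mp dQ (hBQ hy') (mE' (Nat.succ_le_of_lt hj) h)
    have hl := hlow _ A B _ hEn (hIJ i x y) hconst hcons
    rcases hrule i hi with ⟨K, hK, hK2⟩ | ⟨j, hj, l, hl', hjl⟩ |
      ⟨T, hT, p, p', q, q', j, M, N, h1, h2, h3, h4, h5, h6, h7, h8⟩
    · refine hl A subset_rfl B subset_rfl (by omega) (by omega) ?_
      refine DagLP_low_one hd hn1 (fun _ => K) (fun _ => ∅) (fun _ _ => by simpa using hK) ?_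
      intro x' hx' y' hy'
      simpa using hK2 x' y' (hnegAB x' hx' y' hy')
    · have hsplit : ∃ A' ⊆ A, ∃ B' ⊆ B, A.card ≤ 2 * A'.card ∧ B.card ≤ 2 * B'.card ∧
          ((∀ x ∈ A', ∀ y ∈ B', a j x + c j y < 0) ∨ (∀ x ∈ A', ∀ y ∈ B', a l x + c l y < 0)) := by
        obtain ⟨σ, hs1, hs2⟩ := exists_median A neA (a j)
        obtain ⟨t, ht1, ht2⟩ := exists_median B neB (c j)
        by_cases hst : σ + t < 0
        · refine ⟨_, filter_subset _ _, _, filter_subset _ _, hs1, ht1,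
            Or.inl fun x hx y hy => ?_⟩
          linarith [(mem_filter.mp hx).2, (mem_filter.mp hy).2]
        · refine ⟨_, filter_subset _ _, _, filter_subset _ _, hs2, ht2,
            Or.inr fun x hx y hy => ?_⟩
          refine (hjl x y (hnegAB x (mem_filter.mp hx).1 y (mem_filter.mp hy).1)).resolve_left ?_
          linarith [(mem_filter.mp hx).2, (mem_filter.mp hy).2]
      obtain ⟨A', hA', B', hB', c1, c2, c3⟩ := hsplit
      refine hl A' hA' B' hB' c1 c2 ?_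
      rcases c3 with c3 | c3
      · exact DagLP_low_one hd hn1 (I j) (J j) (hIJ j) fun x' hx' y' hy' =>
          ih' j hj x' (hA' hx') y' (hB' hy') (c3 x' hx' y' hy')
      · exact DagLP_low_one hd hn1 (I l) (J l) (hIJ l) fun x' hx' y' hy' =>
          ih' l hl' x' (hA' hx') y' (hB' hy') (c3 x' hx' y' hy')
    · obtain ⟨M', c0, g1, g2, g3⟩ := step_lp hk hd hn1 hNr neA neB hnegAB I J hI hJ ih'
        p p' q q' j M N h1 h2 h3 h4 h5 h7 h8
      exact hcore _ A B _ hEn (hIJ i x y) hconst hcons M' N c0 g1 h6 g2 g3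
  obtain ⟨A, B, dA, dB, hEn⟩ := hroot (Er s) (Er' s) (by have := cE s; omega)
    (by have := cE' s; omega)
  refine hlow ∅ A B 0 hEn (by simp) (by simp) (D.cons_empty _) A subset_rfl B subset_rfl
    (by omega) (by omega) ?_
  refine DagLP_low_one hd hn1 (I i0) (J i0) (hIJ i0) fun x hx y hy => ?_
  refine key i0 hi0 x y ?_ ?_ (hr0 x y)
  · intro h
    exact disjoint_left.mp dA hx (mE (Nat.succ_le_of_lt hi0) h)
  · intro h
    exact disjoint_left.mp dB hy (mE' (Nat.succ_le_of_lt hi0) h)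

end Pool.Agent.Lib.MP_7836d5_lc.LP
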