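import Mathlib

set_option autoImplicit false

namespace Pool.Agent.Lib.MP_7836d5_lc.LP

/-- `f` is computed by a monotone linear-programming circuit with at most `s` gates, each linear
program having at most `s` rows and `s` columns. `val g p` is the real value of the gate `g` on the
input `p`. A gate is an input bit, or a monotone real function of two earlier gates, or a strong
monotone LP gate `max {(c + C y) ⬝ w : A w ≤ b + B y, w ≥ 0}` with `B, C ≥ 0`, where `y` is the
vector of values of the earlier gates. The circuit accepts if the output gate is positive. -/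
def MLP {ι : Type} (f : (ι → Bool) → Prop) (s : ℕ) : Prop :=
  ∃ val : Fin s → (ι → Bool) → ℝ, (∃ out, ∀ p, f p ↔ 0 < val out p) ∧ ∀ g,
    (∃ e, ∀ p, val g p = if p e = true then 1 else 0) ∨
    (∃ j < g, ∃ l < g, ∃ φ : ℝ × ℝ → ℝ, Monotone φ ∧ ∀ p, val g p = φ (val j p, val l p)) ∨
    ∃ (A B C : Fin s → Fin s → ℝ) (b c : Fin s → ℝ),
      (∀ i j, 0 ≤ B i j ∧ 0 ≤ C i j ∧ (g ≤ j → B i j = 0 ∧ C i j = 0)) ∧ ∀ p,
      IsGreatest {t | ∃ w : Fin s → ℝ, (∀ j, 0 ≤ w j) ∧
        (∀ i, ∑ j, A i j * w j ≤ b i + ∑ j, B i j * val j p) ∧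
        t = ∑ i, (c i + ∑ j, C i j * val j p) * w i} (val g p)

/-- A configuration of a single tape machine: state, tape contents, head position. -/
structure Cfg (Q Γ : Type) : Type where
  q : Q
  tape : ℤ → Γ
  pos : ℤ

/-- One step of the nondeterministic machine with transition table `δ`; the entry
`(q, a, q', a', d)` allows, in state `q` reading `a`, to enter `q'`, write `a'` and move right
(`d = true`) or left. -/
def Step {Q Γ : Type} (δ : Q × Γ × Q × Γ × Bool → Bool) (c c' : Cfg Q Γ) : Prop :=
  ∃ a d, δ (c.q, c.tape c.pos, c'.q, a, d) = true ∧ c'.tape = Function.update c.tape c.pos a ∧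
    c'.pos = if d = true then c.pos + 1 else c.pos - 1

/-- Started in state `q0` on the blank tape, some computation path enters the halting state `qh`
after at most `k` steps. -/
def Halts {Q Γ : Type} (q0 qh : Q) (blank : Γ) (k : ℕ) (δ : Q × Γ × Q × Γ × Bool → Bool) : Prop :=
  ∃ j ≤ k, ∃ c : ℕ → Cfg Q Γ, c 0 = ⟨q0, fun _ => blank, 0⟩ ∧ (∀ i < j, Step δ (c i) (c (i + 1))) ∧
    (c j).q = qh

end Pool.Agent.Lib.MP_7836d5_lc.LP
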