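import Pool.Agent.Lib.MP_7836d5_lc.Defs

set_option autoImplicit false

namespace Pool.Agent.Lib.MP_7836d5_lc.LP

/-- The value at the 0/1 point `σ` of the product of the literals in `M`. -/
noncomputable def mon {V : Type} (M : Clause V) (σ : V → Bool) : ℝ :=
  ∏ l ∈ M, if σ l.1 = l.2 then 1 else 0

/-- The value at the 0/1 point `σ` of the affine form `∑ v, L.1 v * x v - L.2`. -/
noncomputable def lin {V : Type} [Fintype V] (L : (V → ℝ) × ℝ) (σ : V → Bool) : ℝ :=
  (∑ v, if σ v = true then L.1 v else 0) - L.2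

/-- `F` has a dag-like refutation with `s` lines `lin (π i) ≥ 0`, one of them without 0/1
solution. Each line follows on 0/1 points from one clause of `F`, or from two earlier lines, or is
equal on 0/1 points to a sum of at most `s` terms of each of the forms: nonnegative real times
monomial times earlier line; monomial times square of an affine form; real times a monomial that
vanishes wherever some fixed clause of `F` holds. -/
def LSRef {V : Type} [Fintype V] (F : Set (Clause V)) (s : ℕ) : Prop :=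
  ∃ π : Fin s → (V → ℝ) × ℝ, (∃ i, ∀ σ, lin (π i) σ < 0) ∧ ∀ i,
    (∃ C ∈ F, ∀ σ, ClauseSat C σ → 0 ≤ lin (π i) σ) ∨
    (∃ j < i, ∃ l < i, ∀ σ, 0 ≤ lin (π j) σ → 0 ≤ lin (π l) σ → 0 ≤ lin (π i) σ) ∨
    ∃ (a c : Fin s → ℝ) (j : Fin s → Fin s) (M M' M'' : Fin s → Clause V)
      (Q : Fin s → (V → ℝ) × ℝ), (∀ τ, a τ = 0 ∨ (0 < a τ ∧ j τ < i)) ∧
      (∀ τ, c τ = 0 ∨ ∃ C ∈ F, ∀ σ, ClauseSat C σ → mon (M'' τ) σ = 0) ∧
      ∀ σ, lin (π i) σ = ∑ τ, (a τ * mon (M τ) σ * lin (π (j τ)) σ +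
        mon (M' τ) σ * lin (Q τ) σ ^ 2 + c τ * mon (M'' τ) σ)

end Pool.Agent.Lib.MP_7836d5_lc.LP
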