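import Pool.Agent.Lib.MP_7836d5_lc.LP.Defs2

set_option autoImplicit false

namespace Pool.Agent.Lib.MP_7836d5_lc.LP

/-- `F` has a dag-like refutation with `s` lines `lin (π i) ≥ 0`, one of them without 0/1
solution. Each line follows on 0/1 points from one clause of `F`, or from at most `t` earlier lines,
or is equal on 0/1 points to a sum of `2 s` terms of each of the forms: monomial times a product of at
most `t` earlier lines times the square of an affine form; real times a monomial that vanishes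
wherever some fixed clause of `F` holds. -/
def LSStar {V : Type} [Fintype V] (F : Set (Clause V)) (t s : ℕ) : Prop :=
  ∃ π : Fin s → (V → ℝ) × ℝ, (∃ i, ∀ σ, lin (π i) σ < 0) ∧ ∀ i,
    (∃ C ∈ F, ∀ σ, ClauseSat C σ → 0 ≤ lin (π i) σ) ∨
    (∃ j : List (Fin s), j.length ≤ t ∧ (∀ l ∈ j, l < i) ∧
      ∀ σ, (∀ l ∈ j, 0 ≤ lin (π l) σ) → 0 ≤ lin (π i) σ) ∨
    ∃ (c : Fin s ⊕ Fin s → ℝ) (j : Fin s ⊕ Fin s → List (Fin s))
      (M M' : Fin s ⊕ Fin s → Clause V) (Q : Fin s ⊕ Fin s → (V → ℝ) × ℝ),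
      (∀ τ, (j τ).length ≤ t ∧ ∀ l ∈ j τ, l < i) ∧
      (∀ τ, c τ = 0 ∨ ∃ C ∈ F, ∀ σ, ClauseSat C σ → mon (M' τ) σ = 0) ∧
      ∀ σ, lin (π i) σ = ∑ τ, (mon (M τ) σ * ((j τ).map fun l => lin (π l) σ).prod *
        lin (Q τ) σ ^ 2 + c τ * mon (M' τ) σ)

end Pool.Agent.Lib.MP_7836d5_lc.LP
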