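import Pool.Agent.Lib.MP_7836d5_lc.LP.Defs

set_option autoImplicit false

/-! One LP gate simulates monotone feasibility systems, monotone separation and span programs. -/

namespace Pool.Agent.Lib.MP_7836d5_lc.LP

open Finset

lemma sum_extend {K : Type} [Fintype K] {s : ℕ} (κ : K ↪ Fin s) (a : K → ℝ) (w : Fin s → ℝ) :
    ∑ j, Function.extend κ a 0 j * w j = ∑ k, a k * w (κ k) :=
  (Fintype.sum_of_injective κ κ.injective _ _
    (fun j hj => by rw [Function.extend_apply' _ _ _ hj]; simp)
    fun k => by rw [κ.injective.extend_apply]).symm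

lemma sum_bit {ι : Type} [Fintype ι] [DecidableEq ι] (p : ι → Bool) (e : ι) (c : ℝ) :
    (∑ x, if p x = true then if x = e then c else 0 else 0) = if p e = true then c else 0 := by
  rw [sum_eq_single e (fun x _ h => by simp [h]) (by simp)]
  simp

lemma single_nn {ι : Type} [DecidableEq ι] (a e : ι) {c : ℝ} (h : 0 ≤ c) :
    0 ≤ (Pi.single a c : ι → ℝ) e := by
  rw [Pi.single_apply]
  split_ifs
  · exact h
  · exact le_rfl

theorem mlp_one {ι R K : Type} [Fintype ι] [Fintype R] [Fintype K] [Nonempty ι]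
    {f : (ι → Bool) → Prop} (A : R → K → ℝ) (B : R → ι → ℝ) (b : R → ℝ) (c : K → ℝ)
    (hB : ∀ i e, 0 ≤ B i e) (v : (ι → Bool) → ℝ) (hf : ∀ p, f p ↔ 0 < v p)
    (hv : ∀ p, IsGreatest {t | ∃ w : K → ℝ, (∀ j, 0 ≤ w j) ∧
      (∀ i, ∑ j, A i j * w j ≤ b i + ∑ e, B i e * if p e = true then 1 else 0) ∧
      t = ∑ j, c j * w j} (v p)) {s : ℕ} (h1 : Fintype.card ι ≤ s) (h2 : Fintype.card R ≤ s + 1)
    (h3 : Fintype.card K ≤ s + 1) : MLP f (s + 1) := by
  classical
  obtain ⟨ε0⟩ := Function.Embedding.nonempty_of_card_le (h1.trans_eq (Fintype.card_fin s).symm)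
  obtain ⟨ρ⟩ := Function.Embedding.nonempty_of_card_le (h2.trans_eq (Fintype.card_fin _).symm)
  obtain ⟨κ⟩ := Function.Embedding.nonempty_of_card_le (h3.trans_eq (Fintype.card_fin _).symm)
  let ε : ι ↪ Fin (s + 1) := ε0.trans Fin.castSuccEmb
  have hε : ∀ e, ε e ≠ Fin.last s := fun e => (Fin.castSucc_lt_last _).ne
  let val : Fin (s + 1) → (ι → Bool) → ℝ := fun g p =>
    if g = Fin.last s then v p else if p (Function.invFun ε g) = true then 1 else 0
  have hval : ∀ e p, val (ε e) p = if p e = true then 1 else 0 := fun e p => by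
    simp only [val, if_neg (hε e), Function.leftInverse_invFun ε.injective e]
  refine ⟨val, ⟨Fin.last s, fun p => by simp only [val, if_pos]; exact hf p⟩, fun g => ?_⟩
  by_cases hg : g = Fin.last s
  swap
  · exact Or.inl ⟨Function.invFun ε g, fun p => if_neg hg⟩
  refine Or.inr (Or.inr ⟨Function.extend ρ (fun r => Function.extend κ (A r) 0) 0,
    Function.extend ρ (fun r => Function.extend ε (B r) 0) 0, 0, Function.extend ρ b 0,
    Function.extend κ c 0, fun i j => ?_, fun p => ?_⟩)
  · by_cases hi : ∃ r, ρ r = i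
    · obtain ⟨r, rfl⟩ := hi
      rw [ρ.injective.extend_apply]
      by_cases hj : ∃ e, ε e = j
      · obtain ⟨e, rfl⟩ := hj
        rw [ε.injective.extend_apply]
        exact ⟨hB _ _, le_rfl, fun h => absurd (Fin.last_le_iff.1 (hg ▸ h)) (hε e)⟩
      · rw [Function.extend_apply' _ _ _ hj]
        simp
    · rw [Function.extend_apply' _ _ _ hi]
      simp
  · have e1 : val g p = v p := if_pos hg
    rw [e1]
    convert hv p using 1
    ext t
    simp only [Pi.zero_apply, zero_mul, sum_const_zero, add_zero, sum_extend, Set.mem_ofPred_eq]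
    constructor
    · rintro ⟨w, a1, a2, a3⟩
      refine ⟨fun k => w (κ k), fun _ => a1 _, fun r => ?_, a3⟩
      have := a2 (ρ r)
      simpa only [ρ.injective.extend_apply, sum_extend, hval] using this
    · rintro ⟨w, a1, a2, a3⟩
      refine ⟨Function.extend κ w 0, fun j => ?_, fun i => ?_, ?_⟩
      · by_cases hj : ∃ k, κ k = j
        · obtain ⟨k, rfl⟩ := hj
          rw [κ.injective.extend_apply]
          exact a1 k
        · rw [Function.extend_apply' _ _ _ hj]
          exact le_rfl
      · by_cases hi : ∃ r, ρ r = i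
        · obtain ⟨r, rfl⟩ := hi
          simpa only [ρ.injective.extend_apply, sum_extend, hval, κ.injective.extend_apply]
            using a2 r
        · simp [Function.extend_apply' _ _ _ hi]
      · simpa only [κ.injective.extend_apply] using a3

/-- Monotone feasibility systems. The gate maximises `τ ≤ 1` subject to
`A (w⁺ - w⁻) - B u - τ b ≤ 0`, `u ≤ τ`, `u ≤ p`. -/
theorem mlp_of_feas {ι R K : Type} [Fintype ι] [Fintype R] [Fintype K] [Nonempty ι]
    {f : (ι → Bool) → Prop} (A : R → K → ℝ) (B : R → ι → ℝ) (b : R → ℝ) (hB : ∀ i e, 0 ≤ B i e)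
    (hf : ∀ p, f p ↔ ∃ w : K → ℝ,
      ∀ i, ∑ j, A i j * w j ≤ b i + ∑ e, B i e * if p e = true then 1 else 0) :
    MLP f (Fintype.card R + 2 * Fintype.card K + 2 * Fintype.card ι + 1) := by
  classical
  refine mlp_one (R := (R ⊕ Unit) ⊕ ι ⊕ ι) (K := (K ⊕ K) ⊕ ι ⊕ Unit)
    (Sum.elim (Sum.elim
        (fun r => Sum.elim (Sum.elim (A r) fun j => -A r j) (Sum.elim (fun e => -B r e) fun _ => -b r))
        fun _ => Sum.elim 0 (Sum.elim 0 fun _ => 1))
      (Sum.elim (fun e => Sum.elim 0 (Sum.elim (Pi.single e 1) fun _ => -1))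
        fun e => Sum.elim 0 (Sum.elim (Pi.single e 1) 0)))
    (Sum.elim 0 (Sum.elim 0 fun e => Pi.single e 1))
    (Sum.elim (Sum.elim 0 fun _ => 1) 0) (Sum.elim 0 (Sum.elim 0 fun _ => 1)) ?_
    (fun p => if f p then 1 else 0) (fun p => by split_ifs with h <;> simp [h]) (fun p => ⟨?_, ?_⟩)
    (by omega) (by simp; omega) (by simp; omega)
  · rintro (i | i | i) e
    · exact le_rfl
    · exact le_rfl
    · exact single_nn _ e zero_le_one
  · by_cases h : f p
    · obtain ⟨w, hw⟩ := (hf p).1 h
      refine ⟨Sum.elim (Sum.elim (fun j => max (w j) 0) fun j => max (-w j) 0)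
        (Sum.elim (fun e => if p e = true then 1 else 0) fun _ => 1), ?_, ?_, by simp [h]⟩
      · rintro ((j | j) | e | e)
        · exact le_max_right _ _
        · exact le_max_right _ _
        · simp only [Sum.elim_inl, Sum.elim_inr]; split_ifs <;> norm_num
        · exact zero_le_one
      · rintro ((i | i) | e | e)
        · have e1 : ∑ j, A i j * max (w j) 0 - ∑ j, A i j * max (-w j) 0 = ∑ j, A i j * w j := by
            rw [← sum_sub_distrib]
            exact sum_congr rfl fun j _ => by rw [← mul_sub, max_zero_sub_max_neg_zero_eq_self]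
          have := hw i
          simp only [Fintype.sum_sum_type, Sum.elim_inl, Sum.elim_inr, neg_mul, sum_neg_distrib,
            Pi.zero_apply, zero_mul, sum_const_zero, univ_unique, sum_singleton, mul_one]
          linarith
        · simp
        · simp [Pi.single_apply, sum_bit]; split_ifs <;> norm_num
        · simp [Pi.single_apply, sum_bit]
    · refine ⟨0, fun _ => le_rfl, ?_, by simp [h]⟩
      rintro ((i | i) | e | e) <;> simp [Pi.single_apply, sum_bit]
      split_ifs <;> norm_num
  · rintro t ⟨w, a1, a2, rfl⟩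
    have b1 := a2 (.inl (.inr ()))
    have b2 := fun e => a2 (.inr (.inl e))
    have b3 := fun e => a2 (.inr (.inr e))
    have b4 := fun i => a2 (.inl (.inl i))
    simp [Pi.single_apply, sum_bit] at b1 b2 b3 b4 ⊢
    split_ifs with h
    · exact b1
    by_contra hcon
    have ht := not_le.1 hcon
    refine h ((hf p).2 ⟨fun j => (w (.inl (.inl j)) - w (.inl (.inr j))) / w (.inr (.inr ())),
      fun i => ?_⟩)
    have c1 : ∑ e, B i e * w (.inr (.inl e))
        ≤ (∑ e, B i e * if p e = true then 1 else 0) * w (.inr (.inr ())) := by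
      rw [sum_mul]
      refine sum_le_sum fun e _ => ?_
      rw [mul_assoc]
      refine mul_le_mul_of_nonneg_left ?_ (hB i e)
      have := b2 e
      have := b3 e
      split_ifs at this ⊢ <;> linarith
    simp only [← mul_div_assoc, ← sum_div, mul_sub, sum_sub_distrib]
    rw [div_le_iff₀ ht]
    have := b4 i
    linarith

/-- Monotone separation by a projection of a polyhedron. -/
theorem mlp_of_sep {ι : Type} [Fintype ι] [Nonempty ι] {f : (ι → Bool) → Prop} {s : ℕ}
    (A : Fin s → Fin s → ℝ) (D : Fin s → ι → ℝ) (b : Fin s → ℝ)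
    (hf : ∀ p, f p ↔ ∃ (x : ι → ℝ) (w : Fin s → ℝ),
      (∀ i, ∑ j, A i j * w j + ∑ e, D i e * x e ≤ b i) ∧
        ∀ e, x e ≤ if p e = true then 1 else 0) :
    MLP f (3 * s + 5 * Fintype.card ι + 1) := by
  classical
  have := mlp_of_feas (f := f) (R := Fin s ⊕ ι) (K := Fin s ⊕ ι)
    (Sum.elim (fun i => Sum.elim (A i) (D i)) fun e => Sum.elim 0 (Pi.single e 1))
    (Sum.elim 0 fun e => Pi.single e 1) (Sum.elim b 0)
    (by
      rintro (i | i) e
      · exact le_rfl
      · exact single_nn _ e zero_le_one)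
    fun p => (hf p).trans ⟨fun ⟨x, w, h1, h2⟩ => ⟨Sum.elim w x, by
      rintro (i | e)
      · simpa using h1 i
      · simpa [Pi.single_apply, sum_bit] using h2 e⟩, fun ⟨w, h⟩ => ⟨fun e => w (.inr e),
        fun j => w (.inl j), fun i => by simpa using h (.inl i),
        fun e => by simpa [Pi.single_apply, sum_bit] using h (.inr e)⟩⟩
  convert this using 1
  simp only [Fintype.card_sum, Fintype.card_fin]
  ring

/-- Real monotone span programs. -/
theorem mlp_of_span {ι : Type} [Fintype ι] [Nonempty ι] {f : (ι → Bool) → Prop} {s : ℕ}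
    (v : Fin s → Fin s → ℝ) (t : Fin s → ℝ) (lab : Fin s → ι)
    (hf : ∀ p, f p ↔ t ∈ Submodule.span ℝ (v '' {j | p (lab j) = true})) :
    MLP f (6 * s + 2 * Fintype.card ι + 1) := by
  classical
  have h1 : ∀ p, f p ↔ ∃ l : Fin s → ℝ, (∀ j, p (lab j) ≠ true → l j = 0) ∧ ∑ j, l j • v j = t := by
    intro p
    rw [hf, Fintype.mem_span_image_iff_exists_fun]
    constructor
    · rintro ⟨c, hc⟩
      refine ⟨fun j => if h : p (lab j) = true then c ⟨j, h⟩ else 0, fun j hj => dif_neg hj, ?_⟩
      rw [← hc]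
      exact (Fintype.sum_of_injective Subtype.val Subtype.val_injective _ _
        (fun j hj => by
          have h0 : ¬ p (lab j) = true := fun h => hj ⟨⟨j, h⟩, rfl⟩
          simp only [dif_neg h0, zero_smul])
        fun j => by
          have h0 : p (lab j) = true := j.2
          simp only [dif_pos h0]).symm
    · rintro ⟨l, h2, h3⟩
      refine ⟨fun j => l j, ?_⟩
      rw [← h3]
      exact Fintype.sum_of_injective Subtype.val Subtype.val_injective _ _
        (fun j hj => by rw [h2 j fun h => hj ⟨⟨j, h⟩, rfl⟩, zero_smul]) fun _ => rfl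
  have h2 : ∀ p, ∃ l : Fin s → ℝ,
      f p → (∀ j, p (lab j) ≠ true → l j = 0) ∧ ∑ j, l j • v j = t := fun p => by
    by_cases h : f p
    · exact ((h1 p).1 h).imp fun _ h' _ => h'
    · exact ⟨0, fun h' => absurd h' h⟩
  choose l hl using h2
  obtain ⟨M, hM⟩ := (Set.finite_range fun q : (ι → Bool) × Fin s => |l q.1 q.2|).bddAbove
  have hM' : ∀ p j, |l p j| ≤ |M| := fun p j => (hM ⟨(p, j), rfl⟩).trans (le_abs_self M)
  have := mlp_of_feas (f := f) (R := (Fin s ⊕ Fin s) ⊕ Fin s ⊕ Fin s) (K := Fin s)
    (Sum.elim (Sum.elim (fun i j => v j i) fun i j => -v j i)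
      (Sum.elim (fun j => Pi.single j 1) fun j => Pi.single j (-1)))
    (Sum.elim 0 (Sum.elim (fun j => Pi.single (lab j) |M|) fun j => Pi.single (lab j) |M|))
    (Sum.elim (Sum.elim t fun i => -t i) 0)
    (by
      rintro (i | i | i) e
      · exact le_rfl
      · exact single_nn _ e (abs_nonneg M)
      · exact single_nn _ e (abs_nonneg M))
    fun p => ⟨fun h => ⟨l p, by
      have e := fun i => congrFun (hl p h).2 i
      simp only [Finset.sum_apply, Pi.smul_apply, smul_eq_mul, mul_comm (l p _)] at e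
      have e2 : ∀ j, |l p j| ≤ if p (lab j) = true then |M| else 0 := fun j => by
        split_ifs with h3
        · exact hM' p j
        · rw [(hl p h).1 j h3, abs_zero]
      rintro ((i | i) | j | j)
      · simp [e]
      · simp [e]
      · simpa [Pi.single_apply, sum_bit] using (abs_le.1 (e2 j)).2
      · simpa [Pi.single_apply, neg_le, sum_bit] using (abs_le.1 (e2 j)).1⟩, fun ⟨w, h⟩ => (h1 p).2 ⟨w,
        fun j hj => by
          have a1 := h (.inr (.inl j))
          have a2 := h (.inr (.inr j))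
          simp [Pi.single_apply, hj, sum_bit] at a1 a2
          linarith, funext fun i => by
          have a1 := h (.inl (.inl i))
          have a2 := h (.inl (.inr i))
          simp at a1 a2
          simp only [Finset.sum_apply, Pi.smul_apply, smul_eq_mul, mul_comm (w _)]
          linarith⟩⟩
  convert this using 1
  simp only [Fintype.card_sum, Fintype.card_fin]
  ring

/-- Every monotone function has a monotone LP circuit of some size. -/
theorem mlp_of_mono {ι : Type} [Fintype ι] [Nonempty ι] {f : (ι → Bool) → Prop}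
    (hf : ∀ p q, (∀ e, p e = true → q e = true) → f p → f q) : ∃ s, MLP f s := by
  classical
  refine ⟨_, mlp_of_feas (f := f) (R := (Unit ⊕ {q // f q}) ⊕ ι) (K := {q // f q})
    (Sum.elim (Sum.elim (fun _ _ => -1) fun q => Pi.single q (-1))
      fun e q => if q.1 e = true then 1 else 0)
    (Sum.elim 0 fun e => Pi.single e 1) (Sum.elim (Sum.elim (fun _ => -1) 0) 0) ?_
    fun p => ⟨fun h => ⟨Pi.single ⟨p, h⟩ 1, ?_⟩, fun ⟨w, h⟩ => ?_⟩⟩
  · rintro (i | i) e
    · exact le_rfl
    · exact single_nn _ e zero_le_one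
  · rintro ((i | q) | e)
    · simp [Pi.single_apply]
    · simp [Pi.single_apply]
      split_ifs <;> norm_num
    · simp only [Sum.elim_inr, Pi.single_apply, mul_ite, mul_one, mul_zero, sum_ite_eq', mem_univ,
        if_true, sum_bit, Pi.zero_apply, zero_add, le_refl]
  · have a1 := h (.inl (.inl ()))
    have a2 := fun q => h (.inl (.inr q))
    have a3 := fun e => h (.inr e)
    simp [Pi.single_apply] at a1 a2
    simp only [Sum.elim_inr, Pi.single_apply, mul_ite, mul_one, mul_zero, sum_bit, Pi.zero_apply,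
      zero_add] at a3
    obtain ⟨q, -, hq⟩ : ∃ q ∈ univ, w q ≠ 0 :=
      exists_ne_zero_of_sum_ne_zero fun h0 => by rw [h0] at a1; norm_num at a1
    refine hf q.1 p (fun e he => ?_) q.2
    by_contra hp
    have a4 := (single_le_sum (f := fun j : {q // f q} => (if j.1 e = true then 1 else 0) * w j)
      (fun j _ => mul_nonneg (by split_ifs <;> norm_num) (a2 j.1 j.2)) (mem_univ q)).trans (a3 e)
    simp only [if_pos he, if_neg hp, one_mul] at a4
    exact hq (le_antisymm a4 (a2 q.1 q.2))

end Pool.Agent.Lib.MP_7836d5_lc.LP
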