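import Pool.Agent.Lib.MP_7836d5_lc.LP.Base

set_option autoImplicit false
set_option linter.unusedSectionVars false

namespace Pool.Agent.Lib.MP_7836d5_lc.LP

open Finset

variable {E FX FY : Type} [Fintype E] [DecidableEq E] [Fintype FX] [DecidableEq FX]
  [Fintype FY] [DecidableEq FY]

/-- the part of `S` outside `K` -/
def fourOut (K : Finset E) (S : E → ZMod 2) (e : E) : ZMod 2 := if e ∈ K then 0 else S e

lemma four_abs_ch (a : ZMod 2) : |ch a| = 1 := by
  unfold ch; split_ifs <;> simp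

lemma four_term {g : FX → FY → ZMod 2} {ε : ℝ} {K : Finset E} {A : Finset (E → FX)}
    {B : Finset (E → FY)} {δ : E → ZMod 2} (hF : Four g ε K A B)
    (hc : ∀ x ∈ A, ∀ y ∈ B, ∀ e ∈ K, zf g x y e = δ e) (s : ZMod 2) (S : E → ZMod 2) :
    |∑ x ∈ A, ∑ y ∈ B, ch (s + S ⬝ᵥ zf g x y)| ≤
      ε ^ (supp (fourOut K S)).card * ((A.card : ℝ) * B.card) := by
  have h1 : ∑ x ∈ A, ∑ y ∈ B, ch (s + S ⬝ᵥ zf g x y) =
      ch (s + ∑ e, if e ∈ K then S e * δ e else 0) *
        ∑ x ∈ A, ∑ y ∈ B, ch (fourOut K S ⬝ᵥ zf g x y) := by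
    rw [mul_sum]
    refine sum_congr rfl fun x hx => ?_
    rw [mul_sum]
    refine sum_congr rfl fun y hy => ?_
    rw [← ch_add, add_assoc, dotProduct, dotProduct, ← sum_add_distrib]
    congr 2
    refine sum_congr rfl fun e _ => ?_
    by_cases he : e ∈ K
    · rw [fourOut, if_pos he, if_pos he, hc x hx y hy e he, zero_mul, add_zero]
    · rw [fourOut, if_neg he, if_neg he, zero_add]
  rw [h1, abs_mul, four_abs_ch, one_mul]
  by_cases h : fourOut K S = 0
  · simp [h, supp, ch, abs_mul]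
  · refine hF _ h (disjoint_left.2 fun e he hK => (mem_filter.1 he).2 ?_)
    rw [fourOut, if_pos hK]

lemma four_sum_pow (ε : ℝ) :
    ∑ T : E → ZMod 2, ε ^ (supp T).card = (1 + ε) ^ Fintype.card E := by
  have h1 : ∑ a : ZMod 2, (if a ≠ 0 then ε else 1) = 1 + ε := by
    have : (univ : Finset (ZMod 2)) = {0, 1} := by decide
    rw [this, sum_pair (by decide)]
    simp
  rw [← card_univ, ← prod_const, ← h1, Fintype.prod_sum]
  refine sum_congr rfl fun T _ => ?_
  rw [← prod_filter, prod_const, supp]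

/-- Write `S = S_K + S'` with `S_K` supported in `K` and `S'` outside. On `A × B` the term of `S` is
`ch (sg S + S_K ⬝ᵥ δ) * ch (S' ⬝ᵥ z)`. The members with `S' = 0` (there are `N ≥ 1` of them) give
`+1` each. For a fixed `T ≠ 0` at most `N` members have `S' = T` (inject by `S ↦ S + S1` for one
such `S1`, using `add_mem`), and `∑ T, ε ^ (supp T).card = (1 + ε) ^ card E`
(`Finset.prod_one_add` or `Fintype.prod_sum`/`Finset.prod_univ_sum`). -/
lemma four_cons {D : PD E} {g : FX → FY → ZMod 2} {ε : ℝ} {K : Finset E} {A : Finset (E → FX)}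
    {B : Finset (E → FY)} {δ : E → ZMod 2} (hF : Four g ε K A B)
    (hc : ∀ x ∈ A, ∀ y ∈ B, ∀ e ∈ K, zf g x y e = δ e) (hcons : D.Cons K δ)
    (hK : K.card ≤ D.d) (hε : 0 ≤ ε) (hm : (1 + ε) ^ Fintype.card E ≤ 3 / 2) :
    (A.card : ℝ) * B.card / 2 ≤ ∑ x ∈ A, ∑ y ∈ B, D.rho (zf g x y) := by
  have hAB : (0 : ℝ) ≤ (A.card : ℝ) * B.card := by positivity
  have hsub : ∀ S : E → ZMod 2, fourOut K S = 0 → supp S ⊆ K := fun S hS e he => by
    by_contra h
    have := congrFun hS e
    rw [fourOut, if_neg h] at this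
    exact (mem_filter.1 he).2 this
  obtain ⟨N, hN⟩ : ∃ N, N = (D.fam.filter fun S => fourOut K S = 0).card := ⟨_, rfl⟩
  have hN1 : 1 ≤ N := by
    rw [hN]
    exact card_pos.2 ⟨0, mem_filter.2 ⟨D.zero_mem, funext fun e => by simp [fourOut]⟩⟩
  have hfib : ∀ T, (D.fam.filter fun S => fourOut K S = T).card ≤ N := by
    intro T
    rcases (D.fam.filter fun S => fourOut K S = T).eq_empty_or_nonempty with h | ⟨S1, h1⟩
    · rw [h, card_empty]; exact Nat.zero_le _
    · rw [hN]
      refine card_le_card_of_injOn (fun S => S + S1) (fun S hS => ?_)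
        fun _ _ _ _ h => add_right_cancel h
      rw [mem_coe, mem_filter] at hS ⊢
      rw [mem_filter] at h1
      have h2 : fourOut K (S + S1) = 0 := by
        funext e
        have h3 := congrFun (hS.2.trans h1.2.symm) e
        simp only [fourOut, Pi.add_apply, Pi.zero_apply] at h3 ⊢
        split_ifs at h3 ⊢
        · rfl
        · rw [h3]; exact CharTwo.add_self_eq_zero _
      exact ⟨(D.add_mem S hS.1 S1 h1.1 ((card_le_card (hsub _ h2)).trans hK)).1, h2⟩
  have h1 : ∑ S ∈ D.fam, ε ^ (supp (fourOut K S)).card ≤ N * (3 / 2) := by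
    rw [← sum_fiberwise (s := D.fam) (g := fourOut K)]
    refine le_trans (sum_le_sum (g := fun T => (N : ℝ) * ε ^ (supp T).card) fun T _ => ?_) ?_
    · rw [sum_congr rfl (g := fun _ => ε ^ (supp T).card) fun S hS => by rw [(mem_filter.1 hS).2],
        sum_const, nsmul_eq_mul]
      exact mul_le_mul_of_nonneg_right (by exact_mod_cast hfib T) (pow_nonneg hε _)
    · rw [← mul_sum, four_sum_pow]
      exact mul_le_mul_of_nonneg_left hm (Nat.cast_nonneg _)
  have h2 : ∀ S ∈ D.fam, ((if fourOut K S = 0 then 2 else 0) - ε ^ (supp (fourOut K S)).card) *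
      ((A.card : ℝ) * B.card) ≤ ∑ x ∈ A, ∑ y ∈ B, ch (D.sg S + S ⬝ᵥ zf g x y) := by
    intro S hS
    split_ifs with h
    · have h3 : ∀ x ∈ A, ∑ y ∈ B, ch (D.sg S + S ⬝ᵥ zf g x y) = (B.card : ℝ) := by
        intro x hx
        rw [sum_congr rfl (g := fun _ => (1 : ℝ)) fun y hy => by
          rw [(PD.cons_congr (hc x hx y hy)).2 hcons S hS (hsub S h), CharTwo.add_self_eq_zero, ch,
            if_pos rfl], sum_const, nsmul_eq_mul, mul_one]
      have h4 : supp (0 : E → ZMod 2) = ∅ := by simp [supp]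
      rw [sum_congr rfl h3, sum_const, nsmul_eq_mul, h, h4, card_empty, pow_zero]
      linarith
    · have := (abs_le.1 (four_term hF hc (D.sg S) S)).1
      linarith
  have h3 := sum_le_sum h2
  rw [← sum_mul, sum_sub_distrib, ← sum_filter, sum_const, ← hN, nsmul_eq_mul] at h3
  have h4 : ∑ x ∈ A, ∑ y ∈ B, D.rho (zf g x y)
      = ∑ S ∈ D.fam, ∑ x ∈ A, ∑ y ∈ B, ch (D.sg S + S ⬝ᵥ zf g x y) := by
    rw [sum_comm (s := D.fam)]
    exact sum_congr rfl fun x _ => sum_comm
  have h5 : (1 : ℝ) ≤ N := by exact_mod_cast hN1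
  have h6 : (1 / 2 : ℝ) ≤ N * 2 - ∑ S ∈ D.fam, ε ^ (supp (fourOut K S)).card := by linarith
  have h7 := mul_le_mul_of_nonneg_right h6 hAB
  rw [h4]
  linarith

/-- Take `S0` violated by `δ` with support in `K`, use `rho_high` at each point; every remaining
`S` has more than `d - 2 * K.card` coordinates outside `K`. -/
lemma four_incons {D : PD E} {g : FX → FY → ZMod 2} {ε : ℝ} {K : Finset E} {A : Finset (E → FX)}
    {B : Finset (E → FY)} {δ : E → ZMod 2} (hF : Four g ε K A B)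
    (hc : ∀ x ∈ A, ∀ y ∈ B, ∀ e ∈ K, zf g x y e = δ e) (hcons : ¬ D.Cons K δ)
    (hK : 2 * K.card ≤ D.d) (hε : 0 ≤ ε) (hε1 : ε ≤ 1) :
    |∑ x ∈ A, ∑ y ∈ B, D.rho (zf g x y)| ≤
      2 ^ Fintype.card E * ε ^ (D.d - 2 * K.card) * ((A.card : ℝ) * B.card) := by
  have hAB : (0 : ℝ) ≤ (A.card : ℝ) * B.card := by positivity
  unfold PD.Cons at hcons
  push Not at hcons
  obtain ⟨S0, h0, hs, hne⟩ := hcons
  have h1 : ∑ x ∈ A, ∑ y ∈ B, D.rho (zf g x y)
      = ∑ S ∈ D.fam.filter fun S => D.d < (supp (S + S0)).card,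
        ∑ x ∈ A, ∑ y ∈ B, ch (D.sg S + S ⬝ᵥ zf g x y) := by
    rw [sum_comm (s := D.fam.filter _)]
    refine sum_congr rfl fun x hx => ?_
    rw [sum_comm]
    refine sum_congr rfl fun y hy => D.rho_high h0 ?_
    have : S0 ⬝ᵥ zf g x y = S0 ⬝ᵥ δ := by
      refine sum_congr rfl fun e _ => ?_
      by_cases he : S0 e = 0
      · rw [he, zero_mul, zero_mul]
      · rw [hc x hx y hy e (hs (mem_filter.2 ⟨mem_univ _, he⟩))]
    rwa [this]
  rw [h1]
  refine (abs_sum_le_sum_abs _ _).trans ((sum_le_card_nsmul _ _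
    (ε ^ (D.d - 2 * K.card) * ((A.card : ℝ) * B.card)) fun S hS => ?_).trans ?_)
  · refine (four_term hF hc _ S).trans (mul_le_mul_of_nonneg_right
      (pow_le_pow_of_le_one hε hε1 ?_) hAB)
    have h2 : supp (S + S0) ⊆ supp (fourOut K S) ∪ K := by
      intro e he
      by_cases h : e ∈ K
      · exact mem_union_right _ h
      · have h3 : S0 e = 0 := by
          by_contra h4
          exact h (hs (mem_filter.2 ⟨mem_univ _, h4⟩))
        have h4 := (mem_filter.1 he).2
        rw [Pi.add_apply, h3, add_zero] at h4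
        exact mem_union_left _ (mem_filter.2 ⟨mem_univ _, by rwa [fourOut, if_neg h]⟩)
    have h3 := (card_le_card h2).trans (card_union_le _ _)
    have h4 := (mem_filter.1 hS).2
    omega
  · rw [nsmul_eq_mul, mul_assoc]
    refine mul_le_mul_of_nonneg_right ?_ (mul_nonneg (pow_nonneg hε _) hAB)
    have h2 := card_le_univ (D.fam.filter fun S => D.d < (supp (S + S0)).card)
    rw [Fintype.card_fun, ZMod.card] at h2
    exact_mod_cast h2

end Pool.Agent.Lib.MP_7836d5_lc.LP
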