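import Pool.Agent.Lib.MP_7836d5_lc.LP.Gauge2

set_option autoImplicit false

/-! Tuples avoiding small sets, a Ramsey bound and a rank bound. -/

namespace Pool.Agent.Lib.MP_7836d5_lc.LP

open Finset

/-- Induction on `n`, generalising `C`. By double counting some `x ∈ C` lies in `Bad x'` for fewer
than `P.card / σ` points `x' ∈ C`; remove these and `Bad x` from `C`, and use `Fin.cons`. -/
lemma exists_tuple {Ω : Type} [DecidableEq Ω] (P : Finset Ω) (hP : P.Nonempty)
    (Bad : Ω → Finset Ω) {σ : ℕ} (h : ∀ x ∈ P, σ * (Bad x).card < P.card) (n : ℕ) (C : Finset Ω)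
    (hC : C ⊆ P) (hn : 2 * n * P.card ≤ σ * C.card) :
    ∃ t : Fin n → Ω, (∀ i, t i ∈ C) ∧ ∀ i j, i ≠ j → t i ∉ Bad (t j) := by
  induction n generalizing C with
  | zero => exact ⟨Fin.elim0, fun i => i.elim0, fun i => i.elim0⟩
  | succ n ih =>
    have hP0 : 0 < P.card := hP.card_pos
    have hCn : C.Nonempty := by
      rw [← card_pos]
      by_contra e
      have e' : C.card = 0 := by omega
      rw [e'] at hn
      nlinarith
    have hdc : ∑ x ∈ C, σ * (C.filter fun x' => x ∈ Bad x').card < ∑ _x ∈ C, P.card := by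
      refine lt_of_le_of_lt ?_ (sum_lt_sum_of_nonempty hCn fun x hx => h x (hC hx))
      rw [← mul_sum, ← mul_sum]
      exact Nat.mul_le_mul_left _ ((sum_card_bipartiteAbove_eq_sum_card_bipartiteBelow
        (s := C) (t := C) fun x x' => x ∈ Bad x').trans_le
          (sum_le_sum fun x _ => card_le_card fun y hy => (mem_filter.1 hy).2))
    obtain ⟨x, hx, hx'⟩ := exists_lt_of_sum_lt hdc
    have hb := h x (hC hx)
    have hc : C.card ≤ (C \ (Bad x ∪ C.filter fun x' => x ∈ Bad x')).card +
        ((Bad x).card + (C.filter fun x' => x ∈ Bad x').card) :=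
      card_le_card_sdiff_add_card.trans (Nat.add_le_add_left (card_union_le _ _) _)
    obtain ⟨t, h1, h2⟩ := ih (C \ (Bad x ∪ C.filter fun x' => x ∈ Bad x'))
      (sdiff_subset.trans hC) (by nlinarith [Nat.mul_le_mul_left σ hc])
    simp only [mem_sdiff, mem_union, mem_filter, not_or, not_and] at h1
    refine ⟨Fin.cons x t, Fin.cases hx fun i => (h1 i).1, Fin.cases (Fin.cases ?_ ?_)
      fun i => Fin.cases ?_ ?_⟩
    · exact fun e => absurd rfl e
    · exact fun j _ => (h1 j).2.2 (h1 j).1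
    · exact fun _ => (h1 i).2.1
    · exact fun j e => h2 i j fun e' => e (congrArg _ e')

/-- Induction on `d`, generalising `W`. Take an independent `T ⊆ W` of largest size; every other
point of `W` is related to a point of `T`; if all neighbourhoods have fewer than `(t + 1) ^ d`
points then `W.card ≤ t * (t + 1) ^ d`. -/
lemma ramsey_rel {V : Type} [DecidableEq V] (r : V → V → Prop) (hs : ∀ i j, r i j → r j i) {t : ℕ}
    (hind : ∀ T : Finset V, (∀ i ∈ T, ∀ j ∈ T, i ≠ j → ¬ r i j) → T.card ≤ t) (d : ℕ)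
    (W : Finset V) (hW : (t + 1) ^ d ≤ W.card) :
    ∃ c : Fin (d + 1) → V, (∀ i, c i ∈ W) ∧ ∀ i j, i ≠ j → c i ≠ c j ∧ r (c i) (c j) := by
  classical
  induction d generalizing W with
  | zero =>
    obtain ⟨w, hw⟩ := card_pos.1 (lt_of_lt_of_le (by positivity) hW)
    exact ⟨fun _ => w, fun _ => hw, fun i j e => absurd (Subsingleton.elim (α := Fin 1) i j) e⟩
  | succ d ih =>
    obtain ⟨T, hT, hmax⟩ := exists_max_image
      (W.powerset.filter fun T => ∀ i ∈ T, ∀ j ∈ T, i ≠ j → ¬ r i j) card ⟨∅, by simp⟩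
    simp only [mem_filter, mem_powerset] at hT hmax
    have hcov : W ⊆ T.biUnion fun τ => insert τ (W.filter fun w => w ≠ τ ∧ r τ w) := by
      intro w hw
      by_contra hn
      simp only [mem_biUnion, mem_insert, mem_filter, not_exists, not_and, not_or] at hn
      have hwT : w ∉ T := fun e => (hn w e).1 rfl
      have hr : ∀ τ ∈ T, ¬ r τ w := fun τ hτ => (hn τ hτ).2 hw (hn τ hτ).1
      have := hmax (insert w T) ⟨insert_subset hw hT.1, fun i hi j hj e => by
        rcases mem_insert.1 hi with rfl | hi' <;> rcases mem_insert.1 hj with rfl | hj'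
        · exact absurd rfl e
        · exact fun h => hr j hj' (hs _ _ h)
        · exact hr i hi'
        · exact hT.2 i hi' j hj' e⟩
      rw [card_insert_of_notMem hwT] at this
      omega
    obtain ⟨τ, hτ, hN⟩ : ∃ τ ∈ T, (t + 1) ^ d ≤ (W.filter fun w => w ≠ τ ∧ r τ w).card := by
      by_contra hn
      simp only [not_exists, not_and, not_le] at hn
      have h1 := (card_le_card hcov).trans (card_biUnion_le_card_mul _ _ ((t + 1) ^ d)
        fun τ hτ => (card_insert_le _ _).trans (hn τ hτ))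
      have h2 := Nat.mul_le_mul_right ((t + 1) ^ d) (hind T hT.2)
      have h3 : 0 < (t + 1) ^ d := by positivity
      rw [pow_succ] at hW
      nlinarith
    obtain ⟨c, h1, h2⟩ := ih _ hN
    simp only [mem_filter] at h1
    refine ⟨Fin.cons τ c, Fin.cases (hT.1 hτ) fun i => (h1 i).1, Fin.cases (Fin.cases ?_ ?_)
      fun i => Fin.cases ?_ ?_⟩
    · exact fun e => absurd rfl e
    · exact fun j _ => ⟨(h1 j).2.1.symm, (h1 j).2.2⟩
    · exact fun _ => ⟨(h1 i).2.1, hs _ _ (h1 i).2.2⟩
    · exact fun j e => h2 i j fun e' => e (congrArg _ e')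

/-- With `M i j = ∑ c, a i c * b j c`, the matrix `M i j * M j i` is the identity and equals the
product of the matrices `U i (c, c') = a i c * b i c'` and `V (c, c') j = b j c * a j c'`; use
`Matrix.rank_one`, `Matrix.rank_mul_le_left`, `Matrix.rank_le_card_width`. -/
lemma indep_bound {T C : Type} [Fintype T] [DecidableEq T] [Fintype C] (a b : T → C → ZMod 2)
    (h1 : ∀ i, ∑ c, a i c * b i c = 1)
    (h0 : ∀ i j, i ≠ j → (∑ c, a i c * b j c) * (∑ c, a j c * b i c) = 0) :
    Fintype.card T ≤ Fintype.card C ^ 2 := by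
  let U : Matrix T (C × C) (ZMod 2) := Matrix.of fun i c => a i c.1 * b i c.2
  let W : Matrix (C × C) T (ZMod 2) := Matrix.of fun c j => b j c.1 * a j c.2
  have e : U * W = 1 := by
    ext i j
    have e1 : (U * W) i j = (∑ c, a i c * b j c) * ∑ c, a j c * b i c := by
      rw [Matrix.mul_apply, Fintype.sum_prod_type, sum_mul_sum]
      exact sum_congr rfl fun c _ => sum_congr rfl fun c' _ => by
        simp only [U, W, Matrix.of_apply]
        ring
    rw [e1]
    by_cases hij : i = j
    · rw [hij, h1, mul_one, Matrix.one_apply_eq]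
    · rw [h0 i j hij, Matrix.one_apply_ne hij]
  have h2 := (Matrix.rank_mul_le_left U W).trans (Matrix.rank_le_card_width U)
  rwa [e, Matrix.rank_one, Fintype.card_prod, ← sq] at h2

/-- Take `n = (R ^ 2 + 1) ^ 4` points by `exists_tuple` with `C = P`, relate `i`, `j` if both
`ev (l (t j)) (t j) (t i)` and `ev (l (t i)) (t i) (t j)` hold; `indep_bound` bounds the
independent sets by `R ^ 2`, `ramsey_rel` with `d = 4` gives the five points. -/
lemma tup_of_rank {Ω Λ C : Type} [DecidableEq Ω] [Fintype C] (ev : Λ → Ω → Ω → Prop)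
    (a : Ω → C → ZMod 2) (b : Λ → Ω → C → ZMod 2) (hrefl : ∀ l x, ev l x x)
    (hev : ∀ l x x', ev l x x' ↔ ∑ c, a x' c * b l x c = 1) {σ : ℕ}
    (hσ : 2 * (Fintype.card C ^ 2 + 1) ^ 4 ≤ σ) : Tup ev σ := by
  intro P hP l Bad hB
  obtain ⟨t, h1, h2⟩ := exists_tuple P hP Bad hB ((Fintype.card C ^ 2 + 1) ^ 4) P subset_rfl
    (Nat.mul_le_mul_right _ hσ)
  have h01 : ∀ u : ZMod 2, u ≠ 1 → u = 0 := by decide
  obtain ⟨c, -, h4⟩ := ramsey_rel (fun i j => ev (l (t j)) (t j) (t i) ∧ ev (l (t i)) (t i) (t j))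
    (fun _ _ h => h.symm) (t := Fintype.card C ^ 2) (fun T hT => by
      rw [← Fintype.card_coe]
      refine indep_bound (fun i : T => a (t i)) (fun i : T => b (l (t i)) (t i))
        (fun i => (hev _ _ _).1 (hrefl _ _)) fun i j e => ?_
      rcases not_and_or.1 (hT i i.2 j j.2 fun e' => e (Subtype.ext e')) with h | h
      · rw [h01 _ fun e' => h ((hev _ _ _).2 e'), zero_mul]
      · rw [h01 _ fun e' => h ((hev _ _ _).2 e'), mul_zero]) 4 univ (by simp)
  exact ⟨fun i => t (c i), fun i => h1 _, fun i j e => ⟨(h4 i j e).2.1, h2 _ _ (h4 i j e).1⟩⟩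

end Pool.Agent.Lib.MP_7836d5_lc.LP
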