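import Pool.Agent.Lib.MP_7836d5_lc.LP.Core2
import Pool.Agent.Lib.MP_7836d5_lc.LP.Tup
import Pool.Agent.Lib.MP_7836d5_lc.LP.Clean

set_option autoImplicit false
set_option linter.unusedSectionVars false

/-! The inner product gadget. -/

namespace Pool.Agent.Lib.MP_7836d5_lc.LP

open Finset

variable {E : Type} [Fintype E] [DecidableEq E] {b : ℕ}

def gP (b : ℕ) (a c : Fin b → ZMod 2) : ZMod 2 := a ⬝ᵥ c

lemma zf_gP (x y : E → Fin b → ZMod 2) : zf (gP b) x y = zz x y := rfl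

/-- `sum_ch` -/
lemma gP_orth (a a' : Fin b → ZMod 2) (h : a ≠ a') : ∑ c, ch (gP b a c + gP b a' c) = 0 := by
  have h1 : ∀ c : Fin b → ZMod 2, gP b a c + gP b a' c = c ⬝ᵥ (a + a') := by
    intro c
    rw [dotProduct_add, gP, gP, dotProduct_comm a, dotProduct_comm a']
  simp only [h1]
  rw [sum_ch, if_neg]
  intro h2
  apply h
  funext i
  have h3 : ∀ u v : ZMod 2, u + v = 0 → u = v := by decide
  exact h3 _ _ (congrFun h2 i)

lemma IP_ch_sum {J : Type} (s : Finset J) (f : J → ZMod 2) :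
    ch (∑ e ∈ s, f e) = ∏ e ∈ s, ch (f e) := by
  classical
  induction s using Finset.induction_on with
  | empty => simp [ch]
  | insert e s he ih => rw [sum_insert he, prod_insert he, ch_add, ih]

lemma IP_dot_supp (T z : E → ZMod 2) : T ⬝ᵥ z = ∑ e ∈ supp T, z e := by
  rw [supp, sum_filter, dotProduct]
  refine sum_congr rfl fun e _ => ?_
  rcases two_cases (T e) with h | h <;> simp [h]

/-- `bias_le` for `supp T`, with `ch (T ⬝ᵥ zz x y) = gK (supp T) x y` -/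
lemma four_ip {lam ρ : ℕ} {ε : ℝ} {K : Finset E} {A B : Finset (E → Fin b → ZMod 2)}
    (hA : Dense' lam ρ K A) (hB : Dense' lam ρ K B) (hlam : 1 ≤ lam) (hρ : 0 < ρ) (hε : 0 ≤ ε)
    (h : (lam : ℝ) ^ 2 * 2 ^ b ≤ ε ^ 2 * (ρ : ℝ) ^ 2) : Four (gP b) ε K A B := by
  intro T hT hd
  have hne : (supp T).Nonempty := by
    obtain ⟨e, he⟩ := Function.ne_iff.mp hT
    exact ⟨e, mem_filter.2 ⟨mem_univ _, he⟩⟩
  have h1 := bias_le hA hB hne hd
  have h2 : ∀ x y : E → Fin b → ZMod 2, ch (T ⬝ᵥ zf (gP b) x y) = gK (supp T) x y := by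
    intro x y
    rw [zf_gP, IP_dot_supp, IP_ch_sum, gK]
  simp only [h2]
  set S := ∑ x ∈ A, ∑ y ∈ B, gK (supp T) x y
  set k := (supp T).card
  have hk : k ≠ 0 := card_ne_zero.2 hne
  have hl : (1 : ℝ) ≤ (lam : ℝ) ^ 2 := one_le_pow₀ (by exact_mod_cast hlam)
  have h3 : (lam : ℝ) ^ 2 * ((2 : ℝ) ^ b) ^ k ≤ (ε ^ k) ^ 2 * ((ρ : ℝ) ^ k) ^ 2 := by
    calc (lam : ℝ) ^ 2 * ((2 : ℝ) ^ b) ^ k ≤ ((lam : ℝ) ^ 2) ^ k * ((2 : ℝ) ^ b) ^ k :=
          mul_le_mul_of_nonneg_right (le_self_pow₀ hl hk) (by positivity)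
      _ = ((lam : ℝ) ^ 2 * 2 ^ b) ^ k := (mul_pow _ _ _).symm
      _ ≤ (ε ^ 2 * (ρ : ℝ) ^ 2) ^ k := pow_le_pow_left₀ (by positivity) h k
      _ = (ε ^ k) ^ 2 * ((ρ : ℝ) ^ k) ^ 2 := by ring
  have hr : (0 : ℝ) < ((ρ : ℝ) ^ k) ^ 2 := by positivity
  have h4 : S ^ 2 * ((ρ : ℝ) ^ k) ^ 2 ≤
      (ε ^ k * ((A.card : ℝ) * B.card)) ^ 2 * ((ρ : ℝ) ^ k) ^ 2 := by
    calc S ^ 2 * ((ρ : ℝ) ^ k) ^ 2
        ≤ (lam : ℝ) ^ 2 * ((A.card : ℝ) * B.card) ^ 2 * ((2 : ℝ) ^ b) ^ k := h1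
      _ = ((lam : ℝ) ^ 2 * ((2 : ℝ) ^ b) ^ k) * ((A.card : ℝ) * B.card) ^ 2 := by ring
      _ ≤ ((ε ^ k) ^ 2 * ((ρ : ℝ) ^ k) ^ 2) * ((A.card : ℝ) * B.card) ^ 2 :=
          mul_le_mul_of_nonneg_right h3 (by positivity)
      _ = _ := by ring
  exact abs_le_of_sq_le_sq (le_of_mul_le_mul_right h4 hr) (by positivity)

lemma IP_res (J : Finset E) (x x' y : E → Fin b → ZMod 2) :
    (∀ e ∈ J, zf (gP b) x' y e = zf (gP b) x y e) ↔
      zz x' (fun e => if e ∈ J then y e else 0) = zz x fun e => if e ∈ J then y e else 0 := by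
  simp only [zf_gP, funext_iff, zz]
  constructor
  · intro h e
    split_ifs with he
    · exact h e he
    · simp
  · intro h e he
    have := h e
    rwa [if_pos he] at this

lemma partR_ip (P : Finset (E → Fin b → ZMod 2)) (J : Finset E) (x y : E → Fin b → ZMod 2) :
    partR (gP b) P J x y = P.filter fun x' =>
      zz x' (fun e => if e ∈ J then y e else 0) = zz x fun e => if e ∈ J then y e else 0 := by
  exact filter_congr fun x' _ => IP_res J x x' y

lemma partC_ip (Q : Finset (E → Fin b → ZMod 2)) (I : Finset E) (x y : E → Fin b → ZMod 2) :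
    partC (gP b) Q I x y = partR (gP b) Q I y x := by
  refine filter_congr fun y' _ => ?_
  simp only [zf_gP, zz_comm x]

lemma IP_ind_eq (p : (E → Fin b → ZMod 2) × (E → ZMod 2)) (x : E → Fin b → ZMod 2) :
    ind p x = ∑ c : E → Option (Fin b), mono c x * ∏ e, (c e).elim (1 + p.2 e) (p.1 e) := by
  have h1 : ∀ e, 1 + p.2 e + zz x p.1 e =
      ∑ o : Option (Fin b), o.elim 1 (x e) * o.elim (1 + p.2 e) (p.1 e) := by
    intro e
    rw [Fintype.sum_option]
    simp [zz, dotProduct]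
  simp only [ind, h1, mono]
  rw [Fintype.prod_sum]
  exact sum_congr rfl fun c _ => prod_mul_distrib

/-- `tup_of_rank` with `C = E → Option (Fin b)`, `a x c = mono c x` and the coefficients in the
proof of `ind_mem` (`Piece.lean`) for `p = (β, zz x β)`, `β` the restriction of `l.2` to `l.1`;
`ind_ne_zero` -/
lemma tupR_ip {σ : ℕ} (hσ : 2 * (((b + 1) ^ Fintype.card E) ^ 2 + 1) ^ 4 ≤ σ) :
    Tup (evR (E := E) (gP b)) σ := by
  refine tup_of_rank (C := E → Option (Fin b)) _ (fun x c => mono c x)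
    (fun l x c => ∏ e, (c e).elim (1 + zz x (fun e => if e ∈ l.1 then l.2 e else 0) e)
      (if e ∈ l.1 then l.2 e else 0)) (fun l x e _ => rfl) (fun l x x' => ?_) (by simpa using hσ)
  have h1 := IP_ind_eq ((fun e => if e ∈ l.1 then l.2 e else 0),
    zz x fun e => if e ∈ l.1 then l.2 e else 0) x'
  have h2 : ∀ u : ZMod 2, u ≠ 0 ↔ u = 1 := by decide
  rw [← h1, ← h2, ind_ne_zero]
  exact IP_res l.1 x x' l.2

/-- `evC (gP b) = evR (gP b)` by commutativity -/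
lemma tupC_ip {σ : ℕ} (hσ : 2 * (((b + 1) ^ Fintype.card E) ^ 2 + 1) ^ 4 ≤ σ) :
    Tup (evC (E := E) (gP b)) σ := by
  have h : evC (E := E) (gP b) = evR (E := E) (gP b) := by
    funext l y y'
    simp only [evC, evR, zf_gP, zz_comm l.2]
  rw [h]
  exact tupR_ip hσ

/-- `clean` as in the proof of `exists_good` (`Piece.lean`) with `M = A0.card` -/
lemma clean_ip {σ : ℕ} (hσ : 2 * (b + 1) ^ Fintype.card E ≤ σ) (A0 : Finset (E → Fin b → ZMod 2)) :
    ∃ A ⊆ A0, A0.card ≤ 2 * A.card ∧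
      ∀ x ∈ A, ∀ β, A0.card ≤ σ * (A.filter fun x' => zz x' β = zz x β).card := by
  have : FiniteDimensional (ZMod 2)
      (Submodule.span (ZMod 2) (Set.range (mono (ι := E) (b := b)))) :=
    FiniteDimensional.span_of_finite _ (Set.finite_range _)
  have hr : Module.finrank (ZMod 2)
      (Submodule.span (ZMod 2) (Set.range (mono (ι := E) (b := b)))) ≤
        (b + 1) ^ Fintype.card E := by
    have := finrank_range_le_card (R := ZMod 2) (mono (ι := E) (b := b))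
    simpa [Set.finrank] using this
  obtain ⟨P, hP1, hP2, hP3⟩ := clean _ ind ind_mem σ A0.card
    ((b + 1) ^ Fintype.card E) A0 (by omega)
  have hσ0 : 0 < σ := lt_of_lt_of_le (by positivity) hσ
  have hhalf : A0.card ≤ 2 * P.card := by
    have : A0.card * σ ≤ 2 * P.card * σ := by nlinarith
    exact Nat.le_of_mul_le_mul_right this hσ0
  refine ⟨P, hP1, hhalf, fun x hx β => ?_⟩
  have h3 := hP3 (β, zz x β)
  simp only [ind_ne_zero] at h3
  rcases h3 with h3 | h3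
  · exact absurd (filter_eq_empty_iff.1 h3 hx) (by simp)
  · rwa [mul_comm] at h3

end Pool.Agent.Lib.MP_7836d5_lc.LP
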