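import Pool.Agent.Lib.MP_7836d5_lc.LP.Ref
import Pool.Agent.Lib.MP_7836d5_lc.LP.IP

set_option autoImplicit false
set_option linter.unusedSectionVars false

/-! The hard graphs for a sparse parity system. -/

namespace Pool.Agent.Lib.MP_7836d5_lc.LP

open Finset

section aux

variable {E V : Type} {b k : ℕ} (nb : V → Fin 8 → E) (c : V → ZMod 2) (lab : Bool × V ↪ Fin k)

def g2Rel (p q : Fin k × (Fin 8 → Fin b → ZMod 2)) : Prop :=
  (∀ s u i j, p.1 = lab (s, u) → nb u i = nb u j → p.2 i = p.2 j) ∧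
  (∀ s u v i j, p.1 = lab (s, u) → q.1 = lab (s, v) → nb u i = nb v j → p.2 i = q.2 j) ∧
  (∀ v, p.1 = lab (true, v) → q.1 = lab (false, v) → ∑ i, p.2 i ⬝ᵥ q.2 i = c v)

def g2H : SimpleGraph (Fin k × (Fin 8 → Fin b → ZMod 2)) where
  Adj p q := p.1 ≠ q.1 ∧ g2Rel nb c lab p q ∧ g2Rel nb c lab q p
  symm := ⟨fun _ _ h => ⟨h.1.symm, h.2.2, h.2.1⟩⟩
  loopless := ⟨fun _ h => h.1 rfl⟩

lemma g2H_free (hun : ∀ z : E → ZMod 2, ∃ v, ∑ i, z (nb v i) ≠ c v) :
    (g2H (b := b) nb c lab).CliqueFree k := by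
  classical
  intro S hS
  have hinj : Set.InjOn Prod.fst (S : Set (Fin k × (Fin 8 → Fin b → ZMod 2))) := by
    intro p hp q hq h
    by_contra hne
    exact (hS.isClique hp hq hne).1 h
  have hsurj : S.image Prod.fst = univ := by
    apply eq_univ_of_card
    rw [card_image_of_injOn hinj, hS.card_eq, Fintype.card_fin]
  have hex : ∀ i, ∃ d, (i, d) ∈ S := by
    intro i
    obtain ⟨p, hp, rfl⟩ := mem_image.mp (hsurj ▸ mem_univ i)
    exact ⟨p.2, hp⟩
  choose d hd using hex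
  have hadj : ∀ i j, i ≠ j → g2Rel nb c lab (i, d i) (j, d j) := fun i j h =>
    (hS.isClique (hd i) (hd j) fun h' => h (Prod.mk.inj h').1).2.1
  have h0 : ∀ s u v i j, nb u i = nb v j → d (lab (s, u)) i = d (lab (s, v)) j := by
    intro s u v i j h
    by_cases e : u = v
    · subst e
      exact (hadj (lab (s, u)) (lab (!s, u)) (by simp)).1 s u i j rfl h
    · exact (hadj (lab (s, u)) (lab (s, v)) (by simpa using e)).2.1 s u v i j rfl rfl h
  let w : Bool → E → Fin b → ZMod 2 := fun s e =>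
    if h : ∃ q : V × Fin 8, nb q.1 q.2 = e then d (lab (s, h.choose.1)) h.choose.2 else 0
  have h1 : ∀ s v i, w s (nb v i) = d (lab (s, v)) i := by
    intro s v i
    have h : ∃ q : V × Fin 8, nb q.1 q.2 = nb v i := ⟨(v, i), rfl⟩
    simp only [w, dif_pos h]
    exact h0 s _ _ _ _ h.choose_spec
  obtain ⟨v, hv⟩ := hun (zz (w true) (w false))
  apply hv
  rw [← (hadj (lab (true, v)) (lab (false, v)) (by simp)).2.2 v rfl rfl]
  refine sum_congr rfl fun i _ => ?_
  simp only [zz, h1]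

noncomputable def g2dat (x y : E → Fin b → ZMod 2) : Fin k → Fin 8 → Fin b → ZMod 2 :=
  Function.extend lab (fun p i => (if p.1 = true then x else y) (nb p.2 i)) fun _ => 0

lemma g2dat_lab (x y : E → Fin b → ZMod 2) (p : Bool × V) :
    g2dat nb lab x y (lab p) = fun i => (if p.1 = true then x else y) (nb p.2 i) :=
  lab.injective.extend_apply _ _ _

lemma g2dat_adj [Nonempty V] (i : Fin k) : ∃ v, ∀ (x y : E → Fin b → ZMod 2) (j : Fin k), i ≠ j →
    ∑ l, zz x y (nb v l) = c v →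
      (g2H nb c lab).Adj (i, g2dat nb lab x y i) (j, g2dat nb lab x y j) := by
  refine ⟨Function.extend lab Prod.snd (fun _ => Classical.arbitrary V) i, fun x y j hij h => ?_⟩
  have h0 : ∀ i : Fin k, ∀ s u l l', i = lab (s, u) → nb u l = nb u l' →
      g2dat nb lab x y i l = g2dat nb lab x y i l' := by
    rintro _ s u l l' rfl e
    simp only [g2dat_lab, e]
  have h1 : ∀ i j : Fin k, ∀ s u v l l', i = lab (s, u) → j = lab (s, v) → nb u l = nb v l' →
      g2dat nb lab x y i l = g2dat nb lab x y j l' := by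
    rintro _ _ s u v l l' rfl rfl e
    simp only [g2dat_lab, e]
  have h2 : ∀ v, ∑ l, g2dat nb lab x y (lab (true, v)) l ⬝ᵥ g2dat nb lab x y (lab (false, v)) l =
      ∑ l, zz x y (nb v l) := by
    intro v
    simp [g2dat_lab, zz]
  refine ⟨hij, ⟨h0 i, h1 i j, ?_⟩, ⟨h0 j, h1 j i, ?_⟩⟩
  · rintro v rfl rfl
    rw [lab.injective.extend_apply] at h
    exact (h2 v).trans h
  · rintro v rfl rfl
    rw [lab.injective.extend_apply] at h
    exact (h2 v).trans h

lemma g2dat_split (i : Fin k) :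
    (∀ x y : E → Fin b → ZMod 2, g2dat nb lab x y i = g2dat nb lab x 0 i) ∨
    (∀ x y : E → Fin b → ZMod 2, g2dat nb lab x y i = g2dat nb lab 0 y i) := by
  by_cases h : ∃ p, lab p = i
  · obtain ⟨⟨s, v⟩, rfl⟩ := h
    cases s
    · exact Or.inr fun x y => by simp [g2dat_lab]
    · exact Or.inl fun x y => by simp [g2dat_lab]
  · exact Or.inl fun x y => by simp [g2dat, Function.extend_apply' _ _ _ h]

variable {n : ℕ} (emb : Fin k × (Fin 8 → Fin b → ZMod 2) ↪ Fin n)

noncomputable def g2asg1 (x y : E → Fin b → ZMod 2) (p : Fin k × Fin n) : Bool :=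
  decide (p.2 = emb (p.1, g2dat nb lab x y p.1))

lemma g2asg1_split (p : Fin k × Fin n) :
    (∀ x y, g2asg1 nb lab emb x y p = g2asg1 nb lab emb x 0 p) ∨
    (∀ x y, g2asg1 nb lab emb x y p = g2asg1 nb lab emb 0 y p) :=
  (g2dat_split (b := b) nb lab p.1).imp (fun h x y => by simp only [g2asg1, h x y])
    fun h x y => by simp only [g2asg1, h x y]

lemma g2asg1_sat [Nonempty V] : ∀ C ∈ cliqueCNF ((g2H nb c lab).map emb) k, ∃ v, ∀ x y,
    ∑ l, zz x y (nb v l) = c v → ClauseSat C (g2asg1 nb lab emb x y) := by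
  rintro C (⟨j, rfl⟩ | ⟨j, l, u, v, hjl, huv, rfl⟩ | ⟨j, u, v, huv, rfl⟩)
  · refine ⟨Classical.arbitrary V, fun x y _ =>
      ⟨((j, emb (j, g2dat nb lab x y j)), true), ?_, ?_⟩⟩
    · exact mem_image_of_mem _ (mem_univ _)
    · simp [g2asg1]
  · obtain ⟨v0, hv0⟩ := g2dat_adj (b := b) nb c lab j
    refine ⟨v0, fun x y hs => ?_⟩
    have h1 := hv0 x y l hjl hs
    by_cases e1 : u = emb (j, g2dat nb lab x y j)
    · refine ⟨((l, v), false), by simp, ?_⟩
      simp only [g2asg1, decide_eq_false_iff_not]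
      intro e2
      rw [e1, e2] at huv
      exact huv ((SimpleGraph.map_adj_apply).mpr h1)
    · exact ⟨((j, u), false), by simp, by simpa [g2asg1] using e1⟩
  · refine ⟨Classical.arbitrary V, fun x y _ => ?_⟩
    by_cases e1 : u = emb (j, g2dat nb lab x y j)
    · refine ⟨((j, v), false), by simp, ?_⟩
      simp only [g2asg1, decide_eq_false_iff_not]
      intro e2
      exact huv (e1.trans e2.symm)
    · exact ⟨((j, u), false), by simp, by simpa [g2asg1] using e1⟩

noncomputable def g2part (i0 : Fin k) (v : Fin n) : Fin k :=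
  Function.extend emb Prod.fst (fun _ => i0) v

lemma g2part_emb (i0 : Fin k) (p : Fin k × (Fin 8 → Fin b → ZMod 2)) :
    g2part emb i0 (emb p) = p.1 :=
  emb.injective.extend_apply _ _ _

noncomputable def g2asg2 (i0 : Fin k) (x y : E → Fin b → ZMod 2) (v : Fin n) : Bool :=
  g2asg1 nb lab emb x y (g2part emb i0 v, v)

lemma g2asg2_sat [Nonempty V] (i0 : Fin k) :
    ∀ C ∈ blockCNF ((g2H nb c lab).map emb) (g2part emb i0), ∃ v, ∀ x y,
      ∑ l, zz x y (nb v l) = c v → ClauseSat C (g2asg2 nb lab emb i0 x y) := by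
  rintro C (⟨j, rfl⟩ | ⟨u, v, hne, huv, rfl⟩)
  · refine ⟨Classical.arbitrary V, fun x y _ => ⟨(emb (j, g2dat nb lab x y j), true), ?_, ?_⟩⟩
    · exact mem_image_of_mem _ (mem_filter.mpr ⟨mem_univ _, g2part_emb emb i0 _⟩)
    · simp [g2asg2, g2asg1, g2part_emb]
  · obtain ⟨v0, hv0⟩ := g2dat_adj (b := b) nb c lab (g2part emb i0 u)
    refine ⟨v0, fun x y hs => ?_⟩
    by_cases e1 : u = emb (g2part emb i0 u, g2dat nb lab x y (g2part emb i0 u))
    · refine ⟨(v, false), by simp, ?_⟩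
      simp only [g2asg2, g2asg1, decide_eq_false_iff_not]
      intro e2
      by_cases e3 : g2part emb i0 u = g2part emb i0 v
      · rw [e3] at e1
        exact hne (e1.trans e2.symm)
      · have h1 := hv0 x y _ e3 hs
        rw [← SimpleGraph.map_adj_apply (f := emb), ← e1, ← e2] at h1
        exact huv h1
    · exact ⟨(u, false), by simp, by simpa [g2asg2, g2asg1] using e1⟩

lemma g2part_indep (i0 : Fin k) (u v : Fin n) (h : ((g2H nb c lab).map emb).Adj u v) :
    g2part emb i0 u ≠ g2part emb i0 v := by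
  obtain ⟨p, q, h1, rfl, rfl⟩ := (SimpleGraph.map_adj _ _ _ _).mp h
  rw [g2part_emb, g2part_emb]
  exact h1.1

end aux

/-- Follow `Graph.lean` (`HH`, `HH_free`, `dat`, `asg1`, `asg2`, `part`) with
`lab : Bool × V ↪ Fin k`, vertices `Fin k × (Fin 8 → Fin b → ZMod 2)` embedded in `Fin n`, and
`Rel p q` saying: (1) if `p.1 = lab (s, u)` then `nb u i = nb u j → p.2 i = p.2 j`; (2) if
`p.1 = lab (s, u)`, `q.1 = lab (s, v)` then `nb u i = nb v j → p.2 i = q.2 j`; (3) if
`p.1 = lab (true, v)`, `q.1 = lab (false, v)` then `∑ i, p.2 i ⬝ᵥ q.2 i = c v`. Adjacent means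
`p.1 ≠ q.1 ∧ Rel p q ∧ Rel q p`. From a clique glue `x` and `y` (a value `x e` is read from any
`(u, i)` with `nb u i = e`, else `0`) and apply `hun` to `zz x y`.
`dat x y (lab (s, v)) = fun i => (if s then x else y) (nb v i)`. Then `sys_of_ref` with
`x0 = y0 = 0` and `K = univ.image (nb v)`. -/
theorem exists_graph {E V : Type} [Fintype E] [DecidableEq E] [Fintype V] [DecidableEq V]
    [Nonempty V] {D : PD E} {b k n : ℕ} (nb : V → Fin 8 → E) (c : V → ZMod 2)
    (hun : ∀ z : E → ZMod 2, ∃ v, ∑ i, z (nb v i) ≠ c v)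
    (hv : ∀ v (z : E → ZMod 2), ∑ i, z (nb v i) ≠ c v → ¬ D.Cons (univ.image (nb v)) z)
    (hk : 2 * Fintype.card V ≤ k) (hn : k * 2 ^ (8 * b) ≤ n) :
    ∃ (G : SimpleGraph (Fin n)) (part : Fin n → Fin k), G.CliqueFree k ∧
      (∀ u v, G.Adj u v → part u ≠ part v) ∧
      ∀ s, LSRef (cliqueCNF G k) s ∨ LSRef (blockCNF G part) s → Sys D (gP b) (SQ s) 8 s s := by
  obtain ⟨lab⟩ : Nonempty (Bool × V ↪ Fin k) :=
    Function.Embedding.nonempty_of_card_le (by simpa using hk)
  obtain ⟨emb⟩ : Nonempty (Fin k × (Fin 8 → Fin b → ZMod 2) ↪ Fin n) := by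
    refine Function.Embedding.nonempty_of_card_le ?_
    simp only [Fintype.card_prod, Fintype.card_fin, Fintype.card_fun, ZMod.card]
    rwa [← pow_mul, mul_comm b 8]
  let i0 : Fin k := lab (true, Classical.arbitrary V)
  have : Nonempty (Fin k) := ⟨i0⟩
  have key : ∀ {W : Type} {F : Set (Clause W)}
      (asg : (E → Fin b → ZMod 2) → (E → Fin b → ZMod 2) → W → Bool),
      (∀ C ∈ F, ∃ v, ∀ x y, ∑ l, zz x y (nb v l) = c v → ClauseSat C (asg x y)) →
      ∀ C ∈ F, ∃ K : Finset E, K.card ≤ 8 ∧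
        ∀ x y, D.Cons K (zf (gP b) x y) → ClauseSat C (asg x y) := by
    intro W F asg h C hC
    obtain ⟨v, hv'⟩ := h C hC
    refine ⟨univ.image (nb v), card_image_le.trans (by simp), fun x y hs => hv' x y ?_⟩
    by_contra hne
    exact hv v _ hne hs
  refine ⟨(g2H nb c lab).map emb, g2part emb i0,
    SimpleGraph.cliqueFree_map_iff.2 (g2H_free nb c lab hun), g2part_indep nb c lab emb i0, ?_⟩
  rintro s (h | h)
  · exact sys_of_ref (g2asg1 nb lab emb) 0 0 (g2asg1_split nb lab emb)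
      (key _ (g2asg1_sat nb c lab emb)) h
  · exact sys_of_ref (g2asg2 nb lab emb i0) 0 0 (fun v => g2asg1_split nb lab emb _)
      (key _ (g2asg2_sat nb c lab emb i0)) h

end Pool.Agent.Lib.MP_7836d5_lc.LP
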