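import Pool.Agent.Lib.MP_7836d5_lc.LP.Base

set_option autoImplicit false
set_option linter.unusedSectionVars false

/-! The index gadget: the moment bound. -/

namespace Pool.Agent.Lib.MP_7836d5_lc.LP

open Finset

variable {E F : Type} [Fintype E] [DecidableEq E] [Fintype F] [DecidableEq F]

def gI (F : Type) (a : F) (c : F → ZMod 2) : ZMod 2 := c a

lemma index_flip {Y : Type} [AddGroup Y] [Fintype Y] (φ : Y → ZMod 2) (d : Y)
    (h : ∀ y, φ (y + d) = φ y + 1) : ∑ y, ch (φ y) = 0 := by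
  have h1 : ∑ y, ch (φ y) = ∑ y, ch (φ (y + d)) :=
    (Equiv.sum_comp (Equiv.addRight d) fun y => ch (φ y)).symm
  have h2 : ch 1 = -1 := by simp [ch]
  simp only [h, ch_add, h2, mul_neg, mul_one, sum_neg_distrib] at h1
  linarith

lemma index_supp (v : F → ZMod 2) (a : F) :
    if a ∈ supp v then (supp (v + Pi.single a 1)).card + 1 = (supp v).card
      else (supp (v + Pi.single a 1)).card = (supp v).card + 1 := by
  have h11 : (1 : ZMod 2) + 1 = 0 := by decide
  split_ifs with h
  · have h1 : v a = 1 := (two_cases _).resolve_left (mem_filter.1 h).2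
    have h2 : supp (v + Pi.single a 1) = (supp v).erase a := by
      ext c
      by_cases hc : c = a
      · simp [supp, hc, h1, h11]
      · simp [supp, hc]
    rw [h2, card_erase_add_one h]
  · have h1 : v a = 0 := by simpa [supp] using h
    have h2 : supp (v + Pi.single a 1) = insert a (supp v) := by
      ext c
      by_cases hc : c = a
      · simp [supp, hc, h1]
      · simp [supp, hc]
    rw [h2, card_insert_of_notMem h]

/-- translate `c` by `Pi.single a 1` -/
lemma gI_orth (a a' : F) (h : a ≠ a') : ∑ c : F → ZMod 2, ch (gI F a c + gI F a' c) = 0 := by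
  refine index_flip _ (Pi.single a 1) fun c => ?_
  simp only [gI, Pi.add_apply, Pi.single_eq_same, Pi.single_eq_of_ne h.symm, add_zero]
  ring

lemma sum_ch_pair (w : E → F → ZMod 2) :
    ∑ y : E → F → ZMod 2, ch (∑ e, w e ⬝ᵥ y e) =
      if w = 0 then (Fintype.card (E → F → ZMod 2) : ℝ) else 0 := by
  split_ifs with h
  · simp [h, ch]
  · obtain ⟨e, he⟩ := Function.ne_iff.mp h
    obtain ⟨a, ha⟩ := Function.ne_iff.mp he
    have ha1 : w e a = 1 := (two_cases _).resolve_left ha
    refine index_flip _ (Pi.single e (Pi.single a 1)) fun y => ?_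
    simp only [Pi.add_apply, dotProduct_add, sum_add_distrib]
    congr 1
    rw [sum_eq_single e]
    · simp [ha1]
    · intro e' _ he'
      simp [Pi.single_eq_of_ne he']
    · simp

/-- the number of `x ∈ P` with `x e ∈ W e` for all `e ∈ K`: cover by the sets `agr P K α` with
`α e ∈ W e` on `K` and `α` fixed off `K` -/
lemma card_hit {lam ρ q : ℕ} {U K : Finset E} {P : Finset (E → F)} (hP : Dense' lam ρ U P)
    (hlam : 1 ≤ lam) (hd : Disjoint K U) (W : E → Finset F) (hW : ∀ e ∈ K, (W e).card ≤ q) :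
    (P.filter fun x => ∀ e ∈ K, x e ∈ W e).card * ρ ^ K.card ≤ q ^ K.card * (lam * P.card) := by
  rcases K.eq_empty_or_nonempty with rfl | hK
  · simp only [card_empty, pow_zero, mul_one, one_mul]
    exact (card_filter_le _ _).trans (Nat.le_mul_of_pos_left _ hlam)
  rcases P.eq_empty_or_nonempty with rfl | ⟨x0, -⟩
  · simp
  let S : Finset (E → F) := Fintype.piFinset fun e => if e ∈ K then W e else {x0 e}
  have h1 : (P.filter fun x => ∀ e ∈ K, x e ∈ W e) ⊆ S.biUnion fun α => agr P K α := by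
    intro x hx
    rw [mem_filter] at hx
    refine mem_biUnion.2 ⟨fun e => if e ∈ K then x e else x0 e, ?_, mem_agr.2 ⟨hx.1, ?_⟩⟩
    · refine Fintype.mem_piFinset.2 fun e => ?_
      by_cases he : e ∈ K
      · simpa [he] using hx.2 e he
      · simp [he]
    · intro e he
      simp [he]
  have h2 : S.card ≤ q ^ K.card := by
    rw [Fintype.card_piFinset]
    calc ∏ e, (if e ∈ K then W e else {x0 e}).card ≤ ∏ e, if e ∈ K then q else 1 := by
          refine prod_le_prod' fun e _ => ?_
          split_ifs with he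
          · exact hW e he
          · simp
      _ = q ^ K.card := by rw [prod_ite_mem_eq, prod_const]
  calc (P.filter fun x => ∀ e ∈ K, x e ∈ W e).card * ρ ^ K.card
      ≤ (∑ α ∈ S, (agr P K α).card) * ρ ^ K.card :=
        Nat.mul_le_mul_right _ ((card_le_card h1).trans card_biUnion_le)
    _ = ∑ α ∈ S, (agr P K α).card * ρ ^ K.card := sum_mul _ _ _
    _ ≤ S.card * (lam * P.card) := sum_le_card_nsmul _ _ _ fun α _ => hP K hK hd α
    _ ≤ _ := Nat.mul_le_mul_right _ h2

/-- Induction on `j`, generalising `w`. Put `f y = ∑ x ∈ P, ch (T ⬝ᵥ zf x y)` and note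
`ch (∑ e, w e ⬝ᵥ y e) * ch (T ⬝ᵥ zf x y) = ch (∑ e, (w e + T e • Pi.single (x e) 1) ⬝ᵥ y e)`.
For `j = 0` use `sum_ch_pair`. In the step split `x ∈ P` by
`K = {e ∈ supp T | x e ∈ supp (w e)}`; the supports shrink by one on `K` and grow by one on
`supp T \ K`; there are `2 ^ (supp T).card` sets `K`, and by `card_hit` at most
`γ ^ (2 * K.card) * lam * P.card` points `x` for each. -/
lemma moment_aux {lam ρ q : ℕ} {γ : ℝ} {U : Finset E} {P : Finset (E → F)}
    (hP : Dense' lam ρ U P) (hlam : 1 ≤ lam) (hρ : 0 < ρ) (hγ : 0 ≤ γ) (hq : (q : ℝ) ≤ γ ^ 2 * ρ)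
    (T : E → ZMod 2) (hT : Disjoint (supp T) U) (j : ℕ) (w : E → F → ZMod 2)
    (hw0 : ∀ e, T e = 0 → w e = 0) (hw : ∀ e, (supp (w e)).card + j ≤ q) :
    |∑ y : E → F → ZMod 2, ch (∑ e, w e ⬝ᵥ y e) * (∑ x ∈ P, ch (T ⬝ᵥ zf (gI F) x y)) ^ j| ≤
      Fintype.card (E → F → ZMod 2) * ((lam : ℝ) * P.card * 2 ^ (supp T).card) ^ j *
        ∏ e ∈ supp T, γ ^ (j + (supp (w e)).card) := by
  induction j generalizing w with
  | zero =>
    simp only [pow_zero, mul_one, zero_add]
    rw [sum_ch_pair]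
    split_ifs with h
    · simp [h, supp]
    · rw [abs_zero]
      positivity
  | succ j ih =>
    set f : (E → F → ZMod 2) → ℝ := fun y => ∑ x ∈ P, ch (T ⬝ᵥ zf (gI F) x y) with hf
    set M : ℝ := (lam : ℝ) * P.card * 2 ^ (supp T).card with hM
    set N : ℝ := (Fintype.card (E → F → ZMod 2) : ℝ) with hN
    set G : ℝ := ∏ e ∈ supp T, γ ^ (j + 1 + (supp (w e)).card) with hG
    let wx : (E → F) → E → F → ZMod 2 := fun x e => w e + T e • Pi.single (x e) 1
    have h1 : ∑ y : E → F → ZMod 2, ch (∑ e, w e ⬝ᵥ y e) * f y ^ (j + 1) =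
        ∑ x ∈ P, ∑ y : E → F → ZMod 2, ch (∑ e, wx x e ⬝ᵥ y e) * f y ^ j := by
      rw [sum_comm]
      refine sum_congr rfl fun y _ => ?_
      rw [← sum_mul, pow_succ', ← mul_assoc]
      congr 1
      rw [hf, mul_sum]
      refine sum_congr rfl fun x _ => ?_
      rw [← ch_add]
      congr 1
      simp only [wx, add_dotProduct, sum_add_distrib, smul_dotProduct, single_dotProduct, one_mul,
        smul_eq_mul]
      rfl
    have h2 : ∀ x ∈ P, |∑ y : E → F → ZMod 2, ch (∑ e, wx x e ⬝ᵥ y e) * f y ^ j| ≤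
        N * M ^ j * ∏ e ∈ supp T, γ ^ (j + (supp (wx x e)).card) := by
      intro x _
      refine ih (wx x) (fun e he => by simp [wx, he, hw0 e he]) fun e => ?_
      have h3 := hw e
      rcases two_cases (T e) with h | h
      · simp only [wx, h, zero_smul, add_zero]
        omega
      · simp only [wx, h, one_smul]
        have := index_supp (w e) (x e)
        split_ifs at this <;> omega
    let Kx : (E → F) → Finset E := fun x => (supp T).filter fun e => x e ∈ supp (w e)
    have h3 : ∀ x, (∏ e ∈ supp T, γ ^ (j + (supp (wx x e)).card)) * (γ ^ 2) ^ (Kx x).card = G := by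
      intro x
      rw [← prod_const, prod_filter, ← prod_mul_distrib]
      refine prod_congr rfl fun e he => ?_
      have hT1 : T e = 1 := (two_cases _).resolve_left (mem_filter.1 he).2
      have := index_supp (w e) (x e)
      simp only [wx, hT1, one_smul]
      split_ifs at this ⊢
      · rw [← pow_add]
        congr 1
        omega
      · rw [mul_one]
        congr 1
        omega
    have hG0 : 0 ≤ G := prod_nonneg fun e _ => pow_nonneg hγ _
    have h4 : ∀ K ∈ (supp T).powerset, ∑ x ∈ P.filter fun x => Kx x = K,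
        ∏ e ∈ supp T, γ ^ (j + (supp (wx x e)).card) ≤ lam * P.card * G := by
      intro K hK
      have a1 : (P.filter fun x => Kx x = K).card ≤
          (P.filter fun x => ∀ e ∈ K, x e ∈ supp (w e)).card := by
        refine card_le_card fun x hx => ?_
        rw [mem_filter] at hx ⊢
        refine ⟨hx.1, fun e he => ?_⟩
        rw [← hx.2] at he
        exact (mem_filter.1 he).2
      have a2 := card_hit (q := q) hP hlam (hT.mono_left (mem_powerset.1 hK))
        (fun e => supp (w e)) (fun e _ => by have := hw e; omega)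
      have a3 : ((P.filter fun x => Kx x = K).card : ℝ) * (ρ : ℝ) ^ K.card ≤
          (q : ℝ) ^ K.card * (lam * P.card) := by
        exact_mod_cast (Nat.mul_le_mul_right _ a1).trans a2
      have a4 : ((P.filter fun x => Kx x = K).card : ℝ) ≤ (γ ^ 2) ^ K.card * (lam * P.card) := by
        have hρ' : (0 : ℝ) < (ρ : ℝ) ^ K.card := by positivity
        refine le_of_mul_le_mul_right (a3.trans ?_) hρ'
        rw [mul_right_comm, ← mul_pow]
        gcongr
      rcases eq_or_lt_of_le (show 0 ≤ (γ ^ 2) ^ K.card by positivity) with h0 | h0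
      · rw [← h0, zero_mul] at a4
        have a5 : (P.filter fun x => Kx x = K) = ∅ := by
          rw [← card_eq_zero]
          exact_mod_cast le_antisymm a4 (Nat.cast_nonneg _)
        rw [a5, sum_empty]
        positivity
      · refine le_of_mul_le_mul_right ?_ h0
        rw [sum_mul, sum_congr rfl fun x hx => by rw [← (mem_filter.1 hx).2, h3 x], sum_const,
          nsmul_eq_mul]
        nlinarith
    have h5 : ∑ x ∈ P, ∏ e ∈ supp T, γ ^ (j + (supp (wx x e)).card) ≤ M * G := by
      rw [← sum_fiberwise_of_maps_to (t := (supp T).powerset) (g := Kx)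
        fun x _ => mem_powerset.2 (filter_subset _ _)]
      refine (sum_le_card_nsmul _ _ _ h4).trans (le_of_eq ?_)
      rw [card_powerset, nsmul_eq_mul, hM]
      push_cast
      ring
    rw [h1]
    refine (abs_sum_le_sum_abs _ _).trans ((sum_le_sum h2).trans ?_)
    rw [← mul_sum, pow_succ, mul_assoc, mul_assoc, mul_assoc]
    gcongr

/-- `moment_aux` with `w = 0`, `j = q = 2 p`, and the power mean inequality
`(∑ y ∈ B, |f y|) ^ (2 p) ≤ B.card ^ (2 p - 1) * ∑ y, f y ^ (2 p)`
(`pow_sum_le_card_mul_sum_pow` or `pow_sum_div_card_le_sum_pow`); then take `2 p`-th roots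
(`pow_le_pow_left₀`, `abs_le_of_abs_le`, `pow_le_pow_iff_left₀`) and use
`2 lam (2 γ) ^ t ≤ (4 lam γ) ^ t` for `t ≥ 1`. -/
lemma four_index {lam ρ p : ℕ} {γ : ℝ} {K : Finset E} {P : Finset (E → F)}
    {B : Finset (E → F → ZMod 2)} (hP : Dense' lam ρ K P) (hlam : 1 ≤ lam) (hρ : 0 < ρ)
    (hγ : 0 ≤ γ) (hp : 0 < p) (hq : ((2 * p : ℕ) : ℝ) ≤ γ ^ 2 * ρ)
    (hB : Fintype.card (E → F → ZMod 2) ≤ 4 ^ p * B.card) :
    Four (gI F) (4 * lam * γ) K P B := by
  intro T hT0 hT
  set f : (E → F → ZMod 2) → ℝ := fun y => ∑ x ∈ P, ch (T ⬝ᵥ zf (gI F) x y) with hf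
  set t := (supp T).card with ht
  have ht1 : 1 ≤ t := by
    obtain ⟨e, he⟩ := Function.ne_iff.mp hT0
    exact card_pos.2 ⟨e, mem_filter.2 ⟨mem_univ _, he⟩⟩
  have h1 := moment_aux hP hlam hρ hγ hq T hT (2 * p) 0 (fun _ _ => rfl) (fun e => by simp [supp])
  have h0 : ch 0 = 1 := by simp [ch]
  have h00 : (supp (0 : F → ZMod 2)).card = 0 := by simp [supp]
  simp only [Pi.zero_apply, zero_dotProduct, sum_const_zero, h0, one_mul, h00, add_zero,
    prod_const] at h1
  have h2 : ∑ y ∈ B, |f y| ^ (2 * p) ≤ ∑ y, f y ^ (2 * p) := by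
    simp only [pow_mul, sq_abs]
    exact sum_le_sum_of_subset_of_nonneg (subset_univ _) fun y _ _ => by positivity
  obtain ⟨n, hn⟩ : ∃ n, 2 * p = n + 1 := ⟨2 * p - 1, by omega⟩
  have h3 : (∑ y ∈ B, |f y|) ^ (2 * p) ≤ (B.card : ℝ) ^ n * ∑ y ∈ B, |f y| ^ (2 * p) := by
    rw [hn]
    exact pow_sum_le_card_mul_sum_pow (fun y _ => abs_nonneg _) n
  have hB' : (Fintype.card (E → F → ZMod 2) : ℝ) ≤ 4 ^ p * B.card := by exact_mod_cast hB
  have h4 : (∑ y ∈ B, |f y|) ^ (2 * p) ≤
      (2 * B.card * ((lam : ℝ) * P.card * 2 ^ t) * γ ^ t) ^ (2 * p) := by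
    refine h3.trans ?_
    calc (B.card : ℝ) ^ n * ∑ y ∈ B, |f y| ^ (2 * p)
        ≤ (B.card : ℝ) ^ n * (4 ^ p * B.card * ((lam : ℝ) * P.card * 2 ^ t) ^ (2 * p) *
            (γ ^ (2 * p)) ^ t) := by
          refine mul_le_mul_of_nonneg_left (h2.trans ((le_abs_self _).trans (h1.trans ?_)))
            (by positivity)
          gcongr
      _ = _ := by
          generalize (lam : ℝ) * P.card * 2 ^ t = M
          have e1 : (B.card : ℝ) ^ (2 * p) = (B.card : ℝ) ^ n * B.card := by rw [hn, pow_succ]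
          have e2 : (2 : ℝ) ^ (2 * p) = 4 ^ p := by rw [pow_mul]; norm_num
          have e3 : (γ ^ t) ^ (2 * p) = (γ ^ (2 * p)) ^ t := by rw [← pow_mul, ← pow_mul, mul_comm]
          rw [mul_pow _ (γ ^ t), mul_pow _ M, mul_pow 2, e1, e2, e3]
          ring
  have h5 := (pow_le_pow_iff_left₀ (sum_nonneg fun y _ => abs_nonneg _) (by positivity)
    (by omega)).1 h4
  rw [sum_comm]
  refine (abs_sum_le_sum_abs _ _).trans (h5.trans ?_)
  have h6 : (2 : ℝ) ≤ 2 ^ t := le_self_pow₀ one_le_two (by omega)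
  have h7 : (lam : ℝ) ≤ (lam : ℝ) ^ t := le_self_pow₀ (by exact_mod_cast hlam) (by omega)
  calc 2 * B.card * ((lam : ℝ) * P.card * 2 ^ t) * γ ^ t
      = 2 * lam * (2 ^ t * γ ^ t * ((P.card : ℝ) * B.card)) := by ring
    _ ≤ 2 ^ t * (lam : ℝ) ^ t * (2 ^ t * γ ^ t * ((P.card : ℝ) * B.card)) := by gcongr
    _ = _ := by
      rw [mul_pow, mul_pow, show (4 : ℝ) = 2 * 2 by norm_num, mul_pow]
      ring

end Pool.Agent.Lib.MP_7836d5_lc.LP
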