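import Pool.Agent.Lib.MP_7836d5_lc.LP.TMc
import Pool.Agent.Lib.MP_7836d5_lc.LP.TMs
import Pool.Agent.Lib.MP_7836d5_lc.LP.Circuit
import Pool.Agent.Lib.MP_7836d5_lc.LP.Index

set_option autoImplicit false

/-! The lower bound for the halting function. -/

namespace Pool.Agent.Lib.MP_7836d5_lc.LP

open Finset

lemma halt_mapT_cases {Q Γ Q' Γ' : Type} (eQ : Q ↪ Q') (eΓ : Γ ↪ Γ')
    (e : Q' × Γ' × Q' × Γ' × Bool) :
    (∀ δ, mapT eQ eΓ δ e = false) ∨ ∃ t, ∀ δ, mapT eQ eΓ δ e = δ t := by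
  by_cases h : ∃ q a q' a' d, e = (eQ q, eΓ a, eQ q', eΓ a', d)
  · obtain ⟨q, a, q', a', d, rfl⟩ := h
    refine Or.inr ⟨(q, a, q', a', d), fun δ => ?_⟩
    rw [Bool.eq_iff_iff]
    simp only [mapT, decide_eq_true_eq]
    refine ⟨?_, fun h => ⟨q, a, q', a', d, h, rfl⟩⟩
    rintro ⟨q1, a1, q2, a2, d1, h1, h2⟩
    simp only [Prod.mk.injEq, EmbeddingLike.apply_eq_iff_eq] at h2
    obtain ⟨rfl, rfl, rfl, rfl, rfl⟩ := h2
    exact h1
  · refine Or.inl fun δ => ?_
    simp only [mapT, decide_eq_false_iff_not]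
    rintro ⟨q, a, q', a', d, -, h2⟩
    exact h ⟨q, a, q', a', d, h2⟩

/-- `sys_of_mlp` with `S = Fin 8 → F`, `con u β v α := ∀ i j, nb u i = nb v j → β i = α j`,
`Kx x = mapT eQ eΓ (mach con fun (v, α) => decide (α = x ∘ nb v))` and
`Hy y = mapT eQ eΓ (mach con fun (v, α) => decide (con v α v α ∧ ∑ i, y (nb v i) (α i) = c v))`.
Use `halts_mapT`, `mach_complete`, `mach_sound` (glue the values `α v i` to a point `x` and apply
`hun` to `zf (gI F) x y`), `mach_local`, `exists_emb2`, `exists_emb1`. -/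
theorem sys_of_halts {E F : Type} [Fintype E] [DecidableEq E] [Fintype F] [DecidableEq F]
    [Nonempty F] {D : PD E} {v0 N k s : ℕ} (nb : Fin (v0 + 1) → Fin 8 → E)
    (c : Fin (v0 + 1) → ZMod 2) (hun : ∀ z : E → ZMod 2, ∃ v, ∑ i, z (nb v i) ≠ c v)
    (hv : ∀ v (z : E → ZMod 2), ∑ i, z (nb v i) ≠ c v → ¬ D.Cons (univ.image (nb v)) z)
    (hN : 1 + (v0 + 1) * (1 + Fintype.card F ^ 8) ≤ N) (hk : (v0 + 1) * (v0 + 2) ≤ k)
    (q0 qh bl : Fin N) (hq : q0 ≠ qh) (h : MLP (Halts q0 qh bl k) s) :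
    Sys D (gI F) (fun N => N = 0) 8 s (2 * s + 1) := by
  classical
  obtain ⟨eQ, h0, h1⟩ := exists_emb2
    (Q := Option (Fin (v0 + 1) ⊕ Fin (v0 + 1) × (Fin 8 → F))) (N := N)
    (by simp only [Fintype.card_option, Fintype.card_sum, Fintype.card_prod, Fintype.card_fin,
          Fintype.card_fun]
        nlinarith) (some (Sum.inl 0)) none (Option.some_ne_none _) q0 qh hq
  obtain ⟨eΓ, h2⟩ := exists_emb1 (Q := Option (Fin (v0 + 1) × (Fin 8 → F))) (N := N)
    (by simp only [Fintype.card_option, Fintype.card_prod, Fintype.card_fin, Fintype.card_fun]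
        nlinarith) none bl
  subst h0 h1 h2
  let con : Fin (v0 + 1) → (Fin 8 → F) → Fin (v0 + 1) → (Fin 8 → F) → Prop :=
    fun u β v α => ∀ i j, nb u i = nb v j → β i = α j
  refine sys_of_mlp
    (fun x => mapT eQ eΓ (mach con fun a => decide (a.2 = x ∘ nb a.1)))
    (fun y => mapT eQ eΓ (mach con fun a =>
      decide (con a.1 a.2 a.1 a.2 ∧ ∑ i, y (nb a.1 i) (a.2 i) = c a.1)))
    (fun x => ?_) (fun y hy => ?_) (fun e => ?_) h
  · exact (halts_mapT eQ eΓ _ _ _ _ _).2 (mach_complete con _ (fun v => x ∘ nb v)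
      (fun v => decide_eq_true rfl) (fun u v _ i j e => congrArg x e) hk)
  · obtain ⟨α, a1, a2⟩ := mach_sound con _ ((halts_mapT eQ eΓ _ _ _ _ _).1 hy)
    simp only [decide_eq_true_eq] at a1
    have a3 : ∀ u v i j, nb u i = nb v j → α u i = α v j := by
      intro u v i j e
      rcases lt_trichotomy u v with l | rfl | l
      · exact a2 u v l i j e
      · exact (a1 u).1 i j e
      · exact (a2 v u l j i e.symm).symm
    have a4 : ∀ e : E, ∃ f : F, ∀ v i, nb v i = e → α v i = f := by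
      intro e
      by_cases he : ∃ v i, nb v i = e
      · obtain ⟨v, i, rfl⟩ := he
        exact ⟨α v i, fun u j e => a3 u v j i e⟩
      · exact ⟨Classical.arbitrary F, fun v i e => absurd ⟨v, i, e⟩ he⟩
    choose x hx using a4
    obtain ⟨v, hv⟩ := hun (zf (gI F) x y)
    refine hv (Eq.trans (sum_congr rfl fun i _ => ?_) (a1 v).2)
    rw [hx _ v i rfl]
    rfl
  · rcases halt_mapT_cases eQ eΓ e with he | ⟨t, he⟩
    · exact ⟨∅, by simp, fun x y hx => by simp [he] at hx⟩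
    · rcases mach_local con t with ht | ⟨⟨v, α⟩, ht⟩
      · refine ⟨∅, by simp, fun x y hx hy => ?_⟩
        rw [he] at hx hy
        rw [ht, hy] at hx
        exact absurd hx Bool.false_ne_true
      · refine ⟨univ.image (nb v), card_image_le.trans (by simp), fun x y hx hy => ?_⟩
        rw [he, ht] at hx hy
        simp only [decide_eq_true_eq, decide_eq_false_iff_not, not_and] at hx hy
        subst hx
        exact hv v _ (hy fun i j e => congrArg x e)

end Pool.Agent.Lib.MP_7836d5_lc.LP
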