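import Pool.Agent.Lib.MP_7836d5_lc.LP.Halt
import Pool.Agent.Lib.MP_7836d5_lc.LP.IndexNum
import Pool.Agent.Lib.MP_7836d5_lc.LP.Xor

set_option autoImplicit false
set_option linter.unusedSectionVars false

namespace Pool.Agent.Lib.MP_7836d5_lc.LP

open Finset

lemma HaltNum_a {m k n : ℕ} (hm : 1 ≤ m) (hk : 8 * m ≤ k) (hn : k ^ 130 ≤ n) :
    ∃ a, Nat.log 2 m ≤ a ∧ 4 * m ≤ 2 ^ a ∧ 1 + 2 * m * (1 + 2 ^ (128 * a)) ≤ n ∧
      n ≤ 2 ^ (129 * a + 128) := by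
  classical
  have h1 : 2 ^ (Nat.log 2 m + 3) ≤ k := by
    have := Nat.pow_log_le_self 2 (x := m) (by omega)
    rw [pow_add]
    omega
  have h2 : 4 * m ≤ 2 ^ (Nat.log 2 m + 3) := by
    have := Nat.lt_pow_succ_log_self (b := 2) (by norm_num) m
    rw [Nat.succ_eq_add_one, pow_succ] at this
    rw [pow_add]
    omega
  have h3 : 1 + 2 * m * (1 + 2 ^ (128 * (Nat.log 2 m + 3))) ≤ n := by
    have e1 : 2 ^ (128 * (Nat.log 2 m + 3)) ≤ k ^ 128 := by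
      rw [mul_comm, pow_mul]
      exact Nat.pow_le_pow_left h1 _
    have e2 : 1 ≤ k ^ 128 := Nat.one_le_pow _ _ (by omega)
    have e3 : k ^ 130 = k * k * k ^ 128 := by ring
    rw [e3] at hn
    generalize k ^ 128 = y at e1 e2 hn
    generalize 2 ^ (128 * (Nat.log 2 m + 3)) = x at e1
    have e4 : 2 * m * (1 + x) ≤ k * y := by nlinarith
    have e5 : 1 ≤ k * y := Nat.mul_pos (by omega) e2
    have e6 : 2 * (k * y) ≤ k * (k * y) := Nat.mul_le_mul_right _ (by omega)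
    rw [mul_assoc] at hn
    omega
  have hex : ∃ a, ¬ 1 + 2 * m * (1 + 2 ^ (128 * (Nat.log 2 m + 3 + a + 1))) ≤ n := by
    refine ⟨n, fun h => ?_⟩
    have e1 : n < 2 ^ (128 * (Nat.log 2 m + 3 + n + 1)) :=
      Nat.lt_two_pow_self.trans_le (Nat.pow_le_pow_right (by norm_num) (by omega))
    generalize 2 ^ (128 * (Nat.log 2 m + 3 + n + 1)) = x at e1 h
    nlinarith
  have h4 := Nat.find_spec hex
  have h5 : 1 + 2 * m * (1 + 2 ^ (128 * (Nat.log 2 m + 3 + Nat.find hex))) ≤ n := by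
    rcases e : Nat.find hex with _ | j
    · exact h3
    · exact not_not.1 (Nat.find_min hex (m := j) (by omega))
  generalize Nat.find hex = j at h4 h5
  have h6 : 4 * m ≤ 2 ^ (Nat.log 2 m + 3 + j) :=
    h2.trans (Nat.pow_le_pow_right (by norm_num) (by omega))
  refine ⟨Nat.log 2 m + 3 + j, by omega, h6, h5, ?_⟩
  generalize Nat.log 2 m + 3 + j = a at h4 h6
  rw [show 129 * a + 128 = a + 128 * (a + 1) by ring, pow_add]
  have e2 : 1 ≤ 2 ^ (128 * (a + 1)) := Nat.one_le_two_pow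
  generalize 2 ^ (128 * (a + 1)) = x at h4 e2 ⊢
  generalize 2 ^ a = y at h6 ⊢
  nlinarith

/-- Put `m = (Nat.sqrt k - 1) / 2` and let `a` be largest with `1 + 2 m (1 + 2 ^ (128 a)) ≤ n`;
from `k ^ C ≤ n` we get `500000 ≤ a` and `4 m ≤ 2 ^ a`; `exists_xor`, `sys_of_halts`,
`index_bound` give `2 ^ U < 2 s` for `U = 8 a (m / 3000000)`; and `n ≤ 2 ^ (140 a)`. -/
theorem halt_bound : ∃ C k0 : ℕ, 0 < C ∧ ∀ k, k0 ≤ k → ∀ n, k ^ C ≤ n → ∀ q0 qh bl : Fin n,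
    q0 ≠ qh → ∀ s, MLP (Halts q0 qh bl k) s → n ^ Nat.sqrt k ≤ s ^ C := by
  obtain ⟨M1, hM1⟩ : ∃ M : ℕ, ∀ m, M ≤ m → 500000 ≤ Nat.log 2 m :=
    ⟨_, fun m hm => Nat.le_log_of_pow_le (by norm_num) hm⟩
  obtain ⟨M, hM0, hM⟩ : ∃ M : ℕ, 24000000 ≤ M ∧ ∀ m, M ≤ m → 500000 ≤ Nat.log 2 m :=
    ⟨max 24000000 M1, le_max_left _ _, fun m hm => hM1 m ((le_max_right _ _).trans hm)⟩
  obtain ⟨C, hC⟩ : ∃ C : ℕ, 1680000000 ≤ C := ⟨_, le_rfl⟩
  refine ⟨C, (2 * M + 1) ^ 2, by omega, fun k hk n hn q0 qh bl hq s hs => ?_⟩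
  have h1 : 2 * M + 1 ≤ Nat.sqrt k := Nat.le_sqrt'.2 hk
  have h2 : Nat.sqrt k * Nat.sqrt k ≤ k := Nat.sqrt_le k
  clear hk
  generalize Nat.sqrt k = r at h1 h2 ⊢
  obtain ⟨m, hm1, hm2⟩ : ∃ m, 2 * m + 1 ≤ r ∧ r ≤ 2 * m + 2 := ⟨(r - 1) / 2, by omega, by omega⟩
  have hm : 24000000 ≤ m := by omega
  have hk8 : 8 * m ≤ k :=
    le_trans (show 8 * m ≤ 4 * r by omega) ((Nat.mul_le_mul_right r (by omega)).trans h2)
  obtain ⟨a, ha1, ha2, ha3, ha4⟩ := HaltNum_a (m := m) (k := k) (n := n) (by omega) hk8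
    ((Nat.pow_le_pow_right (by omega) (by omega)).trans hn)
  have ha : 500000 ≤ a := (hM m (by omega)).trans ha1
  have hx := exists_xor m (le_trans (by norm_num) hm)
  obtain ⟨v0, hv0⟩ : ∃ v0, 2 * m = v0 + 1 := ⟨2 * m - 1, by omega⟩
  rw [hv0] at hx ha3
  obtain ⟨nb, c, D, hD, hun, hv⟩ := hx
  have : Nonempty (Fin (2 ^ (16 * a))) := ⟨⟨0, Nat.two_pow_pos _⟩⟩
  have hsys := sys_of_halts (F := Fin (2 ^ (16 * a))) (k := k) nb c hun hv
    (by rwa [Fintype.card_fin, ← pow_mul, show 16 * a * 8 = 128 * a by ring])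
    (le_trans (Nat.mul_le_mul (by omega) (by omega)) h2) q0 qh bl hq hs
  obtain ⟨w, hw⟩ : ∃ w, w = m / 3000000 := ⟨_, rfl⟩
  have hw1 : 1 ≤ a * w := Nat.mul_pos (by omega) (by omega)
  have h3 : 2 ^ (8 * a * w) < 2 * s := by
    by_contra h3
    have h4 := not_lt.1 h3
    refine index_bound D hD hm ha ha2 (hw ▸ h4) (hw ▸ ?_) hsys
    have e2 : 2 ^ 1 ≤ 2 ^ (8 * a * w) := Nat.pow_le_pow_right (by norm_num) (by nlinarith)
    rw [two_mul (8 * a * w), pow_add]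
    generalize 2 ^ (8 * a * w) = x at h4 e2 ⊢
    nlinarith
  have h5 : 2 ^ (a * w) ≤ s := by
    have e2 : 2 ^ (a * w + 1) ≤ 2 ^ (8 * a * w) :=
      Nat.pow_le_pow_right (by norm_num) (by nlinarith)
    rw [pow_succ] at e2
    omega
  have h6 : r ≤ 12000000 * w := by omega
  calc n ^ r ≤ (2 ^ (140 * a)) ^ r :=
        Nat.pow_le_pow_left (ha4.trans (Nat.pow_le_pow_right (by norm_num) (by omega))) _
    _ = 2 ^ (140 * a * r) := (pow_mul _ _ _).symm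
    _ ≤ 2 ^ (a * w * C) := by
        refine Nat.pow_le_pow_right (by norm_num) ?_
        calc 140 * a * r ≤ 140 * a * (12000000 * w) := Nat.mul_le_mul_left _ h6
          _ = a * w * 1680000000 := by ring
          _ ≤ a * w * C := Nat.mul_le_mul_left _ hC
    _ = (2 ^ (a * w)) ^ C := pow_mul _ _ _
    _ ≤ s ^ C := Nat.pow_le_pow_left h5 _

end Pool.Agent.Lib.MP_7836d5_lc.LP
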