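import Pool.Agent.Lib.MP_7836d5_lc.LP.IP

set_option autoImplicit false
set_option linter.unusedSectionVars false

namespace Pool.Agent.Lib.MP_7836d5_lc.LP

open Finset

variable {E : Type} [Fintype E] [DecidableEq E] {b : ℕ}

def RPP (lam ρ σ w M : ℕ) (K : Finset E) (x : E → Fin b → ZMod 2) (I : Finset E)
    (P : Finset (E → Fin b → ZMod 2)) : Prop :=
  I.card ≤ w ∧ (∀ x' ∈ P, ∀ e ∈ I, x' e = x e) ∧ Dense' lam ρ (K ∪ I) P ∧ M ≤ P.card ∧
    ∀ β, P.card ≤ σ * (P.filter fun x' => zz x' β = zz x β).card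

lemma IPEnv_solid {lam ρ σ w M : ℕ} {K I : Finset E} {x : E → Fin b → ZMod 2}
    {P : Finset (E → Fin b → ZMod 2)} (h : RPP lam ρ σ w M K x I P) (J : Finset E)
    (y : E → Fin b → ZMod 2) : P.card ≤ σ * (partR (gP b) P J x y).card := by
  rw [partR_ip]
  exact h.2.2.2.2 _

lemma IPEnv_sub (K I J : Finset E) : K ∪ J ⊆ K ∪ I ∪ J :=
  union_subset_union_left subset_union_left

/-- `exists_dense2`, then `clean_ip` -/
lemma pieces_ip {lam ρ κ σ σ' w M t : ℕ} (hκ : 2 ≤ κ) (hρ : 0 < ρ) (hn : ρ * κ = 2 ^ b)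
    (hσ : 2 * (b + 1) ^ Fintype.card E ≤ σ) (hσ' : σ ≤ σ') (hlam : 2 ≤ lam)
    (h1 : (2 ^ b) ^ Fintype.card E ≤ t * κ ^ w) (h2 : 2 * M * ρ ^ w ≤ t) (K : Finset E)
    (A : Finset (E → Fin b → ZMod 2)) : Pieces (RPP lam ρ σ' w M K) A w t := by
  refine ⟨fun x I P h => h.1, fun x I P h => h.2.1, fun Z _ hZ => ?_⟩
  have hF : Fintype.card (Fin b → ZMod 2) = 2 ^ b := by simp
  obtain ⟨I, α, hI, hne, hd, hc⟩ := exists_dense2 hκ hρ (hn.trans hF.symm) Z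
    (by rw [hF]; exact h1.trans (Nat.mul_le_mul_right _ hZ))
  obtain ⟨P, hP, c1, c2⟩ := clean_ip hσ (agr Z I α)
  have c3 := card_pos.2 hne
  have c4 : 2 * M ≤ (agr Z I α).card :=
    Nat.le_of_mul_le_mul_right ((h2.trans hZ).trans hc) (by positivity)
  refine ⟨P, hP.trans (filter_subset _ _), card_pos.1 (by omega), I, fun x hx => ⟨hI,
    fun x' hx' e he => ?_, (hd.sub subset_union_right hP c1).mono (by omega), by omega,
    fun β => (card_le_card hP).trans ((c2 x hx β).trans (Nat.mul_le_mul_right _ hσ'))⟩⟩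
  rw [(mem_agr.1 (hP hx')).2 e he, (mem_agr.1 (hP hx)).2 e he]

/-- the parts are dense with parameter `lam * σ` (`Dense'.sub`) -/
lemma comb_ip {lam ρ σ w M : ℕ} {ε : ℝ} (hlam : 1 ≤ lam) (hσ : 1 ≤ σ) (hρ : 0 < ρ) (hε : 0 ≤ ε)
    (h : ((lam * σ : ℕ) : ℝ) ^ 2 * 2 ^ b ≤ ε ^ 2 * (ρ : ℝ) ^ 2) (K : Finset E) :
    Comb (gP b) ε 0 K (RPP lam ρ σ w M K) (RPP lam ρ σ w M K) := by
  intro x y I P J Q hP hQ
  refine ⟨four_ip (lam := lam * σ) (hP.2.2.1.sub subset_union_left (filter_subset _ _)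
    (IPEnv_solid hP J y)) ?_ (Nat.mul_pos hlam hσ) hρ hε h, by simp, by simp⟩
  rw [partC_ip]
  exact hQ.2.2.1.sub (IPEnv_sub K I J) (filter_subset _ _) (IPEnv_solid hQ I x)

/-- `A`, `B` from `clean_ip`; pieces `RPP (4 * lam) ρ (2 * σ) w M K` on both sides; subsets of at
least a quarter of `A0` are dense with parameter `4 * lam` -/
lemma env_ip {lam ρ κ σ w M M0 t S : ℕ} {ε μ : ℝ} (hκ : 2 ≤ κ) (hρ : 0 < ρ) (hn : ρ * κ = 2 ^ b)
    (hσ : 2 * (b + 1) ^ Fintype.card E ≤ σ) (hlam : 1 ≤ lam) {K : Finset E}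
    {A0 B0 : Finset (E → Fin b → ZMod 2)} (hA : Dense' lam ρ K A0) (hB : Dense' lam ρ K B0)
    (hA0 : M0 ≤ A0.card) (hB0 : M0 ≤ B0.card) (h1 : (2 ^ b) ^ Fintype.card E ≤ t * κ ^ w)
    (h2 : 2 * M * ρ ^ w ≤ t) (h3 : 2 * σ * (S * t) ≤ M0) (h4 : 4 * M ≤ M0) (hε : 0 ≤ ε)
    (h5 : ((4 * lam * (144 * (2 * σ) ^ 3) : ℕ) : ℝ) ^ 2 * 2 ^ b ≤ ε ^ 2 * (ρ : ℝ) ^ 2)
    (hμ : 0 ≤ μ) (h6 : μ * Fintype.card (E → Fin b → ZMod 2) * (144 * (2 * σ) ^ 3 : ℕ) ≤ M) :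
    ∃ A ⊆ A0, ∃ B ⊆ B0, Env2 (gP b) ε μ (2 * σ) w w S K A B := by
  have hσ2 : 2 ≤ σ := le_trans (Nat.le_mul_of_pos_right _ (by positivity)) hσ
  set N := 144 * (2 * σ) ^ 3 with hN
  have hN0 : 0 < N := by positivity
  have hN1 : (0 : ℝ) < N := by exact_mod_cast hN0
  have key : ∀ {U : Finset E} {A1 B1 : Finset (E → Fin b → ZMod 2)}, Dense' (4 * lam * N) ρ U A1 →
      Dense' (4 * lam * N) ρ U B1 → M ≤ N * A1.card → M ≤ N * B1.card → Four (gP b) ε U A1 B1 ∧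
        μ * Fintype.card (E → Fin b → ZMod 2) ≤ A1.card ∧
        μ * Fintype.card (E → Fin b → ZMod 2) ≤ B1.card := fun d1 d2 c1 c2 =>
    ⟨four_ip d1 d2 (Nat.succ_le_of_lt (by positivity)) hρ hε h5,
      le_of_mul_le_mul_right (h6.trans (by rw [mul_comm]; exact_mod_cast c1)) hN1,
      le_of_mul_le_mul_right (h6.trans (by rw [mul_comm]; exact_mod_cast c2)) hN1⟩
  have quart : ∀ {A0 A1 : Finset (E → Fin b → ZMod 2)}, Dense' lam ρ K A0 → M0 ≤ A0.card →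
      A1 ⊆ A0 → A0.card ≤ 4 * A1.card → Dense' (4 * lam) ρ K A1 ∧ M ≤ A1.card :=
    fun d c1 c2 c3 => ⟨(d.sub subset_rfl c2 c3).mono (mul_comm _ _).le, by omega⟩
  have full : ∀ {A0 A : Finset (E → Fin b → ZMod 2)}, Dense' lam ρ K A0 → M0 ≤ A0.card →
      A ⊆ A0 → A0.card ≤ 2 * A.card →
      (∀ x ∈ A, ∀ β, A0.card ≤ σ * (A.filter fun x' => zz x' β = zz x β).card) →
      Full (RPP (4 * lam) ρ (2 * σ) w M K) A (S * t) := by
    intro A0 A d c1 c2 c3 c4 Z hZ x hx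
    have c5 := le_card_sdiff Z A
    have c6 : 2 * σ * Z.card ≤ A0.card := ((Nat.mul_le_mul_left _ hZ).trans h3).trans c1
    have c7 : 2 * 2 * Z.card ≤ 2 * σ * Z.card := by gcongr
    obtain ⟨c8, c9⟩ := quart d c1 (sdiff_subset.trans c2 : A \ Z ⊆ A0) (by omega)
    refine ⟨by simp, by simp, dense_mono_set c8 subset_union_left, c9, fun β => ?_⟩
    have e : ((A \ Z).filter fun x' => zz x' β = zz x β) =
        (A.filter fun x' => zz x' β = zz x β) \ Z := by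
      ext y
      simp only [mem_filter, mem_sdiff]
      tauto
    have c10 : (A.filter fun x' => zz x' β = zz x β).card ≤
        ((A.filter fun x' => zz x' β = zz x β) \ Z).card + Z.card := card_le_card_sdiff_add_card
    have c11 := Nat.mul_le_mul_left (2 * σ) c10
    have c12 := c4 x hx β
    have c13 : (A \ Z).card ≤ A0.card := card_le_card (sdiff_subset.trans c2)
    rw [e]
    rw [mul_add, mul_assoc] at c11
    omega
  obtain ⟨A, a1, a2, a3⟩ := clean_ip hσ A0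
  obtain ⟨B, b1, b2, b3⟩ := clean_ip hσ B0
  refine ⟨A, a1, B, b1, fun A1 hA1 B1 hB1 c1 c2 => ?_, RPP (4 * lam) ρ (2 * σ) w M K,
    RPP (4 * lam) ρ (2 * σ) w M K, t, t, pieces_ip hκ hρ hn hσ (by omega) (by omega) h1 h2 K A,
    pieces_ip hκ hρ hn hσ (by omega) (by omega) h1 h2 K B,
    fun x y I P J Q hP hQ A1 hA1 B1 hB1 c1 c2 => key (hP.2.2.1.sub subset_union_left hA1 c1)
      (hQ.2.2.1.sub (IPEnv_sub K I J) hB1 c2) (hP.2.2.2.1.trans c1) (hQ.2.2.2.1.trans c2),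
    full hA hA0 a1 a2 a3, full hB hB0 b1 b2 b3, fun x I P J y h => IPEnv_solid h J y,
    fun y J Q I x h => by rw [partC_ip]; exact IPEnv_solid h I x⟩
  obtain ⟨d1, d2⟩ := quart hA hA0 (hA1.trans a1) (by omega)
  obtain ⟨d3, d4⟩ := quart hB hB0 (hB1.trans b1) (by omega)
  exact key (d1.mono (Nat.le_mul_of_pos_right _ hN0)) (d3.mono (Nat.le_mul_of_pos_right _ hN0))
    (d2.trans (Nat.le_mul_of_pos_left _ hN0)) (d4.trans (Nat.le_mul_of_pos_left _ hN0))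

end Pool.Agent.Lib.MP_7836d5_lc.LP
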