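import Pool.Agent.Lib.MP_7836d5_lc.LP.Level

set_option autoImplicit false
set_option linter.unusedSectionVars false

namespace Pool.Agent.Lib.MP_7836d5_lc.LP

open Finset

variable {E FX FY : Type} [Fintype E] [DecidableEq E] [Fintype FX] [DecidableEq FX]
  [Fintype FY] [DecidableEq FY] {D : PD E} {g : FX → FY → ZMod 2}

lemma pos_split {α : Type} [Fintype α] (F w : α → ℝ) {a b W : ℝ} (ha : 0 ≤ a) (hb : 0 ≤ b)
    (hF : ∀ x, -b ≤ F x) (h0 : ∀ x, 0 ≤ w x) (h1 : ∀ x, w x ≤ W) :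
    -(((univ.filter fun x => F x < -a).card * b + Fintype.card α * a) * W) ≤ ∑ x, F x * w x := by
  have h2 : ∀ x, -(((if F x < -a then b else 0) + a) * W) ≤ F x * w x := fun x => by
    have k0 := h0 x
    have k1 := h1 x
    have k2 := hF x
    split_ifs with h
    · nlinarith [mul_nonneg ha (k0.trans k1), mul_nonneg hb (sub_nonneg.2 k1)]
    · nlinarith [not_lt.1 h, mul_nonneg ha (sub_nonneg.2 k1)]
  refine le_trans (le_of_eq ?_) (sum_le_sum fun x _ => h2 x)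
  rw [sum_neg_distrib, ← sum_mul, sum_add_distrib, ← sum_filter, sum_const, sum_const, card_univ,
    nsmul_eq_mul, nsmul_eq_mul]

lemma pos_core {ε θ : ℝ} {RP : (E → FX) → Finset E → Finset (E → FX) → Prop}
    {CP : (E → FY) → Finset E → Finset (E → FY) → Prop} {wX wY tX tY : ℕ}
    (hR : Pieces RP univ wX tX) (hC : Pieces CP univ wY tY) (hco : Comb g ε 0 ∅ RP CP)
    (hd : 2 * (wX + wY) ≤ D.d) (hε : 0 ≤ ε) (hε1 : ε ≤ 1)
    (hm : (1 + ε) ^ Fintype.card E ≤ 3 / 2) (hθ : 0 ≤ θ)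
    (htX : (tX : ℝ) ≤ θ * Fintype.card (E → FX)) (htY : (tY : ℝ) ≤ θ * Fintype.card (E → FY))
    (p : (E → FX) → ℝ) (q : (E → FY) → ℝ) (Θ : ℝ) (hp0 : ∀ x, 0 ≤ p x) (hp1 : ∀ x, p x ≤ 1)
    (hq0 : ∀ y, 0 ≤ q y) (hq1 : ∀ y, q y ≤ Θ) (hΘ : 0 ≤ Θ) :
    -(2 ^ (Fintype.card E + 2) * (θ + ε ^ (D.d - 2 * (wX + wY))) * Θ *
        ((Fintype.card (E → FX) : ℝ) * Fintype.card (E → FY))) ≤
      ∑ x, (∑ y, D.rho (zf g x y) * q y) * p x := by
  have hps := fun P Q I J => @piece_sum E FX FY _ _ _ _ _ _ D g ε RP CP wX wY tX tY hR hC hco hd hε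
    hε1 hm P Q I J
  have hδ : 0 ≤ ε ^ (D.d - 2 * (wX + wY)) := pow_nonneg hε _
  have hρ : ∀ x y, -2 ^ Fintype.card E ≤ D.rho (zf g x y) := fun x y =>
    (abs_le.1 (D.abs_rho_le _)).1
  rw [pow_add]
  generalize ε ^ (D.d - 2 * (wX + wY)) = δ at hps hδ ⊢
  have hM : (0 : ℝ) < 2 ^ Fintype.card E := by positivity
  generalize (2 : ℝ) ^ Fintype.card E = M at hps hρ hM ⊢
  have hX : (0 : ℝ) ≤ Fintype.card (E → FX) := Nat.cast_nonneg _
  have hY : (0 : ℝ) ≤ Fintype.card (E → FY) := Nat.cast_nonneg _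
  have hF : ∀ x, -(M * Θ * Fintype.card (E → FY)) ≤ ∑ y, D.rho (zf g x y) * q y := fun x => by
    refine le_trans (le_of_eq ?_) (card_nsmul_le_sum univ _ (-(M * Θ)) fun y _ => ?_)
    · rw [card_univ, nsmul_eq_mul]
      ring
    · nlinarith [mul_nonneg (sub_nonneg.2 (hρ x y)) (hq0 y), mul_nonneg hM.le (sub_nonneg.2 (hq1 y))]
  have key := pos_split (fun x => ∑ y, D.rho (zf g x y) * q y) p
    (a := 2 * M * (θ + δ) * Θ * Fintype.card (E → FY)) (by positivity) (by positivity) hF hp0 hp1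
  have hZ : ((univ.filter fun x => ∑ y, D.rho (zf g x y) * q y <
      -(2 * M * (θ + δ) * Θ * Fintype.card (E → FY))).card : ℝ) ≤ θ * Fintype.card (E → FX) := by
    refine le_trans (Nat.cast_le.2 (le_of_not_ge fun h => ?_)) htX
    obtain ⟨P, hPZ, hP, I, hI⟩ := hR.ex _ (subset_univ _) h
    have hP0 : (0 : ℝ) < P.card := Nat.cast_pos.2 hP.card_pos
    have k1 : ∑ y, (∑ x ∈ P, D.rho (zf g x y)) * q y <
        P.card * -(2 * M * (θ + δ) * Θ * Fintype.card (E → FY)) := by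
      simp only [sum_mul]
      rw [sum_comm, ← nsmul_eq_mul, ← sum_const]
      exact sum_lt_sum_of_nonempty hP fun x hx => (mem_filter.1 (hPZ hx)).2
    have k2 := pos_split (fun y => ∑ x ∈ P, D.rho (zf g x y)) q (a := M * (θ + δ) * P.card)
      (b := M * P.card) (by positivity) (by positivity) (fun y => by
        refine le_trans (le_of_eq ?_) (card_nsmul_le_sum P _ (-M) fun x _ => hρ x y)
        rw [nsmul_eq_mul]
        ring) hq0 hq1
    have k3 : tY ≤ (univ.filter fun y => ∑ x ∈ P, D.rho (zf g x y) <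
        -(M * (θ + δ) * P.card)).card := by
      refine Nat.cast_le.1 (htY.trans (le_of_not_gt fun k => ?_))
      have k4 := mul_le_mul_of_nonneg_right k.le (show 0 ≤ M * P.card * Θ by positivity)
      have k5 : 0 ≤ δ * Fintype.card (E → FY) * (M * P.card * Θ) := by positivity
      nlinarith [k2.trans_lt k1]
    obtain ⟨Q, hQZ, hQ, J, hJ⟩ := hC.ex _ (subset_univ _) k3
    have k4 : ∑ x ∈ P, ∑ y ∈ Q, D.rho (zf g x y) < Q.card * -(M * (θ + δ) * P.card) := by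
      rw [sum_comm, ← nsmul_eq_mul, ← sum_const]
      exact sum_lt_sum_of_nonempty hQ fun y hy => (mem_filter.1 (hQZ hy)).2
    have k5 : 0 ≤ M * θ * ((P.card : ℝ) * Q.card) := by positivity
    nlinarith [(hps P Q I J hI hJ).trans_lt k4]
  refine le_trans ?_ key
  have k1 := mul_le_mul_of_nonneg_right hZ (show 0 ≤ M * Θ * Fintype.card (E → FY) by positivity)
  have k2 : 0 ≤ M * Θ * θ * ((Fintype.card (E → FX) : ℝ) * Fintype.card (E → FY)) := by positivity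
  have k3 : 0 ≤ M * Θ * δ * ((Fintype.card (E → FX) : ℝ) * Fintype.card (E → FY)) := by positivity
  nlinarith

/-- Normalise to `p ≤ 1`, `q ≤ Θ` (divide by the maximum of `p`). Let `m = card E`,
`η = 2 ^ (m + 1) * (θ + ε ^ (d - 2 (wX + wY)))`, `F x = ∑ y, rho * q y` and
`Z = {x | F x < -η Θ card Y}`. If `tX ≤ Z.card` take a piece `P ⊆ Z`; the set `Z'` of `y` with
`∑ x ∈ P, rho < -(η / 2) P.card` has `2 ^ m * Z'.card > (η / 2) card Y`, so `tY ≤ Z'.card`, and a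
piece `Q ⊆ Z'` contradicts `piece_sum`. So `Z.card < θ card X`; use `abs_rho_le` on `Z`. -/
lemma pos_of_pieces {ε θ : ℝ} {RP : (E → FX) → Finset E → Finset (E → FX) → Prop}
    {CP : (E → FY) → Finset E → Finset (E → FY) → Prop} {wX wY tX tY : ℕ}
    (hR : Pieces RP univ wX tX) (hC : Pieces CP univ wY tY) (hco : Comb g ε 0 ∅ RP CP)
    (hd : 2 * (wX + wY) ≤ D.d) (hε : 0 ≤ ε) (hε1 : ε ≤ 1)
    (hm : (1 + ε) ^ Fintype.card E ≤ 3 / 2) (hθ : 0 ≤ θ)
    (htX : (tX : ℝ) ≤ θ * Fintype.card (E → FX)) (htY : (tY : ℝ) ≤ θ * Fintype.card (E → FY)) :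
    Pos D g (2 ^ (Fintype.card E + 2) * (θ + ε ^ (D.d - 2 * (wX + wY)))) := by
  intro p q Θ hp hq hΘ hpq
  by_cases h0 : ∀ x, p x = 0
  · simp only [h0, zero_mul, mul_zero, sum_const_zero, Left.neg_nonpos_iff]
    positivity
  push Not at h0
  obtain ⟨x1, hx1⟩ := h0
  obtain ⟨x0, -, hx0⟩ := exists_max_image univ p ⟨x1, mem_univ _⟩
  have ha : 0 < p x0 := lt_of_lt_of_le (lt_of_le_of_ne (hp x1) hx1.symm) (hx0 x1 (mem_univ _))
  refine (pos_core (D := D) hR hC hco hd hε hε1 hm hθ htX htY (fun x => p x / p x0)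
    (fun y => p x0 * q y) Θ (fun x => div_nonneg (hp x) ha.le)
    (fun x => (div_le_one ha).2 (hx0 x (mem_univ _))) (fun y => mul_nonneg ha.le (hq y))
    (hpq x0) hΘ).trans (le_of_eq (sum_congr rfl fun x _ => ?_))
  rw [sum_mul]
  refine sum_congr rfl fun y _ => ?_
  field_simp

end Pool.Agent.Lib.MP_7836d5_lc.LP
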