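import Pool.Agent.Lib.MP_7836d5_lc.LP.IPEnv
import Pool.Agent.Lib.MP_7836d5_lc.LP.DagLP
import Pool.Agent.Lib.MP_7836d5_lc.LP.Pos

set_option autoImplicit false
set_option linter.unusedSectionVars false

/-! The lifting theorem for the inner product gadget. -/

namespace Pool.Agent.Lib.MP_7836d5_lc.LP

open Finset

/-- As `index_lift`. `dag` with the pieces `RPP 2 ρ σ w0 M00 ∅` on both sides, `k = 2 w0`,
`En = Env2 (gP b) ε μ (2 σ) w w (S + s' + 1)`, `Qc = SQ s'`, `n1 = 8 ^ m * r ^ (m - (d - 4 w0))`,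
`Nr = 16 ^ m * r ^ w0 * r ^ w0`. For `henv` the parts (`partR_ip`, `partC_ip`) are dense with
parameter `2 σ` outside `I ∪ J` and have at least `M0` points, apply `env_ip` with `lam = 2 σ`;
for `hroot` take the complements (`dense_univ`, `Dense'.sub`, `Dense'.mono`). `hne` from `Half`,
`hlow` from `no_low`, `hcore` from `core2` with `k = 2 w0 + 2 w`, `tupR_ip`, `tupC_ip`, and `Pos`
from `pos_of_pieces` with `RPP 2 ρ σ w' 0 ∅`, `comb_ip`. -/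
theorem ip_lift {E : Type} [Fintype E] [DecidableEq E] (D : PD E)
    {b ρ κ σ r m N s s' S w0 t0 M00 M0 w t M w' t' J : ℕ} {ε μ θ ζ : ℝ}
    (hκ : 2 ≤ κ) (hρ : 0 < ρ) (hr : ρ * κ = r) (hb : 2 ^ b = r) (hm : Fintype.card E = m)
    (hN : N = r ^ m) (hσ : (((b + 1) ^ m) ^ 2 + 1) ^ 4 ≤ σ)
    (a1 : N ≤ t0 * κ ^ w0) (a2 : 2 * M00 * ρ ^ w0 ≤ t0) (a3 : σ * M0 ≤ M00)
    (a4 : 2 * (s * t0) ≤ N) (a5 : 2 * M0 ≤ N)
    (hS : 2 + s' + s' * (16 ^ m * r ^ w0 * r ^ w0 * 2) ≤ S)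
    (b1 : N ≤ t * κ ^ w) (b2 : 2 * M * ρ ^ w ≤ t) (b3 : 2 * σ * ((S + s' + 1) * t) ≤ M0)
    (b4 : 4 * M ≤ M0) (c1 : N ≤ t' * κ ^ w') (c2 : (t' : ℝ) ≤ θ * N) (c3 : 0 ≤ θ)
    (c4 : 4 * w' ≤ D.d) (hε : 0 ≤ ε) (hε1 : ε ≤ 1) (hε' : (1 + ε) ^ m ≤ 3 / 2)
    (h5 : ((4 * (2 * σ) * (144 * (2 * σ) ^ 3) : ℕ) : ℝ) ^ 2 * r ≤ ε ^ 2 * (ρ : ℝ) ^ 2)
    (hμ : 0 < μ) (h6 : μ * N * (144 * (2 * σ) ^ 3 : ℕ) ≤ M) (hd : 4 * (w0 + w) ≤ D.d)
    (hζ : 0 ≤ ζ) (hJ : 0 < J)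
    (hn : (((3 * s' + 5 * (S + s' + 1)) * (8 ^ m * r ^ (m - (D.d - 4 * (w0 + w)))) : ℕ) : ℝ) ≤
      ζ ^ 2 * N)
    (hnum : (S + s' + 1) * ((16 ^ m * r ^ w * r ^ w : ℕ) *
      ((8 * J + 4) * (2 ^ (m + 2) * (θ + ε ^ (D.d - 4 * w'))) + 2 ^ (m + 1) / J) +
      2 ^ (m + 1) * ζ) < μ ^ 2 / 512) :
    ¬ Sys D (gP b) (SQ s') (2 * w0) s s' := by
  classical
  subst hm
  have hF : Fintype.card (Fin b → ZMod 2) = r := by
    rw [Fintype.card_fun, ZMod.card, Fintype.card_fin, hb]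
  have hNc : Fintype.card (E → Fin b → ZMod 2) = N := by rw [Fintype.card_fun, hF, hN]
  have hn' : ρ * κ = 2 ^ b := hr.trans hb.symm
  have hr0 : 0 < r := by rw [← hb]; positivity
  have hN0 : 0 < N := by rw [hN]; positivity
  have hX : 1 ≤ (b + 1) ^ Fintype.card E := Nat.one_le_pow _ _ (Nat.succ_pos b)
  have hσ2 : 2 * (b + 1) ^ Fintype.card E ≤ σ := by
    refine le_trans ?_ hσ
    generalize (b + 1) ^ Fintype.card E = X
    calc 2 * X ≤ X ^ 2 + 1 := by nlinarith [sq_nonneg ((X : ℤ) - 1)]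
      _ ≤ (X ^ 2 + 1) ^ 4 := Nat.le_self_pow (by norm_num) _
  have hσ1 : 1 ≤ σ := by omega
  have hNb : (2 ^ b) ^ Fintype.card E = N := by rw [hb, hN]
  have h5' : ((4 * (2 * σ) * (144 * (2 * σ) ^ 3) : ℕ) : ℝ) ^ 2 * 2 ^ b ≤ ε ^ 2 * (ρ : ℝ) ^ 2 := by
    have : (r : ℝ) = 2 ^ b := by rw [← hb]; push_cast; rfl
    rwa [this] at h5
  have env : ∀ (K : Finset E) (A0 B0 : Finset (E → Fin b → ZMod 2)), Dense' (2 * σ) ρ K A0 →
      Dense' (2 * σ) ρ K B0 → M0 ≤ A0.card → M0 ≤ B0.card →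
      ∃ A ⊆ A0, ∃ B ⊆ B0, Env2 (gP b) ε μ (2 * σ) w w (S + s' + 1) K A B := by
    intro K A0 B0 hA hB hA0 hB0
    exact env_ip (M := M) (t := t) hκ hρ hn' hσ2 (by omega) hA hB hA0 hB0 (by rwa [hNb]) b2 b3 b4
      hε h5' hμ.le (by rwa [hNc])
  have part : ∀ (x y : E → Fin b → ZMod 2) (I J K : Finset E) (P : Finset (E → Fin b → ZMod 2)),
      I ⊆ K → RPP 2 ρ σ w0 M00 ∅ x I P →
      Dense' (2 * σ) ρ K (partR (gP b) P J x y) ∧ M0 ≤ (partR (gP b) P J x y).card := by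
    intro x y I J K P hK hP
    obtain ⟨-, -, h3, h4, h5⟩ := hP
    have h6 : P.card ≤ σ * (partR (gP b) P J x y).card := by
      rw [partR_ip]
      exact h5 _
    refine ⟨h3.sub (by simpa using hK) (filter_subset _ _) h6, ?_⟩
    exact Nat.le_of_mul_le_mul_left (a3.trans (h4.trans h6)) hσ1
  have root : ∀ EX : Finset (E → Fin b → ZMod 2), 2 * EX.card ≤ N →
      Dense' (2 * σ) ρ ∅ (univ \ EX) ∧ M0 ≤ (univ \ EX).card := by
    intro EX hE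
    have h1 : (univ \ EX).card + EX.card = N := by
      rw [card_sdiff_add_card_eq_card (subset_univ _), card_univ, hNc]
    have h2 : ρ ≤ Fintype.card (Fin b → ZMod 2) := by
      rw [hF, ← hr]
      exact Nat.le_mul_of_pos_right _ (by omega)
    refine ⟨((dense_univ h2 (∅ : Finset E)).sub (μ := 2) subset_rfl (subset_univ _) ?_).mono
      (by omega), by omega⟩
    rw [card_univ, hNc]
    omega
  have hpos : Pos D (gP b) (2 ^ (Fintype.card E + 2) * (θ + ε ^ (D.d - 4 * w'))) := by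
    have hp : Pieces (RPP (b := b) 2 ρ σ w' 0 (∅ : Finset E)) univ w' t' :=
      pieces_ip hκ hρ hn' hσ2 le_rfl le_rfl (by rwa [hNb]) (by simp) _ _
    have hc : ((2 * σ : ℕ) : ℝ) ^ 2 * 2 ^ b ≤ ε ^ 2 * (ρ : ℝ) ^ 2 := by
      refine le_trans (mul_le_mul_of_nonneg_right (pow_le_pow_left₀ (Nat.cast_nonneg _)
        (Nat.cast_le.2 ?_) 2) (by positivity)) h5'
      have h1 : 1 ≤ 144 * (2 * σ) ^ 3 := Nat.succ_le_of_lt (by positivity)
      calc 2 * σ ≤ 4 * (2 * σ) * 1 := by omega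
        _ ≤ _ := Nat.mul_le_mul_left _ h1
    have := pos_of_pieces (D := D) (θ := θ) hp hp (comb_ip (by norm_num) hσ1 hρ hε hc ∅)
      (by omega) hε hε1 hε' c3 (by rwa [hNc]) (by rwa [hNc])
    rwa [show 2 * (w' + w') = 4 * w' by ring] at this
  have hη : 0 ≤ 2 ^ (Fintype.card E + 2) * (θ + ε ^ (D.d - 4 * w')) := by positivity
  have hp0 : Pieces (RPP (b := b) 2 ρ σ w0 M00 (∅ : Finset E)) univ w0 t0 :=
    pieces_ip hκ hρ hn' hσ2 le_rfl le_rfl (by rwa [hNb]) a2 _ _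
  have hn12 : 8 ^ Fintype.card E * r ^ (Fintype.card E - (D.d - 2 * (2 * w0))) ≤
      8 ^ Fintype.card E * r ^ (Fintype.card E - (D.d - 4 * (w0 + w))) :=
    Nat.mul_le_mul_left _ (Nat.pow_le_pow_right hr0 (by omega))
  refine dag (fun K A B => Env2 (gP b) ε μ (2 * σ) w w (S + s' + 1) K A B) (SQ s')
    (n1 := 8 ^ Fintype.card E * r ^ (Fintype.card E - (D.d - 2 * (2 * w0))))
    (Nr := 16 ^ Fintype.card E * r ^ w0 * r ^ w0) hp0 hp0 (by omega) (by omega) (by rw [hF])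
    (by rw [hF]) ?_ ?_ ?_ ?_ ?_ (by rwa [hNc]) (by rwa [hNc])
  · intro x y I P J Q hP hQ
    obtain ⟨h1, h2⟩ := part x y I J (I ∪ J) P subset_union_left hP
    obtain ⟨h3, h4⟩ := part y x J I (I ∪ J) Q subset_union_right hQ
    rw [partC_ip]
    exact env _ _ _ h1 h3 h2 h4
  · intro EX EY hEX hEY
    rw [hNc] at hEX hEY
    obtain ⟨h1, h2⟩ := root EX hEX
    obtain ⟨h3, h4⟩ := root EY hEY
    obtain ⟨A, hA, B, hB, h⟩ := env _ _ _ h1 h3 h2 h4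
    exact ⟨A, B, disjoint_sdiff_self_left.mono_left hA, disjoint_sdiff_self_left.mono_left hB, h⟩
  · intro K A B h
    obtain ⟨-, h1, h2⟩ := h.1 A subset_rfl B subset_rfl (by omega) (by omega)
    rw [hNc] at h1 h2
    have h3 : (0 : ℝ) < μ * N := by positivity
    exact ⟨card_pos.1 (by exact_mod_cast h3.trans_le h1),
      card_pos.1 (by exact_mod_cast h3.trans_le h2)⟩
  · intro K A B δ h hK hc hcons A1 hA1 B1 hB1 e1 e2
    obtain ⟨h0, h1, h2⟩ := h.1 A1 hA1 B1 hB1 e1 e2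
    refine no_low (ζ := ζ) gP_orth h0 h1 h2 (fun x hx y hy => hc x (hA1 hx) y (hB1 hy)) hcons
      (by omega) hε hε' hμ hζ ?_ ?_
    · rw [hNc]
      refine le_trans (Nat.cast_le.2 (hn12.trans ?_)) hn
      exact Nat.le_mul_of_pos_left _ (by omega)
    · have h3 : (0 : ℝ) ≤ (16 ^ Fintype.card E * r ^ w * r ^ w : ℕ) *
          ((8 * J + 4) * (2 ^ (Fintype.card E + 2) * (θ + ε ^ (D.d - 4 * w'))) +
            2 ^ (Fintype.card E + 1) / J) := by positivity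
      have h4 : (0 : ℝ) ≤ 2 ^ Fintype.card E * ζ := by positivity
      have h5 : (0 : ℝ) ≤ (S : ℝ) + s' := by positivity
      have h6 : (2 : ℝ) ^ (Fintype.card E + 1) * ζ = 2 * (2 ^ Fintype.card E * ζ) := by ring
      rw [h6] at hnum
      nlinarith [mul_nonneg h5 (add_nonneg h3 (mul_nonneg zero_le_two h4)), sq_nonneg μ]
  · intro K A B δ h hK hc hcons M1 N1 c0 hM hQ hc0
    refine core2 (k := 2 * w0 + 2 * w) (ζ := ζ) (J := J) gP_orth hpos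
      (tupR_ip (Nat.mul_le_mul_left 2 hσ)) (tupC_ip (Nat.mul_le_mul_left 2 hσ)) h hc hcons
      (by omega) (by omega) hε hε' hμ hη hζ (hM.mono subset_rfl subset_rfl hS) hQ hc0 hJ ?_ ?_
    · rw [hNc, hF, show 2 * (2 * w0 + 2 * w) = 4 * (w0 + w) by ring]
      refine le_trans (Nat.cast_le.2 ?_) hn
      rw [add_mul]
      exact Nat.add_le_add_right (Nat.mul_le_mul_left _ hn12) _
    · rw [hF]
      exact hnum


end Pool.Agent.Lib.MP_7836d5_lc.LP
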