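import Pool.Agent.Lib.MP_7836d5_lc.LP.Index
import Pool.Agent.Lib.MP_7836d5_lc.LP.Clean
import Pool.Agent.Lib.MP_7836d5_lc.LP.Level

set_option autoImplicit false
set_option linter.unusedSectionVars false

/-! Pieces and environments for the index gadget. -/

namespace Pool.Agent.Lib.MP_7836d5_lc.LP

open Finset

variable {E F : Type} [Fintype E] [DecidableEq E] [Fintype F] [DecidableEq F]

def RPI (lam ρ w M : ℕ) (K : Finset E) (x : E → F) (I : Finset E) (P : Finset (E → F)) : Prop :=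
  I.card ≤ w ∧ (∀ x' ∈ P, ∀ e ∈ I, x' e = x e) ∧ Dense' lam ρ (K ∪ I) P ∧ M ≤ P.card

def CPI (w M : ℕ) (y : E → F → ZMod 2) (J : Finset E) (Q : Finset (E → F → ZMod 2)) : Prop :=
  J = ∅ ∧ ∀ (x : E → F) (I : Finset E), I.card ≤ w → M ≤ (partC (gI F) Q I x y).card

lemma partR_empty {FY : Type} [Fintype FY] [DecidableEq FY] (g : F → FY → ZMod 2)
    (P : Finset (E → F)) (x : E → F) (y : E → FY) : partR g P ∅ x y = P := by
  simp [partR]

/-- `exists_dense2` -/
lemma pieces_row {lam κ w M t : ℕ} (hκ : 2 ≤ κ) (hF : κ * κ = Fintype.card F) (hlam : 1 ≤ lam)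
    (h1 : Fintype.card F ^ Fintype.card E ≤ t * κ ^ w) (h2 : M * κ ^ w ≤ t) (K : Finset E)
    (A : Finset (E → F)) : Pieces (RPI lam κ w M K) A w t := by
  refine ⟨fun x I P h => h.1, fun x I P h => h.2.1, fun Z _ hZ => ?_⟩
  obtain ⟨I, α, hI, hne, hd, hc⟩ := exists_dense2 hκ (by omega) hF Z
    (h1.trans (Nat.mul_le_mul_right _ hZ))
  refine ⟨agr Z I α, filter_subset _ _, hne, I, fun x hx => ⟨hI, fun x' hx' e he => ?_,
    (dense_mono_set hd subset_union_right).mono hlam, ?_⟩⟩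
  · rw [(mem_agr.1 hx').2 e he, (mem_agr.1 hx).2 e he]
  · exact Nat.le_of_mul_le_mul_right ((h2.trans hZ).trans hc) (by positivity)

/-- `clean_ev` for the events `{y | ∀ e a, l e = some a → y e a = δ e}` over the labels `l` with at
most `w` coordinates (`card_lab`) and all `δ` -/
lemma clean_col [Nonempty F] (w M : ℕ) (Z : Finset (E → F → ZMod 2)) :
    ∃ Q ⊆ Z, Z.card ≤ Q.card + 4 ^ Fintype.card E * Fintype.card F ^ w * M ∧
      ∀ y ∈ Q, CPI w M y ∅ Q := by
  classical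
  let ev : (E → Option F) × (E → ZMod 2) → Finset (E → F → ZMod 2) := fun q =>
    univ.filter fun y => ∀ e a, q.1 e = some a → y e a = q.2 e
  let L : Finset (E → Option F) := univ.filter fun l => (univ.filter fun e => l e ≠ none).card ≤ w
  obtain ⟨Q, hQ, h1, h2⟩ := clean_ev ((L ×ˢ (univ : Finset (E → ZMod 2))).image ev) M Z
  refine ⟨Q, hQ, h1.trans (Nat.add_le_add_left (Nat.mul_le_mul_right _ (card_image_le.trans ?_)) _),
    fun y hy => ⟨rfl, fun x I hI => ?_⟩⟩
  · rw [card_product, card_univ, Fintype.card_fun, ZMod.card]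
    calc _ ≤ 2 ^ Fintype.card E * Fintype.card F ^ w * 2 ^ Fintype.card E :=
          Nat.mul_le_mul_right _ (card_lab w)
      _ = _ := by rw [show 4 = 2 * 2 from rfl, mul_pow]; ring
  · have e : partC (gI F) Q I x y =
        Q ∩ ev (fun e => if e ∈ I then some (x e) else none, fun e => y e (x e)) := by
      ext y'
      simp only [partC, zf, gI, ev, mem_filter, mem_inter, mem_univ, true_and]
      refine and_congr_right fun _ => ⟨fun h e a ha => ?_, fun h e he => h e _ (if_pos he)⟩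
      split_ifs at ha with he
      obtain rfl := Option.some.inj ha
      exact h e he
    have hm : ev (fun e => if e ∈ I then some (x e) else none, fun e => y e (x e)) ∈
        (L ×ˢ (univ : Finset (E → ZMod 2))).image ev := by
      refine mem_image_of_mem _ (mem_product.2 ⟨mem_filter.2 ⟨mem_univ _, le_trans
        (card_le_card fun e he => ?_) hI⟩, mem_univ _⟩)
      by_contra hn
      exact (mem_filter.1 he).2 (if_neg hn)
    rcases h2 _ hm with h3 | h3
    · have : y ∈ partC (gI F) Q I x y := mem_filter.2 ⟨hy, fun _ _ => rfl⟩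
      rw [e, h3] at this
      exact absurd this (notMem_empty _)
    · rwa [e]

lemma pieces_col [Nonempty F] {w M t : ℕ} (h : 4 ^ Fintype.card E * Fintype.card F ^ w * M < t)
    (B : Finset (E → F → ZMod 2)) : Pieces (CPI w M) B 0 t := by
  refine ⟨fun x I P h => by simp [h.1], fun x I P h => by simp [h.1], fun Z _ hZ => ?_⟩
  obtain ⟨Q, hQ, h1, h2⟩ := clean_col w M Z
  exact ⟨Q, hQ, card_pos.1 (by omega), ∅, h2⟩

/-- `four_index` -/
lemma comb_index {lam κ w MX MY p : ℕ} {γ μ : ℝ} (hκ : 2 ≤ κ) (hlam : 1 ≤ lam) (hγ : 0 ≤ γ)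
    (hp : 0 < p) (hq : ((2 * p : ℕ) : ℝ) ≤ γ ^ 2 * κ)
    (hB : Fintype.card (E → F → ZMod 2) ≤ 4 ^ p * MY) (hμX : μ * Fintype.card (E → F) ≤ MX)
    (hμY : μ * Fintype.card (E → F → ZMod 2) ≤ MY) (K : Finset E) :
    Comb (gI F) (4 * lam * γ) μ K (RPI lam κ w MX K) (CPI w MY) := by
  rintro x y I P J Q ⟨h1, -, h3, h4⟩ ⟨rfl, h5⟩
  have h6 := h5 x I h1
  rw [partR_empty, union_empty]
  exact ⟨four_index h3 hlam (by omega) hγ hp hq (hB.trans (Nat.mul_le_mul_left _ h6)),
    hμX.trans (by exact_mod_cast h4), hμY.trans (by exact_mod_cast h6)⟩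

/-- `B` is given by `clean_col` with the threshold `M'`; use `RPI 4 κ w MX K` and `CPI w MY`,
and `Dense'.sub` for subsets of `A` of at least half the size -/
lemma env_index {κ w S tX MX tY MY M' p : ℕ} {γ μ : ℝ} (hκ : 2 ≤ κ)
    (hF : κ * κ = Fintype.card F) {K : Finset E} {A : Finset (E → F)}
    {B0 : Finset (E → F → ZMod 2)} (hA : Dense' 2 κ K A)
    (h1 : Fintype.card F ^ Fintype.card E ≤ tX * κ ^ w) (h2 : MX * κ ^ w ≤ tX)
    (h3 : 2 * (S * tX) ≤ A.card) (h3' : 2 * MX ≤ A.card)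
    (h4 : 2 * (4 ^ Fintype.card E * Fintype.card F ^ w * M') ≤ B0.card) (h5 : S * tY + MY ≤ M')
    (h6 : 4 ^ Fintype.card E * Fintype.card F ^ w * MY < tY) (h7 : 4 * MY ≤ B0.card)
    (hγ : 0 ≤ γ) (hp : 0 < p) (hq : ((2 * p : ℕ) : ℝ) ≤ γ ^ 2 * κ)
    (hB : Fintype.card (E → F → ZMod 2) ≤ 4 ^ p * MY) (hμX : μ * Fintype.card (E → F) ≤ MX)
    (hμY : μ * Fintype.card (E → F → ZMod 2) ≤ MY) :
    ∃ B ⊆ B0, Env (gI F) (16 * γ) μ w 0 S K A B := by
  haveI : Nonempty F := Fintype.card_pos_iff.1 (by rw [← hF]; positivity)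
  obtain ⟨B, hBs, hc, hB'⟩ := clean_col w M' B0
  have e : (16 : ℝ) * γ = 4 * (4 : ℕ) * γ := by push_cast; ring
  refine ⟨B, hBs, fun A1 hA1 B1 hB1 c1 c2 => ?_, RPI 4 κ w MX K, CPI w MY, tX, tY,
    pieces_row hκ hF (by omega) h1 h2 K A, pieces_col h6 B,
    e ▸ comb_index hκ (by omega) hγ hp hq hB hμX hμY K, fun Z hZ x _ => ?_, fun Z hZ y hy => ?_⟩
  · have c3 : MY ≤ B1.card := by omega
    have c4 : MX ≤ A1.card := by omega
    exact ⟨e ▸ four_index (lam := 4) (hA.sub subset_rfl hA1 c1) (by omega) (by omega) hγ hp hq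
      (hB.trans (Nat.mul_le_mul_left _ c3)), hμX.trans (by exact_mod_cast c4),
      hμY.trans (by exact_mod_cast c3)⟩
  · have c1 := le_card_sdiff Z A
    exact ⟨by simp, by simp, hA.sub (μ := 2) subset_union_left sdiff_subset (by omega), by omega⟩
  · refine ⟨rfl, fun x I hI => ?_⟩
    have c1 := (hB' y hy).2 x I hI
    have c2 : partC (gI F) (B \ Z) I x y = partC (gI F) B I x y \ Z := by
      ext y'
      simp only [partC, mem_filter, mem_sdiff]
      tauto
    have c3 := le_card_sdiff Z (partC (gI F) B I x y)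
    rw [c2]
    omega

end Pool.Agent.Lib.MP_7836d5_lc.LP
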