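import Pool.Agent.Lib.MP_7836d5_lc.LP.IndexEnv
import Pool.Agent.Lib.MP_7836d5_lc.LP.Core
import Pool.Agent.Lib.MP_7836d5_lc.LP.DagLP
import Pool.Agent.Lib.MP_7836d5_lc.LP.Pos

set_option autoImplicit false
set_option linter.unusedSectionVars false

/-! The lifting theorem for the index gadget. -/

namespace Pool.Agent.Lib.MP_7836d5_lc.LP

open Finset

/-- `dag` with the pieces `RPI 2 κ w0 M0X ∅`, `CPI w0 M0Y`, `k = w0`,
`En = Env (gI F) (16 γ) μ w 0 (S + 2)`, `n1 = 8 ^ m * r ^ (m - (d - 2 w0))`,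
`Nr = 16 ^ m * r ^ w0`. `henv` and `hroot` come from `env_index` (for the root take the complements
of the error sets, `dense_univ`, `Dense'.sub`), `hne` from `Half` and `0 < μ`, `hlow` from
`no_low`, `hcore` from `core` with `k = w0 + w` (enlarge `NR` to `S` by `NR.mono`; note
`r ^ (m - (d - 2 w0)) ≤ r ^ (m - (d - 2 (w0 + w)))`), and `Pos` from `pos_of_pieces` with the
pieces `RPI 4 κ w' 0 ∅`, `CPI w' MY'` and `comb_index` for `μ = 0`. -/
theorem index_lift {E F : Type} [Fintype E] [DecidableEq E] [Fintype F] [DecidableEq F] (D : PD E)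
    {κ r m N NY s s' S w0 t0X M0X t0Y M0Y w tX MX tY MY M' w' tX' tY' MY' p : ℕ} {γ μ θ ζ : ℝ}
    (hκ : 2 ≤ κ) (hr : κ * κ = r) (hF : Fintype.card F = r) (hm : Fintype.card E = m)
    (hN : N = r ^ m) (hNY : NY = 2 ^ (r * m))
    (a1 : N ≤ t0X * κ ^ w0) (a2 : M0X * κ ^ w0 ≤ t0X) (a3 : 4 ^ m * r ^ w0 * M0Y < t0Y)
    (a4 : 2 * (s * t0X) ≤ N) (a5 : 2 * (s * t0Y) ≤ NY) (a6 : 2 * M0X ≤ N) (a7 : 2 * M0Y ≤ NY)
    (hS : 2 + s' + s' * (16 ^ m * r ^ w0 * 2) ≤ S)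
    (b1 : N ≤ tX * κ ^ w) (b2 : MX * κ ^ w ≤ tX) (b3 : 2 * ((S + 2) * tX) ≤ M0X)
    (b4 : 2 * MX ≤ M0X) (b5 : 2 * (4 ^ m * r ^ w * M') ≤ M0Y) (b6 : (S + 2) * tY + MY ≤ M')
    (b7 : 4 ^ m * r ^ w * MY < tY) (b8 : 4 * MY ≤ M0Y) (b9 : NY ≤ 4 ^ p * MY)
    (c1 : N ≤ tX' * κ ^ w') (c2 : 4 ^ m * r ^ w' * MY' < tY') (c3 : NY ≤ 4 ^ p * MY')
    (c4 : (tX' : ℝ) ≤ θ * N) (c5 : (tY' : ℝ) ≤ θ * NY) (c6 : 0 ≤ θ) (c7 : 2 * w' ≤ D.d)
    (hγ : 0 ≤ γ) (hp : 0 < p) (hq : ((2 * p : ℕ) : ℝ) ≤ γ ^ 2 * κ) (hε : 16 * γ ≤ 1)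
    (hε' : (1 + 16 * γ) ^ m ≤ 3 / 2) (hμ : 0 < μ) (hμX : μ * N ≤ MX) (hμY : μ * NY ≤ MY)
    (hd : 2 * (w0 + w) ≤ D.d) (hζ : 0 ≤ ζ)
    (hn : (((3 * s' + (S + 2)) * (8 ^ m * r ^ (m - (D.d - 2 * (w0 + w)))) : ℕ) : ℝ) ≤ ζ ^ 2 * N)
    (hnum : (S + 2) * ((16 ^ m * r ^ w : ℕ) * (2 ^ (m + 2) * (θ + (16 * γ) ^ (D.d - 2 * w'))) +
      2 ^ m * ζ) < μ ^ 2 / 8) :
    ¬ Sys D (gI F) (fun N => N = 0) w0 s s' := by
  classical
  subst hm
  have hr0 : 0 < r := by rw [← hr]; positivity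
  have : Nonempty F := Fintype.card_pos_iff.1 (by rwa [hF])
  have hκF : κ * κ = Fintype.card F := hr.trans hF.symm
  have hNc : Fintype.card (E → F) = N := by rw [Fintype.card_fun, hF, hN]
  have hNb : Fintype.card F ^ Fintype.card E = N := by rw [hF, hN]
  have hYc : Fintype.card (E → F → ZMod 2) = NY := by
    rw [Fintype.card_fun, Fintype.card_fun, ZMod.card, hF, hNY, pow_mul]
  have hN0 : 0 < N := by rw [hN]; positivity
  have hY0 : 0 < NY := by rw [hNY]; positivity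
  have hε0 : 0 ≤ 16 * γ := by positivity
  have env : ∀ (K : Finset E) (A : Finset (E → F)) (B0 : Finset (E → F → ZMod 2)),
      Dense' 2 κ K A → M0X ≤ A.card → M0Y ≤ B0.card →
      ∃ B ⊆ B0, Env (gI F) (16 * γ) μ w 0 (S + 2) K A B := by
    intro K A B0 hA hA0 hB0
    exact env_index (MX := MX) (tX := tX) (MY := MY) (tY := tY) (M' := M') (p := p) hκ hκF hA
      (by rwa [hNb]) b2 (b3.trans hA0) (b4.trans hA0) (by rw [hF]; exact b5.trans hB0) b6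
      (by rwa [hF]) (b8.trans hB0) hγ hp hq (by rwa [hYc]) (by rwa [hNc]) (by rwa [hYc])
  have hpos : Pos D (gI F) (2 ^ (Fintype.card E + 2) * (θ + (16 * γ) ^ (D.d - 2 * w'))) := by
    have e : (16 : ℝ) * γ = 4 * (4 : ℕ) * γ := by push_cast; ring
    have hc : Comb (gI F) (16 * γ) 0 ∅ (RPI 4 κ w' 0 (∅ : Finset E)) (CPI w' MY') :=
      e ▸ comb_index hκ (by omega) hγ hp hq (by rwa [hYc]) (by simp) (by simp) ∅
    exact pos_of_pieces (D := D) (θ := θ) (tX := tX') (tY := tY')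
      (pieces_row hκ hκF (by omega) (by rwa [hNb]) (by simp) _ _) (pieces_col (by rwa [hF]) _) hc
      (by omega) hε0 hε hε' c6 (by rwa [hNc]) (by rwa [hYc])
  have hη : 0 ≤ 2 ^ (Fintype.card E + 2) * (θ + (16 * γ) ^ (D.d - 2 * w')) := by positivity
  have hn12 : 8 ^ Fintype.card E * r ^ (Fintype.card E - (D.d - 2 * w0)) ≤
      8 ^ Fintype.card E * r ^ (Fintype.card E - (D.d - 2 * (w0 + w))) :=
    Nat.mul_le_mul_left _ (Nat.pow_le_pow_right hr0 (by omega))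
  refine dag (fun K A B => Env (gI F) (16 * γ) μ w 0 (S + 2) K A B) (fun N => N = 0)
    (n1 := 8 ^ Fintype.card E * r ^ (Fintype.card E - (D.d - 2 * w0)))
    (Nr := 16 ^ Fintype.card E * r ^ w0) (tX := t0X) (tY := t0Y)
    (pieces_row (lam := 2) (M := M0X) hκ hκF (by omega) (by rwa [hNb]) a2 ∅ _)
    (pieces_col (w := w0) (M := M0Y) (by rwa [hF]) _) (by omega) (by omega) (by rw [hF])
    (by rw [hF, pow_zero, mul_one]) ?_ ?_ ?_ ?_ ?_ (by rwa [hNc]) (by rwa [hYc])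
  · rintro x y I P J Q ⟨h1, -, h3, h4⟩ ⟨rfl, h5⟩
    rw [partR_empty, union_empty]
    rw [empty_union] at h3
    obtain ⟨B, hB, h⟩ := env I P _ h3 h4 (h5 x I h1)
    exact ⟨P, subset_rfl, B, hB, h⟩
  · intro EX EY hEX hEY
    rw [hNc] at hEX
    rw [hYc] at hEY
    have h1 : (univ \ EX).card + EX.card = N := by
      rw [card_sdiff_add_card_eq_card (subset_univ _), card_univ, hNc]
    have h1' : (univ \ EY).card + EY.card = NY := by
      rw [card_sdiff_add_card_eq_card (subset_univ _), card_univ, hYc]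
    have h2 : κ ≤ Fintype.card F := by
      rw [← hκF]
      exact Nat.le_mul_of_pos_right _ (by omega)
    have h3 : Dense' 2 κ (∅ : Finset E) (univ \ EX) :=
      ((dense_univ h2 (∅ : Finset E)).sub (μ := 2) subset_rfl (subset_univ _)
        (by rw [card_univ, hNc]; omega)).mono (by omega)
    obtain ⟨B, hB, h⟩ := env ∅ _ (univ \ EY) h3 (by omega) (by omega)
    exact ⟨_, B, disjoint_sdiff_self_left, disjoint_sdiff_self_left.mono_left hB, h⟩
  · intro K A B h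
    obtain ⟨-, h1, h2⟩ := h.1 A subset_rfl B subset_rfl (by omega) (by omega)
    rw [hNc] at h1
    rw [hYc] at h2
    have h3 : (0 : ℝ) < μ * N := by positivity
    have h4 : (0 : ℝ) < μ * NY := by positivity
    exact ⟨card_pos.1 (by exact_mod_cast h3.trans_le h1),
      card_pos.1 (by exact_mod_cast h4.trans_le h2)⟩
  · intro K A B δ h hK hc hcons A1 hA1 B1 hB1 e1 e2
    obtain ⟨h0, h1, h2⟩ := h.1 A1 hA1 B1 hB1 e1 e2
    refine no_low (ζ := ζ) gI_orth h0 h1 h2 (fun x hx y hy => hc x (hA1 hx) y (hB1 hy)) hcons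
      (by omega) hε0 hε' hμ hζ ?_ ?_
    · rw [hNc]
      refine le_trans (Nat.cast_le.2 (hn12.trans ?_)) hn
      exact Nat.le_mul_of_pos_left _ (by omega)
    · have h3 : (0 : ℝ) ≤ (16 ^ Fintype.card E * r ^ w : ℕ) *
          (2 ^ (Fintype.card E + 2) * (θ + (16 * γ) ^ (D.d - 2 * w'))) := by positivity
      have h4 : (0 : ℝ) ≤ 2 ^ Fintype.card E * ζ := by positivity
      have h5 : (0 : ℝ) ≤ (S : ℝ) := by positivity
      nlinarith [mul_nonneg h5 (add_nonneg h3 h4), sq_nonneg μ]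
  · rintro K A B δ h hK hc hcons M1 N1 c0 hM rfl hc0 hl
    refine core (k := w0 + w) (ζ := ζ) (n := 3 * s' * (8 ^ Fintype.card E *
      r ^ (Fintype.card E - (D.d - 2 * w0)))) gI_orth hpos h hc hcons
      (by omega) hd hε0 hε' hμ hη hζ (hM.mono subset_rfl subset_rfl hS) hc0 ?_ ?_
      (hl.congr fun x _ y _ => by simp)
    · rw [hNc, hF]
      refine le_trans (Nat.cast_le.2 ?_) hn
      rw [add_mul (3 * s')]
      exact Nat.add_le_add_right (Nat.mul_le_mul_left _ hn12) _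
    · rw [hF, pow_zero, mul_one]
      exact hnum

end Pool.Agent.Lib.MP_7836d5_lc.LP
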