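import Pool.Agent.Lib.MP_7836d5_lc.LP.Base

set_option autoImplicit false
set_option linter.unusedSectionVars false

/-! The rank trick. -/

namespace Pool.Agent.Lib.MP_7836d5_lc.LP

open Finset

variable {E FX FY : Type} [Fintype E] [DecidableEq E] [Fintype FX] [DecidableEq FX]
  [Fintype FY] [DecidableEq FY]

/-- after multiplication with the full character and the pseudo-density, `M` has rank at most `n`
on `A × B` -/
def Low (D : PD E) (g : FX → FY → ZMod 2) (A : Finset (E → FX)) (B : Finset (E → FY)) (n : ℕ)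
    (M : (E → FX) → (E → FY) → ℝ) : Prop :=
  ∃ V : Submodule ℝ ((E → FY) → ℝ), Module.finrank ℝ V ≤ n ∧ ∀ x ∈ A, ∃ v ∈ V, ∀ y ∈ B,
    v y = ch (∑ e, zf g x y e) * D.rho (zf g x y) * M x y

variable {D : PD E} {g : FX → FY → ZMod 2} {A A' : Finset (E → FX)} {B B' : Finset (E → FY)}
  {n n' : ℕ} {M M' : (E → FX) → (E → FY) → ℝ}

lemma Low.mono (h : Low D g A B n M) (hA : A' ⊆ A) (hB : B' ⊆ B) (hn : n ≤ n') :
    Low D g A' B' n' M := by
  obtain ⟨V, hV, h⟩ := h
  refine ⟨V, hV.trans hn, fun x hx => ?_⟩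
  obtain ⟨v, hv, e⟩ := h x (hA hx)
  exact ⟨v, hv, fun y hy => e y (hB hy)⟩

lemma Low.congr (h : Low D g A B n M) (hM : ∀ x ∈ A, ∀ y ∈ B, M' x y = M x y) :
    Low D g A B n M' := by
  obtain ⟨V, hV, h⟩ := h
  refine ⟨V, hV, fun x hx => ?_⟩
  obtain ⟨v, hv, e⟩ := h x hx
  exact ⟨v, hv, fun y hy => by rw [e y hy, hM x hx y hy]⟩

lemma low_zero : Low D g A B 0 fun _ _ => 0 := by
  exact ⟨⊥, by simp, fun x _ => ⟨0, Submodule.zero_mem _, fun y _ => by simp⟩⟩

/-- `V ⊔ V'`, `Submodule.finrank_add_le_finrank_add_finrank` -/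
lemma Low.add (h : Low D g A B n M) (h' : Low D g A B n' M') :
    Low D g A B (n + n') fun x y => M x y + M' x y := by
  obtain ⟨V, hV, h⟩ := h
  obtain ⟨V', hV', h'⟩ := h'
  refine ⟨V ⊔ V', (Submodule.finrank_add_le_finrank_add_finrank V V').trans (add_le_add hV hV'),
    fun x hx => ?_⟩
  obtain ⟨v, hv, e⟩ := h x hx
  obtain ⟨v', hv', e'⟩ := h' x hx
  exact ⟨v + v', Submodule.add_mem_sup hv hv', fun y hy => by
    rw [Pi.add_apply, e y hy, e' y hy, mul_add]⟩

/-- map `V` by the multiplication with `q` (`Submodule.finrank_map_le`), scale `v` by `p x` -/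
lemma Low.mul (h : Low D g A B n M) (p : (E → FX) → ℝ) (q : (E → FY) → ℝ) :
    Low D g A B n fun x y => p x * q y * M x y := by
  obtain ⟨V, hV, h⟩ := h
  refine ⟨V.map (LinearMap.mulLeft ℝ q), (Submodule.finrank_map_le _ _).trans hV, fun x hx => ?_⟩
  obtain ⟨v, hv, e⟩ := h x hx
  refine ⟨p x • (q * v), Submodule.smul_mem _ _ ⟨v, hv, rfl⟩, fun y hy => ?_⟩
  rw [Pi.smul_apply, Pi.mul_apply, e y hy, smul_eq_mul]
  ring

lemma low_sum {ι : Type} (s : Finset ι) (N : ι → (E → FX) → (E → FY) → ℝ)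
    (h : ∀ i ∈ s, Low D g A B n (N i)) :
    Low D g A B (s.card * n) fun x y => ∑ i ∈ s, N i x y := by
  classical
  induction s using Finset.induction_on with
  | empty => simpa using low_zero
  | insert i s hi ih =>
    simp only [sum_insert hi, card_insert_of_notMem hi]
    exact ((h i (mem_insert_self _ _)).add (ih fun j hj => h j (mem_insert_of_mem hj))).mono
      subset_rfl subset_rfl (by rw [add_mul, one_mul, add_comm])

end Pool.Agent.Lib.MP_7836d5_lc.LP
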