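import Pool.Agent.Lib.MP_7836d5_lc.LP.Cells

set_option autoImplicit false
set_option linter.unusedSectionVars false

/-! Squares of rank two matrices, and their decomposition into cells. -/

namespace Pool.Agent.Lib.MP_7836d5_lc.LP

open Finset

variable {X Y : Type} [DecidableEq X] [DecidableEq Y]

/-- a sum of at most `s` squares of rank two matrices -/
def SQ (s : ℕ) (N : X → Y → ℝ) : Prop :=
  ∃ (T : Type) (_ : Fintype T) (f1 f2 : T → X → ℝ) (h1 h2 : T → Y → ℝ), Fintype.card T ≤ s ∧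
    ∀ x y, N x y = ∑ τ, (f1 τ x * h1 τ y + f2 τ x * h2 τ y) ^ 2

open Classical in
/-- `n` disjoint rectangles in `A × B` on which `V` has nonnegative rank at most `k`, leaving at
most `u` rows uncovered in each column -/
def Cells (V : X → Y → ℝ) (k : ℕ) (A : Finset X) (B : Finset Y) (n u : ℕ) : Prop :=
  ∃ (T : Type) (_ : Fintype T) (a : T → Finset X) (b : T → Finset Y), Fintype.card T ≤ n ∧
    (∀ i, a i ⊆ A ∧ b i ⊆ B ∧ NR (a i) (b i) k V) ∧
    (∀ x y i j, x ∈ a i → y ∈ b i → x ∈ a j → y ∈ b j → i = j) ∧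
    ∀ y ∈ B, (A.filter fun x => ¬ ∃ i, x ∈ a i ∧ y ∈ b i).card ≤ u

structure Term (V : X → Y → ℝ) : Prop where
  pos : ∀ x y, 0 < V x y
  rk : ∃ (f : Fin 4 → X → ℝ) (h : Fin 4 → Y → ℝ), ∀ x y, V x y = ∑ i, f i x * h i y
  cell : ∀ (A : Finset X) (B : Finset Y) (J : ℕ), 0 < J → Cells V 4 A B (2 * J + 1) (2 * (A.card / J))

/-- one cell -/
lemma term_lp (p : X → ℝ) (q : Y → ℝ) (hp : ∀ x, 0 ≤ p x) (hq : ∀ y, 0 ≤ q y) {c : ℝ} (hc : 0 < c) :
    Term fun x y => p x * q y + c := by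
  refine ⟨fun x y => add_pos_of_nonneg_of_pos (mul_nonneg (hp x) (hq y)) hc,
    ⟨![p, fun _ => c, 0, 0], ![q, fun _ => 1, 0, 0], fun x y => by simp [Fin.sum_univ_four]⟩,
    fun A B J _ => ⟨Unit, inferInstance, fun _ => A, fun _ => B, by simp, fun _ => ⟨subset_rfl,
      subset_rfl, ?_⟩, fun _ _ _ _ _ _ _ _ => rfl, fun y hy => ?_⟩⟩
  · refine (((nr_one p q (fun x _ => hp x) fun y _ => hq y).add
      (nr_one (fun _ => c) (fun _ => 1) (fun _ _ => hc.le) fun _ _ => zero_le_one)).mono subset_rfl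
      subset_rfl (by norm_num)).congr fun x _ y _ => by simp
  · rw [Finset.filter_false_of_mem fun x hx h => h ⟨(), hx, hy⟩]
    simp

/-- `cells_aux` on the rows with `f2 x ≠ 0` (`p = f2`, `a = f1 / f2`, `g = A.card / J`), and one
more cell for the rows with `f2 x = 0` -/
lemma term_sq (f1 f2 : X → ℝ) (h1 h2 : Y → ℝ) {c : ℝ} (hc : 0 < c) :
    Term fun x y => (f1 x * h1 y + f2 x * h2 y) ^ 2 + c := by
  classical
  refine ⟨fun x y => add_pos_of_nonneg_of_pos (sq_nonneg _) hc,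
    ⟨![fun x => f1 x ^ 2, fun x => 2 * f1 x * f2 x, fun x => f2 x ^ 2, fun _ => c],
      ![fun y => h1 y ^ 2, fun y => h1 y * h2 y, fun y => h2 y ^ 2, fun _ => 1], fun x y => by
        simp only [Fin.sum_univ_four, Matrix.cons_val_zero, Matrix.cons_val_one, Matrix.cons_val]
        ring⟩, fun A B J hJ => ?_⟩
  have hA : (A.filter fun x => f2 x ≠ 0).card ≤ J * (A.card / J + 1) :=
    (Finset.card_filter_le _ _).trans (Nat.lt_mul_div_succ _ hJ).le
  obtain ⟨T, _, r, b, hT, hr, hd, hu⟩ := cells_aux f2 (fun x => f1 x / f2 x) h1 h2 B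
    (A.card / J) J _ hA
  have hc1 : ∀ (A' : Finset X) (B' : Finset Y), NR A' B' 1 fun _ _ => c * 1 := fun A' B' =>
    nr_one (fun _ => c) (fun _ => 1) (fun _ _ => hc.le) fun _ _ => zero_le_one
  refine ⟨Option T, inferInstance, fun o => o.elim (A.filter fun x => f2 x = 0) r,
    fun o => o.elim B b, ?_, ?_, ?_, fun y hy => ?_⟩
  · rw [Fintype.card_option]
    omega
  · rintro (_ | i)
    · refine ⟨Finset.filter_subset _ _, subset_rfl, ?_⟩
      refine (((nr_one (fun x => f1 x ^ 2) (fun y => h1 y ^ 2) (fun _ _ => sq_nonneg _)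
        fun _ _ => sq_nonneg _).add (hc1 _ _)).mono subset_rfl subset_rfl (by norm_num)).congr
        fun x hx y _ => ?_
      have h0 : f2 x = 0 := (Finset.mem_filter.1 hx).2
      rw [h0]
      ring
    · refine ⟨(hr i).1.trans (Finset.filter_subset _ _), (hr i).2.1, ?_⟩
      refine ((hr i).2.2.add (hc1 _ _)).congr fun x hx y _ => ?_
      have h0 : f2 x ≠ 0 := (Finset.mem_filter.1 ((hr i).1 hx)).2
      have e : f2 x * (f1 x / f2 x * h1 y + h2 y) = f1 x * h1 y + f2 x * h2 y := by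
        field_simp
      rw [e, mul_one]
  · rintro x y (_ | i) (_ | j) hi hi' hj hj'
    · rfl
    · exact absurd (Finset.mem_filter.1 hi).2 (Finset.mem_filter.1 ((hr j).1 hj)).2
    · exact absurd (Finset.mem_filter.1 hj).2 (Finset.mem_filter.1 ((hr i).1 hi)).2
    · exact congrArg some (hd x y i j hi hi' hj hj')
  · refine le_trans (Finset.card_le_card fun x hx => ?_) (hu y hy).1
    obtain ⟨hxA, hx⟩ := Finset.mem_filter.1 hx
    refine Finset.mem_filter.2 ⟨Finset.mem_filter.2 ⟨hxA, fun h0 => hx ⟨none, ?_, hy⟩⟩, ?_⟩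
    · exact Finset.mem_filter.2 ⟨hxA, h0⟩
    · rintro ⟨i, hi⟩
      exact hx ⟨some i, hi⟩

/-- share `c` equally among the terms and one extra constant term; index type `Option (T ⊕ T')` -/
lemma exists_terms {A : Finset X} {B : Finset Y} {S s : ℕ} {M N : X → Y → ℝ} {c : ℝ}
    (hM : NR A B S M) (hN : SQ s N) (hc : 0 < c) :
    ∃ (T : Type) (_ : Fintype T) (_ : Nonempty T) (V : T → X → Y → ℝ), Fintype.card T ≤ S + s + 1 ∧
      (∀ τ, Term (V τ)) ∧ ∀ x ∈ A, ∀ y ∈ B, M x y + N x y + c = ∑ τ, V τ x y := by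
  obtain ⟨T, _, a, b, hT, ha, hb, hM⟩ := hM
  obtain ⟨T', _, f1, f2, h1, h2, hT', hN⟩ := hN
  set n : ℝ := (Fintype.card T : ℝ) + Fintype.card T' + 1 with hn
  have hn0 : 0 < n := by positivity
  have hcn : 0 < c / n := div_pos hc hn0
  refine ⟨Option (T ⊕ T'), inferInstance, ⟨none⟩, fun o => o.elim (fun _ _ => 0 * 0 + c / n)
    (Sum.elim (fun i x y => a i x * b i y + c / n)
      fun τ x y => (f1 τ x * h1 τ y + f2 τ x * h2 τ y) ^ 2 + c / n), ?_, ?_, fun x hx y hy => ?_⟩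
  · rw [Fintype.card_option, Fintype.card_sum]
    omega
  · rintro (_ | i | τ)
    · exact term_lp (fun _ => 0) (fun _ => 0) (fun _ => le_rfl) (fun _ => le_rfl) hcn
    · exact term_lp _ _ (ha i) (hb i) hcn
    · exact term_sq _ _ _ _ hcn
  · rw [Fintype.sum_option, Fintype.sum_sum_type, hM x hx y hy, hN x y]
    simp only [Option.elim, Sum.elim_inl, Sum.elim_inr, Finset.sum_add_distrib, Finset.sum_const,
      Finset.card_univ, nsmul_eq_mul]
    have e : c = n * (c / n) := by field_simp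
    rw [hn] at e
    linarith

end Pool.Agent.Lib.MP_7836d5_lc.LP
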