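import Pool.Agent.Lib.MP_7836d5_lc.LP.Defs2
import Pool.Agent.Lib.MP_7836d5_lc.LP.Sys
import Pool.Agent.Lib.MP_7836d5_lc.LP.Term

set_option autoImplicit false
set_option linter.unusedSectionVars false

/-! From refutations to systems of separated inequalities. -/

namespace Pool.Agent.Lib.MP_7836d5_lc.LP

open Finset

variable {E FX FY : Type} [Fintype E] [DecidableEq E] [Fintype FX] [DecidableEq FX]
  [Fintype FY] [DecidableEq FY]

lemma Ref_lin {V X Y : Type} [Fintype V] (asg : X → Y → V → Bool) (x0 : X) (y0 : Y)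
    (hsplit : ∀ v, (∀ x y, asg x y v = asg x y0 v) ∨ ∀ x y, asg x y v = asg x0 y v) :
    ∃ (a : (V → ℝ) × ℝ → X → ℝ) (c : (V → ℝ) × ℝ → Y → ℝ),
      ∀ L x y, lin L (asg x y) = a L x + c L y := by
  classical
  let Al : V → Prop := fun v => ∀ x y, asg x y v = asg x y0 v
  refine ⟨fun L x => (∑ v, if Al v then (if asg x y0 v = true then L.1 v else 0) else 0) - L.2,
    fun L y => ∑ v, if Al v then 0 else (if asg x0 y v = true then L.1 v else 0),
    fun L x y => ?_⟩
  rw [lin, sub_add_eq_add_sub, ← sum_add_distrib]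
  congr 1
  refine sum_congr rfl fun v _ => ?_
  by_cases hA : Al v
  · rw [if_pos hA, if_pos hA, add_zero, hA x y]
  · rw [if_neg hA, if_neg hA, zero_add, (hsplit v).resolve_left hA x y]

lemma Ref_mon {V X Y : Type} (asg : X → Y → V → Bool) (x0 : X) (y0 : Y)
    (hsplit : ∀ v, (∀ x y, asg x y v = asg x y0 v) ∨ ∀ x y, asg x y v = asg x0 y v) :
    ∃ (p : Clause V → X → ℝ) (q : Clause V → Y → ℝ), (∀ M x, 0 ≤ p M x) ∧ (∀ M y, 0 ≤ q M y) ∧
      (∀ M x, p M x ^ 2 = p M x) ∧ (∀ M y, q M y ^ 2 = q M y) ∧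
      ∀ M x y, mon M (asg x y) = p M x * q M y := by
  classical
  let Al : V → Prop := fun v => ∀ x y, asg x y v = asg x y0 v
  refine ⟨fun M x => ∏ l ∈ M, if Al l.1 then (if asg x y0 l.1 = l.2 then 1 else 0) else 1,
    fun M y => ∏ l ∈ M, if Al l.1 then 1 else (if asg x0 y l.1 = l.2 then 1 else 0),
    fun M x => prod_nonneg fun l _ => ?_, fun M y => prod_nonneg fun l _ => ?_,
    fun M x => ?_, fun M y => ?_, fun M x y => ?_⟩
  · split_ifs <;> norm_num
  · split_ifs <;> norm_num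
  · rw [← prod_pow]
    refine prod_congr rfl fun l _ => ?_
    split_ifs <;> norm_num
  · rw [← prod_pow]
    refine prod_congr rfl fun l _ => ?_
    split_ifs <;> norm_num
  · rw [mon, ← prod_mul_distrib]
    refine prod_congr rfl fun l _ => ?_
    by_cases hA : Al l.1
    · rw [if_pos hA, if_pos hA, mul_one, hA x y]
    · rw [if_neg hA, if_neg hA, one_mul, (hsplit l.1).resolve_left hA x y]

/-- As `cp_bound` in `Graph.lean`: every affine form splits as `lin L (asg x y) = a L x + c L y`,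
every monomial as `mon M (asg x y) = p M x * q M y` with `p`, `q` in `{0, 1}` (products over the
literals on the variables of the first and of the second kind). Use `T = Fin s`, the matrix `M = 0`
(`nr_zero`), and `N = ∑ τ, (p a * q + p * (q c)) ^ 2`. If `c τ = 0` take `K = ∅`. -/
theorem sys_of_ref {V : Type} [Fintype V] {D : PD E} {g : FX → FY → ZMod 2} {F : Set (Clause V)}
    {k s : ℕ} (asg : (E → FX) → (E → FY) → V → Bool) (x0 : E → FX) (y0 : E → FY)
    (hsplit : ∀ v, (∀ x y, asg x y v = asg x y0 v) ∨ ∀ x y, asg x y v = asg x0 y v)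
    (hF : ∀ C ∈ F, ∃ K : Finset E, K.card ≤ k ∧
      ∀ x y, D.Cons K (zf g x y) → ClauseSat C (asg x y))
    (h : LSRef F s) : Sys D g (SQ s) k s s := by
  classical
  obtain ⟨π, ⟨i0, hi0⟩, hπ⟩ := h
  obtain ⟨a, c, hac⟩ := Ref_lin asg x0 y0 hsplit
  obtain ⟨p, q, hp, hq, hp2, hq2, hpq⟩ := Ref_mon asg x0 y0 hsplit
  let π' : ℕ → (V → ℝ) × ℝ := fun i => if h : i < s then π ⟨i, h⟩ else 0
  have hπ' : ∀ i : Fin s, π' i = π i := fun i => dif_pos i.2
  refine ⟨fun i => a (π' i), fun i => c (π' i), ⟨i0, i0.2, fun x y => ?_⟩, fun i hi => ?_⟩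
  · show a (π' i0) x + c (π' i0) y < 0
    rw [← hac, hπ']
    exact hi0 _
  · have e : π' i = π ⟨i, hi⟩ := hπ' ⟨i, hi⟩
    rcases hπ ⟨i, hi⟩ with ⟨C, hC, h⟩ | ⟨j, hj, l, hl, h⟩ | ⟨a', c', j, M, M', M'', Q, h1, h2, h3⟩
    · obtain ⟨K, hK, hK'⟩ := hF C hC
      refine Or.inl ⟨K, hK, fun x y hneg hcons => ?_⟩
      have h4 := h _ (hK' x y hcons)
      rw [hac, ← e] at h4
      exact absurd hneg (not_lt.2 h4)
    · refine Or.inr (Or.inl ⟨j, hj, l, hl, fun x y hneg => ?_⟩)
      show a (π' j) x + c (π' j) y < 0 ∨ a (π' l) x + c (π' l) y < 0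
      rw [← hac, ← hac, hπ', hπ']
      by_contra hcon
      rw [not_or, not_lt, not_lt] at hcon
      have h4 := h _ hcon.1 hcon.2
      rw [hac, ← e] at h4
      exact absurd hneg (not_lt.2 h4)
    · refine Or.inr (Or.inr ⟨Fin s, inferInstance, fun τ x => a' τ * p (M τ) x,
        fun τ x => c' τ * p (M'' τ) x, fun τ y => q (M τ) y, fun τ y => q (M'' τ) y,
        fun τ => (j τ : ℕ), fun _ _ => 0,
        fun x y => ∑ τ, (p (M' τ) x * a (Q τ) x * q (M' τ) y +
          p (M' τ) x * (q (M' τ) y * c (Q τ) y)) ^ 2, (Fintype.card_fin s).le, fun τ x => ?_,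
        fun τ y => hq _ _, fun τ => ?_, nr_zero.mono subset_rfl subset_rfl (Nat.zero_le _),
        ⟨Fin s, inferInstance, fun τ x => p (M' τ) x * a (Q τ) x, fun τ x => p (M' τ) x,
          fun τ y => q (M' τ) y, fun τ y => q (M' τ) y * c (Q τ) y, (Fintype.card_fin s).le,
          fun x y => rfl⟩, fun τ => ?_, fun x y => ?_⟩)
      · refine mul_nonneg ?_ (hp _ _)
        rcases h1 τ with h | h
        · exact h.ge
        · exact h.1.le
      · rcases h1 τ with h | h
        · exact Or.inr fun x y => by simp only [h, zero_mul]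
        · exact Or.inl h.2
      · rcases h2 τ with h | ⟨C, hC, h⟩
        · exact ⟨∅, Nat.zero_le _, fun x y hne => absurd (by simp only [h, zero_mul]) hne⟩
        · obtain ⟨K, hK, hK'⟩ := hF C hC
          refine ⟨K, hK, fun x y hne hcons => hne ?_⟩
          have h4 := h _ (hK' x y hcons)
          rw [hpq] at h4
          show c' τ * p (M'' τ) x * q (M'' τ) y = 0
          rw [mul_assoc, h4, mul_zero]
      · show a (π' i) x + c (π' i) y = ∑ τ, a' τ * p (M τ) x * q (M τ) y *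
            (a (π' (j τ)) x + c (π' (j τ)) y) + 0 + ∑ τ, (p (M' τ) x * a (Q τ) x * q (M' τ) y +
            p (M' τ) x * (q (M' τ) y * c (Q τ) y)) ^ 2 + ∑ τ, c' τ * p (M'' τ) x * q (M'' τ) y
        rw [← hac, e, h3, add_zero, ← sum_add_distrib, ← sum_add_distrib]
        refine sum_congr rfl fun τ _ => ?_
        rw [hπ', hpq, hpq, hpq, hac, hac]
        have h5 : (p (M' τ) x * a (Q τ) x * q (M' τ) y + p (M' τ) x * (q (M' τ) y * c (Q τ) y)) ^ 2
            = p (M' τ) x ^ 2 * q (M' τ) y ^ 2 * (a (Q τ) x + c (Q τ) y) ^ 2 := by ring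
        rw [h5, hp2, hq2]
        ring

end Pool.Agent.Lib.MP_7836d5_lc.LP
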