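import Pool.Agent.Lib.MP_7836d5_lc.LP.DagLP
import Pool.Agent.Lib.MP_7836d5_lc.LP.Term

set_option autoImplicit false
set_option linter.unusedSectionVars false

/-! Systems of separated inequalities with products of earlier lines. -/

namespace Pool.Agent.Lib.MP_7836d5_lc.LP

open Finset

section

variable {X Y : Type} [DecidableEq X] [DecidableEq Y] {A : Finset X} {B : Finset Y}

/-- the product of the lines in `l` -/
def pl (a : ℕ → X → ℝ) (c : ℕ → Y → ℝ) (l : List ℕ) (x : X) (y : Y) : ℝ :=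
  (l.map fun j => a j x + c j y).prod

lemma NR.had {S S' : ℕ} {M M' : X → Y → ℝ} (h : NR A B S M) (h' : NR A B S' M') :
    NR A B (S * S') fun x y => M x y * M' x y := by
  obtain ⟨T, _, a, b, h1, h2, h3, h4⟩ := h
  obtain ⟨T', _, a', b', h1', h2', h3', h4'⟩ := h'
  refine ⟨T × T', inferInstance, fun i x => a i.1 x * a' i.2 x, fun i y => b i.1 y * b' i.2 y,
    ?_, fun i x => mul_nonneg (h2 _ _) (h2' _ _), fun i y => mul_nonneg (h3 _ _) (h3' _ _),
    fun x hx y hy => ?_⟩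
  · rw [Fintype.card_prod]
    exact Nat.mul_le_mul h1 h1'
  · change M x y * M' x y = _
    rw [h4 x hx y hy, h4' x hx y hy, sum_mul_sum, Fintype.sum_prod_type]
    exact sum_congr rfl fun i _ => sum_congr rfl fun j _ => by ring

lemma nr_cell (a : ℕ → X → ℝ) (c : ℕ → Y → ℝ) (u : Finset X) (v : Finset Y) (l : List ℕ)
    (h : ∀ j ∈ l, ∀ x ∈ A, x ∈ u → ∀ y ∈ B, y ∈ v → 0 ≤ a j x + c j y) :
    NR A B (2 ^ l.length) fun x y => if x ∈ u ∧ y ∈ v then pl a c l x y else 0 := by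
  induction l with
  | nil =>
    refine (nr_one (fun x => if x ∈ u then 1 else 0) (fun y => if y ∈ v then 1 else 0)
      (fun x _ => by split_ifs <;> norm_num) fun y _ => by split_ifs <;> norm_num).congr
      fun x _ y _ => ?_
    by_cases hx : x ∈ u <;> by_cases hy : y ∈ v <;> simp [pl, hx, hy]
  | cons j l ih =>
    refine (((nr_tri (a j) (c j) (h j List.mem_cons_self)).had
      (ih fun i hi => h i (List.mem_cons_of_mem _ hi))).mono subset_rfl subset_rfl
      (by rw [List.length_cons, pow_succ'])).congr fun x _ y _ => ?_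
    split_ifs <;> simp [pl]

lemma SQ.mono {s s' : ℕ} {N : X → Y → ℝ} (h : SQ s N) (hs : s ≤ s') : SQ s' N := by
  obtain ⟨T, _, f1, f2, h1, h2, hT, h⟩ := h
  exact ⟨T, _, f1, f2, h1, h2, hT.trans hs, h⟩

lemma sq_of_nr {S : ℕ} {M : X → Y → ℝ} (h : NR A B S M) (f1 f2 : X → ℝ) (h1 h2 : Y → ℝ) :
    ∃ N, SQ S N ∧ ∀ x ∈ A, ∀ y ∈ B, N x y = M x y * (f1 x * h1 y + f2 x * h2 y) ^ 2 := by
  obtain ⟨T, _, a, b, k1, k2, k3, k4⟩ := h
  refine ⟨_, ⟨T, _, fun i x => √(a i x) * f1 x, fun i x => √(a i x) * f2 x,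
    fun i y => √(b i y) * h1 y, fun i y => √(b i y) * h2 y, k1, fun _ _ => rfl⟩,
    fun x hx y hy => ?_⟩
  rw [k4 x hx y hy, sum_mul]
  refine sum_congr rfl fun i _ => ?_
  have e1 := Real.sq_sqrt (k2 i x)
  have e2 := Real.sq_sqrt (k3 i y)
  calc _ = √(a i x) ^ 2 * √(b i y) ^ 2 * (f1 x * h1 y + f2 x * h2 y) ^ 2 := by ring
    _ = _ := by rw [e1, e2]

lemma sq_sum {T : Type} [Fintype T] {S : ℕ} (N : T → X → Y → ℝ) (h : ∀ τ, SQ S (N τ)) :
    SQ (Fintype.card T * S) fun x y => ∑ τ, N τ x y := by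
  choose U iU f1 f2 h1 h2 hU hN using h
  refine ⟨Σ τ, U τ, inferInstance, fun i => f1 i.1 i.2, fun i => f2 i.1 i.2, fun i => h1 i.1 i.2,
    fun i => h2 i.1 i.2, ?_, fun x y => ?_⟩
  · rw [Fintype.card_sigma]
    exact (sum_le_card_nsmul _ _ S fun τ _ => hU τ).trans_eq (by simp)
  · rw [Fintype.sum_sigma]
    exact sum_congr rfl fun τ _ => hN τ x y

end

variable {E FX FY : Type} [Fintype E] [DecidableEq E] [Fintype FX] [DecidableEq FX]
  [Fintype FY] [DecidableEq FY]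

/-- the three ways to obtain the line `i` -/
def Rule2 (D : PD E) (g : FX → FY → ZMod 2) (k t s' : ℕ)
    (a : ℕ → (E → FX) → ℝ) (c : ℕ → (E → FY) → ℝ) (i : ℕ) : Prop :=
  (∃ K : Finset E, K.card ≤ k ∧ ∀ x y, a i x + c i y < 0 → ¬ D.Cons K (zf g x y)) ∨
  (∃ l : List ℕ, l.length ≤ t ∧ (∀ j ∈ l, j < i) ∧
    ∀ x y, a i x + c i y < 0 → ∃ j ∈ l, a j x + c j y < 0) ∨
  ∃ (T : Type) (_ : Fintype T) (p' f1 f2 : T → (E → FX) → ℝ) (q' h1 h2 : T → (E → FY) → ℝ)
    (j : T → List ℕ), Fintype.card T ≤ s' ∧ (∀ τ, (j τ).length ≤ t ∧ ∀ l ∈ j τ, l < i) ∧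
    (∀ τ, ∃ K : Finset E, K.card ≤ k ∧ ∀ x y, p' τ x * q' τ y ≠ 0 → ¬ D.Cons K (zf g x y)) ∧
    ∀ x y, a i x + c i y = ∑ τ, (pl a c (j τ) x y * (f1 τ x * h1 τ y + f2 τ x * h2 τ y) ^ 2 +
      p' τ x * q' τ y)

def Sys2 (D : PD E) (g : FX → FY → ZMod 2) (k t s s' : ℕ) : Prop :=
  ∃ (a : ℕ → (E → FX) → ℝ) (c : ℕ → (E → FY) → ℝ), (∃ i < s, ∀ x y, a i x + c i y < 0) ∧
    ∀ i < s, Rule2 D g k t s' a c i

variable {D : PD E} {g : FX → FY → ZMod 2} {A : Finset (E → FX)} {B : Finset (E → FY)}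

lemma Sys2.mono {k k' t s s1 : ℕ} (h : Sys2 D g k t s s1) (hk : k ≤ k') : Sys2 D g k' t s s1 := by
  obtain ⟨a, c, hr, hrule⟩ := h
  refine ⟨a, c, hr, fun i hi => ?_⟩
  rcases hrule i hi with ⟨K, hK, h1⟩ | h2 | ⟨T, iT, p', f1, f2, q', h1, h2, j, hT, hj, hax, heq⟩
  · exact Or.inl ⟨K, hK.trans hk, h1⟩
  · exact Or.inr (Or.inl h2)
  · refine Or.inr (Or.inr ⟨T, iT, p', f1, f2, q', h1, h2, j, hT, hj, fun τ => ?_, heq⟩)
    obtain ⟨K, hK, h1⟩ := hax τ
    exact ⟨K, hK.trans hk, h1⟩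

lemma Low.two {n : ℕ} {M : (E → FX) → (E → FY) → ℝ} (h : Low D g A B n M)
    (f1 f2 : (E → FX) → ℝ) (h1 h2 : (E → FY) → ℝ) :
    Low D g A B (2 * n) fun x y => (f1 x * h1 y + f2 x * h2 y) * M x y :=
  (((h.mul f1 h1).add (h.mul f2 h2)).mono subset_rfl subset_rfl (two_mul n).ge).congr
    fun x _ y _ => by ring

lemma Low.pl {n : ℕ} {M : (E → FX) → (E → FY) → ℝ} (h : Low D g A B n M)
    (a : ℕ → (E → FX) → ℝ) (c : ℕ → (E → FY) → ℝ) (l : List ℕ) :
    Low D g A B (2 ^ l.length * n) fun x y => pl a c l x y * M x y := by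
  induction l with
  | nil => exact (h.mono subset_rfl subset_rfl (by simp)).congr fun x _ y _ => by simp [LP.pl]
  | cons j l ih =>
    refine ((ih.two (a j) (fun _ => 1) (fun _ => 1) (c j)).mono subset_rfl subset_rfl
      (by rw [List.length_cons, pow_succ', mul_assoc])).congr fun x _ y _ => ?_
    simp only [LP.pl, List.map_cons, List.prod_cons]
    ring

lemma nr_cons2 [Nonempty FX] [Nonempty FY] {wX wY Nr : ℕ}
    (hNr : 16 ^ Fintype.card E * Fintype.card FX ^ wX * Fintype.card FY ^ wY ≤ Nr)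
    (a : ℕ → (E → FX) → ℝ) (c : ℕ → (E → FY) → ℝ) (l : List ℕ)
    (I : (E → FX) → Finset E) (J : (E → FY) → Finset E) (hI : ∀ x, (I x).card ≤ wX)
    (hJ : ∀ y, (J y).card ≤ wY)
    (ih : ∀ j ∈ l, ∀ x ∈ A, ∀ y ∈ B, a j x + c j y < 0 → ¬ D.Cons (I x ∪ J y) (zf g x y)) :
    NR A B (Nr * 2 ^ l.length)
      fun x y => if D.Cons (I x ∪ J y) (zf g x y) then pl a c l x y else 0 := by
  classical
  obtain ⟨T, iT, u, v, hT, hex, hc⟩ := exists_part g I J hI hJ
  let good : T → Prop := fun r => ∀ x ∈ u r, ∀ y ∈ v r, D.Cons (I x ∪ J y) (zf g x y)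
  let u' : T → Finset (E → FX) := fun r => if good r then u r else ∅
  have h1 : ∀ r ∈ (univ : Finset T), NR A B (2 ^ l.length)
      fun x y => if x ∈ u' r ∧ y ∈ v r then pl a c l x y else 0 := by
    intro r _
    refine nr_cell a c _ _ l fun j hj x hx hx' y hy hy' => ?_
    by_cases hg : good r
    · simp only [u', if_pos hg] at hx'
      by_contra hcon
      exact ih j hj x hx y hy (not_le.mp hcon) (hg x hx' y hy')
    · simp only [u', if_neg hg] at hx'
      exact absurd hx' (notMem_empty x)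
  refine ((nr_sum univ _ h1).mono subset_rfl subset_rfl ?_).congr fun x _ y _ => ?_
  · rw [card_univ]
    exact Nat.mul_le_mul_right _ (hT.trans hNr)
  · obtain ⟨r, hr, hu⟩ := hex x y
    rw [sum_eq_single r]
    · by_cases hg : good r
      · rw [if_pos (hg x hr.1 y hr.2), if_pos]
        exact ⟨by simp only [u', if_pos hg]; exact hr.1, hr.2⟩
      · rw [if_neg, if_neg]
        · simp only [u', if_neg hg]
          exact fun h => absurd h.1 (notMem_empty x)
        · intro hcons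
          refine hg fun x' hx' y' hy' => ?_
          obtain ⟨e1, e2, e3⟩ := hc r x hr.1 x' hx' y hr.2 y' hy'
          rw [e1, e2]
          exact (PD.cons_congr e3).mpr hcons
    · intro r' _ hne
      rw [if_neg]
      intro h
      refine hne (hu r' ⟨?_, h.2⟩)
      have h3 := h.1
      by_cases hg : good r'
      · simpa only [u', if_pos hg] using h3
      · simp only [u', if_neg hg] at h3
        exact absurd h3 (notMem_empty x)
    · intro h
      exact absurd (mem_univ r) h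

/-- The third rule. -/
lemma step2 [Nonempty FX] [Nonempty FY] {wX wY k t s' n1 Nr i : ℕ} (hk : t * wX + t * wY ≤ k)
    (hd : 2 * k ≤ D.d)
    (hn1 : 8 ^ Fintype.card E * Fintype.card FX ^ (Fintype.card E - (D.d - 2 * k)) ≤ n1)
    (hNr : 16 ^ Fintype.card E * Fintype.card FX ^ (t * wX) * Fintype.card FY ^ (t * wY) ≤ Nr)
    {a : ℕ → (E → FX) → ℝ} {c : ℕ → (E → FY) → ℝ}
    (hA : A.Nonempty) (hB : B.Nonempty) (hneg : ∀ x ∈ A, ∀ y ∈ B, a i x + c i y < 0)
    (I : ℕ → (E → FX) → Finset E) (J : ℕ → (E → FY) → Finset E) (hI : ∀ j x, (I j x).card ≤ wX)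
    (hJ : ∀ j y, (J j y).card ≤ wY)
    (ih : ∀ j < i, ∀ x ∈ A, ∀ y ∈ B, a j x + c j y < 0 → ¬ D.Cons (I j x ∪ J j y) (zf g x y))
    {T : Type} [Fintype T] (p' f1 f2 : T → (E → FX) → ℝ) (q' h1 h2 : T → (E → FY) → ℝ)
    (j : T → List ℕ) (hT : Fintype.card T ≤ s') (hj : ∀ τ, (j τ).length ≤ t ∧ ∀ l ∈ j τ, l < i)
    (hax : ∀ τ, ∃ K : Finset E, K.card ≤ k ∧ ∀ x y, p' τ x * q' τ y ≠ 0 → ¬ D.Cons K (zf g x y))
    (heq : ∀ x y, a i x + c i y = ∑ τ, (pl a c (j τ) x y *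
      (f1 τ x * h1 τ y + f2 τ x * h2 τ y) ^ 2 + p' τ x * q' τ y)) :
    ∃ (M N : (E → FX) → (E → FY) → ℝ) (c0 : ℝ), NR A B 2 M ∧ SQ (s' * (Nr * 2 ^ t)) N ∧ 0 < c0 ∧
      Low D g A B (s' * ((2 ^ t * 4 + 1) * n1)) fun x y => M x y + N x y + c0 := by
  classical
  obtain ⟨xm, hxm, hθ⟩ := exists_max_image A (a i) hA
  obtain ⟨ym, hym, hθ'⟩ := exists_max_image B (c i) hB
  let I' : T → (E → FX) → Finset E := fun τ x => (j τ).toFinset.biUnion fun l => I l x
  let J' : T → (E → FY) → Finset E := fun τ y => (j τ).toFinset.biUnion fun l => J l y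
  have hI' : ∀ τ x, (I' τ x).card ≤ t * wX := fun τ x =>
    (card_biUnion_le_card_mul _ _ _ fun l _ => hI l x).trans
      (Nat.mul_le_mul_right _ ((List.toFinset_card_le _).trans (hj τ).1))
  have hJ' : ∀ τ y, (J' τ y).card ≤ t * wY := fun τ y =>
    (card_biUnion_le_card_mul _ _ _ fun l _ => hJ l y).trans
      (Nat.mul_le_mul_right _ ((List.toFinset_card_le _).trans (hj τ).1))
  have h2t : ∀ τ, 2 ^ (j τ).length ≤ 2 ^ t := fun τ => Nat.pow_le_pow_right two_pos (hj τ).1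
  choose N hN1 hN2 using fun τ => sq_of_nr (nr_cons2 (D := D) (g := g) (A := A) (B := B) hNr a c
    (j τ) (I' τ) (J' τ) (hI' τ) (hJ' τ) fun l hl x hx y hy hn hc =>
      ih l ((hj τ).2 l hl) x hx y hy hn (hc.mono (union_subset_union
        (subset_biUnion_of_mem (fun l => I l x) (List.mem_toFinset.2 hl))
        (subset_biUnion_of_mem (fun l => J l y) (List.mem_toFinset.2 hl)))))
    (f1 τ) (f2 τ) (h1 τ) (h2 τ)
  refine ⟨fun x y => (a i xm - a i x) * 1 + 1 * (c i ym - c i y), fun x y => ∑ τ, N τ x y,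
    -(a i xm + c i ym), ?_, (sq_sum N fun τ => (hN1 τ).mono (Nat.mul_le_mul_left _ (h2t τ))).mono
      (Nat.mul_le_mul_right _ hT), by linarith [hneg xm hxm ym hym], ?_⟩
  · exact (nr_one (fun x => a i xm - a i x) (fun _ => 1) (fun x hx => by linarith [hθ x hx])
      fun _ _ => zero_le_one).add (nr_one (fun _ => 1) (fun y => c i ym - c i y)
        (fun _ _ => zero_le_one) fun y hy => by linarith [hθ' y hy])
  · have h4 : ∀ τ ∈ (univ : Finset T), Low D g A B ((2 ^ t * 4 + 1) * n1) fun x y =>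
        N τ x y - (pl a c (j τ) x y * (f1 τ x * h1 τ y + f2 τ x * h2 τ y) ^ 2 +
          p' τ x * q' τ y) := by
      intro τ _
      have hl : Low D g A B n1
          fun x y => if D.Cons (I' τ x ∪ J' τ y) (zf g x y) then 0 else 1 :=
        (low_cons (I' τ) (J' τ) (fun x y => (card_union_le _ _).trans
          ((Nat.add_le_add (hI' _ x) (hJ' _ y)).trans hk)) hd).mono subset_rfl subset_rfl hn1
      obtain ⟨K, hK, hK'⟩ := hax τ
      have hl' : Low D g A B n1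
          fun x y => if D.Cons (K ∪ K) (zf g x y) then 0 else 1 :=
        (low_cons (fun _ => K) (fun _ => K) (fun x y => by rw [union_self]; exact hK)
          hd).mono subset_rfl subset_rfl hn1
      refine ((((((hl.mul (fun _ => -1) fun _ => 1).two (f1 τ) (f2 τ) (h1 τ) (h2 τ)).two (f1 τ)
        (f2 τ) (h1 τ) (h2 τ)).pl a c (j τ)).add (hl'.mul (fun x => -(p' τ x)) (q' τ))).mono
        subset_rfl subset_rfl ?_).congr fun x hx y hy => ?_
      · have := Nat.mul_le_mul_right (4 * n1) (h2t τ)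
        nlinarith
      · rw [hN2 τ x hx y hy, union_self]
        by_cases h0 : p' τ x * q' τ y = 0
        · rw [neg_mul (p' τ x), h0]
          split_ifs <;> ring
        · rw [if_neg (hK' x y h0)]
          split_ifs <;> ring
    refine ((low_sum univ _ h4).mono subset_rfl subset_rfl ?_).congr fun x _ y _ => ?_
    · rw [card_univ]
      exact Nat.mul_le_mul_right _ hT
    · rw [sum_sub_distrib, ← heq x y]
      ring

end Pool.Agent.Lib.MP_7836d5_lc.LP
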