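import Pool.Agent.Lib.MP_7836d5_lc.LP.Defs3

set_option autoImplicit false

namespace Pool.Agent.Lib.MP_7836d5_lc.LP

open Classical in
theorem mon_point {V : Type} [Fintype V] (ρ σ : V → Bool) :
    mon (Finset.univ.image fun v => (v, ρ v)) σ = if σ = ρ then 1 else 0 := by
  unfold mon
  split_ifs with h
  · subst h
    refine Finset.prod_eq_one fun l hl => ?_
    obtain ⟨v, -, rfl⟩ := Finset.mem_image.1 hl
    simp
  · obtain ⟨v, hv⟩ := Function.ne_iff.1 h
    exact Finset.prod_eq_zero (Finset.mem_image.2 ⟨v, Finset.mem_univ _, rfl⟩) (by simp [hv])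

/-- Every unsatisfiable CNF has an `LSStar` refutation. -/
theorem star_complete {V : Type} [Fintype V] (F : Set (Clause V)) (t : ℕ)
    (h : ∀ σ, ∃ C ∈ F, ¬ ClauseSat C σ) : LSStar F t (2 ^ Fintype.card V) := by
  classical
  have hc : Fintype.card (V → Bool) = 2 ^ Fintype.card V := by simp
  let e : Fin (2 ^ Fintype.card V) ≃ (V → Bool) := (Fintype.equivFinOfCardEq hc).symm
  have hl : ∀ σ : V → Bool, lin ((0, 1) : (V → ℝ) × ℝ) σ = -1 := fun σ => by simp [lin]
  have h0 : ∀ σ : V → Bool, lin ((0, 0) : (V → ℝ) × ℝ) σ = 0 := fun σ => by simp [lin]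
  refine ⟨fun _ => (0, 1), ⟨⟨0, by positivity⟩, fun σ => by rw [hl]; norm_num⟩, fun i =>
    Or.inr (Or.inr ⟨Sum.elim (fun _ => -1) fun _ => 0, fun _ => [], fun _ => ∅,
      Sum.elim (fun a => Finset.univ.image fun v => (v, e a v)) fun _ => ∅, fun _ => (0, 0),
      fun τ => by simp, ?_, fun σ => ?_⟩)⟩
  · rintro (a | a)
    · obtain ⟨C, hC, hn⟩ := h (e a)
      refine Or.inr ⟨C, hC, fun σ hσ => ?_⟩
      have : σ ≠ e a := fun hh => hn (hh ▸ hσ)
      simp only [Sum.elim_inl]
      convert (mon_point (e a) σ).trans (if_neg this)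
    · exact Or.inl rfl
  · have hm : ∀ a, mon (Finset.univ.image fun v => (v, e a v)) σ = if a = e.symm σ then 1 else 0 :=
      fun a => by
        have := mon_point (e a) σ
        convert this using 2
        rw [Equiv.eq_symm_apply, eq_comm]
    simp [hl, h0, Fintype.sum_sum_type, hm]

theorem clique_unsat {n k : ℕ} {G : SimpleGraph (Fin n)} (hG : G.CliqueFree k)
    (σ : Fin k × Fin n → Bool) : ∃ C ∈ cliqueCNF G k, ¬ ClauseSat C σ := by
  by_contra hn
  push Not at hn
  have h1 : ∀ i : Fin k, ∃ v, σ (i, v) = true := fun i => by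
    obtain ⟨l, hl, hs⟩ := hn _ (Or.inl ⟨i, rfl⟩)
    obtain ⟨v, -, rfl⟩ := Finset.mem_image.1 hl
    exact ⟨v, hs⟩
  choose f hf using h1
  have h2 : ∀ i j, i ≠ j → G.Adj (f i) (f j) := fun i j hij => by
    by_contra ha
    obtain ⟨l, hl, hs⟩ := hn _ (Or.inr (Or.inl ⟨i, j, f i, f j, hij, ha, rfl⟩))
    simp only [Finset.mem_insert, Finset.mem_singleton] at hl
    rcases hl with rfl | rfl <;> simp [hf] at hs
  have hi : Function.Injective f := fun i j hij => by
    by_contra hne
    exact (h2 i j hne).ne hij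
  refine hG (Finset.univ.image f) ⟨?_, by simp [Finset.card_image_of_injective _ hi]⟩
  intro u hu v hv huv
  obtain ⟨i, -, rfl⟩ := Finset.mem_image.1 (Finset.mem_coe.1 hu)
  obtain ⟨j, -, rfl⟩ := Finset.mem_image.1 (Finset.mem_coe.1 hv)
  exact h2 i j fun hh => huv (hh ▸ rfl)

theorem clique_star {n k : ℕ} {G : SimpleGraph (Fin n)} (hG : G.CliqueFree k) (t : ℕ) :
    LSStar (cliqueCNF G k) t (2 ^ (k * n)) := by
  simpa using star_complete (cliqueCNF G k) t (clique_unsat hG)

end Pool.Agent.Lib.MP_7836d5_lc.LP
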