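import Pool.Agent.Lib.MP_7836d5_lc.LP.Star

set_option autoImplicit false
set_option linter.unusedSectionVars false

/-! The dag argument for systems with products of earlier lines. -/

namespace Pool.Agent.Lib.MP_7836d5_lc.LP

open Finset

variable {E FX FY : Type} [Fintype E] [DecidableEq E] [Fintype FX] [DecidableEq FX]
  [Fintype FY] [DecidableEq FY] {D : PD E} {g : FX → FY → ZMod 2}

/-- As `dag`, with `step2` for the third rule. -/
theorem dag2 [Nonempty FX] [Nonempty FY] (En : Finset E → Finset (E → FX) → Finset (E → FY) → Prop)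
    {RP : (E → FX) → Finset E → Finset (E → FX) → Prop}
    {CP : (E → FY) → Finset E → Finset (E → FY) → Prop} {wX wY tX tY k t s s' n1 Nr : ℕ}
    (hR : Pieces RP univ wX tX) (hC : Pieces CP univ wY tY) (hk : wX + wY ≤ k)
    (hkt : t * wX + t * wY ≤ k) (hd : 2 * k ≤ D.d)
    (hn1 : 8 ^ Fintype.card E * Fintype.card FX ^ (Fintype.card E - (D.d - 2 * k)) ≤ n1)
    (hNr : 16 ^ Fintype.card E * Fintype.card FX ^ (t * wX) * Fintype.card FY ^ (t * wY) ≤ Nr)
    (henv : ∀ x y I P J Q, RP x I P → CP y J Q →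
      ∃ A ⊆ partR g P J x y, ∃ B ⊆ partC g Q I x y, En (I ∪ J) A B)
    (hroot : ∀ (EX : Finset (E → FX)) (EY : Finset (E → FY)), 2 * EX.card ≤ Fintype.card (E → FX) →
      2 * EY.card ≤ Fintype.card (E → FY) → ∃ A B, Disjoint A EX ∧ Disjoint B EY ∧ En ∅ A B)
    (hne : ∀ K A B, En K A B → A.Nonempty ∧ B.Nonempty)
    (hlow : ∀ K A B δ, En K A B → K.card ≤ k → (∀ x ∈ A, ∀ y ∈ B, ∀ e ∈ K, zf g x y e = δ e) →
      D.Cons K δ → ∀ A1 ⊆ A, ∀ B1 ⊆ B, A.card ≤ 2 * A1.card → B.card ≤ 2 * B1.card →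
      ¬ Low D g A1 B1 n1 fun _ _ => 1)
    (hcore : ∀ K A B δ, En K A B → K.card ≤ k → (∀ x ∈ A, ∀ y ∈ B, ∀ e ∈ K, zf g x y e = δ e) →
      D.Cons K δ → ∀ (M N : (E → FX) → (E → FY) → ℝ) (c0 : ℝ), NR A B 2 M →
      SQ (s' * (Nr * 2 ^ t)) N → 0 < c0 →
      ¬ Low D g A B (s' * ((2 ^ t * 4 + 1) * n1)) fun x y => M x y + N x y + c0)
    (hsX : 2 * (s * tX) ≤ Fintype.card (E → FX)) (hsY : 2 * (s * tY) ≤ Fintype.card (E → FY)) :
    ¬ Sys2 D g k t s s' := by
  rintro ⟨a, c, ⟨i0, hi0, hr0⟩, hrule⟩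
  obtain ⟨Er, I, mE, cE, hI, hE⟩ := exists_err' hR a
  obtain ⟨Er', J, mE', cE', hJ, hE'⟩ := exists_err' hC c
  have hIJ : ∀ i x y, (I i x ∪ J i y).card ≤ k := fun i x y =>
    (card_union_le _ _).trans (by have := hI i x; have := hJ i y; omega)
  have key : ∀ i < s, ∀ x y, x ∉ Er (i + 1) → y ∉ Er' (i + 1) → a i x + c i y < 0 →
      ¬ D.Cons (I i x ∪ J i y) (zf g x y) := by
    intro i
    induction i using Nat.strong_induction_on with
    | _ i ih =>
    intro hi x y hx hy hneg hcons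
    obtain ⟨P, hP, dP, mP⟩ := hE i x hx
    obtain ⟨Q, hQ, dQ, mQ⟩ := hE' i y hy
    obtain ⟨A, hA, B, hB, hEn⟩ := henv x y _ P _ Q hP hQ
    have hAP : A ⊆ P := hA.trans (filter_subset _ _)
    have hBQ : B ⊆ Q := hB.trans (filter_subset _ _)
    have hconst : ∀ x' ∈ A, ∀ y' ∈ B, ∀ e ∈ I i x ∪ J i y, zf g x' y' e = zf g x y e :=
      fun x' hx' y' hy' => part_const (hR.fix _ _ _ hP) (hC.fix _ _ _ hQ) x' (hA hx') y' (hB hy')
    have hnegAB : ∀ x' ∈ A, ∀ y' ∈ B, a i x' + c i y' < 0 := by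
      intro x' hx' y' hy'
      linarith [mP x' (hAP hx'), mQ y' (hBQ hy')]
    obtain ⟨neA, neB⟩ := hne _ _ _ hEn
    have ih' : ∀ j < i, ∀ x' ∈ A, ∀ y' ∈ B, a j x' + c j y' < 0 →
        ¬ D.Cons (I j x' ∪ J j y') (zf g x' y') := by
      intro j hj x' hx' y' hy' hn
      refine ih j hj (hj.trans hi) x' y' ?_ ?_ hn
      · intro h
        exact disjoint_left.mp dP (hAP hx') (mE (Nat.succ_le_of_lt hj) h)
      · intro h
        exact disjoint_left.mp dQ (hBQ hy') (mE' (Nat.succ_le_of_lt hj) h)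
    have hl := hlow _ A B _ hEn (hIJ i x y) hconst hcons
    rcases hrule i hi with ⟨K, hK, hK2⟩ | ⟨l, hl1, hl2, hjl⟩ |
      ⟨T, hT, p', f1, f2, q', k1, k2, j, h1, h4, h7, h8⟩
    · refine hl A subset_rfl B subset_rfl (by omega) (by omega) ?_
      refine DagLP_low_one hd hn1 (fun _ => K) (fun _ => ∅) (fun _ _ => by simpa using hK) ?_
      intro x' hx' y' hy'
      simpa using hK2 x' y' (hnegAB x' hx' y' hy')
    · refine hl A subset_rfl B subset_rfl (by omega) (by omega) (DagLP_low_one hd hn1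
        (fun x => l.toFinset.biUnion fun j => I j x) (fun y => l.toFinset.biUnion fun j => J j y)
        (fun x y => (card_union_le _ _).trans ((Nat.add_le_add
          ((card_biUnion_le_card_mul _ _ _ fun j _ => hI j x).trans
            (Nat.mul_le_mul_right _ ((List.toFinset_card_le _).trans hl1)))
          ((card_biUnion_le_card_mul _ _ _ fun j _ => hJ j y).trans
            (Nat.mul_le_mul_right _ ((List.toFinset_card_le _).trans hl1)))).trans hkt))
        fun x' hx' y' hy' hc => ?_)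
      obtain ⟨j, hj, hn⟩ := hjl x' y' (hnegAB x' hx' y' hy')
      exact ih' j (hl2 j hj) x' hx' y' hy' hn (hc.mono (union_subset_union
        (subset_biUnion_of_mem (fun j => I j x') (List.mem_toFinset.2 hj))
        (subset_biUnion_of_mem (fun j => J j y') (List.mem_toFinset.2 hj))))
    · obtain ⟨M', N, c0, g1, g0, g2, g3⟩ := step2 hkt hd hn1 hNr neA neB hnegAB I J hI hJ ih'
        p' f1 f2 q' k1 k2 j h1 h4 h7 h8
      exact hcore _ A B _ hEn (hIJ i x y) hconst hcons M' N c0 g1 g0 g2 g3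
  obtain ⟨A, B, dA, dB, hEn⟩ := hroot (Er s) (Er' s) (by have := cE s; omega)
    (by have := cE' s; omega)
  refine hlow ∅ A B 0 hEn (by simp) (by simp) (D.cons_empty _) A subset_rfl B subset_rfl
    (by omega) (by omega) ?_
  refine DagLP_low_one hd hn1 (I i0) (J i0) (hIJ i0) fun x hx y hy => ?_
  refine key i0 hi0 x y ?_ ?_ (hr0 x y)
  · intro h
    exact disjoint_left.mp dA hx (mE (Nat.succ_le_of_lt hi0) h)
  · intro h
    exact disjoint_left.mp dB hy (mE' (Nat.succ_le_of_lt hi0) h)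

end Pool.Agent.Lib.MP_7836d5_lc.LP
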