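import Pool.Agent.Lib.MP_7836d5_lc.LP.StarDag
import Pool.Agent.Lib.MP_7836d5_lc.LP.IPNum

set_option autoImplicit false
set_option linter.unusedSectionVars false

/-! The lifting theorem for systems with products of earlier lines. -/

namespace Pool.Agent.Lib.MP_7836d5_lc.LP

open Finset

/-- As `ip_lift`, with pieces of width `w1`, where `d * w1 ≤ w0`. -/
theorem ip_lift2 {E : Type} [Fintype E] [DecidableEq E] (D : PD E)
    {b ρ κ σ r m N s s1 s' S w0 w1 d t0 M00 M0 w t M w' t' J : ℕ} {ε μ θ ζ : ℝ}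
    (hκ : 2 ≤ κ) (hρ : 0 < ρ) (hr : ρ * κ = r) (hb : 2 ^ b = r) (hm : Fintype.card E = m)
    (hN : N = r ^ m) (hσ : (((b + 1) ^ m) ^ 2 + 1) ^ 4 ≤ σ)
    (a0 : w1 ≤ w0) (a0' : d * w1 ≤ w0) (a1 : N ≤ t0 * κ ^ w1) (a2 : 2 * M00 * ρ ^ w1 ≤ t0)
    (a3 : σ * M0 ≤ M00)
    (a4 : 2 * (s * t0) ≤ N) (a5 : 2 * M0 ≤ N)
    (hS : 2 ≤ S) (hS1 : s1 * (16 ^ m * r ^ w0 * r ^ w0 * 2 ^ d) ≤ s')
    (hS2 : s1 * (2 ^ d * 4 + 1) ≤ 3 * s')
    (b1 : N ≤ t * κ ^ w) (b2 : 2 * M * ρ ^ w ≤ t) (b3 : 2 * σ * ((S + s' + 1) * t) ≤ M0)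
    (b4 : 4 * M ≤ M0) (c1 : N ≤ t' * κ ^ w') (c2 : (t' : ℝ) ≤ θ * N) (c3 : 0 ≤ θ)
    (c4 : 4 * w' ≤ D.d) (hε : 0 ≤ ε) (hε1 : ε ≤ 1) (hε' : (1 + ε) ^ m ≤ 3 / 2)
    (h5 : ((4 * (2 * σ) * (144 * (2 * σ) ^ 3) : ℕ) : ℝ) ^ 2 * r ≤ ε ^ 2 * (ρ : ℝ) ^ 2)
    (hμ : 0 < μ) (h6 : μ * N * (144 * (2 * σ) ^ 3 : ℕ) ≤ M) (hd : 4 * (w0 + w) ≤ D.d)
    (hζ : 0 ≤ ζ) (hJ : 0 < J)
    (hn : (((3 * s' + 5 * (S + s' + 1)) * (8 ^ m * r ^ (m - (D.d - 4 * (w0 + w)))) : ℕ) : ℝ) ≤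
      ζ ^ 2 * N)
    (hnum : (S + s' + 1) * ((16 ^ m * r ^ w * r ^ w : ℕ) *
      ((8 * J + 4) * (2 ^ (m + 2) * (θ + ε ^ (D.d - 4 * w'))) + 2 ^ (m + 1) / J) +
      2 ^ (m + 1) * ζ) < μ ^ 2 / 512) :
    ¬ Sys2 D (gP b) (2 * w0) d s s1 := by
  classical
  subst hm
  have hF : Fintype.card (Fin b → ZMod 2) = r := by
    rw [Fintype.card_fun, ZMod.card, Fintype.card_fin, hb]
  have hNc : Fintype.card (E → Fin b → ZMod 2) = N := by rw [Fintype.card_fun, hF, hN]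
  have hn' : ρ * κ = 2 ^ b := hr.trans hb.symm
  have hr0 : 0 < r := by rw [← hb]; positivity
  have hN0 : 0 < N := by rw [hN]; positivity
  have hX : 1 ≤ (b + 1) ^ Fintype.card E := Nat.one_le_pow _ _ (Nat.succ_pos b)
  have hσ2 : 2 * (b + 1) ^ Fintype.card E ≤ σ := by
    refine le_trans ?_ hσ
    generalize (b + 1) ^ Fintype.card E = X
    calc 2 * X ≤ X ^ 2 + 1 := by nlinarith [sq_nonneg ((X : ℤ) - 1)]
      _ ≤ (X ^ 2 + 1) ^ 4 := Nat.le_self_pow (by norm_num) _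
  have hσ1 : 1 ≤ σ := by omega
  have hNb : (2 ^ b) ^ Fintype.card E = N := by rw [hb, hN]
  have h5' : ((4 * (2 * σ) * (144 * (2 * σ) ^ 3) : ℕ) : ℝ) ^ 2 * 2 ^ b ≤ ε ^ 2 * (ρ : ℝ) ^ 2 := by
    have : (r : ℝ) = 2 ^ b := by rw [← hb]; push_cast; rfl
    rwa [this] at h5
  have env : ∀ (K : Finset E) (A0 B0 : Finset (E → Fin b → ZMod 2)), Dense' (2 * σ) ρ K A0 →
      Dense' (2 * σ) ρ K B0 → M0 ≤ A0.card → M0 ≤ B0.card →
      ∃ A ⊆ A0, ∃ B ⊆ B0, Env2 (gP b) ε μ (2 * σ) w w (S + s' + 1) K A B := by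
    intro K A0 B0 hA hB hA0 hB0
    exact env_ip (M := M) (t := t) hκ hρ hn' hσ2 (by omega) hA hB hA0 hB0 (by rwa [hNb]) b2 b3 b4
      hε h5' hμ.le (by rwa [hNc])
  have part : ∀ (x y : E → Fin b → ZMod 2) (I J K : Finset E) (P : Finset (E → Fin b → ZMod 2)),
      I ⊆ K → RPP 2 ρ σ w1 M00 ∅ x I P →
      Dense' (2 * σ) ρ K (partR (gP b) P J x y) ∧ M0 ≤ (partR (gP b) P J x y).card := by
    intro x y I J K P hK hP
    obtain ⟨-, -, h3, h4, h5⟩ := hP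
    have h6 : P.card ≤ σ * (partR (gP b) P J x y).card := by
      rw [partR_ip]
      exact h5 _
    refine ⟨h3.sub (by simpa using hK) (filter_subset _ _) h6, ?_⟩
    exact Nat.le_of_mul_le_mul_left (a3.trans (h4.trans h6)) hσ1
  have root : ∀ EX : Finset (E → Fin b → ZMod 2), 2 * EX.card ≤ N →
      Dense' (2 * σ) ρ ∅ (univ \ EX) ∧ M0 ≤ (univ \ EX).card := by
    intro EX hE
    have h1 : (univ \ EX).card + EX.card = N := by
      rw [card_sdiff_add_card_eq_card (subset_univ _), card_univ, hNc]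
    have h2 : ρ ≤ Fintype.card (Fin b → ZMod 2) := by
      rw [hF, ← hr]
      exact Nat.le_mul_of_pos_right _ (by omega)
    refine ⟨((dense_univ h2 (∅ : Finset E)).sub (μ := 2) subset_rfl (subset_univ _) ?_).mono
      (by omega), by omega⟩
    rw [card_univ, hNc]
    omega
  have hpos : Pos D (gP b) (2 ^ (Fintype.card E + 2) * (θ + ε ^ (D.d - 4 * w'))) := by
    have hp : Pieces (RPP (b := b) 2 ρ σ w' 0 (∅ : Finset E)) univ w' t' :=
      pieces_ip hκ hρ hn' hσ2 le_rfl le_rfl (by rwa [hNb]) (by simp) _ _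
    have hc : ((2 * σ : ℕ) : ℝ) ^ 2 * 2 ^ b ≤ ε ^ 2 * (ρ : ℝ) ^ 2 := by
      refine le_trans (mul_le_mul_of_nonneg_right (pow_le_pow_left₀ (Nat.cast_nonneg _)
        (Nat.cast_le.2 ?_) 2) (by positivity)) h5'
      have h1 : 1 ≤ 144 * (2 * σ) ^ 3 := Nat.succ_le_of_lt (by positivity)
      calc 2 * σ ≤ 4 * (2 * σ) * 1 := by omega
        _ ≤ _ := Nat.mul_le_mul_left _ h1
    have := pos_of_pieces (D := D) (θ := θ) hp hp (comb_ip (by norm_num) hσ1 hρ hε hc ∅)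
      (by omega) hε hε1 hε' c3 (by rwa [hNc]) (by rwa [hNc])
    rwa [show 2 * (w' + w') = 4 * w' by ring] at this
  have hη : 0 ≤ 2 ^ (Fintype.card E + 2) * (θ + ε ^ (D.d - 4 * w')) := by positivity
  have hp0 : Pieces (RPP (b := b) 2 ρ σ w1 M00 (∅ : Finset E)) univ w1 t0 :=
    pieces_ip hκ hρ hn' hσ2 le_rfl le_rfl (by rwa [hNb]) a2 _ _
  have hn12 : 8 ^ Fintype.card E * r ^ (Fintype.card E - (D.d - 2 * (2 * w0))) ≤
      8 ^ Fintype.card E * r ^ (Fintype.card E - (D.d - 4 * (w0 + w))) :=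
    Nat.mul_le_mul_left _ (Nat.pow_le_pow_right hr0 (by omega))
  refine dag2 (fun K A B => Env2 (gP b) ε μ (2 * σ) w w (S + s' + 1) K A B)
    (n1 := 8 ^ Fintype.card E * r ^ (Fintype.card E - (D.d - 2 * (2 * w0))))
    (Nr := 16 ^ Fintype.card E * r ^ w0 * r ^ w0) hp0 hp0 (by omega) (by omega) (by omega)
    (by rw [hF]) (by rw [hF]; gcongr <;> omega) ?_ ?_ ?_ ?_ ?_ (by rwa [hNc]) (by rwa [hNc])
  · intro x y I P J Q hP hQ
    obtain ⟨h1, h2⟩ := part x y I J (I ∪ J) P subset_union_left hP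
    obtain ⟨h3, h4⟩ := part y x J I (I ∪ J) Q subset_union_right hQ
    rw [partC_ip]
    exact env _ _ _ h1 h3 h2 h4
  · intro EX EY hEX hEY
    rw [hNc] at hEX hEY
    obtain ⟨h1, h2⟩ := root EX hEX
    obtain ⟨h3, h4⟩ := root EY hEY
    obtain ⟨A, hA, B, hB, h⟩ := env _ _ _ h1 h3 h2 h4
    exact ⟨A, B, disjoint_sdiff_self_left.mono_left hA, disjoint_sdiff_self_left.mono_left hB, h⟩
  · intro K A B h
    obtain ⟨-, h1, h2⟩ := h.1 A subset_rfl B subset_rfl (by omega) (by omega)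
    rw [hNc] at h1 h2
    have h3 : (0 : ℝ) < μ * N := by positivity
    exact ⟨card_pos.1 (by exact_mod_cast h3.trans_le h1),
      card_pos.1 (by exact_mod_cast h3.trans_le h2)⟩
  · intro K A B δ h hK hc hcons A1 hA1 B1 hB1 e1 e2
    obtain ⟨h0, h1, h2⟩ := h.1 A1 hA1 B1 hB1 e1 e2
    refine no_low (ζ := ζ) gP_orth h0 h1 h2 (fun x hx y hy => hc x (hA1 hx) y (hB1 hy)) hcons
      (by omega) hε hε' hμ hζ ?_ ?_
    · rw [hNc]
      refine le_trans (Nat.cast_le.2 (hn12.trans ?_)) hn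
      exact Nat.le_mul_of_pos_left _ (by omega)
    · have h3 : (0 : ℝ) ≤ (16 ^ Fintype.card E * r ^ w * r ^ w : ℕ) *
          ((8 * J + 4) * (2 ^ (Fintype.card E + 2) * (θ + ε ^ (D.d - 4 * w'))) +
            2 ^ (Fintype.card E + 1) / J) := by positivity
      have h4 : (0 : ℝ) ≤ 2 ^ Fintype.card E * ζ := by positivity
      have h5 : (0 : ℝ) ≤ (S : ℝ) + s' := by positivity
      have h6 : (2 : ℝ) ^ (Fintype.card E + 1) * ζ = 2 * (2 ^ Fintype.card E * ζ) := by ring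
      rw [h6] at hnum
      nlinarith [mul_nonneg h5 (add_nonneg h3 (mul_nonneg zero_le_two h4)), sq_nonneg μ]
  · intro K A B δ h hK hc hcons M1 N1 c0 hM hQ hc0
    refine core2 (k := 2 * w0 + 2 * w) (ζ := ζ) (J := J) gP_orth hpos
      (tupR_ip (Nat.mul_le_mul_left 2 hσ)) (tupC_ip (Nat.mul_le_mul_left 2 hσ)) h hc hcons
      (by omega) (by omega) hε hε' hμ hη hζ (hM.mono subset_rfl subset_rfl hS) (hQ.mono hS1)
      hc0 hJ ?_ ?_
    · rw [hNc, hF, show 2 * (2 * w0 + 2 * w) = 4 * (w0 + w) by ring]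
      refine le_trans (Nat.cast_le.2 ?_) hn
      rw [← mul_assoc s1, add_mul (3 * s')]
      exact Nat.add_le_add_right (Nat.mul_le_mul hS2 hn12) _
    · rw [hF]
      exact hnum


/-- As `ip_bound`. -/
theorem ip_bound2 {m c : ℕ} (D : PD (Fin m)) (hD : D.d = m / 1000) (hm : 200000000 ≤ m)
    (hc : 32 * (16 * c + 1) ^ (8 * m) ≤ 2 ^ c) {s s1 d w1 : ℕ} (hw1 : w1 ≤ m / 25000000)
    (hd1 : d * w1 ≤ m / 25000000) (hd2 : d ≤ m / 25000000) (hs : 2 * s ≤ 2 ^ (2 * c * w1))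
    (hs1 : s1 ≤ 2 * s) : ¬ Sys2 D (gP (16 * c)) 8 d s s1 := by
  intro hSys
  obtain ⟨w0, hw0⟩ : ∃ w0, w0 = m / 25000000 := ⟨_, rfl⟩
  rw [← hw0] at hw1 hd1 hd2
  obtain ⟨w', hw'⟩ : ∃ w', w' = D.d / 5 := ⟨_, rfl⟩
  obtain ⟨U, hU⟩ : ∃ U, U = 2 * c * w0 := ⟨_, rfl⟩
  obtain ⟨U1, hU1⟩ : ∃ U1, U1 = 2 * c * w1 := ⟨_, rfl⟩
  rw [← hU1] at hs
  have fU1 : U1 ≤ U := by
    rw [hU, hU1]
    exact Nat.mul_le_mul_left _ hw1
  have hs1' : s1 ≤ 2 ^ U := hs1.trans (hs.trans (IndexNum_le fU1))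
  obtain ⟨s', hs0⟩ : ∃ s', s' = 2 ^ (22 * U) := ⟨_, rfl⟩
  have hs' : s' ≤ 2 ^ (22 * U) := hs0.le
  obtain ⟨V, hV⟩ : ∃ V, V = 2 * c * w' := ⟨_, rfl⟩
  obtain ⟨n, hn⟩ : ∃ n, n = 16 * c * m := ⟨_, rfl⟩
  obtain ⟨p, hp⟩ : ∃ p, p = 16 * c * D.d := ⟨_, rfl⟩
  obtain ⟨W, hW⟩ : ∃ W, W = c * (D.d - 4 * w') := ⟨_, rfl⟩
  obtain ⟨Z, hZ⟩ : ∃ Z, Z = 16 * c * (m - (D.d - 4 * (w0 + 35 * w0))) := ⟨_, rfl⟩
  have f8 : 8 ≤ w0 := by omega
  have hc0 : c ≠ 0 := by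
    rintro rfl
    simp at hc
  have fc : 8 * m ≤ c := by
    have h1 : 2 ^ (8 * m) ≤ (16 * c + 1) ^ (8 * m) := Nat.pow_le_pow_left (by omega) _
    exact (Nat.pow_le_pow_iff_right one_lt_two).1 (by omega : 2 ^ (8 * m) ≤ 2 ^ c)
  have fU : 16 * c ≤ U := by
    calc 16 * c = 2 * c * 8 := by ring
      _ ≤ U := by rw [hU]; exact Nat.mul_le_mul_left _ f8
  have fV : 5000 * U ≤ V := by
    rw [hU, hV, mul_comm 5000, mul_assoc _ w0]
    exact Nat.mul_le_mul_left _ (by omega)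
  have fp : 40 * V ≤ p := by
    calc 40 * V = 16 * c * (5 * w') := by rw [hV]; ring
      _ ≤ p := by rw [hp]; exact Nat.mul_le_mul_left _ (by omega)
  have fn : p ≤ n := by
    rw [hp, hn]
    exact Nat.mul_le_mul_left _ (by omega)
  have fW : 2500 * U ≤ W := by
    calc 2500 * U = c * (5000 * w0) := by rw [hU]; ring
      _ ≤ W := by rw [hW]; exact Nat.mul_le_mul_left _ (by omega)
  have fZ : Z + p = n + 1152 * U := by
    have e : m - (D.d - 4 * (w0 + 35 * w0)) + D.d = m + 144 * w0 := by omega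
    calc Z + p = 16 * c * (m - (D.d - 4 * (w0 + 35 * w0)) + D.d) := by rw [hZ, hp]; ring
      _ = n + 1152 * U := by rw [e, hn, hU]; ring
  have k0 : (2 ^ (2 * c)) ^ w1 = 2 ^ U1 := by rw [← pow_mul, hU1]
  have p0 : (2 ^ (14 * c)) ^ w1 = 2 ^ (7 * U1) := by
    rw [← pow_mul, hU1]; congr 1; ring
  have r0 : (2 ^ (16 * c)) ^ w0 = 2 ^ (8 * U) := by
    rw [← pow_mul, hU]; congr 1; ring
  have k1 : (2 ^ (2 * c)) ^ (35 * w0) = 2 ^ (35 * U) := by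
    rw [← pow_mul, hU]; congr 1; ring
  have p1 : (2 ^ (14 * c)) ^ (35 * w0) = 2 ^ (245 * U) := by
    rw [← pow_mul, hU]; congr 1; ring
  have r1 : (2 ^ (16 * c)) ^ (35 * w0) = 2 ^ (280 * U) := by
    rw [← pow_mul, hU]; congr 1; ring
  have k2 : (2 ^ (2 * c)) ^ w' = 2 ^ V := by rw [← pow_mul, hV]
  have r3 : (2 ^ (16 * c)) ^ (m - (D.d - 4 * (w0 + 35 * w0))) = 2 ^ Z := by rw [← pow_mul, hZ]
  have e8 : 8 ^ m = 2 ^ (3 * m) := (pow_mul 2 3 m).symm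
  have e16 : 16 ^ m = 2 ^ (4 * m) := (pow_mul 2 4 m).symm
  have s2 : 2 * 2 ^ (c - 1) = 2 ^ c := by
    rw [← pow_succ']; congr 1; omega
  have hS : 2 ^ (23 * U) + s' + 1 ≤ 2 ^ (24 * U) := by
    have h1 := IndexNum_add (i := 22 * U) (j := 0) (k := 22 * U + 1) (by omega) (by omega)
    have h2 := IndexNum_add (i := 23 * U) (j := 22 * U + 1) (k := 24 * U) (by omega) (by omega)
    omega
  have h144 : 144 * (2 ^ c) ^ 3 ≤ 2 ^ (3 * c + 8) := by
    rw [← pow_mul, mul_comm c, pow_add]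
    omega
  refine ip_lift2 D (b := 16 * c) (ρ := 2 ^ (14 * c)) (κ := 2 ^ (2 * c)) (σ := 2 ^ (c - 1))
    (r := 2 ^ (16 * c)) (m := m) (N := 2 ^ n) (s := s) (s1 := s1) (s' := s') (S := 2 ^ (23 * U))
    (w0 := w0) (w1 := w1) (d := d)
    (t0 := 2 ^ (n - U1)) (M00 := 2 ^ (n - 8 * U - 1)) (M0 := 2 ^ (n - 10 * U)) (w := 35 * w0)
    (t := 2 ^ (n - 35 * U)) (M := 2 ^ (n - 281 * U)) (w' := w') (t' := 2 ^ (n - V))
    (J := 2 ^ (1160 * U)) (ε := IndexNum_E (-c)) (μ := IndexNum_E (-(285 * U)))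
    (θ := IndexNum_E (-V)) (ζ := IndexNum_E (-(1000 * U))) (IndexNum_le (i := 1) (by omega))
    (by positivity) ?_ rfl (Fintype.card_fin _) ?_ ?_ hw1 hd1 ?_ ?_ ?_ ?_ ?_
    (IndexNum_le (i := 1) (by omega)) ?_ ?_ ?_ ?_ ?_ ?_ ?_ ?_
    (IndexNum_E_pos _).le (by omega) (IndexNum_E_pos _).le ?_ ?_ ?_ (IndexNum_E_pos _) ?_
    (by omega) (IndexNum_E_pos _).le (by positivity) ?_ ?_ (hSys.mono (by omega))
  · rw [← pow_add]; congr 1; ring
  · rw [← pow_mul, hn]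
  · have h1 : (16 * c + 1) ^ (8 * m) = (((16 * c + 1) ^ m) ^ 2) ^ 4 := by
      rw [← pow_mul, ← pow_mul]; congr 1; ring
    have h2 : 1 ≤ ((16 * c + 1) ^ m) ^ 2 := Nat.succ_le_of_lt (by positivity)
    rw [h1, ← s2] at hc
    generalize ((16 * c + 1) ^ m) ^ 2 = X at hc h2 ⊢
    have h3 : (X + 1) ^ 4 ≤ (2 * X) ^ 4 := Nat.pow_le_pow_left (by omega) 4
    rw [mul_pow] at h3
    omega
  · rw [k0, ← pow_add]
    exact IndexNum_le (by omega)
  · rw [p0, ← pow_succ', ← pow_add]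
    exact IndexNum_le (by omega)
  · rw [← pow_add]
    exact IndexNum_le (by omega)
  · rw [← mul_assoc]
    refine (Nat.mul_le_mul_right _ hs).trans ?_
    rw [← pow_add]
    exact IndexNum_le (by omega)
  · rw [← pow_succ']
    exact IndexNum_le (by omega)
  · rw [r0, e16, ← pow_add, ← pow_add, ← pow_add, hs0]
    refine (Nat.mul_le_mul_right _ hs1').trans ?_
    rw [← pow_add]
    exact IndexNum_le (by omega)
  · have h1 : 2 ^ d * 4 + 1 ≤ 2 ^ (d + 3) := by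
      have := Nat.one_le_two_pow (n := d)
      rw [pow_add]
      omega
    have h2 := Nat.mul_le_mul hs1' h1
    rw [← pow_add] at h2
    have h3 : 2 ^ (U + (d + 3)) ≤ 2 ^ (22 * U) := IndexNum_le (by omega)
    omega
  · rw [k1, ← pow_add]
    exact IndexNum_le (by omega)
  · rw [p1, ← pow_succ', ← pow_add]
    exact IndexNum_le (by omega)
  · rw [s2]
    refine (Nat.mul_le_mul_left _ (Nat.mul_le_mul_right _ hS)).trans ?_
    rw [← pow_add, ← pow_add]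
    exact IndexNum_le (by omega)
  · rw [show 4 = 2 ^ 2 from rfl, ← pow_add]
    exact IndexNum_le (by omega)
  · rw [k2, ← pow_add]
    exact IndexNum_le (by omega)
  · rw [IndexNum_E_nat, IndexNum_E_nat, IndexNum_E_mul]
    exact IndexNum_E_le (by omega)
  · exact (IndexNum_E_le (y := 0) (by omega)).trans (zpow_zero 2).le
  · refine IndexNum_exp (IndexNum_E_pos _).le ?_
    have h1 : ((4 * m : ℕ) : ℝ) ≤ (2 ^ c : ℕ) :=
      Nat.cast_le.2 (le_trans (by omega) (Nat.lt_two_pow_self (n := c)).le)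
    rw [IndexNum_E_nat] at h1
    have h2 := mul_le_mul_of_nonneg_right h1 (IndexNum_E_pos (-c)).le
    have h3 : IndexNum_E 0 = 1 := zpow_zero 2
    rw [IndexNum_E_mul, add_neg_cancel, h3] at h2
    push_cast at h2
    linarith
  · rw [s2]
    have h1 : 4 * 2 ^ c * (144 * (2 ^ c) ^ 3) ≤ 2 ^ (4 * c + 10) := by
      refine (Nat.mul_le_mul_left _ h144).trans ?_
      rw [show 4 = 2 ^ 2 from rfl, ← pow_add, ← pow_add]
      exact IndexNum_le (by omega)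
    refine (mul_le_mul_of_nonneg_right (pow_le_pow_left₀ (Nat.cast_nonneg _) (Nat.cast_le.2 h1) 2)
      (Nat.cast_nonneg _)).trans ?_
    rw [IndexNum_E_nat, IndexNum_E_nat, IndexNum_E_nat, IndexNum_E_pow, IndexNum_E_pow,
      IndexNum_E_pow, IndexNum_E_mul, IndexNum_E_mul]
    exact IndexNum_E_le (by omega)
  · rw [s2]
    refine (mul_le_mul_of_nonneg_left (Nat.cast_le.2 h144)
      (mul_nonneg (IndexNum_E_pos _).le (Nat.cast_nonneg _))).trans ?_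
    rw [IndexNum_E_nat, IndexNum_E_nat, IndexNum_E_nat, IndexNum_E_mul, IndexNum_E_mul]
    exact IndexNum_E_le (by omega)
  · rw [r3, e8, ← pow_add]
    have h1 : 3 * s' + 5 * (2 ^ (23 * U) + s' + 1) ≤ 2 ^ (24 * U + 3) := by
      have h2 : s' ≤ 2 ^ (24 * U) := hs'.trans (IndexNum_le (by omega))
      rw [pow_add]
      omega
    refine (Nat.cast_le.2 (Nat.mul_le_mul_right _ h1)).trans ?_
    rw [← pow_add, IndexNum_E_nat, IndexNum_E_nat, IndexNum_E_pow, IndexNum_E_mul]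
    exact IndexNum_E_le (by omega)
  · have h0 : ((2 ^ (23 * U) : ℕ) : ℝ) + s' + 1 ≤ IndexNum_E (24 * U : ℕ) := by
      rw [← IndexNum_E_nat (24 * U)]
      exact_mod_cast hS
    have h1 : IndexNum_E (-c) ^ (D.d - 4 * w') = IndexNum_E (-W) := by
      rw [IndexNum_E_pow, hW, Nat.cast_mul, neg_mul]
    have h8 : IndexNum_E (-(285 * U)) ^ 2 / 512 = IndexNum_E (-(570 * U) - 9) := by
      have h9 : (512 : ℝ) = IndexNum_E 9 := by unfold IndexNum_E; norm_num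
      rw [div_eq_iff (by norm_num), h9, IndexNum_E_pow, IndexNum_E_mul]
      congr 1
      push_cast
      ring
    have hJ : 8 * ((2 ^ (1160 * U) : ℕ) : ℝ) + 4 ≤ IndexNum_E (1160 * U + 4 : ℕ) := by
      rw [← IndexNum_E_nat (1160 * U + 4)]
      have : 8 * 2 ^ (1160 * U) + 4 ≤ 2 ^ (1160 * U + 4) := by
        have := Nat.one_le_two_pow (n := 1160 * U)
        rw [pow_add]
        omega
      exact_mod_cast this
    have hJ2 : (2 : ℝ) ^ (m + 1) / (2 ^ (1160 * U) : ℕ) = IndexNum_E (m + 1 - 1160 * U) := by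
      rw [div_eq_iff (by positivity), IndexNum_E_nat, IndexNum_E_real, IndexNum_E_mul]
      congr 1
      push_cast
      ring
    rw [h1, h8, hJ2, r1, e16, ← pow_add, ← pow_add, IndexNum_E_nat (_ + _), IndexNum_E_real,
      IndexNum_E_real, IndexNum_E_mul]
    have h2 : IndexNum_E (-V) + IndexNum_E (-W) ≤ IndexNum_E (1 - 2500 * U) :=
      IndexNum_E_add (by omega) (by omega)
    have h3 := mul_le_mul hJ (mul_le_mul_of_nonneg_left h2 (IndexNum_E_pos (m + 2 : ℕ)).le)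
      (mul_nonneg (IndexNum_E_pos _).le (add_nonneg (IndexNum_E_pos _).le (IndexNum_E_pos _).le))
      (IndexNum_E_pos _).le
    rw [IndexNum_E_mul, IndexNum_E_mul] at h3
    have h4 := (add_le_add h3 le_rfl).trans (IndexNum_E_add (y := m + 1 - 1160 * U)
      (z := -(1159 * U)) (by omega) (by omega))
    have h5 := mul_le_mul_of_nonneg_left h4 (IndexNum_E_pos (4 * m + 280 * U + 280 * U : ℕ)).le
    rw [IndexNum_E_mul] at h5
    have h6 := (add_le_add h5 le_rfl).trans (IndexNum_E_add (y := (m + 1 : ℕ) + -(1000 * U))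
      (z := -(598 * U)) (by omega) (by omega))
    refine lt_of_le_of_lt (mul_le_mul h0 h6 ?_ (IndexNum_E_pos _).le) ?_
    · have := IndexNum_E_pos
      refine add_nonneg (mul_nonneg (this _).le (add_nonneg (mul_nonneg (by positivity)
        (mul_nonneg (this _).le (add_nonneg (this _).le (this _).le))) (this _).le)) (this _).le
    · rw [IndexNum_E_mul]
      exact IndexNum_E_lt (by omega)

end Pool.Agent.Lib.MP_7836d5_lc.LP
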