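import Pool.Agent.Lib.MP_7836d5_lc.LP.StarIP
import Pool.Agent.Lib.MP_7836d5_lc.LP.Defs3
import Pool.Agent.Lib.MP_7836d5_lc.LP.CliqueNum

set_option autoImplicit false
set_option linter.unusedSectionVars false

/-! The bound for refutations with products of earlier lines. -/

namespace Pool.Agent.Lib.MP_7836d5_lc.LP

open Finset

section

variable {E FX FY : Type} [Fintype E] [DecidableEq E] [Fintype FX] [DecidableEq FX]
  [Fintype FY] [DecidableEq FY]

theorem sys_of_star {V : Type} [Fintype V] {D : PD E} {g : FX → FY → ZMod 2} {F : Set (Clause V)}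
    {k t s : ℕ} (asg : (E → FX) → (E → FY) → V → Bool) (x0 : E → FX) (y0 : E → FY)
    (hsplit : ∀ v, (∀ x y, asg x y v = asg x y0 v) ∨ ∀ x y, asg x y v = asg x0 y v)
    (hF : ∀ C ∈ F, ∃ K : Finset E, K.card ≤ k ∧
      ∀ x y, D.Cons K (zf g x y) → ClauseSat C (asg x y))
    (h : LSStar F t s) : Sys2 D g k t s (2 * s) := by
  classical
  obtain ⟨π, ⟨i0, hi0⟩, hπ⟩ := h
  obtain ⟨a, c, hac⟩ := Ref_lin asg x0 y0 hsplit
  obtain ⟨p, q, -, -, hp2, hq2, hpq⟩ := Ref_mon asg x0 y0 hsplit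
  let π' : ℕ → (V → ℝ) × ℝ := fun i => if h : i < s then π ⟨i, h⟩ else 0
  have hπ' : ∀ i : Fin s, π' i = π i := fun i => dif_pos i.2
  refine ⟨fun i => a (π' i), fun i => c (π' i), ⟨i0, i0.2, fun x y => ?_⟩, fun i hi => ?_⟩
  · show a (π' i0) x + c (π' i0) y < 0
    rw [← hac, hπ']
    exact hi0 _
  · have e : π' i = π ⟨i, hi⟩ := hπ' ⟨i, hi⟩
    rcases hπ ⟨i, hi⟩ with ⟨C, hC, h⟩ | ⟨j, hj, hl, h⟩ | ⟨c', j, M, M', Q, h1, h2, h3⟩
    · obtain ⟨K, hK, hK'⟩ := hF C hC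
      refine Or.inl ⟨K, hK, fun x y hneg hcons => ?_⟩
      have h4 := h _ (hK' x y hcons)
      rw [hac, ← e] at h4
      exact absurd hneg (not_lt.2 h4)
    · refine Or.inr (Or.inl ⟨j.map Fin.val, by simpa using hj, fun l h1 => ?_, fun x y hneg => ?_⟩)
      · obtain ⟨l', hl', rfl⟩ := List.mem_map.1 h1
        exact hl l' hl'
      · by_contra hcon
        have h4 := h (asg x y) fun l h1 => not_lt.1 fun h2 => hcon ⟨l, List.mem_map_of_mem h1, by
          show a (π' l) x + c (π' l) y < 0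
          rwa [← hac, hπ']⟩
        rw [hac, ← e] at h4
        exact absurd hneg (not_lt.2 h4)
    · refine Or.inr (Or.inr ⟨Fin s ⊕ Fin s, inferInstance, fun τ x => c' τ * p (M' τ) x,
        fun τ x => p (M τ) x * a (Q τ) x, fun τ x => p (M τ) x, fun τ y => q (M' τ) y,
        fun τ y => q (M τ) y, fun τ y => q (M τ) y * c (Q τ) y, fun τ => (j τ).map Fin.val,
        by simp [two_mul], fun τ => ⟨by simpa using (h1 τ).1, fun l hl => ?_⟩, fun τ => ?_,
        fun x y => ?_⟩)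
      · obtain ⟨l', hl', rfl⟩ := List.mem_map.1 hl
        exact (h1 τ).2 l' hl'
      · rcases h2 τ with h | ⟨C, hC, h⟩
        · exact ⟨∅, Nat.zero_le _, fun x y hne => absurd (by simp only [h, zero_mul]) hne⟩
        · obtain ⟨K, hK, hK'⟩ := hF C hC
          refine ⟨K, hK, fun x y hne hcons => hne ?_⟩
          rw [mul_assoc, ← hpq, h _ (hK' x y hcons), mul_zero]
      · show a (π' i) x + c (π' i) y = _
        rw [← hac, e, h3]
        refine sum_congr rfl fun τ _ => ?_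
        have e1 : pl (fun i => a (π' i)) (fun i => c (π' i)) ((j τ).map Fin.val) x y =
            ((j τ).map fun l => lin (π l) (asg x y)).prod := by
          rw [pl, List.map_map]
          exact congrArg List.prod (List.map_congr_left fun l _ => by
            rw [Function.comp_apply, ← hac, hπ'])
        rw [e1, hac, hpq, hpq]
        generalize ((j τ).map fun l => lin (π l) (asg x y)).prod = P
        linear_combination (-(P * q (M τ) y ^ 2 * (a (Q τ) x + c (Q τ) y) ^ 2)) * hp2 (M τ) x -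
          (P * p (M τ) x * (a (Q τ) x + c (Q τ) y) ^ 2) * hq2 (M τ) y

end

theorem exists_graph2 {E V : Type} [Fintype E] [DecidableEq E] [Fintype V] [DecidableEq V]
    [Nonempty V] {D : PD E} {b k n : ℕ} (nb : V → Fin 8 → E) (c : V → ZMod 2)
    (hun : ∀ z : E → ZMod 2, ∃ v, ∑ i, z (nb v i) ≠ c v)
    (hv : ∀ v (z : E → ZMod 2), ∑ i, z (nb v i) ≠ c v → ¬ D.Cons (univ.image (nb v)) z)
    (hk : 2 * Fintype.card V ≤ k) (hn : k * 2 ^ (8 * b) ≤ n) :
    ∃ (G : SimpleGraph (Fin n)) (part : Fin n → Fin k), G.CliqueFree k ∧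
      (∀ u v, G.Adj u v → part u ≠ part v) ∧
      ∀ t s, LSStar (cliqueCNF G k) t s ∨ LSStar (blockCNF G part) t s →
        Sys2 D (gP b) 8 t s (2 * s) := by
  obtain ⟨lab⟩ : Nonempty (Bool × V ↪ Fin k) :=
    Function.Embedding.nonempty_of_card_le (by simpa using hk)
  obtain ⟨emb⟩ : Nonempty (Fin k × (Fin 8 → Fin b → ZMod 2) ↪ Fin n) := by
    refine Function.Embedding.nonempty_of_card_le ?_
    simp only [Fintype.card_prod, Fintype.card_fin, Fintype.card_fun, ZMod.card]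
    rwa [← pow_mul, mul_comm b 8]
  let i0 : Fin k := lab (true, Classical.arbitrary V)
  have : Nonempty (Fin k) := ⟨i0⟩
  have key : ∀ {W : Type} {F : Set (Clause W)}
      (asg : (E → Fin b → ZMod 2) → (E → Fin b → ZMod 2) → W → Bool),
      (∀ C ∈ F, ∃ v, ∀ x y, ∑ l, zz x y (nb v l) = c v → ClauseSat C (asg x y)) →
      ∀ C ∈ F, ∃ K : Finset E, K.card ≤ 8 ∧
        ∀ x y, D.Cons K (zf (gP b) x y) → ClauseSat C (asg x y) := by
    intro W F asg h C hC
    obtain ⟨v, hv'⟩ := h C hC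
    refine ⟨univ.image (nb v), card_image_le.trans (by simp), fun x y hs => hv' x y ?_⟩
    by_contra hne
    exact hv v _ hne hs
  refine ⟨(g2H nb c lab).map emb, g2part emb i0,
    SimpleGraph.cliqueFree_map_iff.2 (g2H_free nb c lab hun), g2part_indep nb c lab emb i0, ?_⟩
  rintro t s (h | h)
  · exact sys_of_star (g2asg1 nb lab emb) 0 0 (g2asg1_split nb lab emb)
      (key _ (g2asg1_sat nb c lab emb)) h
  · exact sys_of_star (g2asg2 nb lab emb i0) 0 0 (fun v => g2asg1_split nb lab emb _)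
      (key _ (g2asg2_sat nb c lab emb i0)) h

theorem star_bound : ∃ C k0 : ℕ, 0 < C ∧ ∀ k, k0 ≤ k → ∀ n, k ^ (C * k) ≤ n →
    ∃ (G : SimpleGraph (Fin n)) (part : Fin n → Fin k), G.CliqueFree k ∧
      (∀ u v, G.Adj u v → part u ≠ part v) ∧
      ∀ t s, 0 < t → LSStar (cliqueCNF G k) t s ∨ LSStar (blockCNF G part) t s →
        k0 * t ≤ k → n ^ k ≤ s ^ (C * t) := by
  obtain ⟨C, hC⟩ : ∃ C : ℕ, 56000000000 ≤ C := ⟨_, le_rfl⟩
  refine ⟨C, 800000000, by omega, fun k hk n hn => ?_⟩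
  obtain ⟨c, hc1, hc2, hc3, hc4⟩ := CliqueNum_c hk (by omega) hn
  obtain ⟨m, hm⟩ : ∃ m, m = k / 4 := ⟨_, rfl⟩
  rw [← hm] at hc4
  obtain ⟨nb, d, D, hD, hun, hv⟩ := exists_xor m (by omega)
  have : Nonempty (Fin (2 * m)) := ⟨⟨0, by omega⟩⟩
  obtain ⟨G, part, h1, h2, h3⟩ := exists_graph2 (b := 16 * c) (k := k) (n := n) nb d hun hv
    (by rw [Fintype.card_fin]; omega) (by rwa [show 8 * (16 * c) = 128 * c by ring])
  refine ⟨G, part, h1, h2, fun t s ht hs hkt => ?_⟩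
  have hsys := h3 t s hs
  obtain ⟨w0, hw0⟩ : ∃ w0, w0 = m / 25000000 := ⟨_, rfl⟩
  obtain ⟨w, hw⟩ : ∃ w, w = w0 / t := ⟨_, rfl⟩
  have g1 : t * w ≤ w0 := hw ▸ Nat.mul_div_le w0 t
  have g2 : w0 < t * (w + 1) := hw ▸ Nat.lt_mul_div_succ w0 ht
  have g3 : t ≤ w0 := by omega
  have g4 : 1 ≤ w := hw ▸ (Nat.one_le_div_iff ht).2 g3
  have g5 : t ≤ t * w := Nat.le_mul_of_pos_right _ g4
  have hw1 : 1 ≤ c * w := Nat.mul_pos (by omega) g4
  have hU : 2 * c * w = 2 * (c * w) := mul_assoc _ _ _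
  have h4 : 2 ^ (2 * c * w) < 2 * s := by
    by_contra h4
    exact ip_bound2 D hD (by omega) hc4 (w1 := w) (hw0 ▸ hw ▸ Nat.div_le_self _ _) (hw0 ▸ g1)
      (hw0 ▸ g3) (not_lt.1 h4) le_rfl hsys
  have h5 : 2 ^ (c * w) ≤ s := by
    have e2 : 2 ^ (c * w + 1) ≤ 2 ^ (2 * c * w) := Nat.pow_le_pow_right (by norm_num) (by omega)
    rw [pow_succ] at e2
    omega
  have h6 : k ≤ 400000000 * (t * w) := by
    rw [mul_add, mul_one] at g2
    omega
  calc n ^ k ≤ (2 ^ (140 * c)) ^ k := Nat.pow_le_pow_left hc3 _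
    _ = 2 ^ (140 * c * k) := (pow_mul _ _ _).symm
    _ ≤ 2 ^ (c * w * (C * t)) := by
        refine Nat.pow_le_pow_right (by norm_num) ?_
        calc 140 * c * k ≤ 140 * c * (400000000 * (t * w)) := Nat.mul_le_mul_left _ h6
          _ = c * w * (56000000000 * t) := by ring
          _ ≤ c * w * (C * t) := Nat.mul_le_mul_left _ (Nat.mul_le_mul_right _ hC)
    _ = (2 ^ (c * w)) ^ (C * t) := pow_mul _ _ _
    _ ≤ s ^ (C * t) := Nat.pow_le_pow_left h5 _

/-- The earlier system is contained in the case `t = 2`. -/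
theorem LSRef.star {V : Type} [Fintype V] {F : Set (Clause V)} {s : ℕ} (h : LSRef F s) :
    LSStar F 2 s := by
  classical
  obtain ⟨π, h0, hπ⟩ := h
  refine ⟨π, h0, fun i => (hπ i).imp_right (Or.imp ?_ ?_)⟩
  · rintro ⟨j, hj, l, hl, h⟩
    exact ⟨[j, l], le_rfl, by simp [hj, hl], fun σ h1 => h σ (h1 j (by simp)) (h1 l (by simp))⟩
  rintro ⟨a, c, j, M, M', M'', Q, h1, h2, h3⟩
  refine ⟨Sum.elim c fun _ => 0, Sum.elim (fun τ => if a τ = 0 then [] else [j τ]) fun _ => [],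
    Sum.elim M M', Sum.elim M'' M'', Sum.elim (fun τ => (0, -√(a τ))) Q, ?_, ?_, fun σ => ?_⟩
  · rintro (τ | τ)
    · rcases h1 τ with h | h
      · simp [h]
      · simp [h.1.ne', h.2]
    · simp
  · rintro (τ | τ)
    · exact h2 τ
    · exact Or.inl rfl
  · rw [h3, Fintype.sum_sum_type, ← sum_add_distrib]
    refine sum_congr rfl fun τ _ => ?_
    have e : lin ((0 : V → ℝ), -√(a τ)) σ = √(a τ) := by simp [lin]
    rcases h1 τ with h | h
    · simp only [Sum.elim_inl, Sum.elim_inr, e]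
      simp [h, add_comm]
    · simp only [Sum.elim_inl, Sum.elim_inr, e, if_neg h.1.ne', Real.sq_sqrt h.1.le, List.map_cons,
        List.map_nil, List.prod_cons, List.prod_nil]
      ring

end Pool.Agent.Lib.MP_7836d5_lc.LP
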