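import Pool.Agent.Lib.MP_7836d5_lc.LP.Term

set_option autoImplicit false
set_option linter.unusedSectionVars false

/-! Large rectangles in the region where a term is large, and positivity for terms. -/

namespace Pool.Agent.Lib.MP_7836d5_lc.LP

open Finset

section
variable {X Y : Type} [DecidableEq X] [DecidableEq Y]

/-- Let `A2` be the rows `x ∈ A'` with `B.card ≤ 2 * L * (row count)`; double counting gives the
size of `A2`; `B2` is the row of the minimiser of `p` on `A2`. (If `A` or `B` is empty take empty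
sets on both sides or treat it first.) -/
lemma tri_rect {A A' : Finset X} {B B' : Finset Y} (hA : A' ⊆ A) (hB : B' ⊆ B) (hA0 : A.Nonempty)
    (hB0 : B.Nonempty) (p : X → ℝ) (q : Y → ℝ) (hq : ∀ y, 0 ≤ q y) {θ : ℝ} {L : ℕ}
    (h : A.card * B.card ≤ L * ∑ x ∈ A', (B'.filter fun y => θ ≤ p x * q y).card) :
    ∃ A2 ⊆ A', ∃ B2 ⊆ B', A.card ≤ 2 * L * A2.card ∧ B.card ≤ 2 * L * B2.card ∧
      ∀ x ∈ A2, ∀ y ∈ B2, θ ≤ p x * q y := by
  classical
  set r : X → ℕ := fun x => (B'.filter fun y => θ ≤ p x * q y).card with hr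
  set A2 := A'.filter fun x => B.card ≤ 2 * L * r x with hA2
  have h1 : ∑ x ∈ A2, r x ≤ A2.card * B.card :=
    sum_le_card_nsmul _ _ _ fun x _ => card_le_card ((filter_subset _ _).trans hB)
  have h2 : 2 * L * ∑ x ∈ A'.filter (fun x => ¬ B.card ≤ 2 * L * r x), r x ≤ A.card * B.card := by
    rw [mul_sum]
    refine (sum_le_card_nsmul _ _ B.card fun x hx => (not_le.1 (mem_filter.1 hx).2).le).trans ?_
    exact Nat.mul_le_mul_right _ (card_le_card ((filter_subset _ _).trans hA))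
  have h3 := sum_filter_add_sum_filter_not A' (fun x => B.card ≤ 2 * L * r x) r
  have h4 : A.card ≤ 2 * L * A2.card := by
    refine Nat.le_of_mul_le_mul_right ?_ hB0.card_pos
    have h5 := Nat.mul_le_mul_left (2 * L) h1
    rw [← h3, ← hA2] at h
    nlinarith
  have h5 : A2.Nonempty := by
    rw [← card_pos]
    have := hA0.card_pos
    by_contra e
    rw [Nat.eq_zero_of_not_pos e, mul_zero] at h4
    omega
  obtain ⟨x0, hx0, hmin⟩ := exists_min_image A2 p h5
  exact ⟨A2, filter_subset _ _, B'.filter fun y => θ ≤ p x0 * q y, filter_subset _ _, h4,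
    (mem_filter.1 hx0).2, fun x hx y hy =>
      (mem_filter.1 hy).2.trans (mul_le_mul_of_nonneg_right (hmin x hx) (hq y))⟩

lemma sub_card_left (A : Finset X) (B : Finset Y) (P : X → Y → Prop) [∀ x y, Decidable (P x y)] :
    ((A ×ˢ B).filter fun z => P z.1 z.2).card = ∑ x ∈ A, (B.filter fun y => P x y).card := by
  simp only [card_filter, sum_product]

lemma sub_card_right (A : Finset X) (B : Finset Y) (P : X → Y → Prop) [∀ x y, Decidable (P x y)] :
    ((A ×ˢ B).filter fun z => P z.1 z.2).card = ∑ y ∈ B, (A.filter fun x => P x y).card := by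
  simp only [card_filter, sum_product_right]

lemma sub_pigeon {T : Type} [Fintype T] {n m c : ℕ} (f : T → ℕ) (hT : Fintype.card T ≤ n)
    (hm : 0 < m) (h : m ≤ c * ∑ i, f i) : ∃ i, m ≤ n * c * f i := by
  have hne : (univ : Finset T).Nonempty := by
    by_contra e
    rw [not_nonempty_iff_eq_empty.1 e, sum_empty, mul_zero] at h
    omega
  obtain ⟨i, -, hi⟩ := exists_le_of_sum_le (f := fun _ => m) (g := fun i => n * c * f i) hne (by
    rw [sum_const, card_univ, smul_eq_mul, ← mul_sum, mul_assoc]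
    exact Nat.mul_le_mul hT h)
  exact ⟨i, hi⟩

/-- Use the cells for `J = 4 σ`. At least half of the large cells are covered; some rectangle `i`
of at most `8 σ + 1` and some term `k` of at most four carry a `1 / (4 (8 σ + 1))` share of them
with `θ / 4 ≤ u x * a k x * (v y * b k y)`; apply `tri_rect` with `L = 72 σ ^ 2`. The other terms
give `W`. -/
lemma sub_rect {V : X → Y → ℝ} (hV : Term V) (u : X → ℝ) (v : Y → ℝ) (hu : ∀ x, 0 < u x)
    (hv : ∀ y, 0 < v y) {A : Finset X} {B : Finset Y} (hA0 : A.Nonempty) (hB0 : B.Nonempty)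
    {θ : ℝ} (hθ : 0 < θ) {σ : ℕ}
    (h : ∀ x ∈ A, B.card ≤ σ * (B.filter fun y => θ ≤ u x * v y * V x y).card) :
    ∃ A2 ⊆ A, ∃ B2 ⊆ B, ∃ (p : X → ℝ) (q : Y → ℝ) (W : X → Y → ℝ),
      A.card ≤ 144 * σ ^ 2 * A2.card ∧ B.card ≤ 144 * σ ^ 2 * B2.card ∧ (∀ x, 0 ≤ p x) ∧
      (∀ y, 0 ≤ q y) ∧ NR A2 B2 3 W ∧
      ∀ x ∈ A2, ∀ y ∈ B2, V x y = p x * q y + W x y ∧ θ / 4 ≤ u x * p x * (v y * q y) := by
  classical
  have hAB : 0 < A.card * B.card := Nat.mul_pos hA0.card_pos hB0.card_pos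
  have h1 : A.card * B.card ≤
      σ * ((A ×ˢ B).filter fun z => θ ≤ u z.1 * v z.2 * V z.1 z.2).card := by
    rw [sub_card_left A B fun x y => θ ≤ u x * v y * V x y, mul_sum, ← smul_eq_mul, ← sum_const]
    exact sum_le_sum h
  have hσ : 0 < σ := Nat.pos_of_ne_zero fun e => by
    rw [e, zero_mul] at h1
    omega
  obtain ⟨T, _, a, b, hT, hab, -, hun⟩ := hV.cell A B (4 * σ) (by omega)
  have h2 : ((A ×ˢ B).filter fun z => ¬ ∃ i, z.1 ∈ a i ∧ z.2 ∈ b i).card ≤
      B.card * (2 * (A.card / (4 * σ))) := by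
    rw [sub_card_right A B fun x y => ¬ ∃ i, x ∈ a i ∧ y ∈ b i]
    exact sum_le_card_nsmul _ _ _ fun y hy => by convert hun y hy
  have h3 : ((A ×ˢ B).filter fun z => θ ≤ u z.1 * v z.2 * V z.1 z.2).card ≤
      ((A ×ˢ B).filter fun z => ¬ ∃ i, z.1 ∈ a i ∧ z.2 ∈ b i).card +
        ∑ i, ((a i ×ˢ b i).filter fun z => θ ≤ u z.1 * v z.2 * V z.1 z.2).card := by
    refine le_trans (card_le_card fun z hz => ?_)
      ((card_union_le _ _).trans (Nat.add_le_add_left card_biUnion_le _))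
    rw [mem_union, mem_biUnion]
    by_cases e : ∃ i, z.1 ∈ a i ∧ z.2 ∈ b i
    · obtain ⟨i, hi⟩ := e
      exact Or.inr ⟨i, mem_univ _, mem_filter.2 ⟨mem_product.2 hi, (mem_filter.1 hz).2⟩⟩
    · exact Or.inl (mem_filter.2 ⟨(mem_filter.1 hz).1, e⟩)
  have h4 : A.card * B.card ≤
      2 * σ * ∑ i, ((a i ×ˢ b i).filter fun z => θ ≤ u z.1 * v z.2 * V z.1 z.2).card := by
    have h5 := Nat.mul_le_mul_left B.card (Nat.div_mul_le_self A.card (4 * σ))
    have h6 := Nat.mul_le_mul_left σ (h3.trans (Nat.add_le_add_right h2 _))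
    nlinarith
  obtain ⟨i, hi⟩ := sub_pigeon (n := 9 * σ) _ (by omega) hAB h4
  obtain ⟨ha, hb, K, _, α, β, hK, hα, hβ, hs⟩ := hab i
  have h5 : ((a i ×ˢ b i).filter fun z => θ ≤ u z.1 * v z.2 * V z.1 z.2).card ≤
      ∑ k, ((a i ×ˢ b i).filter fun z => θ / 4 ≤ u z.1 * α k z.1 * (v z.2 * β k z.2)).card := by
    refine le_trans (card_le_card fun z hz => ?_) card_biUnion_le
    obtain ⟨hz1, hz2⟩ := mem_filter.1 hz
    have e := hs _ (mem_product.1 hz1).1 _ (mem_product.1 hz1).2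
    have hne : (univ : Finset K).Nonempty := by
      by_contra e'
      rw [not_nonempty_iff_eq_empty.1 e', sum_empty] at e
      exact (hV.pos _ _).ne' e
    obtain ⟨k, -, hk⟩ := exists_le_of_sum_le (f := fun _ => θ / 4)
      (g := fun k => u z.1 * α k z.1 * (v z.2 * β k z.2)) hne (by
        have e1 : (Fintype.card K : ℝ) ≤ 4 := by exact_mod_cast hK
        have e2 : ∑ k, u z.1 * α k z.1 * (v z.2 * β k z.2) = u z.1 * v z.2 * V z.1 z.2 := by
          rw [e, mul_sum]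
          exact sum_congr rfl fun k _ => by ring
        rw [sum_const, card_univ, nsmul_eq_mul, e2]
        nlinarith)
    exact mem_biUnion.2 ⟨k, mem_univ _, mem_filter.2 ⟨hz1, hk⟩⟩
  obtain ⟨k, hk⟩ := sub_pigeon _ hK hAB (hi.trans (Nat.mul_le_mul_left _ h5))
  rw [sub_card_left (a i) (b i) fun x y => θ / 4 ≤ u x * α k x * (v y * β k y),
    show 4 * (9 * σ * (2 * σ)) = 72 * σ ^ 2 by ring] at hk
  obtain ⟨A2, hA2, B2, hB2, c1, c2, c3⟩ := tri_rect ha hb hA0 hB0 (fun x => u x * α k x)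
    (fun y => v y * β k y) (fun y => mul_nonneg (hv y).le (hβ k y)) hk
  rw [show 2 * (72 * σ ^ 2) = 144 * σ ^ 2 by ring] at c1 c2
  refine ⟨A2, hA2.trans ha, B2, hB2.trans hb, α k, β k,
    fun x y => ∑ j : {j // j ≠ k}, α j x * β j y, c1, c2, hα k, hβ k,
    ⟨{j // j ≠ k}, inferInstance, fun j => α j, fun j => β j, ?_, fun j => hα j, fun j => hβ j,
      fun _ _ _ _ => rfl⟩, fun x hx y hy => ⟨?_, c3 x hx y hy⟩⟩
  · have := Fintype.card_subtype_lt (p := fun j => j ≠ k) (x := k) (by simp)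
    omega
  · rw [hs x (hA2 hx) y (hB2 hy), Fintype.sum_eq_add_sum_subtype_ne _ k]

end

end Pool.Agent.Lib.MP_7836d5_lc.LP
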