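import Pool.Agent.Lib.MP_7836d5_lc.LP.Low

set_option autoImplicit false
set_option linter.unusedSectionVars false

namespace Pool.Agent.Lib.MP_7836d5_lc.LP

open Finset

variable {E FX FY : Type} [Fintype E] [DecidableEq E] [Fintype FX] [DecidableEq FX]
  [Fintype FY] [DecidableEq FY]

variable {D : PD E} {g : FX → FY → ZMod 2} {A : Finset (E → FX)} {B : Finset (E → FY)}
  {n : ℕ} {M : (E → FX) → (E → FY) → ℝ}

/-- If the vectors `G x` are orthogonal of squared norm `N`, and `w x ∈ V`, then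
`(∑ x, ⟨G x, w x⟩) ^ 2 ≤ finrank V * N * ∑ x, ‖w x‖ ^ 2`: take an orthonormal basis `e i` of `V`
in `EuclideanSpace ℝ Y`, expand `⟨G x, w x⟩ = ∑ i, ⟨G x, e i⟩ * ⟨e i, w x⟩`, use Cauchy-Schwarz
over `(x, i)`, Parseval in `V`, and Bessel's inequality `∑ x, ⟨G x, e i⟩ ^ 2 ≤ N`. -/
lemma trace_ineq {X Y : Type} [Fintype X] [DecidableEq X] [Fintype Y] (G w : X → Y → ℝ) {N : ℝ}
    (hN : 0 < N) (hG : ∀ x x', ∑ y, G x y * G x' y = if x = x' then N else 0)
    (V : Submodule ℝ (Y → ℝ)) (hw : ∀ x, w x ∈ V) :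
    (∑ x, ∑ y, G x y * w x y) ^ 2 ≤ Module.finrank ℝ V * N * ∑ x, ∑ y, w x y ^ 2 := by
  set L : (Y → ℝ) ≃ₗ[ℝ] EuclideanSpace ℝ Y := (WithLp.linearEquiv 2 ℝ (Y → ℝ)).symm with hL
  have hin : ∀ a b : Y → ℝ, inner ℝ (L a) (L b) = ∑ y, a y * b y := fun a b => by
    simp [hL, PiLp.inner_apply, mul_comm]
  set W := V.map L.toLinearMap with hW
  have hr : Module.finrank ℝ W = Module.finrank ℝ V := L.finrank_map_eq V
  set b := stdOrthonormalBasis ℝ W with hb
  set u : X → W := fun x => ⟨L (w x), Submodule.mem_map_of_mem (hw x)⟩ with hu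
  have h1 : ∀ x, ∑ y, G x y * w x y =
      ∑ i, inner ℝ (L (G x)) (b i : EuclideanSpace ℝ Y) * inner ℝ (b i) (u x) := fun x => by
    have := congrArg (fun z : W => inner ℝ (L (G x)) (z : EuclideanSpace ℝ Y)) (b.sum_repr' (u x))
    simp only [Submodule.coe_sum, Submodule.coe_smul, inner_sum, real_inner_smul_right] at this
    rw [← hin]
    exact this.symm.trans (sum_congr rfl fun i _ => mul_comm _ _)
  have h2 : ∀ x, ∑ i, inner ℝ (b i) (u x) ^ 2 = ∑ y, w x y ^ 2 := fun x => by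
    rw [b.sum_sq_inner_right, ← real_inner_self_eq_norm_sq]
    exact (hin _ _).trans (sum_congr rfl fun y _ => (sq _).symm)
  have hs : √N * √N = N := Real.mul_self_sqrt hN.le
  have hs0 : 0 < √N := Real.sqrt_pos.2 hN
  have ho : Orthonormal ℝ fun x => (√N)⁻¹ • L (G x) := by
    rw [orthonormal_iff_ite]
    intro x x'
    rw [real_inner_smul_left, real_inner_smul_right, hin, hG]
    split_ifs
    · field_simp; linarith
    · simp
  have h3 : ∀ i, ∑ x, inner ℝ (L (G x)) (b i : EuclideanSpace ℝ Y) ^ 2 ≤ N := fun i => by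
    have h4 := ho.sum_inner_products_le (s := univ) (b i : EuclideanSpace ℝ Y)
    have h5 : ‖(b i : EuclideanSpace ℝ Y)‖ = 1 := b.orthonormal.1 i
    simp only [real_inner_smul_left, Real.norm_eq_abs, sq_abs, mul_pow, ← mul_sum, h5, inv_pow,
      Real.sq_sqrt hN.le, one_pow] at h4
    rwa [inv_mul_le_iff₀ hN, mul_one] at h4
  have h4 := sum_mul_sq_le_sq_mul_sq (univ : Finset (X × Fin (Module.finrank ℝ W)))
    (fun z => inner ℝ (L (G z.1)) (b z.2 : EuclideanSpace ℝ Y)) fun z => inner ℝ (b z.2) (u z.1)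
  simp only [Fintype.sum_prod_type, h2, ← h1] at h4
  refine h4.trans (mul_le_mul_of_nonneg_right ?_ (by positivity))
  rw [sum_comm]
  refine (sum_le_sum fun i _ => h3 i).trans_eq ?_
  simp [hr]

lemma Trace_ch_sum {ι : Type} (s : Finset ι) (a : ι → ZMod 2) :
    ch (∑ e ∈ s, a e) = ∏ e ∈ s, ch (a e) := by
  induction s using Finset.cons_induction with
  | empty => simp [ch]
  | cons e s he ih => rw [sum_cons, prod_cons, ch_add, ih]

/-- `trace_ineq` with `G x y = ch (∑ e, zf g x y e)` (orthogonal by `hort` and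
`Fintype.prod_sum`-type factorisation), `V` mapped by the indicator of `B`, and `w x = 0` for
`x ∉ A`; use `ch_sq` and `abs_rho_le`. If `E → FY` is empty both sides vanish. -/
lemma Low.bound (hort : ∀ a a', a ≠ a' → ∑ c, ch (g a c + g a' c) = 0) (h : Low D g A B n M)
    {Θ ζ : ℝ} (hΘ : 0 ≤ Θ) (hM : ∀ x ∈ A, ∀ y ∈ B, |M x y| ≤ Θ) (hζ : 0 ≤ ζ)
    (hn : (n : ℝ) ≤ ζ ^ 2 * Fintype.card (E → FX)) :
    ∑ x ∈ A, ∑ y ∈ B, D.rho (zf g x y) * M x y ≤
      ζ * 2 ^ Fintype.card E * Θ * ((Fintype.card (E → FX) : ℝ) * Fintype.card (E → FY)) := by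
  obtain ⟨V, hV, hv⟩ := h
  rcases (Nat.cast_nonneg (α := ℝ) (Fintype.card (E → FY))).eq_or_lt with h0 | h0
  · have : IsEmpty (E → FY) := Fintype.card_eq_zero_iff.1 (Nat.cast_eq_zero.1 h0.symm)
    simp [eq_empty_of_isEmpty B]
  set G : (E → FX) → (E → FY) → ℝ := fun x y => ch (∑ e, zf g x y e) with hG
  have hGG : ∀ x y, G x y * G x y = 1 := fun x y => (sq _).symm.trans (ch_sq _)
  have ho : ∀ x x', ∑ y, G x y * G x' y =
      if x = x' then (Fintype.card (E → FY) : ℝ) else 0 := fun x x' => by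
    split_ifs with e
    · subst e; simp [hGG]
    obtain ⟨e, he⟩ := Function.ne_iff.1 e
    have h1 : ∀ y, G x y * G x' y = ∏ e, ch (g (x e) (y e) + g (x' e) (y e)) := fun y => by
      simp only [hG, Trace_ch_sum, ch_add, prod_mul_distrib, zf]
    simp only [h1]
    rw [← Fintype.prod_sum fun e c => ch (g (x e) c + g (x' e) c)]
    exact prod_eq_zero (mem_univ e) (hort _ _ he)
  set w : (E → FX) → (E → FY) → ℝ := fun x y =>
    if x ∈ A then if y ∈ B then G x y * D.rho (zf g x y) * M x y else 0 else 0 with hw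
  set P : ((E → FY) → ℝ) →ₗ[ℝ] (E → FY) → ℝ :=
    LinearMap.mulLeft ℝ fun y => if y ∈ B then 1 else 0 with hP
  have h1 := trace_ineq G w h0 ho (V.map P) fun x => by
    by_cases hx : x ∈ A
    · obtain ⟨v, hv1, hv2⟩ := hv x hx
      refine ⟨v, hv1, funext fun y => ?_⟩
      by_cases hy : y ∈ B
      · simp [hP, hw, hx, hy, hv2 y hy, hG]
      · simp [hP, hw, hy]
    · have : w x = 0 := funext fun y => by simp [hw, hx]
      rw [this]; exact zero_mem _
  have h2 : ∑ x, ∑ y, G x y * w x y = ∑ x ∈ A, ∑ y ∈ B, D.rho (zf g x y) * M x y := by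
    simp only [hw, mul_ite, mul_zero, ← mul_assoc, hGG, one_mul, sum_ite_irrel, sum_const_zero,
      sum_ite_mem, univ_inter]
  have h3 : ∀ x y, w x y ^ 2 ≤ (2 ^ Fintype.card E * Θ) ^ 2 := fun x y => by
    simp only [hw]
    split_ifs with hx hy
    · rw [mul_assoc, mul_pow, sq (G x y), hGG, one_mul, ← sq_abs, abs_mul]
      gcongr
      exacts [D.abs_rho_le _, hM x hx y hy]
    all_goals simp only [ne_eq, OfNat.ofNat_ne_zero, not_false_eq_true, zero_pow, sq_nonneg]
  have h4 : ∑ x, ∑ y, w x y ^ 2 ≤ Fintype.card (E → FX) *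
      (Fintype.card (E → FY) * (2 ^ Fintype.card E * Θ) ^ 2) :=
    (sum_le_sum fun x _ => sum_le_sum fun y _ => h3 x y).trans_eq (by
      simp only [sum_const, card_univ, nsmul_eq_mul])
  have h5 : (Module.finrank ℝ (V.map P) : ℝ) ≤ ζ ^ 2 * Fintype.card (E → FX) :=
    (Nat.cast_le.2 ((Submodule.finrank_map_le P V).trans hV)).trans hn
  rw [h2] at h1
  refine (le_abs_self _).trans (abs_le_of_sq_le_sq (h1.trans ?_) (by positivity))
  refine (mul_le_mul (mul_le_mul_of_nonneg_right h5 h0.le) h4 (by positivity)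
    (by positivity)).trans_eq (by ring)

end Pool.Agent.Lib.MP_7836d5_lc.LP
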